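import Pool.Agent.Mg.F3c2488p.G95771c
import Pool.Agent.MP_bcf1b9_lc.SDefs

section

namespace Pool.Agent.MP_bcf1b9_lc

open Function

theorem BM.comp {M N P : KM} {f : M.W → N.W} {g : N.W → P.W} (h : BM M N f) (h' : BM N P g) :
    BM M P fun x => g (f x) where
  val p x := (h'.val p _).trans (h.val p x)
  forth i x x' r := h'.forth i _ _ (h.forth i x x' r)
  back i x y r := by
    obtain ⟨u, r1, rfl⟩ := h'.back i _ y r
    obtain ⟨v, r2, rfl⟩ := h.back i x u r1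
    exact ⟨v, r2, rfl⟩

theorem BM.of_iff {M N : KM} {f : M.W → N.W} (hs : Surjective f)
    (hv : ∀ p x, N.V p (f x) ↔ M.V p x) (hr : ∀ i x y, M.R i x y ↔ N.R i (f x) (f y)) :
    BM M N f where
  val := hv
  forth i x y := (hr i x y).1
  back i x y r := by
    obtain ⟨u, rfl⟩ := hs y
    exact ⟨u, (hr i x u).2 r, rfl⟩

/-- there is a surjective bounded morphism -/
def Cov (M N : KM) : Prop := ∃ f, BM M N f ∧ Surjective f

theorem Cov.refl (M : KM) : Cov M M :=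
  ⟨fun x => x, .of_iff surjective_id (fun _ _ => Iff.rfl) fun _ _ _ => Iff.rfl, surjective_id⟩

theorem Cov.trans {M N P : KM} (h : Cov M N) (h' : Cov N P) : Cov M P :=
  let ⟨_, a, b⟩ := h
  let ⟨_, c, d⟩ := h'
  ⟨_, a.comp c, d.comp b⟩

/-- isomorphisms of action models, up to repeated events -/
structure AI (A B : AM) (σ : A.E → B.E) : Prop where
  pre : ∀ e, A.pre e = B.pre (σ e)
  rel : ∀ i e e', A.S i e e' ↔ B.S i (σ e) (σ e')
  sur : Surjective σ

theorem AI.refl (A : AM) : AI A A fun e => e := ⟨fun _ => rfl, fun _ _ _ => Iff.rfl, surjective_id⟩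

theorem Cov.upd {M N : KM} {A B : AM} {σ : A.E → B.E} (h : Cov M N) (a : AI A B σ) :
    Cov (upd M A) (upd N B) := by
  obtain ⟨f, h, hs⟩ := h
  have e : ∀ x ε, Sat N (B.pre (σ ε)) (f x) ↔ Sat M (A.pre ε) x := fun x ε => by
    rw [a.pre, Basic_sat h]
  refine ⟨fun x => ⟨(f x.1.1, σ x.1.2), (e _ _).2 x.2⟩, ⟨fun p x => h.val p _,
    fun i x y r => ⟨h.forth i _ _ r.1, (a.rel i _ _).1 r.2⟩, ?_⟩, ?_⟩
  · rintro i x ⟨⟨y, ε⟩, hy⟩ r
    obtain ⟨u, r1, rfl⟩ := h.back i _ y r.1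
    obtain ⟨δ, rfl⟩ := a.sur ε
    exact ⟨⟨(u, δ), (e _ _).1 hy⟩, ⟨r1, (a.rel i _ _).2 r.2⟩, rfl⟩
  · rintro ⟨⟨y, ε⟩, hy⟩
    obtain ⟨u, rfl⟩ := hs y
    obtain ⟨δ, rfl⟩ := a.sur ε
    exact ⟨⟨(u, δ), (e _ _).1 hy⟩, rfl⟩

theorem Cov.layer {M N : KM} {A B : AM} {σ : A.E → B.E} (h : Cov M N) (a : AI A B σ) :
    ∀ t, Cov (layer M A t) (layer N B t)
  | 0 => h
  | t + 1 => (Cov.layer h a t).upd a

def Fm.bot : Fm := .and (.atom 0) (.neg (.atom 0))

def Fm.imp (φ ψ : Fm) : Fm := .neg (.and φ (.neg ψ))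

def Fm.dia (i : ℕ) (φ : Fm) : Fm := .neg (.K i (.neg φ))

theorem sat_bot {M : KM} (x : M.W) : ¬ Sat M .bot x := fun h => h.2 h.1

theorem sat_imp {M : KM} (φ ψ : Fm) (x : M.W) :
    Sat M (φ.imp ψ) x ↔ (Sat M φ x → Sat M ψ x) := by
  simp [Fm.imp, Sat]

theorem sat_dia {M : KM} (i : ℕ) (φ : Fm) (x : M.W) :
    Sat M (.dia i φ) x ↔ ∃ y, M.R i x y ∧ Sat M φ y := by
  simp [Fm.dia, Sat]

/-- points and half edges -/
inductive EW (W : Type) (R : ℕ → W → W → Prop) : Type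
  | pt (w : W)
  | ed (i : ℕ) (u v : W) (h : R i u v) (b : Bool)

section
variable {W : Type} {R : ℕ → W → W → Prop}

def EW.anc : EW W R → W
  | .pt w => w
  | .ed _ u _ _ false => u
  | .ed _ _ v _ true => v

def EW.mate : EW W R → EW W R
  | .pt w => .pt w
  | .ed i u v h _ => .ed i u v h false

def EW.lab : EW W R → ℕ
  | .pt _ => 0
  | .ed i _ _ _ false => 2 * i + 1
  | .ed i _ _ _ true => 2 * i + 2

def ER (k i : ℕ) (x y : EW W R) : Prop :=
  i < k ∧ if i = 0 then x.anc = y.anc else if i = 1 then x.mate = y.mate else x = y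

theorem ER_equiv {k i : ℕ} (h : i < k) : Equivalence (ER (W := W) (R := R) k i) := by
  unfold ER
  split_ifs
  all_goals exact ⟨fun _ => ⟨h, rfl⟩, fun a => ⟨h, a.2.symm⟩, fun a b => ⟨h, a.2.trans b.2⟩⟩

theorem EW_finite [Finite W] {K : ℕ} (h : ∀ i u v, R i u v → i < K) : Finite (EW W R) := by
  refine Finite.of_injective (fun x : EW W R => match x with
    | .pt w => (Sum.inl w : W ⊕ Fin K × W × W × Bool)
    | .ed i u v r b => .inr (⟨i, h i u v r⟩, u, v, b)) ?_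
  rintro (w | ⟨i, u, v, r, b⟩) (w' | ⟨i', u', v', r', b'⟩) e <;> simp at e
  · rw [e]
  · obtain ⟨rfl, rfl, rfl, rfl⟩ := e
    rfl

end

def Enc (k : ℕ) (M : KM) : KM where
  W := EW M.W M.R
  R := ER k
  V p x := p = x.lab

def Fm.atp (φ : Fm) : Fm := .K 0 (.imp (.atom 0) φ)

def Fm.oth (n : ℕ) (φ : Fm) : Fm := .K 1 (.imp (.atom n) φ.atp)

def tr : Fm → Fm
  | .atom _ => .bot
  | .neg φ => .neg (tr φ)
  | .and φ ψ => .and (tr φ) (tr ψ)
  | .K i φ => .K 0 (.imp (.atom (2 * i + 1)) ((tr φ).oth (2 * i + 2)))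

def epre (A : AM) : EW A.E A.S → Fm
  | .pt e => .and (.atom 0) (tr (A.pre e))
  | .ed i e f h b => .and (.atom (EW.ed i e f h b : EW A.E A.S).lab)
      (.and ((tr (A.pre e)).oth (2 * i + 1)) ((tr (A.pre f)).oth (2 * i + 2)))

def EncA (k : ℕ) (A : AM) : AM where
  E := EW A.E A.S
  S := ER k
  pre := epre A

variable {k : ℕ} (hk : 2 ≤ k) {M : KM}
include hk

theorem uses_oth {φ : Fm} (h : Uses k φ) (n : ℕ) : Uses k (φ.oth n) :=
  ⟨by omega, trivial, by omega, trivial, h⟩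

theorem uses_tr : ∀ φ, Uses k (tr φ)
  | .atom _ => ⟨trivial, trivial⟩
  | .neg φ => uses_tr φ
  | .and φ ψ => ⟨uses_tr φ, uses_tr ψ⟩
  | .K _ φ => ⟨by omega, trivial, uses_oth hk (uses_tr φ) _⟩

theorem uses_epre (A : AM) : ∀ e, Uses k (epre A e)
  | .pt _ => ⟨trivial, uses_tr hk _⟩
  | .ed _ _ _ _ _ => ⟨trivial, uses_oth hk (uses_tr hk _) _, uses_oth hk (uses_tr hk _) _⟩

theorem sat_atp (φ : Fm) (x : EW M.W M.R) :
    Sat (Enc k M) φ.atp x ↔ Sat (Enc k M) φ (.pt x.anc) := by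
  constructor
  · intro h
    exact (sat_imp _ _ _).1 (h (.pt x.anc) ⟨by omega, rfl⟩) rfl
  · rintro h (w | ⟨i, u, v, r, b⟩) ⟨-, e⟩
    · obtain rfl : x.anc = w := e
      exact (sat_imp _ _ _).2 fun _ => h
    · refine (sat_imp _ _ _).2 fun a => ?_
      cases b <;> simp [Sat, Enc, EW.lab] at a

theorem sat_oth (φ : Fm) (i : ℕ) (u v : M.W) (r : M.R i u v) (b c : Bool) :
    Sat (Enc k M) (φ.oth (EW.ed i u v r c : EW M.W M.R).lab) (.ed i u v r b) ↔
      Sat (Enc k M) φ (.pt (EW.ed i u v r c : EW M.W M.R).anc) := by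
  rw [← sat_atp hk]
  constructor
  · intro h
    exact (sat_imp _ _ _).1 (h (.ed i u v r c) ⟨by omega, rfl⟩) rfl
  · rintro h (w | ⟨i', u', v', r', b'⟩) ⟨-, e⟩
    · simp [EW.mate] at e
    · simp [EW.mate] at e
      obtain ⟨rfl, rfl, rfl⟩ := e
      refine (sat_imp _ _ _).2 fun a => ?_
      obtain rfl : c = b' := by
        cases c <;> cases b' <;> simp [Sat, Enc, EW.lab] at a ⊢
      exact h

theorem sat_tr (hV : ∀ p w, ¬ M.V p w) (φ : Fm) (w : M.W) :
    Sat (Enc k M) (tr φ) (.pt w) ↔ Sat M φ w := by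
  induction φ generalizing w with
  | atom p => exact iff_of_false (sat_bot _) (hV p w)
  | neg φ ih => exact not_congr (ih w)
  | and φ ψ ih ih' => exact and_congr (ih w) (ih' w)
  | K i φ ih =>
    constructor
    · intro h v r
      have h1 := (sat_imp _ _ _).1 (h (.ed i w v r false) ⟨by omega, rfl⟩) rfl
      exact (ih v).1 ((sat_oth hk _ i w v r false true).1 h1)
    · rintro h (w' | ⟨j, u, v, r, b⟩) ⟨-, e⟩ <;> refine (sat_imp _ _ _).2 fun a => ?_
      · simp [Sat, Enc, EW.lab] at a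
      · cases b
        · obtain rfl : i = j := by simpa [Sat, Enc, EW.lab] using a
          obtain rfl : w = u := e
          exact (sat_oth hk _ i w v r false true).2 ((ih v).2 (h v r))
        · simp only [Sat, Enc, EW.lab] at a
          omega

theorem enc_upd (hV : ∀ p w, ¬ M.V p w) (A : AM) :
    Cov (Enc k (upd M A)) (upd (Enc k M) (EncA k A)) := by
  have e1 : ∀ w e, Sat (Enc k M) (epre A (.pt e)) (.pt w) ↔ Sat M (A.pre e) w := fun w e =>
    ⟨fun h => (sat_tr hk hV _ w).1 h.2, fun h => ⟨rfl, (sat_tr hk hV _ w).2 h⟩⟩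
  have e2 : ∀ i u v r e f s b, Sat (Enc k M) (epre A (.ed i e f s b)) (.ed i u v r b) ↔
      Sat M (A.pre e) u ∧ Sat M (A.pre f) v := fun i u v r e f s b => by
    rw [← sat_tr hk hV, ← sat_tr hk hV]
    refine Iff.trans (and_iff_right ?_) (and_congr (sat_oth hk _ i u v r b false)
      (sat_oth hk _ i u v r b true))
    cases b <;> rfl
  let h : (Enc k (upd M A)).W → (upd (Enc k M) (EncA k A)).W := fun x => match x with
    | .pt w => ⟨(.pt w.1.1, .pt w.1.2), (e1 _ _).2 w.2⟩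
    | .ed i u v r b => ⟨(.ed i u.1.1 v.1.1 r.1 b, .ed i u.1.2 v.1.2 r.2 b),
        (e2 _ _ _ _ _ _ _ _).2 ⟨u.2, v.2⟩⟩
  have hs : Surjective h := by
    rintro ⟨⟨w | ⟨i, u, v, r, b⟩, e | ⟨j, e, f, s, c⟩⟩, hx⟩
    · exact ⟨.pt ⟨(w, e), (e1 _ _).1 hx⟩, rfl⟩
    · have a := hx.1
      cases c <;> simp [Sat, Enc, EW.lab] at a
    · have a := hx.1
      cases b <;> simp [Sat, Enc, EW.lab] at a
    · obtain ⟨rfl, rfl⟩ : i = j ∧ b = c := by
        have a := hx.1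
        cases b <;> cases c <;> simp only [Sat, Enc, EW.lab] at a <;> simp <;> omega
      obtain ⟨h1, h2⟩ := (e2 _ _ _ _ _ _ _ _).1 hx
      exact ⟨.ed i ⟨(u, e), h1⟩ ⟨(v, f), h2⟩ ⟨r, s⟩ b, rfl⟩
  have a1 : ∀ x, (h x).1.1.anc = x.anc.1.1 ∧ (h x).1.2.anc = x.anc.1.2 := by
    rintro (w | ⟨i, u, v, r, _ | _⟩) <;> exact ⟨rfl, rfl⟩
  have a2 : ∀ x, (h x).1.1.mate = (h x.mate).1.1 ∧ (h x).1.2.mate = (h x.mate).1.2 := by
    rintro (w | ⟨i, u, v, r, _⟩) <;> exact ⟨rfl, rfl⟩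
  have a3 : ∀ x y, x = y ↔ (h x).1.1 = (h y).1.1 ∧ (h x).1.2 = (h y).1.2 := by
    refine fun x y => ⟨fun e => e ▸ ⟨rfl, rfl⟩, ?_⟩
    rcases x with ⟨⟨w, e⟩, _⟩ | ⟨i, ⟨⟨u, e⟩, _⟩, ⟨⟨v, f⟩, _⟩, r, b⟩ <;>
      rcases y with ⟨⟨w', e'⟩, _⟩ | ⟨i', ⟨⟨u', e'⟩, _⟩, ⟨⟨v', f'⟩, _⟩, r', b'⟩ <;>
      rintro ⟨⟨⟩, ⟨⟩⟩ <;> rfl
  refine ⟨h, .of_iff hs ?_ fun i x y => ?_, hs⟩
  · rintro p (w | ⟨i, u, v, r, _ | _⟩) <;> exact Iff.rfl
  · change ER k i x y ↔ ER k i _ _ ∧ ER k i _ _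
    unfold ER
    split_ifs
    · rw [(a1 x).1, (a1 x).2, (a1 y).1, (a1 y).2]
      exact ⟨fun c => ⟨⟨c.1, by rw [c.2]⟩, c.1, by rw [c.2]⟩,
        fun c => ⟨c.1.1, Subtype.ext (Prod.ext c.1.2 c.2.2)⟩⟩
    · rw [(a2 x).1, (a2 x).2, (a2 y).1, (a2 y).2]
      have := a3 x.mate y.mate
      exact ⟨fun c => ⟨⟨c.1, (this.1 c.2).1⟩, c.1, (this.1 c.2).2⟩,
        fun c => ⟨c.1.1, this.2 ⟨c.1.2, c.2.2⟩⟩⟩
    · have := a3 x y
      exact ⟨fun c => ⟨⟨c.1, (this.1 c.2).1⟩, c.1, (this.1 c.2).2⟩,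
        fun c => ⟨c.1.1, this.2 ⟨c.1.2, c.2.2⟩⟩⟩

omit hk in
theorem layer_noV (hV : ∀ p w, ¬ M.V p w) (A : AM) : ∀ t p w, ¬ (layer M A t).V p w
  | 0 => hV
  | t + 1 => fun p w => layer_noV hV A t p w.1.1

theorem enc_layer (hV : ∀ p w, ¬ M.V p w) (A : AM) :
    ∀ t, Cov (Enc k (layer M A t)) (layer (Enc k M) (EncA k A) t)
  | 0 => Cov.refl _
  | t + 1 => (enc_upd hk (layer_noV hV A t) A).trans ((enc_layer hV A t).upd (AI.refl _))

/-- transfer of finiteness to the encodings -/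
theorem enc_fin (hV : ∀ p w, ¬ M.V p w) {A : AM} {M' : KM} {A' : AM} [Finite M'.W] [Finite A'.E]
    {σ : A'.E → (EncA k A).E} (h : Cov M' (Enc k M)) (a : AI A' (EncA k A) σ) {t : ℕ}
    (ht : IsEmpty (layer M A (t + 1)).W) : FinBis (tree M' A') := by
  refine (finBis_tree_iff _ _).2 ⟨t, fun u => ?_⟩
  obtain ⟨f, -, -⟩ := h.layer a (t + 1)
  obtain ⟨g, -, hg⟩ := enc_layer hk hV A (t + 1)
  obtain ⟨x, -⟩ := hg (f u)
  exact ht.elim x.anc

theorem enc_inf (hV : ∀ p w, ¬ M.V p w) {A : AM} {M' : KM} {A' : AM}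
    {σ : A'.E → (EncA k A).E} (h : Cov M' (Enc k M)) (a : AI A' (EncA k A) σ)
    (x : ∀ t, (layer M A t).W) (φ : ℕ → Fm) (h1 : ∀ t, Sat _ (φ t) (x t))
    (h2 : ∀ s t, s < t → ¬ Sat _ (φ s) (x t)) : ¬ FinBis (tree M' A') := by
  have key : ∀ t, ∃ y : (layer M' A' t).W, ∀ ψ, Sat _ (tr ψ) y ↔ Sat _ ψ (x t) := by
    intro t
    obtain ⟨f, hf, hf'⟩ := h.layer a t
    obtain ⟨g, hg, -⟩ := enc_layer hk hV A t
    obtain ⟨y, hy⟩ := hf' (g (.pt (x t)))
    exact ⟨y, fun ψ => by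
      rw [← Basic_sat hf, hy]
      exact (Basic_sat hg _ _).trans (sat_tr hk (layer_noV hV A t) _ _)⟩
  choose y hy using key
  exact not_finBis _ (fun t => ⟨t, y t⟩) fun s t hst b =>
    h2 s t hst ((hy t _).1 ((Basic_pre b _).1 ((hy s _).2 (h1 s))))

end Pool.Agent.MP_bcf1b9_lc

end

section

namespace Pool.Agent.MP_bcf1b9_lc

open Function
open Pool.Agent.MP_3c2488_lc (Prog Cfg pstep PS PR PHalts PS_unique exists_search conts headOK
  self_mem_conts conts_closed conts_headOK)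

/-- machines with finitely many markers that move to the right -/
structure MM (Q J : Type) where
  hlt : Q → Prop
  t1 : Q → J
  t2 : Q → J
  nx : Q → Bool → Q
  mv : Q → Bool → J → Bool

variable {Q J : Type}

def MM.z (m : MM Q J) (s : Q × (J → ℕ)) : Bool := decide (s.2 (m.t1 s.1) = s.2 (m.t2 s.1))

def MM.step (m : MM Q J) (s : Q × (J → ℕ)) : Q × (J → ℕ) :=
  (m.nx s.1 (m.z s), fun j => s.2 j + if m.mv s.1 (m.z s) j then 1 else 0)

def MM.run (m : MM Q J) (s : Q × (J → ℕ)) : ℕ → Q × (J → ℕ)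
  | 0 => s
  | t + 1 => m.step (m.run s t)

theorem MM.run_succ' (m : MM Q J) (s : Q × (J → ℕ)) (t : ℕ) :
    m.run s (t + 1) = m.run (m.step s) t := by
  induction t with
  | zero => rfl
  | succ t ih => rw [MM.run, ih]; rfl

def smReg : List Prog → ℕ
  | .inc i :: _ => i
  | .dec i :: _ => i
  | .loop i _ :: _ => i
  | _ => 0

def smNx : List Prog → Bool → List Prog
  | [], _ => []
  | .inc _ :: K, _ => K
  | .dec _ :: K, _ => K
  | .seq p q :: K, _ => p :: q :: K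
  | .loop i p :: K, false => p :: .loop i p :: K
  | .loop _ _ :: K, true => K

def smMv : List Prog → Bool → Option ℕ → Bool
  | .inc i :: _, _, j => decide (j = some i)
  | .dec i :: _, z, j => !z && decide (j ≠ some i)
  | _, _, _ => false

def smM (L : List (List Prog)) (m : ℕ) : MM {K // K ∈ L} (Option (Fin (m + 1))) where
  hlt K := K.1 = []
  t1 K := some (Fin.ofNat _ (smReg K.1))
  t2 _ := none
  nx K z := if h : smNx K.1 z ∈ L then ⟨_, h⟩ else K
  mv K z j := smMv K.1 z (j.map Fin.val)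

def smSim {L : List (List Prog)} {m : ℕ} (s : {K // K ∈ L} × (Option (Fin (m + 1)) → ℕ))
    (c : Cfg) : Prop := s.1.1 = c.1 ∧ ∀ i : Fin (m + 1), s.2 (some i) = s.2 none + c.2 i

theorem sm_step {L : List (List Prog)} {m : ℕ} (hL : ∀ K ∈ L, headOK (m + 1) K)
    (hcl : ∀ c d : Cfg, c.1 ∈ L → pstep c = some d → d.1 ∈ L)
    {s : {K // K ∈ L} × (Option (Fin (m + 1)) → ℕ)} {c d : Cfg} (h : smSim s c)
    (hd : pstep c = some d) : smSim ((smM L m).step s) d := by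
  obtain ⟨⟨K, hK⟩, x⟩ := s
  obtain ⟨K', y⟩ := c
  obtain ⟨h1, h2⟩ := h
  simp only at h1 h2
  subst h1
  have h3 := hcl _ _ hK hd
  have h4 := hL K hK
  have hz : ∀ i, i < m + 1 → smReg K = i →
      (smM L m).z (⟨K, hK⟩, x) = decide (y i = 0) := by
    intro i hi e
    have e1 : Fin.ofNat (m + 1) i = ⟨i, hi⟩ := Fin.ext (Nat.mod_eq_of_lt hi)
    simp only [MM.z, smM, e, e1, h2]
    simp
  have hn : smNx K ((smM L m).z (⟨K, hK⟩, x)) = d.1 →
      ((smM L m).step (⟨K, hK⟩, x)).1.1 = d.1 := by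
    intro e
    have e' : smNx K ((smM L m).z (⟨K, hK⟩, x)) ∈ L := e ▸ h3
    exact (congrArg Subtype.val (dif_pos e')).trans e
  rcases K with _ | ⟨i | i | ⟨p, q⟩ | ⟨i, p⟩, K⟩
  · simp [pstep] at hd
  · obtain rfl := Option.some.inj hd
    refine ⟨hn rfl, fun j => ?_⟩
    simp only [MM.step, smM, smMv, Option.map_some, Option.map_none, h2, update_apply]
    by_cases e : j.1 = i <;> simp [e]
    omega
  · obtain rfl := Option.some.inj hd
    refine ⟨hn rfl, fun j => ?_⟩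
    have h5 := hz i h4 rfl
    simp only [MM.step, h5, h2]
    simp only [smM, smMv, update_apply, Option.map_some, Option.map_none]
    by_cases e : j.1 = i <;> by_cases e' : y i = 0 <;> simp [e, e'] <;> omega
  · obtain rfl := Option.some.inj hd
    exact ⟨hn rfl, fun j => by simp [MM.step, smM, smMv, h2]⟩
  · have h5 := hz i h4 rfl
    simp only [pstep] at hd
    split_ifs at hd with e
    · obtain rfl := Option.some.inj hd
      exact ⟨hn (by rw [h5, decide_eq_true e]; rfl), fun j => by simp [MM.step, smM, smMv, h2]⟩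
    · obtain rfl := Option.some.inj hd
      exact ⟨hn (by rw [h5, decide_eq_false e]; rfl), fun j => by simp [MM.step, smM, smMv, h2]⟩

theorem sm_some (c : Cfg) (h : c.1 ≠ []) : ∃ d, pstep c = some d := by
  obtain ⟨K, y⟩ := c
  rcases K with _ | ⟨i | i | ⟨p, q⟩ | ⟨i, p⟩, K⟩
  · exact (h rfl).elim
  · exact ⟨_, rfl⟩
  · exact ⟨_, rfl⟩
  · exact ⟨_, rfl⟩
  · simp only [pstep]
    split_ifs
    exacts [⟨_, rfl⟩, ⟨_, rfl⟩]

theorem exists_mm {P : ℕ → Prop} (hP : REPred P) :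
    ∃ (Q J : Type) (_ : Finite Q) (_ : Finite J) (_ : DecidableEq J) (m : MM Q J) (q : Q) (j : J),
      ∀ n, P n ↔ ∃ t, m.hlt (m.run (q, fun a => if a = j then n + 1 else 0) t).1 := by
  obtain ⟨p, hp⟩ := mc_prog hP
  let L : List (List Prog) := [] :: conts p []
  let m := p.bound
  have hL : ∀ K ∈ L, headOK (m + 1) K := by
    intro K hK
    rcases List.mem_cons.1 hK with rfl | hK
    · trivial
    · exact conts_headOK (m + 1) p (Nat.le_succ _) _ _ hK
  have hcl : ∀ c d : Cfg, c.1 ∈ L → pstep c = some d → d.1 ∈ L := by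
    rintro ⟨K, x⟩ d hK hd
    rcases List.mem_cons.1 hK with hK | hK
    · simp only at hK
      subst hK
      simp [pstep] at hd
    · rcases conts_closed p _ _ hK x d hd with h | h
      · exact List.mem_cons_of_mem _ h
      · exact h ▸ List.mem_cons_self
  have hp0 : [p] ∈ L := List.mem_cons_of_mem _ (self_mem_conts p [])
  have : Finite {K : List Prog // K ∈ L} := (List.finite_toSet L).to_subtype
  refine ⟨_, _, this, inferInstance, inferInstance, smM L m, ⟨[p], hp0⟩, some 0, fun n => ?_⟩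
  have key : ∀ (c : Cfg) s, smSim (L := L) (m := m) s c →
      (PHalts c ↔ ∃ t, (smM L m).hlt ((smM L m).run s t).1) := by
    intro c s h
    constructor
    · rintro ⟨z, hz⟩
      induction hz using Relation.ReflTransGen.head_induction_on generalizing s with
      | refl => exact ⟨0, h.1⟩
      | head h1 _ ih =>
        obtain ⟨t, ht⟩ := ih _ (sm_step hL hcl h h1)
        exact ⟨t + 1, by rwa [MM.run_succ']⟩
    · rintro ⟨t, ht⟩
      induction t generalizing s c with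
      | zero =>
        obtain ⟨K, y⟩ := c
        obtain rfl : [] = K := ht.symm.trans h.1
        exact ⟨y, .refl⟩
      | succ t ih =>
        by_cases e : c.1 = []
        · obtain ⟨K, y⟩ := c
          obtain rfl : K = [] := e
          exact ⟨y, .refl⟩
        · obtain ⟨d, hd⟩ := sm_some c e
          rw [MM.run_succ'] at ht
          exact (mc_halts_iff hd).2 (ih d _ (sm_step hL hcl h hd) ht)
  rw [hp n]
  refine key _ _ ⟨rfl, fun i => ?_⟩
  by_cases e : i = 0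
  · simp [e]
  · have e' : i.1 ≠ 0 := fun h => e (Fin.ext h)
    simp [e, e']

end Pool.Agent.MP_bcf1b9_lc

end

section

namespace Pool.Agent.MP_bcf1b9_lc

open Function

variable {Q J : Type}

/-- control state, markers and the last cell -/
abbrev Ft (Q J : Type) : Type := Q ⊕ J ⊕ Unit

def feat (L : ℕ) (s : Q × (J → ℕ)) (x : ℕ) : Ft Q J → Prop
  | .inl q => q = s.1
  | .inr (.inl j) => s.2 j = x
  | .inr (.inr _) => x = L

/-- the model of a configuration: cells and their flags -/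
abbrev conf (ι : Ft Q J → ℕ) (L : ℕ) (s : Q × (J → ℕ)) : KM where
  W := Fin (L + 1) × Bool
  R i x y := x.2 = false ∧
    ((i = 0 ∧ y.2 = false ∧ (x.1.1 = y.1.1 + 1 ∨ (x.1.1 = L ∧ y.1.1 = L))) ∨
      (i = 1 ∧ y.2 = false) ∨
      ∃ φ, i = ι φ + 2 ∧ x.1.1 = y.1.1 ∧ (y.2 = false ∨ feat L s x.1.1 φ))
  V _ _ := False

/-- events: state, test, kind of cell (old, second last, last), markers, flag -/
abbrev Ev (Q J : Type) : Type := Q × Bool × Option Bool × (J → Bool) × Bool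

def efeat (m : MM Q J) (e : Ev Q J) : Ft Q J → Prop
  | .inl q => q = m.nx e.1 e.2.1
  | .inr (.inl j) => e.2.2.2.1 j = true
  | .inr (.inr _) => e.2.2.1 = none

def kd : Option Bool → Option Bool → Prop
  | some _, some false => True
  | none, some true => True
  | none, none => True
  | _, _ => False

def has (ι : Ft Q J → ℕ) (φ : Ft Q J) : Fm := .dia (ι φ + 2) (.K 1 .bot)

def Fm.sg (b : Bool) (φ : Fm) : Fm := if b then φ else .neg φ

def bigAnd : List Fm → Fm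
  | [] => .neg .bot
  | φ :: l => .and φ (bigAnd l)

theorem sat_sg {M : KM} (b : Bool) (φ : Fm) (x : M.W) :
    Sat M (.sg b φ) x ↔ (b = true ↔ Sat M φ x) := by
  cases b <;> simp [Fm.sg, Sat]

theorem sat_bigAnd {M : KM} (l : List Fm) (x : M.W) :
    Sat M (bigAnd l) x ↔ ∀ φ ∈ l, Sat M φ x := by
  induction l with
  | nil => simpa [bigAnd, Sat] using sat_bot x
  | cons φ l ih => simp [bigAnd, Sat, ih]

def mark (ι : Ft Q J → ℕ) (m : MM Q J) (e : Ev Q J) (j : J) : Fm :=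
  if e.2.2.1 = none then .bot
  else if m.mv e.1 e.2.1 j then .dia 0 (has ι (.inr (.inl j))) else has ι (.inr (.inl j))

open Classical in
noncomputable def apre [Fintype J] (ι : Ft Q J → ℕ) (m : MM Q J) (e : Ev Q J) : Fm :=
  if m.hlt e.1 then .bot else
  .and (has ι (.inl e.1)) (.and
    (.sg e.2.1 (.dia 1 (.and (has ι (.inr (.inl (m.t1 e.1)))) (has ι (.inr (.inl (m.t2 e.1)))))))
    (.and (.sg (decide (e.2.2.1 ≠ some false)) (has ι (.inr (.inr ()))))
      (bigAnd (Finset.univ.toList.map fun j => .sg (e.2.2.2.1 j) (mark ι m e j)))))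

/-- the action model of the machine -/
noncomputable def act [Fintype J] (ι : Ft Q J → ℕ) (m : MM Q J) : AM where
  E := Ev Q J
  S i e e' := e.2.2.2.2 = false ∧
    ((i = 0 ∧ e'.2.2.2.2 = false ∧ kd e.2.2.1 e'.2.2.1) ∨ (i = 1 ∧ e'.2.2.2.2 = false) ∨
      ∃ φ, i = ι φ + 2 ∧ e.2.2.1 = e'.2.2.1 ∧ (e'.2.2.2.2 = false ∨ efeat m e φ))
  pre := apre ι m

variable {ι : Ft Q J → ℕ} (hι : Injective ι) {L : ℕ} {s : Q × (J → ℕ)}

theorem sat_flag (x : Fin (L + 1) × Bool) : Sat (conf ι L s) (.K 1 .bot) x ↔ x.2 = true := by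
  constructor
  · intro h
    by_contra e
    have e' : x.2 = false := by simpa using e
    exact sat_bot _ (h x ⟨e', .inr (.inl ⟨rfl, e'⟩)⟩)
  · intro h y r
    have := r.1
    simp [h] at this

theorem conf_R0 (x y : Fin (L + 1) × Bool) : (conf ι L s).R 0 x y ↔ x.2 = false ∧ y.2 = false ∧
    (x.1.1 = y.1.1 + 1 ∨ (x.1.1 = L ∧ y.1.1 = L)) := by
  simp [conf]

theorem conf_R1 (x y : Fin (L + 1) × Bool) :
    (conf ι L s).R 1 x y ↔ x.2 = false ∧ y.2 = false := by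
  simp only [conf]
  refine and_congr_right fun _ => ⟨?_, fun h => .inr (.inl ⟨trivial, h⟩)⟩
  rintro (⟨h, -⟩ | ⟨-, h⟩ | ⟨φ, h, -⟩)
  · omega
  · exact h
  · omega

include hι

theorem sat_has (φ : Ft Q J) (x : Fin (L + 1) × Bool) :
    Sat (conf ι L s) (has ι φ) x ↔ x.2 = false ∧ feat L s x.1.1 φ := by
  rw [has, sat_dia]
  constructor
  · rintro ⟨y, ⟨h1, h2⟩, h3⟩
    rw [sat_flag] at h3
    refine ⟨h1, ?_⟩
    rcases h2 with ⟨h, -⟩ | ⟨h, -⟩ | ⟨ψ, h, -, h4⟩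
    · omega
    · omega
    · obtain rfl : φ = ψ := hι (by omega)
      simpa [h3] using h4
  · rintro ⟨h1, h2⟩
    exact ⟨(x.1, true), ⟨h1, .inr (.inr ⟨φ, rfl, rfl, .inr h2⟩)⟩, (sat_flag _).2 rfl⟩

theorem sat_apre [Fintype J] (m : MM Q J) (hs : ∀ j, s.2 j < L) (e : Ev Q J)
    (x : Fin (L + 1) × Bool) : Sat (conf ι L s) (apre ι m e) x ↔
      ¬ m.hlt s.1 ∧ x.2 = false ∧ e.1 = s.1 ∧ e.2.1 = m.z s ∧
        (e.2.2.1 ≠ some false ↔ x.1.1 = L) ∧
        ∀ j, e.2.2.2.1 j = true ↔ e.2.2.1 ≠ none ∧ (m.step s).2 j = x.1.1 := by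
  have h1 : x.2 = false → (Sat (conf ι L s) (.dia 1 (.and (has ι (.inr (.inl (m.t1 s.1))))
      (has ι (.inr (.inl (m.t2 s.1)))))) x ↔ m.z s = true) := by
    intro hx
    rw [sat_dia, MM.z, decide_eq_true_iff]
    constructor
    · rintro ⟨y, -, a, b⟩
      exact ((sat_has hι _ _).1 a).2.trans ((sat_has hι _ _).1 b).2.symm
    · intro a
      exact ⟨(⟨s.2 (m.t1 s.1), (hs _).trans L.lt_succ_self⟩, false), (conf_R1 _ _).2 ⟨hx, rfl⟩,
        (sat_has hι _ _).2 ⟨rfl, rfl⟩, (sat_has hι _ _).2 ⟨rfl, a.symm⟩⟩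
  have h2 : x.2 = false → e.1 = s.1 → e.2.1 = m.z s → ∀ j, (Sat (conf ι L s) (mark ι m e j) x ↔
      e.2.2.1 ≠ none ∧ (m.step s).2 j = x.1.1) := by
    intro hx a b j
    unfold mark
    rw [a, b]
    by_cases c : e.2.2.1 = none
    · rw [if_pos c]
      exact iff_of_false (sat_bot _) fun h => h.1 c
    rw [if_neg c]
    simp only [MM.step]
    split_ifs with d
    · rw [sat_dia, and_iff_right c]
      constructor
      · rintro ⟨y, r, h⟩
        have h3 : s.2 j = y.1.1 := ((sat_has hι _ _).1 h).2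
        have h4 := ((conf_R0 _ _).1 r).2.2
        have := hs j
        omega
      · intro h
        exact ⟨(⟨s.2 j, (hs _).trans L.lt_succ_self⟩, false),
          (conf_R0 _ _).2 ⟨hx, rfl, .inl h.symm⟩, (sat_has hι _ _).2 ⟨rfl, rfl⟩⟩
    · rw [sat_has hι, and_iff_right c, and_iff_right hx]
      rfl
  unfold apre
  split_ifs with hh
  · exact iff_of_false (sat_bot _) fun h => h.1 (h.2.2.1 ▸ hh)
  simp only [Sat, sat_sg, sat_bigAnd, sat_has hι, List.mem_map, Finset.mem_toList,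
    Finset.mem_univ, true_and, forall_exists_index, forall_apply_eq_imp_iff, decide_eq_true_iff,
    feat]
  constructor
  · rintro ⟨⟨a, b⟩, c, d, f⟩
    rw [b, h1 a] at c
    have c' : e.2.1 = m.z s := Bool.eq_iff_iff.2 c
    exact ⟨b ▸ hh, a, b, c', d.trans (and_iff_right a), fun j => (f j).trans (h2 a b c' j)⟩
  · rintro ⟨-, a, b, c, d, f⟩
    refine ⟨⟨a, b⟩, ?_, d.trans (and_iff_right a).symm, fun j => (f j).trans (h2 a b c j).symm⟩
    rw [b, h1 a, c]

theorem conf_step [Fintype J] (m : MM Q J) (hs : ∀ j, s.2 j < L) (hh : ¬ m.hlt s.1) :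
    Cov (upd (conf ι L s) (act ι m)) (conf ι (L + 1) (m.step s)) := by
  have hs' : ∀ j, (m.step s).2 j < L + 1 := fun j => by
    have := hs j
    simp only [MM.step]
    split_ifs <;> omega
  let g : (upd (conf ι L s) (act ι m)).W → (conf ι (L + 1) (m.step s)).W := fun x =>
    (if x.1.2.2.2.1 = none then Fin.last _ else x.1.1.1.castSucc, x.1.2.2.2.2.2)
  have sur : Surjective g := by
    rintro ⟨y, b⟩
    have hy := y.2
    by_cases h1 : y.1 = L + 1
    · refine ⟨⟨((Fin.last L, false), (s.1, m.z s, none, fun _ => false, b)),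
        (sat_apre hι m hs _ _).2 ⟨hh, rfl, rfl, rfl, by simp, by simp⟩⟩, ?_⟩
      exact Prod.ext (Fin.ext (by simp [g, h1])) rfl
    · refine ⟨⟨((⟨y.1, by omega⟩, false), (s.1, m.z s, some (decide (y.1 = L)),
        fun j => decide ((m.step s).2 j = y.1), b)),
        (sat_apre hι m hs _ _).2 ⟨hh, rfl, rfl, rfl, by simp, by simp⟩⟩, ?_⟩
      exact Prod.ext (Fin.ext (by simp [g])) rfl
  refine ⟨g, .of_iff sur (fun _ _ => Iff.rfl) ?_, sur⟩
  rintro i ⟨⟨⟨x, xb⟩, q, z, k, μ, b⟩, hx⟩ ⟨⟨⟨y, yb⟩, q', z', k', μ', b'⟩, hy⟩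
  obtain ⟨-, x1, x2, x3, x4, x5⟩ := (sat_apre hι m hs _ _).1 hx
  obtain ⟨-, y1, -, -, y4, -⟩ := (sat_apre hι m hs _ _).1 hy
  simp only at x1 x2 x3 x4 x5 y1 y4
  subst x1 x2 x3 y1
  have hx' := x.2
  have hy' := y.2
  have f : ∀ φ, efeat m (s.1, m.z s, k, μ, b) φ ↔
      feat (L + 1) (m.step s) (if k = none then Fin.last _ else x.castSucc : Fin (L + 2)).1 φ := by
    rintro (q | j | u)
    · exact Iff.rfl
    · have := hs' j
      simp only [efeat, feat, x5]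
      split_ifs with c <;> simp [c]
      omega
    · simp only [efeat, feat]
      split_ifs with c <;> simp [c]
      omega
  have p0 : (x.1 = y.1 + 1 ∨ (x.1 = L ∧ y.1 = L)) ∧ kd k k' ↔
      ((if k = none then Fin.last _ else x.castSucc : Fin (L + 2)).1 =
        (if k' = none then Fin.last _ else y.castSucc : Fin (L + 2)).1 + 1 ∨
      ((if k = none then Fin.last _ else x.castSucc : Fin (L + 2)).1 = L + 1 ∧
        (if k' = none then Fin.last _ else y.castSucc : Fin (L + 2)).1 = L + 1)) := by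
    rcases k with _ | _ | _ <;> rcases k' with _ | _ | _ <;> simp [kd] at x4 y4 ⊢ <;> omega
  have p2 : x.1 = y.1 ∧ k = k' ↔ (if k = none then Fin.last _ else x.castSucc : Fin (L + 2)).1 =
      (if k' = none then Fin.last _ else y.castSucc : Fin (L + 2)).1 := by
    rcases k with _ | _ | _ <;> rcases k' with _ | _ | _ <;> simp at x4 y4 ⊢ <;> omega
  simp only [upd, conf, act, g, true_and, true_or, and_true]
  constructor
  · rintro ⟨h1, hb, h2⟩
    refine ⟨hb, ?_⟩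
    rcases h1 with ⟨rfl, h1⟩ | rfl | ⟨φ, rfl, h1⟩ <;>
      rcases h2 with ⟨c, d, h2⟩ | ⟨c, d⟩ | ⟨ψ, c, d, h2⟩ <;> try omega
    · exact .inl ⟨rfl, d, p0.1 ⟨h1, h2⟩⟩
    · exact .inr (.inl ⟨rfl, d⟩)
    · exact .inr (.inr ⟨ψ, c, p2.1 ⟨h1, d⟩, h2.imp_right (f ψ).1⟩)
  · rintro ⟨hb, ⟨c, d, h⟩ | ⟨c, d⟩ | ⟨φ, c, d, h⟩⟩
    · exact ⟨.inl ⟨c, (p0.2 h).1⟩, hb, .inl ⟨c, d, (p0.2 h).2⟩⟩
    · exact ⟨.inr (.inl c), hb, .inr (.inl ⟨c, d⟩)⟩
    · exact ⟨.inr (.inr ⟨φ, c, (p2.2 d).1⟩), hb,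
        .inr (.inr ⟨φ, c, (p2.2 d).2, h.imp_right (f φ).2⟩)⟩

omit hι in
theorem run_lt (m : MM Q J) (hs : ∀ j, s.2 j < L) : ∀ t j, (m.run s t).2 j < L + t
  | 0, j => hs j
  | t + 1, j => by
    have := run_lt m hs t j
    simp only [MM.run, MM.step]
    split_ifs <;> omega

theorem conf_layer [Fintype J] (m : MM Q J) (hs : ∀ j, s.2 j < L) {M : KM}
    (h : Cov M (conf ι L s)) (t : ℕ) (ht : ∀ r < t, ¬ m.hlt (m.run s r).1) :
    Cov (layer M (act ι m) t) (conf ι (L + t) (m.run s t)) := by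
  induction t with
  | zero => exact h
  | succ t ih =>
    exact ((ih fun r hr => ht r (by omega)).upd (AI.refl _)).trans
      (conf_step hι m (run_lt m hs t) (ht t t.lt_succ_self))

theorem conf_halt [Fintype J] (m : MM Q J) (hs : ∀ j, s.2 j < L) {M : KM}
    (h : Cov M (conf ι L s)) (hh : ∃ t, m.hlt (m.run s t).1) :
    ∃ t, IsEmpty (layer M (act ι m) (t + 1)).W := by
  classical
  obtain ⟨f, hf, -⟩ := conf_layer hι m hs h (Nat.find hh) fun r hr => Nat.find_min hh hr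
  exact ⟨Nat.find hh, ⟨fun x => ((sat_apre hι m (run_lt m hs _) _ _).1
    ((Basic_sat hf _ _).2 x.2)).1 (Nat.find_spec hh)⟩⟩

def dist : ℕ → Fm
  | 0 => .K 0 .bot
  | n + 1 => .dia 0 (dist n)

omit hι in
theorem sat_dist (hL : 0 < L) (n : ℕ) (x : Fin (L + 1)) :
    (Sat (conf ι L s) (dist n) (x, false) → x.1 ≤ n) ∧
      (x.1 = n → Sat (conf ι L s) (dist n) (x, false)) := by
  induction n generalizing x with
  | zero =>
    refine ⟨fun h => ?_, fun h y r => ?_⟩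
    · by_contra c
      exact sat_bot _ (h (⟨x.1 - 1, by omega⟩, false)
        ((conf_R0 _ _).2 ⟨rfl, rfl, .inl (by simp only; omega)⟩))
    · have := ((conf_R0 _ _).1 r).2.2
      simp only at this
      omega
  | succ n ih =>
    rw [dist, sat_dia]
    refine ⟨?_, fun h => ⟨(⟨n, by omega⟩, false), (conf_R0 _ _).2 ⟨rfl, rfl, .inl h⟩,
      (ih _).2 rfl⟩⟩
    rintro ⟨⟨y, b⟩, r, h⟩
    obtain ⟨-, rfl, h1⟩ := (conf_R0 _ _).1 r
    have := (ih y).1 h
    simp only at h1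
    omega

theorem conf_run [Fintype J] (m : MM Q J) (hs : ∀ j, s.2 j < L) (hL : 0 < L) {M : KM}
    (h : Cov M (conf ι L s)) (hh : ¬ ∃ t, m.hlt (m.run s t).1) :
    ∃ x : ∀ t, (layer M (act ι m) t).W, (∀ t, Sat _ (dist (L + t)) (x t)) ∧
      ∀ r t, r < t → ¬ Sat _ (dist (L + r)) (x t) := by
  have key : ∀ t, ∃ x : (layer M (act ι m) t).W, ∀ φ, Sat _ φ x ↔
      Sat (conf ι (L + t) (m.run s t)) φ (Fin.last _, false) := by
    intro t
    obtain ⟨f, hf, hf'⟩ := conf_layer hι m hs h t fun r _ c => hh ⟨r, c⟩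
    obtain ⟨x, hx⟩ := hf' (Fin.last _, false)
    exact ⟨x, fun φ => by rw [← Basic_sat hf, hx]⟩
  choose x hx using key
  refine ⟨x, fun t => (hx t _).2 ((sat_dist (by omega) _ _).2 rfl), fun r t hr c => ?_⟩
  have := (sat_dist (by omega) _ _).1 ((hx t _).1 c)
  simp only [Fin.val_last] at this
  omega

end Pool.Agent.MP_bcf1b9_lc

end

section

namespace Pool.Agent.MP_bcf1b9_lc

open Function Pool.Agent.MP_9a65c4_lc

def trip (K N : ℕ) : List (ℕ × ℕ × ℕ) :=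
  (List.range K).flatMap fun i => (List.range N).flatMap fun x => (List.range N).map fun y =>
    (i, x, y)

theorem mem_trip {K N : ℕ} {t : ℕ × ℕ × ℕ} : t ∈ trip K N ↔ t.1 < K ∧ t.2.1 < N ∧ t.2.2 < N := by
  obtain ⟨i, x, y⟩ := t
  simp [trip]

theorem pr_trip (K : ℕ) : Primrec (trip K) := by
  unfold trip
  refine Primrec.list_flatMap (by fun_prop) ?_
  refine Primrec.list_flatMap (f := fun p : ℕ × ℕ => List.range p.1)
    (g := fun p x => (List.range p.1).map fun y => (p.2, x, y)) (by fun_prop) ?_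
  unfold Primrec₂
  fun_prop

theorem act_code {k : ℕ} (B : AM) [Finite B.E] (h : ∀ i e f, B.S i e f → i < k) :
    ∃ l s σ, AI (toAM l s) B σ ∧ (∀ t ∈ s, t.1 < k) ∧ ∀ φ ∈ l, ∃ e, φ = B.pre e := by
  classical
  obtain ⟨N, ⟨d⟩⟩ := Finite.exists_equiv_fin B.E
  let l : List Fm := List.ofFn fun x : Fin N => B.pre (d.symm x)
  have hl : l.length = N := by simp [l]
  let σ : Fin l.length → B.E := fun x => d.symm (x.cast hl)
  refine ⟨l, (trip k N).filter fun t => decide (∃ x y : Fin l.length, t.2.1 = x.1 ∧ t.2.2 = y.1 ∧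
    B.S t.1 (σ x) (σ y)), σ, ⟨fun e => ?_, fun i e e' => ?_, fun e => ?_⟩, fun t ht => ?_,
    fun φ hφ => ?_⟩
  · simp [toAM, l, σ]
    rfl
  · simp only [toAM, List.mem_filter, mem_trip, decide_eq_true_iff]
    constructor
    · rintro ⟨-, x, y, a, b, c⟩
      rwa [Fin.ext a, Fin.ext b]
    · exact fun c => ⟨⟨h _ _ _ c, hl ▸ e.2, hl ▸ e'.2⟩, e, e', rfl, rfl, c⟩
  · exact ⟨(d e).cast hl.symm, by simp [σ]⟩
  · exact (mem_trip.1 (List.mem_filter.1 ht).1).1
  · obtain ⟨x, rfl⟩ := (List.mem_ofFn' _ _).1 hφ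
    exact ⟨_, rfl⟩

/-- the listed edge that belongs to the half edge number `x` -/
def cEd (c : MC) (x : ℕ) : ℕ × ℕ × ℕ := c.2.1.getD ((x - c.1) / 2) (0, 0, 0)

def cKey (c : MC) (i x : ℕ) : ℕ :=
  if i = 0 then
    (if x < c.1 then x else if (x - c.1) % 2 = 0 then (cEd c x).2.1 else (cEd c x).2.2)
  else if i = 1 then (if x < c.1 then x else c.1 + (x - c.1) / 2) else x

def cLab (c : MC) (x : ℕ) : ℕ :=
  if x < c.1 then 0 else (cEd c x).1 + (cEd c x).1 + 1 + (x - c.1) % 2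

def encC (k : ℕ) (c : MC) : MC :=
  (c.1 + (c.2.1.length + c.2.1.length),
    (trip k (c.1 + (c.2.1.length + c.2.1.length))).filter
      (fun t => decide (cKey c t.1 t.2.1 = cKey c t.1 t.2.2)),
    (List.range (c.1 + (c.2.1.length + c.2.1.length))).map fun x => (cLab c x, x))

theorem pr_cEd : Primrec fun p : MC × ℕ => cEd p.1 p.2 := by
  unfold cEd
  fun_prop

theorem pr_cKey : Primrec fun p : MC × ℕ × ℕ => cKey p.1 p.2.1 p.2.2 := by
  unfold cKey
  have h : Primrec fun p : MC × ℕ × ℕ => cEd p.1 p.2.2 :=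
    pr_cEd.comp (f := fun p : MC × ℕ => cEd p.1 p.2) (g := fun p : MC × ℕ × ℕ => (p.1, p.2.2))
      (by fun_prop)
  refine Primrec.ite (pp_eq (by fun_prop) (by fun_prop))
    (Primrec.ite (pp_lt (by fun_prop) (by fun_prop)) (by fun_prop)
      (Primrec.ite (pp_eq (by fun_prop) (by fun_prop)) (pr_fst (pr_snd h)) (pr_snd (pr_snd h))))
    (Primrec.ite (pp_eq (by fun_prop) (by fun_prop))
      (Primrec.ite (pp_lt (by fun_prop) (by fun_prop)) (by fun_prop) (by fun_prop)) (by fun_prop))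

theorem pr_cLab : Primrec fun p : MC × ℕ => cLab p.1 p.2 := by
  unfold cLab
  exact Primrec.ite (pp_lt (by fun_prop) (by fun_prop)) (by fun_prop)
    (pr_add (pr_add (pr_add (pr_fst pr_cEd) (pr_fst pr_cEd)) (by fun_prop)) (by fun_prop))

theorem pr_encC (k : ℕ) : Primrec (encC k) := by
  unfold encC
  refine pr_pair (by fun_prop) (pr_pair ?_ ?_)
  · refine pr_filter (R := fun (c : MC) (t : ℕ × ℕ × ℕ) => cKey c t.1 t.2.1 = cKey c t.1 t.2.2)
      ((pr_trip k).comp (by fun_prop)) (pp_eq ?_ ?_)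
    · exact pr_cKey.comp (f := fun p : MC × ℕ × ℕ => cKey p.1 p.2.1 p.2.2)
        (g := fun p : MC × ℕ × ℕ × ℕ => (p.1, p.2.1, p.2.2.1)) (by fun_prop)
    · exact pr_cKey.comp (f := fun p : MC × ℕ × ℕ => cKey p.1 p.2.1 p.2.2)
        (g := fun p : MC × ℕ × ℕ × ℕ => (p.1, p.2.1, p.2.2.2)) (by fun_prop)
  · exact pr_map (by fun_prop) (pr_pair pr_cLab (by fun_prop))

theorem encC_R (k : ℕ) (c : MC) (i : ℕ) (x y : Fin (encC k c).1) :
    (i, x.1, y.1) ∈ (encC k c).2.1 ↔ i < k ∧ cKey c i x.1 = cKey c i y.1 := by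
  have hx := x.2
  have hy := y.2
  simp only [encC] at hx hy
  simp [encC, mem_trip, hx, hy]

theorem encC_s5 (k : ℕ) (c : MC) : IsS5 k (encC k c).1 (encC k c).2.1 := by
  refine ⟨fun t ht => (mem_trip.1 (List.mem_filter.1 ht).1).1, fun i hi => ?_⟩
  simp only [encC_R]
  exact ⟨fun _ => ⟨hi, rfl⟩, fun a => ⟨hi, a.2.symm⟩, fun a b => ⟨hi, a.2.trans b.2⟩⟩

theorem encC_cov (k : ℕ) (c : MC) (hc : ∀ t ∈ c.2.1, t.2.1 < c.1 ∧ t.2.2 < c.1) :
    Cov (toKM (encC k c)) (Enc k (toKM c)) := by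
  have hm : ∀ x : Fin (encC k c).1, ¬ x.1 < c.1 → cEd c x.1 ∈ c.2.1 := by
    intro x h
    have hx := x.2
    simp only [encC] at hx
    rw [cEd, List.getD_eq_getElem _ _ (by omega)]
    exact List.getElem_mem _
  let F : Fin (encC k c).1 → EW (toKM c).W (toKM c).R := fun x =>
    if h : x.1 < c.1 then .pt ⟨x.1, h⟩ else
      .ed (cEd c x.1).1 ⟨(cEd c x.1).2.1, (hc _ (hm x h)).1⟩ ⟨(cEd c x.1).2.2, (hc _ (hm x h)).2⟩
        (hm x h) (decide ((x.1 - c.1) % 2 = 1))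
  have F1 : ∀ x (h : x.1 < c.1), F x = .pt ⟨x.1, h⟩ := fun x h => dif_pos h
  have F2 : ∀ x, ¬ x.1 < c.1 → ∀ i (u v : Fin c.1) r b, cEd c x.1 = (i, u.1, v.1) →
      (b = true ↔ (x.1 - c.1) % 2 = 1) → F x = .ed i u v r b := by
    intro x h i u v r b e e'
    have e1 : decide ((x.1 - c.1) % 2 = 1) = b := by
      rw [Bool.eq_iff_iff, decide_eq_true_iff, e']
    simp only [F, dif_neg h, e1]
    congr 1
    · rw [e]
    · exact Fin.ext (by simp only [e])
    · exact Fin.ext (by simp only [e])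
  have F3 : ∀ x, ¬ x.1 < c.1 → ∃ i, ∃ u v : Fin c.1, ∃ r b, cEd c x.1 = (i, u.1, v.1) ∧
      (b = true ↔ (x.1 - c.1) % 2 = 1) ∧ F x = .ed i u v r b := fun x h =>
    ⟨_, _, _, _, _, rfl, decide_eq_true_iff, dif_neg h⟩
  have mk : ∀ j, j < c.2.1.length → ∀ b : Bool, ∃ y : Fin (encC k c).1, ¬ y.1 < c.1 ∧
      (y.1 - c.1) / 2 = j ∧ (b = true ↔ (y.1 - c.1) % 2 = 1) := by
    intro j hj b
    cases b
    · exact ⟨⟨c.1 + 2 * j, by simp only [encC]; omega⟩, by simp, by simp, by simp⟩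
    · refine ⟨⟨c.1 + (2 * j + 1), by simp only [encC]; omega⟩, by simp, ?_, ?_⟩ <;> simp
      omega
  have sur : Surjective F := by
    rintro (w | ⟨i, u, v, r, b⟩)
    · exact ⟨⟨w.1, by have := w.2; simp only [encC]; omega⟩, F1 _ w.2⟩
    · obtain ⟨j, hj, e⟩ := List.getElem_of_mem (show (i, u.1, v.1) ∈ c.2.1 from r)
      obtain ⟨y, h1, h2, h3⟩ := mk j hj b
      exact ⟨y, F2 y h1 i u v r b (by rw [cEd, h2, List.getD_eq_getElem _ _ hj, e]) h3⟩
  have anc : ∀ x, (F x).anc.1 = cKey c 0 x.1 := by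
    intro x
    by_cases h : x.1 < c.1
    · rw [F1 x h, cKey, if_pos rfl, if_pos h]
      rfl
    · obtain ⟨i, u, v, r, b, e1, e2, e3⟩ := F3 x h
      rw [e3, cKey, if_pos rfl, if_neg h, e1]
      cases b
      · rw [if_pos (by simp at e2; omega)]
        rfl
      · rw [if_neg (by simp at e2; omega)]
        rfl
  refine ⟨F, ⟨fun p x => ?_, fun i x y r => ?_, fun i x y r => ?_⟩, sur⟩
  · have hx := x.2
    simp only [encC] at hx
    have e : (F x).lab = cLab c x.1 := by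
      by_cases h : x.1 < c.1
      · rw [F1 x h, cLab, if_pos h]
        rfl
      · obtain ⟨i, u, v, r, b, e1, e2, e3⟩ := F3 x h
        rw [e3, cLab, if_neg h, e1]
        cases b <;> simp only [EW.lab] <;> simp at e2 <;> omega
    change p = (F x).lab ↔ (p, x.1) ∈ (encC k c).2.2
    simp [encC, e, hx, eq_comm]
  · obtain ⟨hi, e⟩ := (encC_R k c i x y).1 r
    refine ⟨hi, ?_⟩
    split_ifs with h0 h1
    · subst h0
      exact Fin.ext ((anc x).trans (e.trans (anc y).symm))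
    · subst h1
      simp only [cKey, one_ne_zero, if_false, if_true] at e
      by_cases hx : x.1 < c.1 <;> by_cases hy : y.1 < c.1 <;> simp only [hx, hy, if_true,
        if_false] at e
      · rw [Fin.ext e]
      · omega
      · omega
      · obtain ⟨i, u, v, r, b, e1, e2, e3⟩ := F3 x hx
        have e4 : cEd c y.1 = (i, u.1, v.1) := by
          rw [← e1, cEd, cEd, show (y.1 - c.1) / 2 = (x.1 - c.1) / 2 by omega]
        rw [e3, F2 y hy i u v r _ e4 decide_eq_true_iff]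
        rfl
    · simp only [cKey, h0, h1, if_false] at e
      rw [Fin.ext e]
  · obtain ⟨hi, e⟩ := r
    split_ifs at e with h0 h1
    · subst h0
      obtain ⟨z, rfl⟩ := sur y
      exact ⟨z, (encC_R k c 0 x z).2 ⟨hi, (anc x).symm.trans ((congrArg Fin.val e).trans (anc z))⟩, rfl⟩
    · subst h1
      by_cases hx : x.1 < c.1
      · refine ⟨x, (encC_R k c 1 x x).2 ⟨hi, rfl⟩, ?_⟩
        rw [F1 x hx] at e ⊢
        rcases y with w | ⟨i, u, v, r, b⟩
        · exact e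
        · cases e
      · obtain ⟨i, u, v, r, b, e1, e2, e3⟩ := F3 x hx
        rw [e3] at e
        rcases y with w | ⟨i', u', v', r', b'⟩
        · cases e
        · cases e
          have hx' := x.2
          simp only [encC] at hx'
          obtain ⟨z, h1, h2, h3⟩ := mk ((x.1 - c.1) / 2) (by omega) b'
          refine ⟨z, (encC_R k c 1 x z).2 ⟨hi, ?_⟩,
            F2 z h1 _ _ _ _ _ (by rw [← e1, cEd, cEd, h2]) h3⟩
          simp only [cKey, one_ne_zero, if_false, if_true, hx, h1, h2]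
    · exact ⟨x, (encC_R k c i x x).2 ⟨hi, rfl⟩, e⟩

/-- the edges of the first configuration -/
def iniR (l₁ l₂ : List ℕ) (a b c n : ℕ) (t : ℕ × ℕ × ℕ) : Prop :=
  t.2.1 % 2 = 0 ∧
    ((t.1 = 0 ∧ t.2.2 % 2 = 0 ∧
      (t.2.1 / 2 = t.2.2 / 2 + 1 ∨ (t.2.1 / 2 = n + 2 ∧ t.2.2 / 2 = n + 2))) ∨
    (t.1 = 1 ∧ t.2.2 % 2 = 0) ∨
    (t.1 ∈ l₁ ∧ t.2.1 / 2 = t.2.2 / 2 ∧ (t.2.2 % 2 = 0 ∨ t.1 = a ∨
      (t.1 = b ∧ t.2.1 / 2 = n + 1) ∨ (t.1 ∈ l₂ ∧ t.2.1 / 2 = 0) ∨
      (t.1 = c ∧ t.2.1 / 2 = n + 2))))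

theorem pp_iniR (l₁ l₂ : List ℕ) (a b c : ℕ) :
    PrimrecPred fun p : ℕ × ℕ × ℕ × ℕ => iniR l₁ l₂ a b c p.1 p.2 := by
  unfold iniR
  refine (pp_eq (by fun_prop) (by fun_prop)).and (PrimrecPred.or ?_ (PrimrecPred.or ?_ ?_))
  · exact (pp_eq (by fun_prop) (by fun_prop)).and ((pp_eq (by fun_prop) (by fun_prop)).and
      ((pp_eq (by fun_prop) (by fun_prop)).or
        ((pp_eq (by fun_prop) (by fun_prop)).and (pp_eq (by fun_prop) (by fun_prop)))))
  · exact (pp_eq (by fun_prop) (by fun_prop)).and (pp_eq (by fun_prop) (by fun_prop))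
  · refine (pp_mem (by fun_prop) (by fun_prop)).and ((pp_eq (by fun_prop) (by fun_prop)).and
      ((pp_eq (by fun_prop) (by fun_prop)).or ((pp_eq (by fun_prop) (by fun_prop)).or
        (PrimrecPred.or ?_ (PrimrecPred.or ?_ ?_)))))
    · exact (pp_eq (by fun_prop) (by fun_prop)).and (pp_eq (by fun_prop) (by fun_prop))
    · exact (pp_mem (by fun_prop) (by fun_prop)).and (pp_eq (by fun_prop) (by fun_prop))
    · exact (pp_eq (by fun_prop) (by fun_prop)).and (pp_eq (by fun_prop) (by fun_prop))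

theorem ini_code {Q J : Type} [Finite Q] [Finite J] [DecidableEq J] {ι : Ft Q J → ℕ}
    (hι : Injective ι) (q : Q) (j : J) : ∃ f : ℕ → MC, Primrec f ∧ ∀ n,
      (∀ t ∈ (f n).2.1, t.2.1 < (f n).1 ∧ t.2.2 < (f n).1) ∧ (f n).2.2 = [] ∧
      Cov (toKM (f n)) (conf ι (n + 2) (q, fun a => if a = j then n + 1 else 0)) := by
  classical
  have := Fintype.ofFinite Q
  have := Fintype.ofFinite J
  obtain ⟨K, hK⟩ := (Set.finite_range ι).bddAbove
  let l₁ : List ℕ := Finset.univ.toList.map fun φ => ι φ + 2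
  let l₂ : List ℕ := (Finset.univ.filter fun a => a ≠ j).toList.map fun a => ι (.inr (.inl a)) + 2
  let R := iniR l₁ l₂ (ι (.inl q) + 2) (ι (.inr (.inl j)) + 2) (ι (.inr (.inr ())) + 2)
  refine ⟨fun n => (n + 3 + (n + 3), (trip (K + 3) (n + 3 + (n + 3))).filter
    (fun t => decide (R n t)), []), ?_, fun n => ⟨fun t ht => ?_, rfl, ?_⟩⟩
  · exact pr_pair (by fun_prop) (pr_pair (pr_filter ((pr_trip _).comp (by fun_prop))
      (pp_iniR _ _ _ _ _)) (by fun_prop))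
  · exact (mem_trip.1 (List.mem_filter.1 ht).1).2
  let g : Fin (n + 3 + (n + 3)) → Fin (n + 2 + 1) × Bool := fun x =>
    (⟨x.1 / 2, by omega⟩, decide (x.1 % 2 = 1))
  have sur : Surjective g := by
    rintro ⟨y, _ | _⟩
    · exact ⟨⟨2 * y.1, by omega⟩, Prod.ext (Fin.ext (by simp [g])) (by simp [g])⟩
    · exact ⟨⟨2 * y.1 + 1, by omega⟩, Prod.ext (Fin.ext (by simp only [g]; omega)) (by simp [g])⟩
  refine ⟨g, .of_iff sur (fun p x => by simp [toKM]) fun i x y => ?_, sur⟩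
  have ft : ∀ φ, feat (n + 2) (q, fun a => if a = j then n + 1 else 0) (x.1 / 2) φ ↔
      (ι φ + 2 = ι (.inl q) + 2 ∨ (ι φ + 2 = ι (.inr (.inl j)) + 2 ∧ x.1 / 2 = n + 1) ∨
        (ι φ + 2 ∈ l₂ ∧ x.1 / 2 = 0) ∨
        (ι φ + 2 = ι (.inr (.inr ())) + 2 ∧ x.1 / 2 = n + 2)) := by
    simp only [l₂, List.mem_map, Finset.mem_toList, Finset.mem_filter, Finset.mem_univ, true_and,
      Nat.add_right_cancel_iff, hι.eq_iff]
    rintro (q' | a | u)
    · simp [feat]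
    · by_cases e : a = j
      · simp [feat, e, eq_comm]
      · simp [feat, e, @eq_comm _ 0]
    · simp [feat]
  have d : ∀ z : ℕ, decide (z % 2 = 1) = false ↔ z % 2 = 0 := fun z => by simp
  simp only [toKM, List.mem_filter, mem_trip, decide_eq_true_iff, R, iniR, g, d, l₁, List.mem_map,
    Finset.mem_toList, Finset.mem_univ, true_and]
  constructor
  · rintro ⟨-, h0, h | h | ⟨⟨φ, rfl⟩, h1, h2⟩⟩
    · exact ⟨h0, .inl h⟩
    · exact ⟨h0, .inr (.inl h)⟩
    · exact ⟨h0, .inr (.inr ⟨φ, rfl, h1, h2.imp_right (ft φ).2⟩)⟩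
  · rintro ⟨h0, h | h | ⟨φ, rfl, h1, h2⟩⟩
    · exact ⟨⟨by omega, x.2, y.2⟩, h0, .inl h⟩
    · exact ⟨⟨by omega, x.2, y.2⟩, h0, .inr (.inl h)⟩
    · have := hK ⟨φ, rfl⟩
      exact ⟨⟨by omega, x.2, y.2⟩, h0, .inr (.inr ⟨⟨φ, rfl⟩, h1, h2.imp_right (ft φ).1⟩)⟩

end Pool.Agent.MP_bcf1b9_lc

end

section

namespace Pool.Agent.MP_bcf1b9_lc

open Function Pool.Agent.MP_9a65c4_lc
open Nat.Partrec (Code)

def s5Chk (k N : ℕ) (s : List (ℕ × ℕ × ℕ)) : Prop :=
  (∀ t ∈ s, t.1 < k) ∧ ∀ i < k, ∀ u < N, (i, u, u) ∈ s ∧ ∀ v < N, (i, u, v) ∈ s →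
    (i, v, u) ∈ s ∧ ∀ w < N, (i, v, w) ∈ s → (i, u, w) ∈ s

theorem s5Chk_iff (k N : ℕ) (s : List (ℕ × ℕ × ℕ)) : s5Chk k N s ↔ IsS5 k N s := by
  refine and_congr_right fun _ => forall₂_congr fun i _ => ⟨fun h => ⟨fun u => (h u.1 u.2).1,
    fun {u v} a => ((h u.1 u.2).2 v.1 v.2 a).1,
    fun {u v w} a b => ((h u.1 u.2).2 v.1 v.2 a).2 w.1 w.2 b⟩, fun h u hu => ?_⟩
  exact ⟨h.refl ⟨u, hu⟩, fun v hv a => ⟨h.symm (x := ⟨u, hu⟩) (y := ⟨v, hv⟩) a,
    fun w hw b => h.trans (x := ⟨u, hu⟩) (y := ⟨v, hv⟩) (z := ⟨w, hw⟩) a b⟩⟩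

theorem pp_s5Chk {α : Type} [Primcodable α] (k : ℕ) {N : α → ℕ} {s : α → List (ℕ × ℕ × ℕ)}
    (hN : Primrec N) (hs : Primrec s) : PrimrecPred fun a => s5Chk k (N a) (s a) := by
  unfold s5Chk
  exact (pp_all_mem hs (pp_lt (by fun_prop) (by fun_prop))).and
    (pp_all_lt (by fun_prop) (pp_all_lt (by fun_prop) ((pp_mem (by fun_prop) (by fun_prop)).and
      (pp_all_lt (by fun_prop) (pp_imp (pp_mem (by fun_prop) (by fun_prop))
        ((pp_mem (by fun_prop) (by fun_prop)).and (pp_all_lt (by fun_prop)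
          (pp_imp (pp_mem (by fun_prop) (by fun_prop)) (pp_mem (by fun_prop) (by fun_prop))))))))))

def usChk (k : ℕ) (cs T : List ℕ) : Prop :=
  (∀ m ∈ cs, m ∈ T) ∧ ∀ m ∈ T, (m % 4 = 1 → m / 4 ∈ T) ∧
    (m % 4 = 2 → (m / 4).unpair.1 ∈ T ∧ (m / 4).unpair.2 ∈ T) ∧
    (m % 4 = 3 → (m / 4).unpair.1 < k ∧ (m / 4).unpair.2 ∈ T)

theorem pp_usChk {α : Type} [Primcodable α] (k : ℕ) {cs T : α → List ℕ} (hc : Primrec cs)
    (hT : Primrec T) : PrimrecPred fun a => usChk k (cs a) (T a) := by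
  unfold usChk
  exact (pp_all_mem hc (pp_mem (by fun_prop) (by fun_prop))).and (pp_all_mem hT
    ((pp_imp (pp_eq (by fun_prop) (by fun_prop)) (pp_mem (by fun_prop) (by fun_prop))).and
      ((pp_imp (pp_eq (by fun_prop) (by fun_prop))
        ((pp_mem (by fun_prop) (by fun_prop)).and (pp_mem (by fun_prop) (by fun_prop)))).and
      (pp_imp (pp_eq (by fun_prop) (by fun_prop))
        ((pp_lt (by fun_prop) (by fun_prop)).and (pp_mem (by fun_prop) (by fun_prop)))))))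

theorem usChk_iff (k : ℕ) (cs : List ℕ) :
    (∃ T, usChk k cs T) ↔ ∀ φ, enc φ ∈ cs → Uses k φ := by
  classical
  have d : ∀ a r : ℕ, r < 4 → (4 * a + r) / 4 = a := fun a r h => by omega
  constructor
  · rintro ⟨T, h1, h2⟩ φ hφ
    have h := h1 _ hφ
    clear hφ
    induction φ with
    | atom p => trivial
    | neg φ ih =>
      have := (h2 _ h).1 (by simp only [enc]; omega)
      rw [enc, d _ _ (by omega)] at this
      exact ih this
    | and φ ψ ih ih' =>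
      have := (h2 _ h).2.1 (by simp only [enc]; omega)
      rw [enc, d _ _ (by omega), Nat.unpair_pair] at this
      exact ⟨ih this.1, ih' this.2⟩
    | K i φ ih =>
      have := (h2 _ h).2.2 (by simp only [enc]; omega)
      rw [enc, d _ _ (by omega), Nat.unpair_pair] at this
      exact ⟨this.1, ih this.2⟩
  · intro h
    have mem : ∀ φ, enc φ < cs.sum + 1 → Uses k φ → enc φ ∈ (List.range (cs.sum + 1)).filter
        fun m => decide (∃ φ, enc φ = m ∧ Uses k φ) := fun φ a b => by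
      simp only [List.mem_filter, List.mem_range, decide_eq_true_iff]
      exact ⟨a, φ, rfl, b⟩
    refine ⟨(List.range (cs.sum + 1)).filter fun m => decide (∃ φ, enc φ = m ∧ Uses k φ),
      fun m hm => ?_, fun m hm => ?_⟩
    · obtain ⟨φ, rfl⟩ := re_enc_surj m
      exact mem φ (Nat.lt_succ_of_le (List.single_le_sum (fun _ _ => Nat.zero_le _) _ hm)) (h φ hm)
    · obtain ⟨a, b⟩ := List.mem_filter.1 hm
      obtain ⟨φ, rfl, u⟩ := of_decide_eq_true b
      rw [List.mem_range] at a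
      cases φ with
      | atom p => refine ⟨?_, ?_, ?_⟩ <;> intro c <;> simp only [enc] at c <;> omega
      | neg φ =>
        have := re_neg_lt φ
        refine ⟨fun _ => ?_, fun c => ?_, fun c => ?_⟩
        · rw [enc, d _ _ (by omega)]
          exact mem φ (by omega) u
        all_goals simp only [enc] at c; omega
      | and φ ψ =>
        have := re_and_lt φ ψ
        refine ⟨fun c => ?_, fun _ => ?_, fun c => ?_⟩
        · simp only [enc] at c; omega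
        · rw [enc, d _ _ (by omega), Nat.unpair_pair]
          exact ⟨mem φ (by omega) u.1, mem ψ (by omega) u.2⟩
        · simp only [enc] at c; omega
      | K i φ =>
        have := re_K_lt i φ
        refine ⟨fun c => ?_, fun c => ?_, fun _ => ?_⟩
        · simp only [enc] at c; omega
        · simp only [enc] at c; omega
        · rw [enc, d _ _ (by omega), Nat.unpair_pair]
          exact ⟨u.1, mem φ (by omega) u.2⟩

theorem re_s5 (k : ℕ) : REPred fun c => Inst k c ∧ FinEv c := by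
  have h : PrimrecPred fun p : (MC × AC) × List ℕ × ReC => (s5Chk k p.1.1.1 p.1.1.2.1 ∧
      s5Chk k p.1.2.1.length p.1.2.2 ∧ usChk k p.1.2.1 p.2.1) ∧ reChk p.1 p.2.2 :=
    ((pp_s5Chk k (by fun_prop) (by fun_prop)).and ((pp_s5Chk k (by fun_prop) (by fun_prop)).and
      (pp_usChk k (by fun_prop) (by fun_prop)))).and
      (PrimrecPred.comp (p := fun p : (MC × AC) × ReC => reChk p.1 p.2) pp_reChk
        (f := fun p : (MC × AC) × List ℕ × ReC => (p.1, p.2.2)) (by fun_prop))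
  refine (re_exists' (P := fun (c : MC × AC) (z : List ℕ × ReC) => (s5Chk k c.1.1 c.1.2.1 ∧
      s5Chk k c.2.1.length c.2.2 ∧ usChk k c.2.1 z.1) ∧ reChk c z.2) h).of_eq fun c => ?_
  rw [Inst, re_finEv_iff, ← usChk_iff, ← s5Chk_iff, ← s5Chk_iff]
  exact ⟨fun ⟨z, ⟨a, b, d⟩, e⟩ => ⟨⟨a, b, _, d⟩, _, e⟩,
    fun ⟨⟨a, b, T, d⟩, z, e⟩ => ⟨(T, z), ⟨a, b, d⟩, e⟩⟩

theorem hard_s5 {k : ℕ} (hk : 2 ≤ k) {P : ℕ → Prop} (hP : REPred P) : ∃ (a : AC) (f : ℕ → MC),
    Computable f ∧ (∀ n, Inst k (f n, a)) ∧ ∀ n, P n ↔ FinEv (f n, a) := by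
  obtain ⟨Q, J, _, _, _, m, q, j, hm⟩ := exists_mm hP
  have := Fintype.ofFinite J
  obtain ⟨ι, hι⟩ := Countable.exists_injective_nat (Ft Q J)
  obtain ⟨K, hK⟩ := (Set.finite_range ι).bddAbove
  obtain ⟨f, hf, h⟩ := ini_code hι q j
  have : Finite (act ι m).E := inferInstanceAs (Finite (Ev Q J))
  have : Finite (EncA k (act ι m)).E := EW_finite (K := K + 3) (by
    rintro i u v ⟨-, ⟨a, -⟩ | ⟨a, -⟩ | ⟨φ, a, -⟩⟩
    · omega
    · omega
    · have := hK ⟨φ, rfl⟩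
      omega)
  obtain ⟨l, s, σ, a1, a2, a3⟩ := act_code (k := k) (EncA k (act ι m)) fun _ _ _ r => r.1
  refine ⟨(l.map enc, s), fun n => encC k (f n), ((pr_encC k).comp hf).to_comp,
    fun n => ⟨encC_s5 k _, ⟨a2, fun i hi => ?_⟩, fun φ hφ => ?_⟩, fun n => ?_⟩
  · have e := ER_equiv (W := (act ι m).E) (R := (act ι m).S) hi
    have r : ∀ u v : Fin (l.map enc).length, (i, u.1, v.1) ∈ s ↔
        ER k i (σ (u.cast (by simp))) (σ (v.cast (by simp))) := fun u v =>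
      a1.rel i (u.cast (by simp)) (v.cast (by simp))
    exact ⟨fun _ => (r _ _).2 (e.refl _), fun a => (r _ _).2 (e.symm ((r _ _).1 a)),
      fun a b => (r _ _).2 (e.trans ((r _ _).1 a) ((r _ _).1 b))⟩
  · obtain ⟨ψ, h1, h2⟩ := List.mem_map.1 hφ
    obtain rfl := re_enc_inj h2
    obtain ⟨e, rfl⟩ := a3 _ h1
    exact uses_epre hk _ e
  · obtain ⟨h1, h2, h3⟩ := h n
    have hV : ∀ p w, ¬ (toKM (f n)).V p w := fun p w => by simp [toKM, h2]
    have hs : ∀ a, (fun a => if a = j then n + 1 else 0) a < n + 2 := fun a => by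
      simp only
      split_ifs <;> omega
    have : Finite (toKM (encC k (f n))).W := inferInstanceAs (Finite (Fin _))
    have : Finite (toAM l s).E := inferInstanceAs (Finite (Fin _))
    rw [hm]
    constructor
    · intro hh
      obtain ⟨t, ht⟩ := conf_halt hι m hs h3 hh
      exact ⟨l, rfl, enc_fin hk hV (encC_cov k _ h1) a1 ht⟩
    · rintro ⟨l', e, hh⟩
      obtain rfl : l = l' := List.map_injective_iff.2 (fun _ _ => re_enc_inj) e
      by_contra c
      obtain ⟨x, x1, x2⟩ := conf_run hι m hs (by omega) h3 c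
      exact enc_inf hk hV (encC_cov k _ h1) a1 x _ x1 x2 hh

theorem main_s5 (k : ℕ) (hk : 2 ≤ k) : (REPred fun c => Inst k c ∧ FinEv c) ∧
    ∃ a : AC, ∀ P : ℕ → Prop, REPred P → ∃ f : ℕ → MC, Computable f ∧
      (∀ n, Inst k (f n, a)) ∧ ∀ n, P n ↔ FinEv (f n, a) := by
  refine ⟨re_s5 k, ?_⟩
  have hU : REPred fun k : ℕ => ((Denumerable.ofNat Code k.unpair.1).eval k.unpair.2).Dom :=
    (Code.eval_part.comp ((Computable.ofNat Code).comp (Computable.fst.comp Computable.unpair))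
      (Computable.snd.comp Computable.unpair)).dom_re
  obtain ⟨a, f, h3, h4, h5⟩ := hard_s5 hk hU
  refine ⟨a, fun P hP => ?_⟩
  have hP' : Nat.Partrec fun n => (Part.assert (P n) fun _ => Part.some ()).map
      (fun _ => (0 : ℕ)) :=
    Partrec.nat_iff.1 (hP.map (Computable.const 0).to₂)
  obtain ⟨c, hc⟩ := Code.exists_code.1 hP'
  refine ⟨fun n => f (Nat.pair (Encodable.encode c) n),
    h3.comp (Primrec₂.natPair.to_comp.comp (Computable.const _) Computable.id),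
    fun n => h4 _, fun n => ?_⟩
  rw [← h5]
  simp [hc, Part.assert]

end Pool.Agent.MP_bcf1b9_lc

end
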