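import Pool.Agent.MP_3c2488_lc.Defs

section

namespace Pool.Agent.MP_3c2488_lc

open Classical

noncomputable instance : DecidableEq Fm := Classical.decEq _

namespace Fm

def top : Fm := imp bot bot
def neg (a : Fm) : Fm := imp a bot
def conj : List Fm → Fm
  | [] => top
  | a :: l => and a (conj l)
def disj : List Fm → Fm
  | [] => bot
  | a :: l => or a (disj l)

theorem subst_subst (σ τ : ℕ → Fm) (a : Fm) :
    (a.subst σ).subst τ = a.subst (fun n => (σ n).subst τ) := by
  induction a with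
  | var n => rfl
  | bot => rfl
  | and a b iha ihb => simp [subst, iha, ihb]
  | or a b iha ihb => simp [subst, iha, ihb]
  | imp a b iha ihb => simp [subst, iha, ihb]

theorem subst_var (a : Fm) : a.subst var = a := by
  induction a with
  | var n => rfl
  | bot => rfl
  | and a b iha ihb => simp [subst, iha, ihb]
  | or a b iha ihb => simp [subst, iha, ihb]
  | imp a b iha ihb => simp [subst, iha, ihb]

@[simp] theorem subst_top (σ : ℕ → Fm) : top.subst σ = top := rfl
@[simp] theorem subst_neg (σ : ℕ → Fm) (a : Fm) : (neg a).subst σ = neg (a.subst σ) := rfl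
@[simp] theorem subst_and (σ : ℕ → Fm) (a b : Fm) :
    (and a b).subst σ = and (a.subst σ) (b.subst σ) := rfl
@[simp] theorem subst_or (σ : ℕ → Fm) (a b : Fm) :
    (or a b).subst σ = or (a.subst σ) (b.subst σ) := rfl
@[simp] theorem subst_imp (σ : ℕ → Fm) (a b : Fm) :
    (imp a b).subst σ = imp (a.subst σ) (b.subst σ) := rfl
@[simp] theorem subst_bot (σ : ℕ → Fm) : bot.subst σ = bot := rfl
@[simp] theorem subst_var' (σ : ℕ → Fm) (n : ℕ) : (var n).subst σ = σ n := rfl

theorem subst_conj (σ : ℕ → Fm) (l : List Fm) :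
    (conj l).subst σ = conj (l.map (subst σ)) := by
  induction l with
  | nil => rfl
  | cons a l ih => simp [conj, ih]

theorem subst_disj (σ : ℕ → Fm) (l : List Fm) :
    (disj l).subst σ = disj (l.map (subst σ)) := by
  induction l with
  | nil => rfl
  | cons a l ih => simp [disj, ih]

end Fm

section Semantics

variable {W : Type} [Preorder W]

def Forces (v : ℕ → W → Prop) : Fm → W → Prop
  | .var n, x => v n x
  | .bot, _ => False
  | .and a b, x => Forces v a x ∧ Forces v b x
  | .or a b, x => Forces v a x ∨ Forces v b x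
  | .imp a b, x => ∀ y, x ≤ y → Forces v a y → Forces v b y

def Mono (v : ℕ → W → Prop) : Prop := ∀ n x y, x ≤ y → v n x → v n y

@[simp] theorem forces_var (v : ℕ → W → Prop) (n : ℕ) (x : W) :
    Forces v (.var n) x ↔ v n x := Iff.rfl
@[simp] theorem forces_bot (v : ℕ → W → Prop) (x : W) : Forces v .bot x ↔ False := Iff.rfl
@[simp] theorem forces_and (v : ℕ → W → Prop) (a b : Fm) (x : W) :
    Forces v (.and a b) x ↔ Forces v a x ∧ Forces v b x := Iff.rfl
@[simp] theorem forces_or (v : ℕ → W → Prop) (a b : Fm) (x : W) :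
    Forces v (.or a b) x ↔ Forces v a x ∨ Forces v b x := Iff.rfl
theorem forces_imp (v : ℕ → W → Prop) (a b : Fm) (x : W) :
    Forces v (.imp a b) x ↔ ∀ y, x ≤ y → Forces v a y → Forces v b y := Iff.rfl
@[simp] theorem forces_top (v : ℕ → W → Prop) (x : W) : Forces v .top x ↔ True :=
  iff_true_intro fun _ _ h => h
theorem forces_neg (v : ℕ → W → Prop) (a : Fm) (x : W) :
    Forces v (.neg a) x ↔ ∀ y, x ≤ y → ¬ Forces v a y := Iff.rfl

theorem forces_conj (v : ℕ → W → Prop) (l : List Fm) (x : W) :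
    Forces v (.conj l) x ↔ ∀ a ∈ l, Forces v a x := by
  induction l with
  | nil => simp [Fm.conj]
  | cons a l ih => simp [Fm.conj, ih]

theorem forces_disj (v : ℕ → W → Prop) (l : List Fm) (x : W) :
    Forces v (.disj l) x ↔ ∃ a ∈ l, Forces v a x := by
  induction l with
  | nil => simp [Fm.disj]
  | cons a l ih => simp [Fm.disj, ih]

theorem Forces.mono {v : ℕ → W → Prop} (hv : Mono v) (a : Fm) :
    ∀ {x y : W}, x ≤ y → Forces v a x → Forces v a y := by
  induction a with
  | var n => intro x y h; exact hv n x y h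
  | bot => intro x y _ h; exact h
  | and a b iha ihb => intro x y h hx; exact ⟨iha h hx.1, ihb h hx.2⟩
  | or a b iha ihb => intro x y h hx; exact hx.imp (iha h) (ihb h)
  | imp a b _ _ => intro x y h hx z hz; exact hx z (h.trans hz)

theorem forces_subst (v : ℕ → W → Prop) (σ : ℕ → Fm) (a : Fm) :
    ∀ x, Forces v (a.subst σ) x ↔ Forces (fun n => Forces v (σ n)) a x := by
  induction a with
  | var n => intro x; rfl
  | bot => intro x; rfl
  | and a b iha ihb => intro x; simp [iha, ihb]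
  | or a b iha ihb => intro x; simp [iha, ihb]
  | imp a b iha ihb => intro x; simp [forces_imp, iha, ihb]

theorem mono_subst {v : ℕ → W → Prop} (hv : Mono v) (σ : ℕ → Fm) :
    Mono (fun n => Forces v (σ n)) := fun n _ _ h hx => Forces.mono hv (σ n) h hx

def Valid (W : Type) [Preorder W] (a : Fm) : Prop :=
  ∀ v : ℕ → W → Prop, Mono v → ∀ x, Forces v a x

theorem Valid.subst {a : Fm} (h : Valid W a) (σ : ℕ → Fm) : Valid W (a.subst σ) :=
  fun v hv x => (forces_subst v σ a x).2 (h _ (mono_subst hv σ) x)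

theorem Der.sound {A : Fm} (hA : Valid W A) {Γ : Set Fm} {b : Fm} (h : Der A Γ b)
    {v : ℕ → W → Prop} (hv : Mono v) (x : W) (hΓ : ∀ c ∈ Γ, Forces v c x) : Forces v b x := by
  induction h with
  | hyp b hb => exact hΓ b hb
  | extra σ => exact hA.subst σ v hv x
  | k a b => intro y _ ha z hz _; exact Forces.mono hv a hz ha
  | s a b c =>
    intro y _ h1 z hz h2 w hw h3
    exact h1 w (hz.trans hw) h3 w le_rfl (h2 w hw h3)
  | andI a b => intro y _ ha z hz hb; exact ⟨Forces.mono hv a hz ha, hb⟩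
  | andL a b => intro y _ h; exact h.1
  | andR a b => intro y _ h; exact h.2
  | orL a b => intro y _ h; exact Or.inl h
  | orR a b => intro y _ h; exact Or.inr h
  | orE a b c =>
    intro y _ h1 z hz h2 w hw h3
    exact h3.elim (h1 w (hz.trans hw)) (h2 w hw)
  | efq a => intro y _ h; exact h.elim
  | mp a b _ _ ih1 ih2 => exact ih1 x le_rfl ih2

theorem Der.valid {A : Fm} (hA : Valid W A) {b : Fm} (h : Der A ∅ b) : Valid W b :=
  fun _ hv x => h.sound hA hv x (by simp)

/-- bounded morphisms preserve and reflect forcing -/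
theorem forces_pmorph {W' : Type} [Preorder W'] (f : W → W') (hf : ∀ x y, x ≤ y → f x ≤ f y)
    (hb : ∀ x y', f x ≤ y' → ∃ y, x ≤ y ∧ f y = y') (v : ℕ → W' → Prop) (a : Fm) :
    ∀ x, Forces (fun n x => v n (f x)) a x ↔ Forces v a (f x) := by
  induction a with
  | var n => intro x; rfl
  | bot => intro x; rfl
  | and a b iha ihb => intro x; simp [iha, ihb]
  | or a b iha ihb => intro x; simp [iha, ihb]
  | imp a b iha ihb =>
    intro x
    simp only [forces_imp, iha, ihb]
    constructor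
    · intro h y' hy' ha
      obtain ⟨y, hy, rfl⟩ := hb x y' hy'
      exact h y hy ha
    · intro h y hy ha
      exact h _ (hf _ _ hy) ha

/-- forcing at `x` only depends on the valuation above `x` -/
theorem forces_congr_above {v w : ℕ → W → Prop} (a : Fm) :
    ∀ x, (∀ n y, x ≤ y → (v n y ↔ w n y)) → (Forces v a x ↔ Forces w a x) := by
  induction a with
  | var n => intro x h; exact h n x le_rfl
  | bot => intro x _; rfl
  | and a b iha ihb => intro x h; simp [iha x h, ihb x h]
  | or a b iha ihb => intro x h; simp [iha x h, ihb x h]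
  | imp a b iha ihb =>
    intro x h
    simp only [forces_imp]
    refine forall_congr' fun y => forall_congr' fun hy => ?_
    rw [iha y fun n z hz => h n z (hy.trans hz), ihb y fun n z hz => h n z (hy.trans hz)]

end Semantics

section Completeness

variable {A : Fm}

theorem Der.weaken {Γ Δ : Set Fm} (hΓ : Γ ⊆ Δ) {b : Fm} (h : Der A Γ b) : Der A Δ b := by
  induction h with
  | hyp b hb => exact .hyp b (hΓ hb)
  | extra σ => exact .extra σ
  | k a b => exact .k a b
  | s a b c => exact .s a b c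
  | andI a b => exact .andI a b
  | andL a b => exact .andL a b
  | andR a b => exact .andR a b
  | orL a b => exact .orL a b
  | orR a b => exact .orR a b
  | orE a b c => exact .orE a b c
  | efq a => exact .efq a
  | mp a b _ _ ih1 ih2 => exact .mp a b ih1 ih2

theorem Der.cut {Γ Δ : Set Fm} (hΓ : ∀ c ∈ Δ, Der A Γ c) {b : Fm} (h : Der A Δ b) :
    Der A Γ b := by
  induction h with
  | hyp b hb => exact hΓ b hb
  | extra σ => exact .extra σ
  | k a b => exact .k a b
  | s a b c => exact .s a b c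
  | andI a b => exact .andI a b
  | andL a b => exact .andL a b
  | andR a b => exact .andR a b
  | orL a b => exact .orL a b
  | orR a b => exact .orR a b
  | orE a b c => exact .orE a b c
  | efq a => exact .efq a
  | mp a b _ _ ih1 ih2 => exact .mp a b ih1 ih2

theorem Der.subst_thm {b : Fm} (h : Der A ∅ b) (σ : ℕ → Fm) : Der A ∅ (b.subst σ) := by
  induction h with
  | hyp b hb => exact hb.elim
  | extra τ => rw [Fm.subst_subst]; exact .extra _
  | k a b => exact .k _ _
  | s a b c => exact .s _ _ _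
  | andI a b => exact .andI _ _
  | andL a b => exact .andL _ _
  | andR a b => exact .andR _ _
  | orL a b => exact .orL _ _
  | orR a b => exact .orR _ _
  | orE a b c => exact .orE _ _ _
  | efq a => exact .efq _
  | mp a b _ _ ih1 ih2 => exact .mp _ _ ih1 ih2

theorem Der.id (Γ : Set Fm) (a : Fm) : Der A Γ (a.imp a) :=
  .mp _ _ (.mp _ _ (.s a (a.imp a) a) (.k _ _)) (.k a a)

theorem Der.deduction {Γ : Set Fm} {a b : Fm} (h : Der A (insert a Γ) b) :
    Der A Γ (a.imp b) := by
  induction h with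
  | hyp b hb =>
    rcases hb with rfl | hb
    · exact Der.id _ _
    · exact .mp _ _ (.k _ _) (.hyp b hb)
  | extra σ => exact .mp _ _ (.k _ _) (.extra σ)
  | k a b => exact .mp _ _ (.k _ _) (.k a b)
  | s a b c => exact .mp _ _ (.k _ _) (.s a b c)
  | andI a b => exact .mp _ _ (.k _ _) (.andI a b)
  | andL a b => exact .mp _ _ (.k _ _) (.andL a b)
  | andR a b => exact .mp _ _ (.k _ _) (.andR a b)
  | orL a b => exact .mp _ _ (.k _ _) (.orL a b)
  | orR a b => exact .mp _ _ (.k _ _) (.orR a b)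
  | orE a b c => exact .mp _ _ (.k _ _) (.orE a b c)
  | efq a => exact .mp _ _ (.k _ _) (.efq a)
  | mp c d _ _ ih1 ih2 => exact .mp _ _ (.mp _ _ (.s _ _ _) ih1) ih2

theorem Der.finite {Γ : Set Fm} {b : Fm} (h : Der A Γ b) :
    ∃ Δ, Δ ⊆ Γ ∧ Δ.Finite ∧ Der A Δ b := by
  induction h with
  | hyp b hb => exact ⟨{b}, by simpa, Set.finite_singleton b, .hyp b rfl⟩
  | extra σ => exact ⟨∅, by simp, Set.finite_empty, .extra σ⟩
  | k a b => exact ⟨∅, by simp, Set.finite_empty, .k a b⟩
  | s a b c => exact ⟨∅, by simp, Set.finite_empty, .s a b c⟩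
  | andI a b => exact ⟨∅, by simp, Set.finite_empty, .andI a b⟩
  | andL a b => exact ⟨∅, by simp, Set.finite_empty, .andL a b⟩
  | andR a b => exact ⟨∅, by simp, Set.finite_empty, .andR a b⟩
  | orL a b => exact ⟨∅, by simp, Set.finite_empty, .orL a b⟩
  | orR a b => exact ⟨∅, by simp, Set.finite_empty, .orR a b⟩
  | orE a b c => exact ⟨∅, by simp, Set.finite_empty, .orE a b c⟩
  | efq a => exact ⟨∅, by simp, Set.finite_empty, .efq a⟩
  | mp a b _ _ ih1 ih2 =>
    obtain ⟨Δ1, h1, f1, d1⟩ := ih1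
    obtain ⟨Δ2, h2, f2, d2⟩ := ih2
    exact ⟨Δ1 ∪ Δ2, Set.union_subset h1 h2, f1.union f2,
      .mp a b (d1.weaken Set.subset_union_left) (d2.weaken Set.subset_union_right)⟩

/-- prime theories of `S_A` -/
structure PrimeTh (A : Fm) (T : Set Fm) : Prop where
  closed : ∀ b, Der A T b → b ∈ T
  cons : Fm.bot ∉ T
  prime : ∀ a b, Fm.or a b ∈ T → a ∈ T ∨ b ∈ T

theorem lindenbaum {Γ : Set Fm} {b : Fm} (h : ¬ Der A Γ b) :
    ∃ T, Γ ⊆ T ∧ PrimeTh A T ∧ b ∉ T := by
  have hz : ∀ c ⊆ {T : Set Fm | ¬ Der A T b}, IsChain (· ⊆ ·) c → c.Nonempty →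
      ∃ ub ∈ {T : Set Fm | ¬ Der A T b}, ∀ s ∈ c, s ⊆ ub := by
    intro c hc hchain hne
    refine ⟨⋃₀ c, ?_, fun s hs => Set.subset_sUnion_of_mem hs⟩
    intro hd
    obtain ⟨Δ, hΔ, hf, hd⟩ := hd.finite
    obtain ⟨T, hT, hsub⟩ := hchain.directedOn.exists_mem_subset_of_finset_subset_biUnion
      (f := fun x : Set Fm => x) hne (s := hf.toFinset) (by
        intro x hx
        have := hΔ (by simpa using hx)
        simpa using this)
    exact hc hT (hd.weaken (by simpa using hsub))
  obtain ⟨T, hΓ, hmax⟩ := zorn_subset_nonempty {T : Set Fm | ¬ Der A T b} hz Γ h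
  have hT : ¬ Der A T b := hmax.prop
  have key : ∀ a, a ∉ T → Der A T (a.imp b) := by
    intro a ha
    by_contra hn
    have h1 : ¬ Der A (insert a T) b := fun hd => hn hd.deduction
    have := hmax.le_of_ge h1 (Set.subset_insert a T)
    exact ha (this (Set.mem_insert a T))
  refine ⟨T, hΓ, ⟨?_, ?_, ?_⟩, fun hb => hT (.hyp b hb)⟩
  · intro a ha
    by_contra hn
    exact hT (.mp _ _ (key a hn) ha)
  · intro hb
    exact hT (.mp _ _ (.efq b) (.hyp _ hb))
  · intro a c hac
    by_contra hn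
    push Not at hn
    exact hT (.mp _ _ (.mp _ _ (.mp _ _ (.orE a c b) (key a hn.1)) (key c hn.2)) (.hyp _ hac))

/-- the canonical frame -/
def Can (A : Fm) : Type := {T : Set Fm // PrimeTh A T}

instance : PartialOrder (Can A) := inferInstanceAs (PartialOrder {T : Set Fm // PrimeTh A T})

def canVal (A : Fm) : ℕ → Can A → Prop := fun n T => Fm.var n ∈ T.1

theorem mono_canVal : Mono (canVal A) := fun _ _ _ h hx => h hx

theorem truth (a : Fm) : ∀ T : Can A, Forces (canVal A) a T ↔ a ∈ T.1 := by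
  induction a with
  | var n => intro T; rfl
  | bot => intro T; simp [T.2.cons]
  | and a b iha ihb =>
    intro T
    simp only [forces_and, iha, ihb]
    constructor
    · rintro ⟨h1, h2⟩
      exact T.2.closed _ (.mp _ _ (.mp _ _ (.andI a b) (.hyp _ h1)) (.hyp _ h2))
    · intro h
      exact ⟨T.2.closed _ (.mp _ _ (.andL a b) (.hyp _ h)),
        T.2.closed _ (.mp _ _ (.andR a b) (.hyp _ h))⟩
  | or a b iha ihb =>
    intro T
    simp only [forces_or, iha, ihb]
    constructor
    · rintro (h | h)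
      · exact T.2.closed _ (.mp _ _ (.orL a b) (.hyp _ h))
      · exact T.2.closed _ (.mp _ _ (.orR a b) (.hyp _ h))
    · exact T.2.prime a b
  | imp a b iha ihb =>
    intro T
    simp only [forces_imp, iha, ihb]
    constructor
    · intro h
      by_contra hn
      have h1 : ¬ Der A (insert a T.1) b := fun hd => hn (T.2.closed _ hd.deduction)
      obtain ⟨U, hU, hp, hb⟩ := lindenbaum h1
      exact hb (h ⟨U, hp⟩ ((Set.subset_insert _ _).trans hU) (hU (Set.mem_insert _ _)))
    · intro h U hU ha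
      exact U.2.closed _ (.mp _ _ (.hyp _ (hU h)) (.hyp _ ha))

theorem der_iff_can {b : Fm} : Der A ∅ b ↔ ∀ T : Can A, Forces (canVal A) b T := by
  constructor
  · intro h T
    rw [truth]
    exact T.2.closed _ (h.weaken (Set.empty_subset _))
  · intro h
    by_contra hn
    obtain ⟨T, -, hp, hb⟩ := lindenbaum hn
    exact hb ((truth b ⟨T, hp⟩).1 (h _))

end Completeness

end Pool.Agent.MP_3c2488_lc

end

section

namespace Pool.Agent.MP_3c2488_lc

open Classical

section

variable {W : Type} [PartialOrder W]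

/-- `b` is a possible valuation of the point `x` that makes `P` true at `x`. -/
def ExtAt (P : Fm) (V : Finset ℕ) (v : ℕ → W → Prop) (x : W) (b : Finset ℕ) : Prop :=
  (∀ n ∈ b, ∀ y, x < y → v n y) ∧
    ∀ v' : ℕ → W → Prop, Mono v' → (∀ n ∈ V, ∀ y, x < y → (v' n y ↔ v n y)) →
      (∀ n ∈ V, (v' n x ↔ n ∈ b)) → Forces v' P x

end

/-- the extension property over finite models -/
def ExtProp (P : Fm) (V : Finset ℕ) : Prop :=
  ∀ (W : Type) [PartialOrder W] [Finite W] (v : ℕ → W → Prop), Mono v → ∀ x : W,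
    (∀ y, x < y → Forces v P y) → ∃ b, b ⊆ V ∧ ExtAt P V v x b

/-- Löwenheim substitution -/
noncomputable def lw (P : Fm) (a : Finset ℕ) : ℕ → Fm :=
  fun n => if n ∈ a then P.imp (.var n) else P.and (.var n)

noncomputable def lwList (P : Fm) : List (Finset ℕ) → ℕ → Fm
  | [] => .var
  | a :: l => fun n => (lwList P l n).subst (lw P a)

section

variable {W : Type} [Preorder W]

def stepV (P : Fm) (a : Finset ℕ) (v : ℕ → W → Prop) : ℕ → W → Prop :=
  fun n => Forces v (lw P a n)

def runV (P : Fm) : List (Finset ℕ) → (ℕ → W → Prop) → ℕ → W → Prop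
  | [], v => v
  | a :: l, v => runV P l (stepV P a v)

theorem mono_stepV {P : Fm} {a : Finset ℕ} {v : ℕ → W → Prop} (hv : Mono v) :
    Mono (stepV P a v) := mono_subst hv _

theorem mono_runV {P : Fm} (l : List (Finset ℕ)) :
    ∀ {v : ℕ → W → Prop}, Mono v → Mono (runV P l v) := by
  induction l with
  | nil => intro v hv; exact hv
  | cons a l ih => intro v hv; exact ih (mono_stepV hv)

theorem forces_lwList (P : Fm) (l : List (Finset ℕ)) :
    ∀ (v : ℕ → W → Prop) (φ : Fm) (x : W),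
      Forces v (φ.subst (lwList P l)) x ↔ Forces (runV P l v) φ x := by
  induction l with
  | nil => intro v φ x; simp [lwList, runV, Fm.subst_var]
  | cons a l ih =>
    intro v φ x
    simp only [lwList, runV]
    rw [← Fm.subst_subst, forces_subst, ← ih]
    rfl

theorem stepV_of_forces {P : Fm} {a : Finset ℕ} {v : ℕ → W → Prop} (hv : Mono v) {x : W}
    (hx : Forces v P x) (n : ℕ) : stepV P a v n x ↔ v n x := by
  unfold stepV lw
  split_ifs with h
  · rw [forces_imp]
    exact ⟨fun h => h x le_rfl hx, fun h y hy _ => hv n x y hy h⟩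
  · simp [hx]

theorem stepV_of_not {P : Fm} {a : Finset ℕ} {v : ℕ → W → Prop} {x : W}
    (hx : ¬ Forces v P x) {n : ℕ} (h : stepV P a v n x) : n ∈ a := by
  by_contra hn
  unfold stepV lw at h
  rw [if_neg hn] at h
  exact hx h.1

theorem forces_stepV_of_forces {P : Fm} {a : Finset ℕ} {v : ℕ → W → Prop} (hv : Mono v) {x : W}
    (hx : Forces v P x) (φ : Fm) : Forces (stepV P a v) φ x ↔ Forces v φ x :=
  forces_congr_above φ x fun n _ hy => stepV_of_forces hv (Forces.mono hv P hy hx) n

theorem forces_runV_of_forces {P : Fm} (l : List (Finset ℕ)) :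
    ∀ {v : ℕ → W → Prop}, Mono v → ∀ {x : W}, Forces v P x → ∀ φ : Fm,
      (Forces (runV P l v) φ x ↔ Forces v φ x) := by
  induction l with
  | nil => intro v _ x _ φ; rfl
  | cons a l ih =>
    intro v hv x hx φ
    simp only [runV]
    rw [ih (mono_stepV hv) ((forces_stepV_of_forces hv hx P).2 hx), forces_stepV_of_forces hv hx]

end

section

variable {W : Type} [PartialOrder W]

def GInv (P : Fm) (V : Finset ℕ) (D : Set (Finset ℕ)) (v : ℕ → W → Prop) : Prop :=
  ∀ x, (∀ y, x < y → Forces v P y) → ¬ Forces v P x → ∀ b ∈ D, ¬ ExtAt P V v x b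

theorem GInv.step {P : Fm} {V : Finset ℕ} {D : Set (Finset ℕ)} {v : ℕ → W → Prop} (hv : Mono v)
    (h : GInv P V D v) (a : Finset ℕ) (hD : ∀ b ∈ D, b ⊆ a → b = a) :
    GInv P V (insert a D) (stepV P a v) := by
  intro x hall hx b hb hext
  have hx0 : ¬ Forces v P x := fun h0 => hx ((forces_stepV_of_forces hv h0 P).2 h0)
  have hba : b = a := by
    rcases hb with hb | hb
    · exact hb
    by_cases h0 : ∀ y, x < y → Forces v P y
    · exfalso
      refine h x h0 hx0 b hb ⟨fun n hn y hy => ?_, fun v' hv' h1 h2 => hext.2 v' hv' ?_ h2⟩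
      · exact (stepV_of_forces hv (h0 y hy) n).1 (hext.1 n hn y hy)
      · intro n hn y hy
        rw [h1 n hn y hy, stepV_of_forces hv (h0 y hy) n]
    · push Not at h0
      obtain ⟨y, hy, hy0⟩ := h0
      exact hD b hb fun n hn => stepV_of_not hy0 (hext.1 n hn y hy)
  subst hba
  refine hx (hext.2 _ (mono_stepV hv) (fun _ _ _ _ => Iff.rfl) fun n _ => ?_)
  refine ⟨stepV_of_not hx0, fun hn => ?_⟩
  unfold stepV lw
  rw [if_pos hn, forces_imp]
  intro y hy hPy
  have hlt : x < y := lt_of_le_of_ne hy (by rintro rfl; exact hx0 hPy)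
  exact (stepV_of_forces hv hPy n).1 (hext.1 n hn y hlt)

theorem GInv.run {P : Fm} {V : Finset ℕ} (l : List (Finset ℕ)) :
    ∀ {D : Set (Finset ℕ)} {v : ℕ → W → Prop}, Mono v → GInv P V D v →
      (∀ b ∈ D, ∀ a ∈ l, b ⊆ a → b = a) → l.Pairwise (fun b a => b ⊆ a → b = a) →
      GInv P V (D ∪ {a | a ∈ l}) (runV P l v) := by
  induction l with
  | nil => intro D v _ h _ _; simpa [runV] using h
  | cons a l ih =>
    intro D v hv h h1 h2
    rw [List.pairwise_cons] at h2
    have := ih (mono_stepV hv) (h.step hv a fun b hb => h1 b hb a (by simp)) (by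
      rintro b (rfl | hb) c hc
      · exact h2.1 c hc
      · exact h1 b hb c (by simp [hc])) h2.2
    have e : D ∪ {c | c ∈ a :: l} = insert a D ∪ {c | c ∈ l} := by
      ext c
      simp only [List.mem_cons, Set.mem_union, Set.mem_ofPred_eq, Set.mem_insert_iff]
      tauto
    rw [e]
    exact this

end

theorem exists_sorted_subsets (V : Finset ℕ) :
    ∃ l : List (Finset ℕ), (∀ b, b ⊆ V → b ∈ l) ∧ l.Pairwise (fun b a => b ⊆ a → b = a) := by
  refine ⟨V.powerset.toList.mergeSort (fun b a => decide (a.card ≤ b.card)), ?_, ?_⟩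
  · intro b hb
    rw [List.mem_mergeSort]
    simpa using hb
  · have := List.pairwise_mergeSort (le := fun b a : Finset ℕ => decide (a.card ≤ b.card))
      (by intro a b c h1 h2; simp only [decide_eq_true_eq] at *; omega)
      (by intro a b; simp only [Bool.or_eq_true, decide_eq_true_eq]; omega) V.powerset.toList
    refine this.imp ?_
    intro b a h hba
    exact Finset.eq_of_subset_of_card_le hba (by simpa using h)

/-- Ghilardi's theorem, semantic form. -/
theorem ghilardi {P : Fm} {V : Finset ℕ} (h : ExtProp P V) :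
    ∃ θ : ℕ → Fm,
      (∀ (W : Type) [PartialOrder W] [Finite W], Valid W (P.subst θ)) ∧
      ∀ (W : Type) [Preorder W] (v : ℕ → W → Prop), Mono v → ∀ x, Forces v P x → ∀ φ : Fm,
        (Forces v (φ.subst θ) x ↔ Forces v φ x) := by
  obtain ⟨l, hl, hp⟩ := exists_sorted_subsets V
  refine ⟨lwList P l, ?_, ?_⟩
  · intro W _ _ v hv x
    rw [forces_lwList]
    have hinv : GInv P V (∅ ∪ {a | a ∈ l}) (runV P l v) :=
      GInv.run l hv (fun _ _ _ b hb => hb.elim) (fun b hb => hb.elim) hp
    have : WellFoundedGT W := Finite.to_wellFoundedGT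
    induction x using WellFoundedGT.induction with
    | ind x ih =>
      by_contra hx
      obtain ⟨b, hb, hext⟩ := h W _ (mono_runV l hv) x ih
      exact hinv x ih hx b (Or.inr (hl b hb)) hext
  · intro W _ v hv x hx φ
    rw [forces_lwList, forces_runV_of_forces l hv hx]

end Pool.Agent.MP_3c2488_lc

end

section

namespace Pool.Agent.MP_3c2488_lc

open Classical

/-- colour `c` among `K` colours -/
def col (K c : ℕ) : Fm :=
  (Fm.var c).and (.conj (((List.range K).filter (· ≠ c)).map fun d => (Fm.var d).neg))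

def nc (K c : ℕ) : Fm := (col K c).neg

/-- refuted exactly at points that see all `K` colours -/
def gL (K : ℕ) : Fm := .disj ((List.range K).map (nc K))

section

variable {W : Type} [Preorder W]

theorem forces_col (v : ℕ → W → Prop) (K c : ℕ) (x : W) :
    Forces v (col K c) x ↔ v c x ∧ ∀ d < K, d ≠ c → ∀ y, x ≤ y → ¬ v d y := by
  simp only [col, forces_and, forces_var, forces_conj, List.mem_map, List.mem_filter,
    List.mem_range, decide_eq_true_eq]
  refine and_congr_right fun _ => ⟨fun h d hd hdc => h _ ⟨d, ⟨hd, hdc⟩, rfl⟩, ?_⟩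
  rintro h _ ⟨d, ⟨hd, hdc⟩, rfl⟩
  exact h d hd hdc

theorem not_forces_nc (v : ℕ → W → Prop) (K c : ℕ) (x : W) :
    ¬ Forces v (nc K c) x ↔ ∃ y, x ≤ y ∧ Forces v (col K c) y := by
  simp [nc, forces_neg]

theorem not_forces_gL (v : ℕ → W → Prop) (K : ℕ) (x : W) :
    ¬ Forces v (gL K) x ↔ ∀ c < K, ∃ y, x ≤ y ∧ Forces v (col K c) y := by
  simp only [gL, forces_disj, List.mem_map, List.mem_range, not_exists, not_and,
    ← not_forces_nc]
  refine ⟨fun h c hc => h _ ⟨c, hc, rfl⟩, ?_⟩
  rintro h _ ⟨c, hc, rfl⟩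
  exact h c hc

theorem col_unique {v : ℕ → W → Prop} {K c d : ℕ} (hd : d < K) {x : W}
    (h1 : Forces v (col K c) x) (h2 : Forces v (col K d) x) : d = c := by
  rw [forces_col] at h1 h2
  by_contra hne
  exact h1.2 d hd hne x le_rfl h2.1

/-- a cofinal set with fewer than `K` points -/
def FewTops (W : Type) [Preorder W] (K : ℕ) : Prop :=
  ∃ M : Finset W, M.card < K ∧ ∀ x, ∃ m ∈ M, x ≤ m

theorem FewTops.valid_gL {K : ℕ} (h : FewTops W K) : Valid W (gL K) := by
  obtain ⟨M, hM, hc⟩ := h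
  intro v hv x
  by_contra hx
  rw [not_forces_gL] at hx
  have : ∀ c : Fin K, ∃ m ∈ M, Forces v (col K c) m := by
    intro c
    obtain ⟨y, -, hy⟩ := hx c c.2
    obtain ⟨m, hm, hym⟩ := hc y
    exact ⟨m, hm, Forces.mono hv _ hym hy⟩
  choose f hf1 hf2 using this
  have hinj : Function.Injective f := by
    intro c d hcd
    exact Fin.ext (col_unique c.2 (hf2 d) (hcd ▸ hf2 c))
  have := Finset.card_le_card_of_injOn (s := Finset.univ) (t := M) f (fun c _ => hf1 c)
    hinj.injOn
  simp at this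
  omega

end

/-- subformulas -/
noncomputable def Fm.sub : Fm → Finset Fm
  | .var n => {.var n}
  | .bot => {.bot}
  | .and a b => insert (.and a b) (a.sub ∪ b.sub)
  | .or a b => insert (.or a b) (a.sub ∪ b.sub)
  | .imp a b => insert (.imp a b) (a.sub ∪ b.sub)

theorem Fm.self_mem_sub (a : Fm) : a ∈ a.sub := by
  cases a <;> simp [Fm.sub]

theorem Fm.sub_trans (φ : Fm) : ∀ a ∈ φ.sub, a.sub ⊆ φ.sub := by
  induction φ with
  | var n => intro a ha; simp only [Fm.sub, Finset.mem_singleton] at ha; subst ha; rfl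
  | bot => intro a ha; simp only [Fm.sub, Finset.mem_singleton] at ha; subst ha; rfl
  | and a b iha ihb =>
    intro c hc
    simp only [Fm.sub, Finset.mem_insert, Finset.mem_union] at hc
    rcases hc with rfl | hc | hc
    · rfl
    · exact (iha c hc).trans (Finset.subset_union_left.trans (Finset.subset_insert _ _))
    · exact (ihb c hc).trans (Finset.subset_union_right.trans (Finset.subset_insert _ _))
  | or a b iha ihb =>
    intro c hc
    simp only [Fm.sub, Finset.mem_insert, Finset.mem_union] at hc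
    rcases hc with rfl | hc | hc
    · rfl
    · exact (iha c hc).trans (Finset.subset_union_left.trans (Finset.subset_insert _ _))
    · exact (ihb c hc).trans (Finset.subset_union_right.trans (Finset.subset_insert _ _))
  | imp a b iha ihb =>
    intro c hc
    simp only [Fm.sub, Finset.mem_insert, Finset.mem_union] at hc
    rcases hc with rfl | hc | hc
    · rfl
    · exact (iha c hc).trans (Finset.subset_union_left.trans (Finset.subset_insert _ _))
    · exact (ihb c hc).trans (Finset.subset_union_right.trans (Finset.subset_insert _ _))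

structure SubClosed (S : Finset Fm) : Prop where
  and : ∀ a b, Fm.and a b ∈ S → a ∈ S ∧ b ∈ S
  or : ∀ a b, Fm.or a b ∈ S → a ∈ S ∧ b ∈ S
  imp : ∀ a b, Fm.imp a b ∈ S → a ∈ S ∧ b ∈ S

theorem subClosed_sub (φ : Fm) : SubClosed φ.sub := by
  refine ⟨fun a b h => ?_, fun a b h => ?_, fun a b h => ?_⟩ <;>
  · have := φ.sub_trans _ h
    constructor
    · exact this (by simp [Fm.sub, Fm.self_mem_sub])
    · exact this (by simp [Fm.sub, Fm.self_mem_sub])

section Filtration

variable {A : Fm}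

/-- traces on `S` of prime theories above `T₀` -/
def Filt (S : Finset Fm) (T₀ : Can A) : Type :=
  {τ : Finset Fm // ∃ T : Can A, T₀ ≤ T ∧ τ = S.filter (· ∈ T.1)}

instance (S : Finset Fm) (T₀ : Can A) : PartialOrder (Filt S T₀) :=
  inferInstanceAs (PartialOrder {τ : Finset Fm // ∃ T : Can A, T₀ ≤ T ∧ τ = S.filter (· ∈ T.1)})

instance (S : Finset Fm) (T₀ : Can A) : Finite (Filt S T₀) := by
  have : Set.Finite {τ : Finset Fm | ∃ T : Can A, T₀ ≤ T ∧ τ = S.filter (· ∈ T.1)} := by
    refine (S.powerset.finite_toSet).subset ?_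
    rintro τ ⟨T, -, rfl⟩
    simp only [Finset.coe_powerset, Set.mem_preimage, Set.mem_powerset_iff, Finset.coe_subset]
    exact Finset.filter_subset _ _
  exact this

def filtVal (S : Finset Fm) (T₀ : Can A) : ℕ → Filt S T₀ → Prop := fun n τ => Fm.var n ∈ τ.1

theorem mono_filtVal (S : Finset Fm) (T₀ : Can A) : Mono (filtVal S T₀) :=
  fun _ _ _ h hx => h hx

theorem filt_truth {S : Finset Fm} (hS : SubClosed S) (T₀ : Can A) (a : Fm) :
    a ∈ S → ∀ τ : Filt S T₀, Forces (filtVal S T₀) a τ ↔ a ∈ τ.1 := by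
  induction a with
  | var n => intro _ τ; rfl
  | bot =>
    rintro _ ⟨τ, T, hT, rfl⟩
    simp [T.2.cons]
  | and a b iha ihb =>
    rintro h ⟨τ, T, hT, rfl⟩
    obtain ⟨ha, hb⟩ := hS.and a b h
    simp only [forces_and, iha ha, ihb hb, Finset.mem_filter, ha, hb, h, true_and, ← truth]
  | or a b iha ihb =>
    rintro h ⟨τ, T, hT, rfl⟩
    obtain ⟨ha, hb⟩ := hS.or a b h
    simp only [forces_or, iha ha, ihb hb, Finset.mem_filter, ha, hb, h, true_and, ← truth]
  | imp a b iha ihb =>
    rintro h ⟨τ, T, hT, rfl⟩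
    obtain ⟨ha, hb⟩ := hS.imp a b h
    simp only [forces_imp, iha ha, ihb hb, Finset.mem_filter, h, true_and]
    constructor
    · intro H
      rw [← truth, forces_imp]
      intro U hU hUa
      have := H ⟨S.filter (· ∈ U.1), U, hT.trans hU, rfl⟩ (by
        intro c hc
        simp only [Finset.mem_filter] at hc ⊢
        exact ⟨hc.1, hU hc.2⟩) (by simpa [ha, ← truth] using hUa)
      simpa [hb, ← truth] using this
    · rintro H ⟨σ, U, hU, rfl⟩ hle hUa
      have h1 : Fm.imp a b ∈ S.filter (· ∈ U.1) := hle (by simp [h, H])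
      simp only [Finset.mem_filter, ← truth] at h1 hUa ⊢
      exact ⟨hb, h1.2 U le_rfl hUa.2⟩

theorem filt_fewTops {K : ℕ} (hA : ∀ σ, Der A ∅ ((gL K).subst σ)) (S : Finset Fm) (T₀ : Can A) :
    FewTops (Filt S T₀) K := by
  have : Fintype (Filt S T₀) := Fintype.ofFinite _
  refine ⟨Finset.univ.filter IsMax, ?_, fun x => ?_⟩
  · by_contra hlt
    have hle : Fintype.card (Fin K) ≤ Fintype.card (Finset.univ.filter (IsMax (α := Filt S T₀))) := by
      rw [Fintype.card_fin, Fintype.card_coe]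
      exact not_lt.1 hlt
    obtain ⟨f⟩ := Function.Embedding.nonempty_of_card_le hle
    have hmax : ∀ c, IsMax (f c).1 := fun c => (Finset.mem_filter.1 (f c).2).2
    choose T hT1 hT2 using fun c => (f c).1.2
    let σ : ℕ → Fm := fun c => if h : c < K then .conj (f ⟨c, h⟩).1.1.toList else .bot
    have h0 := der_iff_can.1 (hA σ) T₀
    rw [forces_subst] at h0
    refine (not_forces_gL _ K T₀).2 (fun c hc => ⟨T ⟨c, hc⟩, hT1 _, ?_⟩) h0
    rw [forces_col]
    constructor
    · simp only [σ, dif_pos hc, forces_conj, Finset.mem_toList, truth]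
      intro a ha
      rw [hT2] at ha
      exact (Finset.mem_filter.1 ha).2
    · intro d hd hdc U hU hUd
      simp only [σ, dif_pos hd, forces_conj, Finset.mem_toList, truth] at hUd
      let u : Filt S T₀ := ⟨S.filter (· ∈ U.1), U, (hT1 _).trans hU, rfl⟩
      have h1 : (f ⟨c, hc⟩).1 ≤ u := by
        intro a ha
        rw [hT2] at ha
        simp only [Finset.mem_filter, u] at ha ⊢
        exact ⟨ha.1, hU ha.2⟩
      have h2 : (f ⟨d, hd⟩).1 ≤ u := by
        intro a ha
        simp only [Finset.mem_filter, u]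
        refine ⟨?_, hUd a ha⟩
        rw [hT2] at ha
        exact (Finset.mem_filter.1 ha).1
      have e1 := le_antisymm h1 (hmax _ h1)
      have e2 := le_antisymm h2 (hmax _ h2)
      have : f ⟨d, hd⟩ = f ⟨c, hc⟩ := Subtype.ext (e2.trans e1.symm)
      exact hdc (congrArg Fin.val (f.injective this))
  · obtain ⟨m, hm, hmax⟩ := Finite.exists_le_maximal (p := fun _ => True) (a := x) trivial
    refine ⟨m, ?_, hm⟩
    simp only [Finset.mem_filter, Finset.mem_univ, true_and]
    exact fun y hy => hmax.2 trivial hy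

theorem fmp {K : ℕ} (hA : ∀ σ, Der A ∅ ((gL K).subst σ)) {φ : Fm}
    (h : ∀ (W : Type) [PartialOrder W] [Finite W], FewTops W K → Valid W φ) : Der A ∅ φ := by
  rw [der_iff_can]
  intro T₀
  have := h (Filt φ.sub T₀) (filt_fewTops hA _ _) _ (mono_filtVal _ _)
    ⟨φ.sub.filter (· ∈ T₀.1), T₀, le_rfl, rfl⟩
  rw [filt_truth (subClosed_sub φ) T₀ φ φ.self_mem_sub] at this
  rw [truth]
  exact (Finset.mem_filter.1 this).2

end Filtration

section Closure

/-- free closure of a frame under tight predecessors of nonempty finite families -/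
inductive Cl (W : Type) : Type
  | old : W → Cl W
  | new : (n : ℕ) → (Fin (n + 1) → Cl W) → Cl W

variable {W : Type} [PartialOrder W]

def Cl.le : Cl W → Cl W → Prop
  | .old a, y => ∃ b, a ≤ b ∧ y = .old b
  | .new n f, y => y = .new n f ∨ ∃ i, Cl.le (f i) y

theorem Cl.le_trans' (x : Cl W) : ∀ y z, Cl.le x y → Cl.le y z → Cl.le x z := by
  induction x with
  | old a =>
    rintro y z ⟨b, hab, rfl⟩ ⟨c, hbc, rfl⟩
    exact ⟨c, hab.trans hbc, rfl⟩
  | new n f ih =>
    rintro y z (rfl | ⟨i, hi⟩) h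
    · exact h
    · exact Or.inr ⟨i, ih i y z hi h⟩

instance : Preorder (Cl W) where
  le := Cl.le
  le_refl x := by
    cases x with
    | old a => exact ⟨a, le_rfl, rfl⟩
    | new n f => exact Or.inl rfl
  le_trans := Cl.le_trans'

theorem Cl.old_le (a : W) (y : Cl W) : Cl.old a ≤ y ↔ ∃ b, a ≤ b ∧ y = .old b := Iff.rfl
theorem Cl.new_le (n : ℕ) (f : Fin (n + 1) → Cl W) (y : Cl W) :
    Cl.new n f ≤ y ↔ y = .new n f ∨ ∃ i, f i ≤ y := Iff.rfl

def clVal (v : ℕ → W → Prop) : ℕ → Cl W → Prop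
  | n, .old a => v n a
  | _, .new _ _ => False

theorem mono_clVal {v : ℕ → W → Prop} (hv : Mono v) : Mono (clVal v) := by
  intro n x y h hx
  cases x with
  | old a =>
    obtain ⟨b, hab, rfl⟩ := h
    exact hv n a b hab hx
  | new n f => exact hx.elim

theorem forces_old (v : ℕ → W → Prop) (φ : Fm) (x : W) :
    Forces v φ x ↔ Forces (clVal v) φ (.old x) :=
  forces_pmorph (Cl.old : W → Cl W) (fun x y h => (Cl.old_le x _).2 ⟨y, h, rfl⟩)
    (fun x y' h => by obtain ⟨b, hb, rfl⟩ := (Cl.old_le x _).1 h; exact ⟨b, hb, rfl⟩)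
    (clVal v) φ x

theorem FewTops.cl {K : ℕ} (h : FewTops W K) : FewTops (Cl W) K := by
  obtain ⟨M, hM, hc⟩ := h
  refine ⟨M.image Cl.old, Finset.card_image_le.trans_lt hM, fun x => ?_⟩
  induction x with
  | old a =>
    obtain ⟨m, hm, ham⟩ := hc a
    exact ⟨.old m, Finset.mem_image_of_mem _ hm, m, ham, rfl⟩
  | new n f ih =>
    obtain ⟨m, hm, h⟩ := ih 0
    exact ⟨m, hm, Or.inr ⟨0, h⟩⟩

theorem Cl.tight [Finite W] [Nonempty W] {ι : Type} [Finite ι] (g : ι → Cl W) :
    ∃ z : Cl W, ∀ y, z ≤ y ↔ y = z ∨ ∃ i, g i ≤ y := by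
  rcases isEmpty_or_nonempty ι with hι | hι
  · obtain ⟨m, -, hmax⟩ := Finite.exists_le_maximal (p := fun _ : W => True)
      (a := Classical.arbitrary W) trivial
    refine ⟨.old m, fun y => ?_⟩
    simp only [Cl.old_le, IsEmpty.exists_iff, or_false]
    constructor
    · rintro ⟨b, hb, rfl⟩
      rw [le_antisymm hb (hmax.2 trivial hb)]
    · rintro rfl
      exact ⟨m, le_rfl, rfl⟩
  · obtain ⟨n, ⟨e⟩⟩ := Finite.exists_equiv_fin ι
    cases n with
    | zero => exact (e (Classical.arbitrary ι)).elim0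
    | succ n =>
      refine ⟨.new n (fun i => g (e.symm i)), fun y => ?_⟩
      rw [Cl.new_le]
      refine or_congr_right ⟨fun ⟨i, hi⟩ => ⟨_, hi⟩, fun ⟨i, hi⟩ => ⟨e i, by simpa using hi⟩⟩

end Closure

section Types

/-- the `S`-type of a point -/
noncomputable def tp {W : Type} [Preorder W] (S : Finset Fm) (v : ℕ → W → Prop) (x : W) :
    Finset Fm := S.filter (Forces v · x)

/-- all points above have a type in `𝒯` -/
noncomputable def PT (S : Finset Fm) (𝒯 : Finset (Finset Fm)) : Fm :=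
  .conj ((S.powerset \ 𝒯).toList.map fun t => (Fm.conj t.toList).imp (.disj (S \ t).toList))

theorem forces_PT {W : Type} [Preorder W] (S : Finset Fm) (𝒯 : Finset (Finset Fm))
    (v : ℕ → W → Prop) (x : W) : Forces v (PT S 𝒯) x ↔ ∀ y, x ≤ y → tp S v y ∈ 𝒯 := by
  simp only [PT, forces_conj, List.mem_map, Finset.mem_toList, Finset.mem_sdiff,
    Finset.mem_powerset]
  constructor
  · intro h y hy
    by_contra hn
    have := h _ ⟨tp S v y, ⟨Finset.filter_subset _ _, hn⟩, rfl⟩ y hy (by
      rw [forces_conj]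
      intro a ha
      exact (Finset.mem_filter.1 (Finset.mem_toList.1 ha)).2)
    rw [forces_disj] at this
    obtain ⟨a, ha, hf⟩ := this
    rw [Finset.mem_toList, Finset.mem_sdiff] at ha
    exact ha.2 (Finset.mem_filter.2 ⟨ha.1, hf⟩)
  · rintro h _ ⟨t, ⟨ht, hn⟩, rfl⟩ y hy hc
    rw [forces_disj]
    by_contra hd
    push Not at hd
    rw [forces_conj] at hc
    refine hn ?_
    have : tp S v y = t := by
      ext a
      simp only [tp, Finset.mem_filter]
      constructor
      · rintro ⟨ha, hf⟩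
        by_contra hat
        exact hd a (by simp [ha, hat]) hf
      · intro ha
        exact ⟨ht ha, hc a (by simpa using ha)⟩
    exact this ▸ h y hy

noncomputable def varsOf (S : Finset Fm) : Finset ℕ :=
  S.preimage Fm.var (fun _ _ _ _ h => Fm.var.inj h)

theorem mem_varsOf {S : Finset Fm} {n : ℕ} : n ∈ varsOf S ↔ Fm.var n ∈ S := by
  simp [varsOf]

theorem forces_congr_S {W : Type} [Preorder W] {S : Finset Fm} (hS : SubClosed S)
    {v w : ℕ → W → Prop} (a : Fm) :
    a ∈ S → ∀ x, (∀ n ∈ varsOf S, ∀ y, x ≤ y → (v n y ↔ w n y)) →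
      (Forces v a x ↔ Forces w a x) := by
  induction a with
  | var n => intro ha x h; exact h n (mem_varsOf.2 ha) x le_rfl
  | bot => intro _ x _; rfl
  | and a b iha ihb =>
    intro ha x h; simp [iha (hS.and a b ha).1 x h, ihb (hS.and a b ha).2 x h]
  | or a b iha ihb =>
    intro ha x h; simp [iha (hS.or a b ha).1 x h, ihb (hS.or a b ha).2 x h]
  | imp a b iha ihb =>
    intro ha x h
    simp only [forces_imp]
    refine forall_congr' fun y => forall_congr' fun hy => ?_
    rw [iha (hS.imp a b ha).1 y fun n hn z hz => h n hn z (hy.trans hz),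
      ihb (hS.imp a b ha).2 y fun n hn z hz => h n hn z (hy.trans hz)]

/-- the types realised in a model with tight predecessors define a formula with the
extension property -/
theorem extProp_of_tight {S : Finset Fm} (hS : SubClosed S) {U : Type} [Preorder U]
    (u : ℕ → U → Prop) (hu : Mono u)
    (ht : ∀ {ι : Type} [Finite ι] (g : ι → U), ∃ z : U, ∀ y, z ≤ y ↔ y = z ∨ ∃ i, g i ≤ y)
    (𝒯 : Finset (Finset Fm)) (h𝒯 : ∀ t, t ∈ 𝒯 ↔ ∃ y, tp S u y = t) :
    ExtProp (PT S 𝒯) (varsOf S) := by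
  intro W _ _ v hv x hx
  have : ∀ y : {y // x < y}, ∃ y', tp S u y' = tp S v y.1 := fun y =>
    (h𝒯 _).1 ((forces_PT S 𝒯 v y.1).1 (hx y.1 y.2) y.1 le_rfl)
  choose g hg using this
  have hg' : ∀ y : {y // x < y}, ∀ a ∈ S, (Forces u a (g y) ↔ Forces v a y.1) := by
    intro y a ha
    have := Finset.ext_iff.1 (hg y) a
    simpa [tp, ha] using this
  obtain ⟨z, hz⟩ := ht g
  refine ⟨(varsOf S).filter (fun n => u n z), Finset.filter_subset _ _, ?_, ?_⟩
  · intro n hn y hy
    rw [Finset.mem_filter] at hn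
    exact (hg' ⟨y, hy⟩ _ (mem_varsOf.1 hn.1)).1
      (hu n z _ ((hz _).2 (Or.inr ⟨⟨y, hy⟩, le_rfl⟩)) hn.2)
  · intro v' hv' h1 h2
    have above : ∀ y, x < y → ∀ a ∈ S, (Forces v' a y ↔ Forces v a y) := fun y hy a ha =>
      forces_congr_S hS a ha y fun n hn w hw => h1 n hn w (hy.trans_le hw)
    have root : ∀ a, a ∈ S → (Forces v' a x ↔ Forces u a z) := by
      intro a
      induction a with
      | var n =>
        intro ha
        simp only [forces_var]
        rw [h2 n (mem_varsOf.2 ha), Finset.mem_filter]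
        simp [mem_varsOf.2 ha]
      | bot => intro _; rfl
      | and a b iha ihb => intro ha; simp [iha (hS.and a b ha).1, ihb (hS.and a b ha).2]
      | or a b iha ihb => intro ha; simp [iha (hS.or a b ha).1, ihb (hS.or a b ha).2]
      | imp a b iha ihb =>
        intro hab
        obtain ⟨ha, hb⟩ := hS.imp a b hab
        constructor
        · intro h w hw
          rcases (hz w).1 hw with rfl | ⟨y, hy⟩
          · rw [← iha ha, ← ihb hb]
            exact h x le_rfl
          · exact (hg' y _ hab).2 ((above y.1 y.2 _ hab).1 (Forces.mono hv' _ y.2.le h)) w hy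
        · intro h w hw
          rcases hw.eq_or_lt with rfl | hw
          · rw [iha ha, ihb hb]
            exact h z le_rfl
          · exact (above w hw _ hab).2 ((hg' ⟨w, hw⟩ _ hab).1
              (Forces.mono hu _ ((hz _).2 (Or.inr ⟨⟨w, hw⟩, le_rfl⟩)) h)) w le_rfl
    rw [forces_PT]
    intro y hy
    rw [h𝒯]
    rcases hy.eq_or_lt with rfl | hy
    · exact ⟨z, Finset.filter_congr fun a ha => (root a ha).symm⟩
    · exact ⟨g ⟨y, hy⟩, (hg ⟨y, hy⟩).trans (Finset.filter_congr fun a ha => (above y hy a ha).symm)⟩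

end Types

section Main

variable {A : Fm}

theorem approx {K : ℕ} (hA : ∀ σ, Der A ∅ ((gL K).subst σ))
    (hV : ∀ (W : Type) [Preorder W], FewTops W K → Valid W A) (φ : Fm) :
    ∃ l : List Fm, (∀ σ, Der A ∅ (φ.subst σ) → Der A ∅ ((Fm.disj l).subst σ)) ∧
      ∀ P ∈ l, ∃ θ : ℕ → Fm, Der A ∅ (φ.subst θ) ∧
        ∀ b : Fm, Der A ∅ ((b.subst θ).imp (P.imp b)) := by
  let S := φ.sub
  let G : Finset (Finset (Finset Fm)) :=
    S.powerset.powerset.filter fun 𝒯 => ExtProp (PT S 𝒯) (varsOf S) ∧ ∀ t ∈ 𝒯, φ ∈ t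
  refine ⟨G.toList.map (PT S), fun σ hσ => ?_, ?_⟩
  · refine fmp hA fun W _ _ hW v hv x => ?_
    have : Nonempty W := ⟨x⟩
    let u : ℕ → Cl W → Prop := fun n => Forces (clVal v) (σ n)
    have hu : Mono u := mono_subst (mono_clVal hv) σ
    let 𝒯 : Finset (Finset Fm) := S.powerset.filter fun t => ∃ y, tp S u y = t
    have h𝒯 : ∀ t, t ∈ 𝒯 ↔ ∃ y, tp S u y = t := by
      intro t
      simp only [𝒯, Finset.mem_filter, Finset.mem_powerset, and_iff_right_iff_imp]
      rintro ⟨y, rfl⟩
      exact Finset.filter_subset _ _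
    rw [forces_old, forces_subst, forces_disj]
    refine ⟨PT S 𝒯, ?_, ?_⟩
    · refine List.mem_map_of_mem (Finset.mem_toList.2 (Finset.mem_filter.2 ⟨?_, ?_, ?_⟩))
      · exact Finset.mem_powerset.2 (Finset.filter_subset _ _)
      · exact extProp_of_tight (subClosed_sub φ) u hu (fun g => Cl.tight g) 𝒯 h𝒯
      · intro t ht
        obtain ⟨y, rfl⟩ := (h𝒯 t).1 ht
        refine Finset.mem_filter.2 ⟨φ.self_mem_sub, ?_⟩
        have := hσ.valid (hV _ hW.cl) _ (mono_clVal hv) y
        rwa [forces_subst] at this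
    · rw [forces_PT]
      intro y _
      exact (h𝒯 _).2 ⟨y, rfl⟩
  · intro P hP
    obtain ⟨𝒯, h𝒯, rfl⟩ := List.mem_map.1 hP
    obtain ⟨-, hext, hφ⟩ := Finset.mem_filter.1 (Finset.mem_toList.1 h𝒯)
    obtain ⟨θ, h1, h2⟩ := ghilardi hext
    refine ⟨θ, fmp hA fun W _ _ _ v hv x => ?_, fun b => ?_⟩
    · have := h1 W v hv x
      rw [forces_subst] at this ⊢
      exact (Finset.mem_filter.1 (hφ _ ((forces_PT _ _ _ _).1 this x le_rfl))).2
    · rw [der_iff_can]
      intro T U _ hb V hV hP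
      exact (h2 _ _ mono_canVal V hP b).1 (Forces.mono mono_canVal _ hV hb)

theorem completion_empty {b : Fm} : completion (Der A) ∅ b ↔ Der A ∅ b := by
  constructor
  · rintro ⟨Δ, hΔ, -, h⟩
    have := h Fm.var (fun c hc => (hΔ hc).elim)
    rwa [Fm.subst_var] at this
  · intro h
    exact ⟨∅, le_rfl, Set.finite_empty, fun σ _ => h.subst_thm σ⟩

theorem der_conj {Γ : Set Fm} {l : List Fm} (h : ∀ a ∈ l, Der A Γ a) : Der A Γ (.conj l) := by
  induction l with
  | nil => exact Der.id _ _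
  | cons a l ih =>
    exact .mp _ _ (.mp _ _ (.andI _ _) (h a (by simp))) (ih fun b hb => h b (by simp [hb]))

theorem der_of_conj {Γ : Set Fm} {l : List Fm} (h : Der A Γ (.conj l)) : ∀ a ∈ l, Der A Γ a := by
  induction l with
  | nil => simp
  | cons a l ih =>
    intro b hb
    rcases List.mem_cons.1 hb with rfl | hb
    · exact .mp _ _ (.andL _ _) h
    · exact ih (.mp _ _ (.andR _ _) h) b hb

theorem positive {K : ℕ} (hA : ∀ σ, Der A ∅ ((gL K).subst σ))
    (hV : ∀ (W : Type) [Preorder W], FewTops W K → Valid W A) :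
    HereditarilySC (completion (Der A)) := by
  rintro S ⟨-, hmono, hcut, -, -⟩ hext Γ b hΓ hadm
  have thm : ∀ c, Der A ∅ c → S ∅ c := fun c hc =>
    hext ∅ c Set.finite_empty (completion_empty.2 hc)
  have mp : ∀ Δ a c, S Δ (a.imp c) → S Δ a → S Δ c := by
    intro Δ a c h1 h2
    refine hcut Δ {a.imp c, a} c ?_ (hext _ _ (Set.toFinite _) ⟨_, le_rfl, Set.toFinite _, ?_⟩)
    · rintro d (rfl | rfl)
      exacts [h1, h2]
    · intro σ h
      exact .mp _ _ (h _ (Or.inl rfl)) (h _ (Or.inr rfl))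
  obtain ⟨l, hl1, hl2⟩ := approx hA hV (.conj hΓ.toFinset.toList)
  have h1 : S Γ (.disj l) := by
    refine hext _ _ hΓ ⟨Γ, le_rfl, hΓ, fun σ hσ => hl1 σ ?_⟩
    rw [Fm.subst_conj]
    refine der_conj fun a ha => ?_
    obtain ⟨c, hc, rfl⟩ := List.mem_map.1 ha
    exact hσ c (by simpa using hc)
  have h2 : ∀ P ∈ l, S ∅ (P.imp b) := by
    intro P hP
    obtain ⟨θ, hθ1, hθ2⟩ := hl2 P hP
    refine mp _ _ _ (thm _ (hθ2 b)) (hadm θ fun c hc => thm _ ?_)
    rw [Fm.subst_conj] at hθ1
    exact der_of_conj hθ1 _ (List.mem_map_of_mem (by simpa using hc))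
  have h3 : S ∅ ((Fm.disj l).imp b) := by
    clear h1 hl1 hl2
    induction l with
    | nil => exact thm _ (.efq b)
    | cons P l ih =>
      exact mp _ _ _ (mp _ _ _ (thm _ (.orE P (.disj l) b)) (h2 P (by simp)))
        (ih fun Q hQ => h2 Q (by simp [hQ]))
  exact mp _ _ _ (hmono _ _ _ (Set.empty_subset _) h3) h1

end Main

end Pool.Agent.MP_3c2488_lc

end

section

namespace Pool.Agent.MP_3c2488_lc

open Classical

/-- premise of the relativised Scott rule -/
def scottP (p q : Fm) : Fm :=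
  (q.imp p).and (q.neg.neg.and
    (((((p.imp q).imp q).imp p)).imp (p.or (p.imp q))))

/-- conclusion of the relativised Scott rule -/
def scottC (p q : Fm) : Fm := (p.imp q).or ((p.imp q).imp q)

inductive G5 : Type
  | r | a1 | a0 | b | t
  deriving DecidableEq, Fintype

inductive Y6 : Type
  | r | a1 | a0 | b | t | s
  deriving DecidableEq, Fintype

def leG (x y : G5) : Bool := x = y || x = .r || y = .t || (x = .a1 && y = .a0)
def leY (x y : Y6) : Bool :=
  x = y || (x = .r && y ≠ .s) || y = .t || (x = .a1 && y = .a0) || (x = .s && (y = .a0 || y = .b))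

instance : Preorder G5 where
  le x y := leG x y = true
  le_refl := by decide
  le_trans := by decide

instance : Preorder Y6 where
  le x y := leY x y = true
  le_refl := by decide
  le_trans := by decide

def iG : G5 → Y6
  | .r => .r | .a1 => .a1 | .a0 => .a0 | .b => .b | .t => .t
def gG : G5 → Y6
  | .r => .s | .a1 => .a0 | .a0 => .a0 | .b => .b | .t => .t

theorem iG_mono : ∀ x y : G5, leG x y = true → leY (iG x) (iG y) = true := by decide
theorem iG_back : ∀ (x : G5) (y' : Y6), leY (iG x) y' = true →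
    ∃ y, leG x y = true ∧ iG y = y' := by decide
theorem gG_mono : ∀ x y : G5, leG x y = true → leY (gG x) (gG y) = true := by decide
theorem gG_back : ∀ (x : G5) (y' : Y6), leY (gG x) y' = true →
    ∃ y, leG x y = true ∧ gG y = y' := by decide
theorem Y6_cover : ∀ y : Y6, (∃ x, iG x = y) ∨ ∃ x, gG x = y := by decide
theorem iG_inj : ∀ x y : G5, iG x = iG y → x = y := by decide

theorem valid_Y_of_valid_G {φ : Fm} (h : Valid G5 φ) : Valid Y6 φ := by
  intro v hv y
  rcases Y6_cover y with ⟨x, rfl⟩ | ⟨x, rfl⟩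
  · exact (forces_pmorph (W := G5) (W' := Y6) iG iG_mono iG_back v φ x).1
      (h _ (fun n a b hab => hv n _ _ (iG_mono a b hab)) x)
  · exact (forces_pmorph (W := G5) (W' := Y6) gG gG_mono gG_back v φ x).1
      (h _ (fun n a b hab => hv n _ _ (gG_mono a b hab)) x)

section

variable {W : Type} [Preorder W]

/-- the map to `G5` given by two formulas -/
noncomputable def fG (v : ℕ → W → Prop) (p q : Fm) (x : W) : G5 :=
  if Forces v q x then .t else if Forces v p x then .a0 else if Forces v (p.imp q) x then .b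
  else if Forces v ((p.imp q).imp q) x then .a1 else .r

/-- formula for the principal upset of a point of `G5` -/
def piG (p q : Fm) : G5 → Fm
  | .r => .top | .a1 => (p.imp q).imp q | .a0 => p | .b => p.imp q | .t => q

theorem forces_piG {v : ℕ → W → Prop} (hv : Mono v) {p q : Fm}
    (h : ∀ x, Forces v (scottP p q) x) (g : G5) (x : W) :
    Forces v (piG p q g) x ↔ leG g (fG v p q x) = true := by
  have h1 : Forces v q x → Forces v p x := (h x).1 x le_rfl
  have h2 : Forces v q x → Forces v (p.imp q) x := fun hq y hy _ => Forces.mono hv q hy hq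
  have h3 : Forces v p x → Forces v ((p.imp q).imp q) x := fun hp y hy hpq =>
    hpq y le_rfl (Forces.mono hv p hy hp)
  have h4 : Forces v p x → Forces v (p.imp q) x → Forces v q x := fun hp hpq => hpq x le_rfl hp
  have h5 : Forces v (p.imp q) x → Forces v ((p.imp q).imp q) x → Forces v q x :=
    fun hp hpq => hpq x le_rfl hp
  unfold fG
  cases g <;> simp only [piG] <;> split_ifs <;> simp_all [leG]

theorem fG_mono {v : ℕ → W → Prop} (hv : Mono v) {p q : Fm}
    (h : ∀ x, Forces v (scottP p q) x) (x y : W) (hxy : x ≤ y) :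
    leG (fG v p q x) (fG v p q y) = true := by
  rw [← forces_piG hv h]
  refine Forces.mono hv _ hxy ?_
  rw [forces_piG hv h]
  simp [leG]

theorem leG_cases : ∀ a g : G5, leG a g = true →
    g = a ∨ g = .t ∨ (g = .a0 ∧ (a = .r ∨ a = .a1)) ∨ (a = .r ∧ (g = .a1 ∨ g = .b)) := by decide

theorem fG_back {v : ℕ → W → Prop} {p q : Fm}
    (h : ∀ x, Forces v (scottP p q) x) (x : W) (g : G5) (hg : leG (fG v p q x) g = true) :
    ∃ y, x ≤ y ∧ fG v p q y = g := by
  have e0 : ∀ y, fG v p q y = .r → ¬ Forces v p y ∧ ¬ Forces v (p.imp q) y ∧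
      ¬ Forces v ((p.imp q).imp q) y := by
    intro y hy
    unfold fG at hy
    split_ifs at hy <;> simp_all
  have e1 : ∀ y, fG v p q y = .a1 → ¬ Forces v (p.imp q) y := by
    intro y hy
    unfold fG at hy
    split_ifs at hy <;> simp_all
  rcases leG_cases _ _ hg with rfl | rfl | ⟨rfl, ha⟩ | ⟨ha, rfl | rfl⟩
  · exact ⟨x, le_rfl, rfl⟩
  · have : ¬ Forces v q.neg x := (h x).2.1 x le_rfl
    rw [forces_neg] at this
    push Not at this
    obtain ⟨y, hy, hq⟩ := this
    exact ⟨y, hy, by simp [fG, hq]⟩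
  · have : ¬ Forces v (p.imp q) x := ha.elim (fun h => (e0 x h).2.1) (e1 x)
    rw [forces_imp] at this
    push Not at this
    obtain ⟨y, hy, hp, hq⟩ := this
    exact ⟨y, hy, by simp [fG, hq, hp]⟩
  · obtain ⟨h1, h2, -⟩ := e0 x ha
    have : ¬ Forces v (((p.imp q).imp q).imp p) x := fun h3 =>
      ((h x).2.2 x le_rfl h3).elim h1 h2
    rw [forces_imp] at this
    push Not at this
    obtain ⟨y, hy, hp, hq⟩ := this
    have hq' : ¬ Forces v q y := fun h' => hq ((h y).1 y le_rfl h')
    have hq'' : ¬ Forces v (p.imp q) y := fun h' => hq' (hp y le_rfl h')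
    exact ⟨y, hy, by simp [fG, hq, hp, hq', hq'']⟩
  · obtain ⟨-, -, h3⟩ := e0 x ha
    rw [forces_imp] at h3
    push Not at h3
    obtain ⟨y, hy, hp, hq⟩ := h3
    have hp' : ¬ Forces v p y := fun h' => hq (hp y le_rfl h')
    exact ⟨y, hy, by simp [fG, hq, hp, hp']⟩

theorem fG_eq_zero {v : ℕ → W → Prop} (hv : Mono v) {p q : Fm}
    {x : W} (hx : ¬ Forces v (scottC p q) x) :
    fG v p q x = .r := by
  simp only [scottC, forces_or, not_or] at hx
  have h2 : ¬ Forces v q x := fun hq => hx.1 fun y hy _ => Forces.mono hv q hy hq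
  have h3 : ¬ Forces v p x := fun hp => hx.2 fun y hy hpq =>
    hpq y le_rfl (Forces.mono hv p hy hp)
  simp [fG, h2, h3, hx.1, hx.2]

end

theorem no_pmorph : ∀ f : Y6 → G5, (∀ x y, leY x y = true → leG (f x) (f y) = true) →
    (∀ x g, leG (f x) g = true → ∃ y, leY x y = true ∧ f y = g) → f .r ≠ .r := by
  intro f h1 h2 h0
  obtain ⟨y1, hy1, e1⟩ := h2 .r .a1 (by rw [h0]; decide)
  obtain ⟨y3, hy3, e3⟩ := h2 .r .b (by rw [h0]; decide)
  obtain ⟨y2, hy2, e2⟩ := h2 y1 .a0 (by rw [e1]; decide)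
  obtain ⟨y4, hy4, e4⟩ := h2 y2 .t (by rw [e2]; decide)
  have n12 : y1 ≠ y2 := by rintro rfl; rw [e1] at e2; exact absurd e2 (by decide)
  have n24 : y2 ≠ y4 := by rintro rfl; rw [e2] at e4; exact absurd e4 (by decide)
  have n01 : y1 ≠ .r := by rintro rfl; rw [h0] at e1; exact absurd e1 (by decide)
  have n03 : y3 ≠ .r := by rintro rfl; rw [h0] at e3; exact absurd e3 (by decide)
  have k : ∀ y1 y2 y4 : Y6, leY .r y1 = true → leY y1 y2 = true → leY y2 y4 = true → y1 ≠ y2 →
      y2 ≠ y4 → y1 ≠ .r → y1 = .a1 ∧ y2 = .a0 ∧ y4 = .t := by decide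
  obtain ⟨rfl, rfl, rfl⟩ := k y1 y2 y4 hy1 hy2 hy4 n12 n24 n01
  have k3 : ∀ y : Y6, leY .r y = true → y ≠ .r → y = .a1 ∨ y = .a0 ∨ y = .b ∨ y = .t := by decide
  have : y3 = .b := by
    rcases k3 y3 hy3 n03 with rfl | rfl | rfl | rfl
    · rw [e1] at e3; exact absurd e3 (by decide)
    · rw [e2] at e3; exact absurd e3 (by decide)
    · rfl
    · rw [e4] at e3; exact absurd e3 (by decide)
  subst this
  have a2 := h1 .s .a0 (by decide)
  have a3 := h1 .s .b (by decide)
  rw [e2] at a2
  rw [e3] at a3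
  have k5 : ∀ g : G5, leG g .a0 = true → leG g .b = true → g = .r := by decide
  have e5 := k5 _ a2 a3
  obtain ⟨y, hy, ey⟩ := h2 .s .a1 (by rw [e5]; decide)
  have k6 : ∀ y : Y6, leY .s y = true → y = .s ∨ y = .a0 ∨ y = .b ∨ y = .t := by decide
  rcases k6 y hy with rfl | rfl | rfl | rfl
  · rw [e5] at ey; exact absurd ey (by decide)
  · rw [e2] at ey; exact absurd ey (by decide)
  · rw [e3] at ey; exact absurd ey (by decide)
  · rw [e4] at ey; exact absurd ey (by decide)

theorem scott_admissible {p q : Fm} (h : Valid G5 (scottP p q)) : Valid G5 (scottC p q) := by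
  intro v hv x
  refine Forces.mono hv _ (x := G5.r) (show leG .r x = true by simp [leG]) ?_
  let w : ℕ → Y6 → Prop := fun n y => ∃ x : G5, iG x = y ∧ v n x
  have hw : Mono w := by
    rintro n _ y hy ⟨a, rfl, ha⟩
    obtain ⟨b, hb, rfl⟩ := iG_back a y hy
    exact ⟨b, rfl, hv n a b hb ha⟩
  have e : (fun n (x : G5) => w n (iG x)) = v := by
    funext n x
    refine propext ⟨?_, fun h => ⟨x, rfl, h⟩⟩
    rintro ⟨a, ha, h⟩
    rwa [← iG_inj _ _ ha]
  have hP := valid_Y_of_valid_G h w hw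
  rw [← e, forces_pmorph (W := G5) (W' := Y6) iG iG_mono iG_back w]
  by_contra hn
  exact no_pmorph (fG w p q) (fG_mono hw hP) (fG_back hP) (fG_eq_zero hw hn)

/-- the global consequence relation of `G5` -/
def SG (Γ : Set Fm) (b : Fm) : Prop :=
  ∃ Δ, Δ ⊆ Γ ∧ Δ.Finite ∧ ∀ v : ℕ → G5 → Prop, Mono v → (∀ c ∈ Δ, ∀ x, Forces v c x) →
    ∀ x, Forces v b x

theorem SG_empty {b : Fm} : SG ∅ b ↔ Valid G5 b := by
  constructor
  · rintro ⟨Δ, hΔ, -, h⟩ v hv
    exact h v hv fun c hc => (hΔ hc).elim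
  · intro h
    exact ⟨∅, le_rfl, Set.finite_empty, fun v hv _ => h v hv⟩

theorem SG_ded : IsDeductiveSystem SG := by
  refine ⟨?_, ?_, ?_, ?_, ?_⟩
  · intro Γ b hb
    exact ⟨{b}, by simpa, Set.finite_singleton b, fun v _ h => h b rfl⟩
  · rintro Γ Δ b h ⟨E, h1, h2, h3⟩
    exact ⟨E, h1.trans h, h2, h3⟩
  · rintro Γ Δ b h ⟨E, h1, h2, h3⟩
    choose! F hF1 hF2 hF3 using h
    refine ⟨⋃ c ∈ E, F c, ?_, h2.biUnion fun c hc => hF2 c (h1 hc), fun v hv H => ?_⟩
    · exact Set.iUnion₂_subset fun c hc => hF1 c (h1 hc)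
    · refine h3 v hv fun c hc => hF3 c (h1 hc) v hv fun d hd => H d ?_
      exact Set.mem_biUnion hc hd
  · rintro Γ b ⟨E, h1, h2, h3⟩
    exact ⟨E, h1, h2, E, le_rfl, h2, h3⟩
  · rintro σ Γ b ⟨E, h1, h2, h3⟩
    refine ⟨Fm.subst σ '' E, Set.image_mono h1, h2.image _, fun v hv H x => ?_⟩
    rw [forces_subst]
    refine h3 _ (mono_subst hv σ) (fun c hc y => ?_) x
    rw [← forces_subst]
    exact H _ (Set.mem_image_of_mem _ hc) y

def vG : ℕ → G5 → Prop := fun n x => x = .t ∨ (n = 0 ∧ x = .a0)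

theorem mono_vG : Mono vG := by
  intro n x y h hx
  have : ∀ x y : G5, leG x y = true → (x = .t → y = .t) ∧ (x = .a0 → y = .t ∨ y = .a0) := by
    decide
  have := this x y h
  unfold vG at *
  tauto

theorem vG_P : ∀ x, Forces vG (scottP (.var 0) (.var 1)) x := by
  simp only [scottP, forces_and, forces_imp, forces_neg, forces_or, forces_var, vG]
  simp only [LE.le, one_ne_zero, false_and, or_false, true_and]
  have : ∀ P : G5 → Prop, (∀ x, P x) ↔ P .r ∧ P .a1 ∧ P .a0 ∧ P .b ∧ P .t := fun P =>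
    ⟨fun h => ⟨h _, h _, h _, h _, h _⟩, fun h x => by cases x <;> tauto⟩
  simp [this, leG]

theorem vG_C : ¬ Forces vG (scottC (.var 0) (.var 1)) .r := by
  simp only [scottC, forces_imp, forces_or, forces_var, vG]
  simp only [LE.le]
  decide

theorem negative {A p q : Fm} (h1 : Der A ∅ (scottP p q)) (h2 : ¬ Der A ∅ (scottC p q)) :
    ¬ HereditarilySC (completion (Der A)) := by
  intro H
  have hext : ∀ Γ b, Γ.Finite → completion (Der A) Γ b → SG Γ b := by
    rintro Γ b - ⟨Δ, hΔ, hf, hadm⟩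
    refine ⟨Δ, hΔ, hf, fun v hv hc x => ?_⟩
    refine Forces.mono hv _ (x := G5.r) (show leG .r x = true by simp [leG]) ?_
    let σ : ℕ → Fm := fun n =>
      .disj ((Finset.univ.filter (v n)).toList.map (piG p q))
    have hP := der_iff_can.1 h1
    have key : ∀ (φ : Fm) (T : Can A), Forces (canVal A) (φ.subst σ) T ↔
        Forces v φ (fG (canVal A) p q T) := by
      intro φ T
      rw [forces_subst, ← forces_pmorph (W' := G5) (fG (canVal A) p q)
        (fG_mono mono_canVal hP) (fG_back hP) v φ T]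
      refine forces_congr_above φ T fun n U _ => ?_
      simp only [σ, forces_disj, List.mem_map, Finset.mem_toList, Finset.mem_filter,
        Finset.mem_univ, true_and]
      constructor
      · rintro ⟨_, ⟨g, hg, rfl⟩, h⟩
        exact hv n g _ ((forces_piG mono_canVal hP g U).1 h) hg
      · intro h
        exact ⟨_, ⟨_, h, rfl⟩, (forces_piG mono_canVal hP _ U).2 (by simp [leG])⟩
    have hb := hadm σ fun c hcΔ => der_iff_can.2 fun T => (key c T).2 (hc c hcΔ _)
    rw [der_iff_can] at h2 hb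
    push Not at h2
    obtain ⟨T, hT⟩ := h2
    have := (key b T).1 (hb T)
    rwa [fG_eq_zero mono_canVal hT] at this
  have hsc := H SG SG_ded hext {scottP (.var 0) (.var 1)} (scottC (.var 0) (.var 1))
    (Set.finite_singleton _) (fun σ hσ =>
      SG_empty.2 (scott_admissible (p := σ 0) (q := σ 1) (SG_empty.1 (hσ _ rfl))))
  obtain ⟨Δ, hΔ, -, h⟩ := hsc
  refine vG_C (h vG mono_vG (fun c hc => ?_) _)
  rw [hΔ hc]
  exact vG_P

end Pool.Agent.MP_3c2488_lc

end

section

namespace Pool.Agent.MP_3c2488_lc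

open Classical

/-- a transition of a vector addition system with zero tests -/
structure Rule (k : ℕ) : Type where
  abs : Fin k → Bool
  c : Fin k → ℕ
  c' : Fin k → ℕ

def Step {k : ℕ} (R : List (Rule k)) (x y : Fin k → ℕ) : Prop :=
  ∃ r ∈ R, ∃ β : Fin k → ℕ, (∀ i, r.abs i = true → β i = 0) ∧ x = β + r.c ∧ y = β + r.c'

def Match {k : ℕ} (abs : Fin k → Bool) (c x : Fin k → ℕ) : Prop :=
  ∃ β : Fin k → ℕ, (∀ i, abs i = true → β i = 0) ∧ x = β + c

def Imp (K j : ℕ) (a b : Fm) : Fm :=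
  (a.and (nc K (j + 1))).imp (b.or ((nc K j).or (nc K 0)))

def uv (K j : ℕ) (ab : Fm × Fm) : ℕ → Fm × Fm
  | 0 => ab
  | n + 1 => ((uv K j ab n).2, (uv K j ab n).2.or (Imp K j (uv K j ab n).2 (uv K j ab n).1))

def VV (K j : ℕ) (ab : Fm × Fm) (n : ℕ) : Fm := Imp K j (uv K j ab n).2 (uv K j ab n).1

def std (K : ℕ) : Fm × Fm := (.bot, Imp K 1 .top .bot)

def EE (k : ℕ) (st : Fin k → Fm × Fm) (c : Fin k → ℕ) : Fm :=
  Imp (k + 4) (k + 2)
    (.conj ((List.finRange k).map fun i : Fin k => VV (k + 4) (i + 2) (st i) (c i + 3)))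
    (.disj ((List.finRange k).map fun i : Fin k => (VV (k + 4) (i + 2) (st i) (c i + 2)).or
      ((VV (k + 4) (i + 2) (st i) (c i + 1)).or (VV (k + 4) (i + 2) (st i) (c i)))))

def stOf (k : ℕ) (abs : Fin k → Bool) (i : Fin k) : Fm × Fm :=
  if abs i = true then std (k + 4) else (.var (k + 4 + 2 * i), .var (k + 4 + 2 * i + 1))

def EA (k : ℕ) (c : Fin k → ℕ) : Fm := EE k (fun _ => std (k + 4)) c

def gT (k : ℕ) : Fm :=
  (gL (k + 4)).or (.disj ((List.range (k + 2)).map fun j => Imp (k + 4) (j + 1) .top .bot))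

def ren {K : ℕ} (π : Fin K → Fin K) : ℕ → Fm :=
  fun n => if h : n < K then .var (π ⟨n, h⟩) else .var n

noncomputable def ax0 (k : ℕ) : Fm :=
  (Fm.conj ((Finset.univ : Finset (Fin (k + 4) → Fin (k + 4))).toList.map
    fun π => (gT k).subst (ren π))).imp (gL (k + 4))

def ax1 {k : ℕ} (r : Rule k) : Fm :=
  (EE k (stOf k r.abs) r.c').imp ((EE k (stOf k r.abs) r.c).or (gT k))

/-- the data of the machine -/
structure Mach (k : ℕ) : Type where
  R : List (Rule k)
  habs : Fin k → Bool
  hc : Fin k → ℕ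
  ν : Fin k → ℕ

noncomputable def axC {k : ℕ} (M : Mach k) : Fm :=
  (ax0 k).and ((Fm.conj (M.R.map ax1)).and (((EE k (stOf k M.habs) M.hc).or (gT k)).and
    (scottP ((EA k M.ν).or (gT k)) (gT k))))

noncomputable def axA {k : ℕ} (M : Mach k) (s : Fin k → ℕ) : Fm :=
  (axC M).and ((EA k s).imp (gT k))

def Mach.Halts {k : ℕ} (M : Mach k) (s : Fin k → ℕ) : Prop :=
  ∃ x, Relation.ReflTransGen (Step M.R) s x ∧ Match M.habs M.hc x

section Subst

variable {K : ℕ} {τ : ℕ → Fm}

theorem subst_col (hτ : ∀ n < K, τ n = .var n) {c : ℕ} (hc : c < K) :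
    (col K c).subst τ = col K c := by
  simp only [col, Fm.subst_and, Fm.subst_var', hτ c hc, Fm.subst_conj, List.map_map]
  congr 2
  refine List.map_congr_left fun d hd => ?_
  simp only [List.mem_filter, List.mem_range] at hd
  simp [hτ d hd.1]

theorem subst_nc (hτ : ∀ n < K, τ n = .var n) {c : ℕ} (hc : c < K) :
    (nc K c).subst τ = nc K c := by
  simp [nc, subst_col hτ hc]

theorem subst_gL (hτ : ∀ n < K, τ n = .var n) : (gL K).subst τ = gL K := by
  simp only [gL, Fm.subst_disj, List.map_map]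
  congr 1
  refine List.map_congr_left fun d hd => ?_
  simp [subst_nc hτ (List.mem_range.1 hd)]

theorem subst_Imp (hτ : ∀ n < K, τ n = .var n) {j : ℕ} (hj : j + 1 < K) (a b : Fm) :
    (Imp K j a b).subst τ = Imp K j (a.subst τ) (b.subst τ) := by
  simp [Imp, subst_nc hτ hj, subst_nc hτ (show j < K by omega), subst_nc hτ (show 0 < K by omega)]

theorem subst_uv (hτ : ∀ n < K, τ n = .var n) {j : ℕ} (hj : j + 1 < K) (ab : Fm × Fm) (n : ℕ) :
    uv K j (ab.1.subst τ, ab.2.subst τ) n =
      ((uv K j ab n).1.subst τ, (uv K j ab n).2.subst τ) := by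
  induction n with
  | zero => rfl
  | succ n ih => simp [uv, ih, subst_Imp hτ hj]

theorem subst_VV (hτ : ∀ n < K, τ n = .var n) {j : ℕ} (hj : j + 1 < K) (ab : Fm × Fm) (n : ℕ) :
    (VV K j ab n).subst τ = VV K j (ab.1.subst τ, ab.2.subst τ) n := by
  simp [VV, subst_Imp hτ hj, subst_uv hτ hj]

theorem uv_add (j : ℕ) (ab : Fm × Fm) (m n : ℕ) :
    uv K j (uv K j ab m) n = uv K j ab (m + n) := by
  induction n with
  | zero => rfl
  | succ n ih => simp [uv, ih]

theorem VV_add (j : ℕ) (ab : Fm × Fm) (m n : ℕ) :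
    VV K j (uv K j ab m) n = VV K j ab (m + n) := by
  simp [VV, uv_add]

theorem subst_gT {k : ℕ} (hτ : ∀ n < k + 4, τ n = .var n) : (gT k).subst τ = gT k := by
  simp only [gT, Fm.subst_or, subst_gL hτ, Fm.subst_disj, List.map_map]
  congr 2
  refine List.map_congr_left fun d hd => ?_
  have := List.mem_range.1 hd
  simp [subst_Imp hτ (show d + 1 + 1 < k + 4 by omega)]

theorem subst_EE {k : ℕ} (hτ : ∀ n < k + 4, τ n = .var n) (st : Fin k → Fm × Fm)
    (β c : Fin k → ℕ)
    (h : ∀ i, ((st i).1.subst τ, (st i).2.subst τ) = uv (k + 4) (i + 2) (std (k + 4)) (β i)) :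
    (EE k st c).subst τ = EA k (β + c) := by
  have hi : ∀ i : Fin k, (i : ℕ) + 2 + 1 < k + 4 := fun i => by omega
  simp only [EA, EE, subst_Imp hτ (show k + 2 + 1 < k + 4 by omega), Fm.subst_conj, Fm.subst_disj,
    List.map_map]
  congr 2
  · refine List.map_congr_left fun i _ => ?_
    simp [subst_VV hτ (hi i), h i, VV_add, add_assoc]
  · refine List.map_congr_left fun i _ => ?_
    simp [subst_VV hτ (hi i), h i, VV_add, add_assoc]

theorem exists_tau {k : ℕ} (abs : Fin k → Bool) (β : Fin k → ℕ)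
    (hβ : ∀ i, abs i = true → β i = 0) :
    ∃ τ : ℕ → Fm, (∀ n < k + 4, τ n = .var n) ∧
      ∀ c, (EE k (stOf k abs) c).subst τ = EA k (β + c) := by
  let τ : ℕ → Fm := fun n => if n < k + 4 then .var n else
    if h : (n - (k + 4)) / 2 < k then
      (if (n - (k + 4)) % 2 = 0 then
        (uv (k + 4) ((n - (k + 4)) / 2 + 2) (std (k + 4)) (β ⟨_, h⟩)).1
      else (uv (k + 4) ((n - (k + 4)) / 2 + 2) (std (k + 4)) (β ⟨_, h⟩)).2)
    else .var n
  have hτ : ∀ n < k + 4, τ n = .var n := fun n hn => by simp [τ, hn]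
  refine ⟨τ, hτ, fun c => subst_EE hτ _ β c fun i => ?_⟩
  unfold stOf
  split_ifs with h
  · rw [hβ i h]
    simp [uv, std, subst_Imp hτ (show 1 + 1 < k + 4 by omega)]
  · have e1 : (k + 4 + 2 * (i : ℕ) - (k + 4)) / 2 = i := by omega
    have e2 : (k + 4 + 2 * (i : ℕ) + 1 - (k + 4)) / 2 = i := by omega
    have e3 : (k + 4 + 2 * (i : ℕ) - (k + 4)) % 2 = 0 := by omega
    have e4 : ¬ (k + 4 + 2 * (i : ℕ) + 1 - (k + 4)) % 2 = 0 := by omega
    have e5 : ¬ k + 4 + 2 * (i : ℕ) < k + 4 := by omega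
    have e6 : ¬ k + 4 + 2 * (i : ℕ) + 1 < k + 4 := by omega
    simp only [Fm.subst_var', τ, e1, e2, e3, e4, e5, e6, if_true, if_false, i.2, dif_pos]

end Subst

section Halting

variable {k : ℕ} {M : Mach k} {s : Fin k → ℕ}

theorem der_axA : Der (axA M s) ∅ (axA M s) := by
  have := Der.extra (A := axA M s) (Γ := ∅) Fm.var
  rwa [Fm.subst_var] at this

theorem Der.and1 {A a b : Fm} {Γ : Set Fm} (h : Der A Γ (a.and b)) : Der A Γ a :=
  .mp _ _ (.andL a b) h
theorem Der.and2 {A a b : Fm} {Γ : Set Fm} (h : Der A Γ (a.and b)) : Der A Γ b :=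
  .mp _ _ (.andR a b) h

theorem der_gT_of_halts (h : M.Halts s) : Der (axA M s) ∅ (gT k) := by
  obtain ⟨x, hx, β, hβ, rfl⟩ := h
  rw [der_iff_can]
  intro T
  by_contra hT
  have key : ∀ y, Relation.ReflTransGen (Step M.R) s y → ¬ Forces (canVal _) (EA k y) T := by
    intro y hy
    induction hy with
    | refl => exact fun h => hT (der_iff_can.1 der_axA.and2 T T le_rfl h)
    | tail _ hstep ih =>
      obtain ⟨r, hr, γ, hγ, rfl, rfl⟩ := hstep
      obtain ⟨τ, hτ, he⟩ := exists_tau r.abs γ hγ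
      have h1 := (der_of_conj (der_axA (M := M) (s := s)).and1.and2.and1 _
        (List.mem_map_of_mem hr)).subst_thm τ
      simp only [ax1, Fm.subst_imp, Fm.subst_or, he, subst_gT hτ] at h1
      intro h
      exact (der_iff_can.1 h1 T T le_rfl h).elim ih hT
  obtain ⟨τ, hτ, he⟩ := exists_tau M.habs β hβ
  have h1 := ((der_axA (M := M) (s := s)).and1.and2.and2.and1).subst_thm τ
  simp only [Fm.subst_or, he, subst_gT hτ] at h1
  exact (der_iff_can.1 h1 T).elim (key _ hx) hT

theorem der_gL_of_halts (h : M.Halts s) : Der (axA M s) ∅ (gL (k + 4)) := by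
  refine .mp _ _ der_axA.and1.and1 (der_conj fun a ha => ?_)
  obtain ⟨π, -, rfl⟩ := List.mem_map.1 ha
  exact (der_gT_of_halts h).subst_thm _

theorem scottP_of_forces {W : Type} [Preorder W] {v : ℕ → W → Prop} {p q : Fm}
    (hp : ∀ x, Forces v p x) (hq : ∀ x, Forces v q x) (x : W) : Forces v (scottP p q) x :=
  ⟨fun y _ _ => hp y, fun y _ h => h y le_rfl (hq y), fun y _ _ => Or.inl (hp y)⟩

theorem valid_axA_of_fewTops (W : Type) [Preorder W] (h : FewTops W (k + 4)) :
    Valid W (axA M s) := by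
  intro v hv x
  have h1 : ∀ y, Forces v (gL (k + 4)) y := h.valid_gL v hv
  have h2 : ∀ y, Forces v (gT k) y := fun y => Or.inl (h1 y)
  refine ⟨⟨fun y _ _ => h1 y, ?_, Or.inr (h2 x), ?_⟩, fun y _ _ => h2 y⟩
  · rw [forces_conj]
    intro a ha
    obtain ⟨r, -, rfl⟩ := List.mem_map.1 ha
    exact fun y _ _ => Or.inr (h2 y)
  · exact scottP_of_forces (p := (EA k M.ν).or (gT k)) (fun y => Or.inr (h2 y)) h2 x

theorem hsc_of_halts (h : M.Halts s) : HereditarilySC (completion (Der (axA M s))) :=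
  positive (fun σ => (der_gL_of_halts h).subst_thm σ) valid_axA_of_fewTops

end Halting

end Pool.Agent.MP_3c2488_lc

end
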