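import Mathlib
import Pool.Agent.Mg.F3c2488p.G8ebd58

section

namespace Pool.Agent.MP_3c2488_lc

open Function

/-- structured counter programs -/
inductive Prog : Type
  | inc (i : ℕ)
  | dec (i : ℕ)
  | seq (p q : Prog)
  | loop (i : ℕ) (p : Prog)
  deriving DecidableEq

abbrev Cfg : Type := List Prog × (ℕ → ℕ)

def pstep : Cfg → Option Cfg
  | ([], _) => none
  | (.inc i :: K, x) => some (K, update x i (x i + 1))
  | (.dec i :: K, x) => some (K, update x i (x i - 1))
  | (.seq p q :: K, x) => some (p :: q :: K, x)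
  | (.loop i p :: K, x) => if x i = 0 then some (K, x) else some (p :: .loop i p :: K, x)

def PS (c d : Cfg) : Prop := pstep c = some d

abbrev PR : Cfg → Cfg → Prop := Relation.ReflTransGen PS

/-- `p` started in `x` terminates in a state satisfying `Q` -/
def Runs (p : Prog) (x : ℕ → ℕ) (Q : (ℕ → ℕ) → Prop) : Prop :=
  ∃ y, Q y ∧ ∀ K, PR (p :: K, x) (K, y)

theorem Runs.mono {p : Prog} {x : ℕ → ℕ} {Q Q' : (ℕ → ℕ) → Prop} (h : Runs p x Q)
    (hQ : ∀ y, Q y → Q' y) : Runs p x Q' :=
  let ⟨y, hy, hr⟩ := h; ⟨y, hQ y hy, hr⟩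

theorem runs_inc {i : ℕ} {x : ℕ → ℕ} {Q : (ℕ → ℕ) → Prop} (h : Q (update x i (x i + 1))) :
    Runs (.inc i) x Q := ⟨_, h, fun _ => .single rfl⟩

theorem runs_dec {i : ℕ} {x : ℕ → ℕ} {Q : (ℕ → ℕ) → Prop} (h : Q (update x i (x i - 1))) :
    Runs (.dec i) x Q := ⟨_, h, fun _ => .single rfl⟩

theorem runs_seq {p q : Prog} {x : ℕ → ℕ} {Q : (ℕ → ℕ) → Prop}
    (h : Runs p x fun y => Runs q y Q) : Runs (.seq p q) x Q := by
  obtain ⟨y, ⟨z, hz, h2⟩, h1⟩ := h
  exact ⟨z, hz, fun K => .head rfl ((h1 _).trans (h2 _))⟩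

theorem runs_loop {i : ℕ} {p : Prog} (I : ℕ → (ℕ → ℕ) → Prop)
    (h0 : ∀ x, I 0 x → x i = 0) (hs : ∀ n x, I (n + 1) x → x i ≠ 0 ∧ Runs p x (I n)) :
    ∀ n x, I n x → Runs (.loop i p) x (I 0) := by
  intro n
  induction n with
  | zero =>
    intro x hx
    exact ⟨x, hx, fun K => .single (by simp [PS, pstep, h0 x hx])⟩
  | succ n ih =>
    intro x hx
    obtain ⟨h1, y, hy, h2⟩ := hs n x hx
    obtain ⟨z, hz, h3⟩ := ih y hy
    exact ⟨z, hz, fun K => .head (by simp [PS, pstep, h1]) ((h2 _).trans (h3 _))⟩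

def clear (i : ℕ) : Prog := .loop i (.dec i)

theorem runs_clear (i : ℕ) (x : ℕ → ℕ) :
    Runs (clear i) x fun y => y i = 0 ∧ ∀ j, j ≠ i → y j = x j := by
  refine runs_loop (fun n y => y i = n ∧ ∀ j, j ≠ i → y j = x j) (fun y h => h.1) ?_ (x i) x
    ⟨rfl, fun _ _ => rfl⟩
  rintro n y ⟨h1, h2⟩
  refine ⟨by omega, runs_dec ⟨by simp [h1], fun j hj => by simp [hj, h2 j hj]⟩⟩

def copy (a b t : ℕ) : Prog :=
  .seq (clear b) (.seq (clear t) (.seq (.loop a (.seq (.dec a) (.seq (.inc b) (.inc t))))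
    (.loop t (.seq (.dec t) (.inc a)))))

theorem runs_copy {a b t : ℕ} (hab : a ≠ b) (hat : a ≠ t) (hbt : b ≠ t) (x : ℕ → ℕ) :
    Runs (copy a b t) x fun y => y b = x a ∧ ∀ j, j ≠ b → j ≠ t → y j = x j := by
  refine runs_seq ((runs_clear b x).mono fun y1 ⟨h1, h1'⟩ => ?_)
  refine runs_seq ((runs_clear t y1).mono fun y2 ⟨h2, h2'⟩ => ?_)
  refine runs_seq ((runs_loop (fun n y => y a = n ∧ y b + n = x a ∧ y t + n = x a ∧
      ∀ j, j ≠ a → j ≠ b → j ≠ t → y j = x j) (fun y h => h.1) ?_ (x a) y2 ?_).mono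
      fun y3 ⟨h3, h4, h5, h6⟩ => ?_)
  · rintro n y ⟨e1, e2, e3, e4⟩
    refine ⟨by omega, runs_seq (runs_dec (runs_seq (runs_inc (runs_inc ?_))))⟩
    refine ⟨?_, ?_, ?_, fun j j1 j2 j3 => ?_⟩
    · simp [hab, hat, e1]
    · simp [hab.symm, hbt]; omega
    · simp [hat.symm, hbt.symm]; omega
    · simp [j1, j2, j3, e4 j j1 j2 j3]
  · refine ⟨by rw [h2' a hat, h1' a hab], by rw [h2' b hbt, h1]; simp, by rw [h2]; simp, ?_⟩
    intro j _ j2 j3
    rw [h2' j j3, h1' j j2]
  · refine (runs_loop (fun n y => y t = n ∧ y a + n = x a ∧ y b = x a ∧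
      ∀ j, j ≠ a → j ≠ b → j ≠ t → y j = x j) (fun y h => h.1) ?_ (x a) y3 ?_).mono ?_
    · rintro n y ⟨e1, e2, e3, e4⟩
      refine ⟨by omega, runs_seq (runs_dec (runs_inc ?_))⟩
      refine ⟨?_, ?_, ?_, fun j j1 j2 j3 => ?_⟩
      · simp [hat.symm, e1]
      · simp [hat]; omega
      · simp [hab.symm, hbt, e3]
      · simp [j1, j3, e4 j j1 j2 j3]
    · exact ⟨by omega, by omega, by omega, h6⟩
    · rintro y ⟨-, e2, e3, e4⟩
      refine ⟨e3, fun j j2 j3 => ?_⟩
      by_cases j1 : j = a
      · subst j1; omega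
      · exact e4 j j1 j2 j3

theorem compile {n : ℕ} {f : List.Vector ℕ n → ℕ} (hf : Nat.Primrec' f) :
    ∀ (ins : Fin n → ℕ) (out m : ℕ), (∀ i, ins i < m) → out < m → (∀ i, ins i ≠ out) →
      ∃ p : Prog, ∀ x, Runs p x fun y =>
        y out = f (List.Vector.ofFn fun i => x (ins i)) ∧ ∀ j < m, j ≠ out → y j = x j := by
  induction hf with
  | zero =>
    intro ins out m _ _ _
    exact ⟨clear out, fun x => (runs_clear out x).mono fun y h => ⟨h.1, fun j _ hj => h.2 j hj⟩⟩
  | succ =>
    intro ins out m h1 h2 h3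
    refine ⟨.seq (copy (ins 0) out m) (.inc out), fun x => runs_seq
      ((runs_copy (h3 0) (h1 0).ne h2.ne x).mono fun y h => runs_inc ⟨?_, fun j hj hj' => ?_⟩)⟩
    · simp [h.1, List.Vector.head_ofFn]
    · simp [hj', h.2 j hj' hj.ne]
  | get i =>
    intro ins out m h1 h2 h3
    refine ⟨copy (ins i) out m, fun x =>
      (runs_copy (h3 i) (h1 i).ne h2.ne x).mono fun y h => ⟨?_, fun j hj hj' => h.2 j hj' hj.ne⟩⟩
    simp [h.1]
  | @comp m' n f g _ _ ihf ihg =>
    intro ins out m h1 h2 h3
    have key : ∀ t ≤ n, ∃ p : Prog, ∀ x, Runs p x fun y =>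
        (∀ i : Fin n, (i : ℕ) < t → y (m + i) = g i (List.Vector.ofFn fun i => x (ins i))) ∧
          ∀ j < m, y j = x j := by
      intro t
      induction t with
      | zero =>
        intro _
        refine ⟨clear m, fun x => (runs_clear m x).mono fun y h => ⟨?_, fun j hj => h.2 j hj.ne⟩⟩
        intro i hi
        omega
      | succ t ih =>
        intro ht
        obtain ⟨p, hp⟩ := ih (by omega)
        obtain ⟨q, hq⟩ := ihg ⟨t, ht⟩ ins (m + t) (m + n) (fun i => by have := h1 i; omega)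
          (by omega) (fun i => by have := h1 i; omega)
        refine ⟨.seq p q, fun x => runs_seq ((hp x).mono fun y hy => (hq y).mono fun z hz => ?_)⟩
        have e : (fun i => y (ins i)) = fun i => x (ins i) := funext fun i => hy.2 _ (h1 i)
        refine ⟨fun i hi => ?_, fun j hj => by rw [hz.2 j (by omega) (by omega), hy.2 j hj]⟩
        by_cases hit : (i : ℕ) = t
        · obtain rfl : i = ⟨t, ht⟩ := Fin.ext hit
          rw [hz.1, e]
        · rw [hz.2 _ (by have := i.2; omega) (by omega), hy.1 i (by omega)]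
    obtain ⟨p, hp⟩ := key n le_rfl
    obtain ⟨q, hq⟩ := ihf (fun i => m + i) out (m + n) (fun i => by have := i.2; omega) (by omega)
      (fun i => by omega)
    refine ⟨.seq p q, fun x => runs_seq ((hp x).mono fun y hy => (hq y).mono fun z hz => ?_)⟩
    refine ⟨?_, fun j hj hj' => by rw [hz.2 j (by omega) hj', hy.2 j hj]⟩
    rw [hz.1]
    congr 2
    funext i
    exact hy.1 i i.2
  | @prec n f g _ _ ihf ihg =>
    intro ins out m h1 h2 h3
    obtain ⟨pf, hpf⟩ := ihf (fun i => ins i.succ) (m + 2) (m + 4)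
      (fun i => by have := h1 i.succ; omega) (by omega) (fun i => by have := h1 i.succ; omega)
    obtain ⟨pg, hpg⟩ := ihg (Fin.cons (m + 1) (Fin.cons (m + 2) fun i => ins i.succ)) (m + 3) (m + 4)
      (fun i => by
        refine Fin.cases (by simp) (fun i => Fin.cases (by simp) (fun i => ?_) i) i
        have := h1 i.succ
        simp only [Fin.cons_succ]
        omega) (by omega)
      (fun i => by
        refine Fin.cases (by simp) (fun i => Fin.cases (by simp) (fun i => ?_) i) i
        have := h1 i.succ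
        simp only [Fin.cons_succ]
        omega)
    refine ⟨.seq (copy (ins 0) m (m + 4)) (.seq (clear (m + 1)) (.seq pf (.seq
      (.loop m (.seq (.dec m) (.seq pg (.seq (copy (m + 3) (m + 2) (m + 4)) (.inc (m + 1))))))
      (copy (m + 2) out (m + 4))))), fun x => ?_⟩
    have h10 := h1 0
    set F : ℕ → ℕ := fun c => Nat.rec (f (List.Vector.ofFn fun i => x (ins i.succ)))
      (fun y IH => g (y ::ᵥ IH ::ᵥ List.Vector.ofFn fun i => x (ins i.succ))) c with hF
    refine runs_seq ((runs_copy (by omega) (by omega) (by omega) x).mono fun y1 ⟨a1, a2⟩ => ?_)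
    refine runs_seq ((runs_clear _ y1).mono fun y2 ⟨b1, b2⟩ => ?_)
    refine runs_seq ((hpf y2).mono fun y3 ⟨c1, c2⟩ => ?_)
    refine runs_seq ((runs_loop (fun t y => y m = t ∧ y (m + 1) + t = x (ins 0) ∧
      y (m + 2) = F (y (m + 1)) ∧ ∀ j < m, y j = x j) (fun y h => h.1) ?_ (x (ins 0)) y3 ?_).mono
      fun y4 ⟨_, d2, d3, d4⟩ => ?_)
    · rintro t y ⟨e1, e2, e3, e4⟩
      refine ⟨by omega, runs_seq (runs_dec (runs_seq ((hpg _).mono fun z ⟨f1, f2⟩ => ?_)))⟩
      refine runs_seq ((runs_copy (by omega) (by omega) (by omega) z).mono fun w ⟨g1, g2⟩ => ?_)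
      have hw1 : w (m + 1) = y (m + 1) := by
        rw [g2 _ (by omega) (by omega), f2 _ (by omega) (by omega)]
        simp
      refine runs_inc ⟨?_, ?_, ?_, fun j hj => ?_⟩
      · rw [update_of_ne (by omega), g2 _ (by omega) (by omega), f2 _ (by omega) (by omega)]
        simp [e1]
      · simp only [update_self]
        omega
      · rw [update_of_ne (by omega), update_self, g1, f1, hw1]
        simp only [hF]
        congr 1
        rw [← List.Vector.cons_head_tail (List.Vector.ofFn _), List.Vector.head_ofFn,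
          List.Vector.tail_ofFn, ← List.Vector.cons_head_tail (List.Vector.ofFn _),
          List.Vector.head_ofFn, List.Vector.tail_ofFn]
        simp only [Fin.cons_zero, Fin.cons_succ]
        rw [update_of_ne (by omega), update_of_ne (by omega), e3]
        congr 3
        funext i
        rw [update_of_ne (h1 _).ne, e4 _ (h1 _)]
      · rw [update_of_ne (by omega), g2 _ (by omega) (by omega), f2 _ (by omega) (by omega),
          update_of_ne (by omega), e4 j hj]
    · have e : ∀ j < m, y2 j = x j := fun j hj => by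
        rw [b2 _ (by omega), a2 _ (by omega) (by omega)]
      refine ⟨?_, ?_, ?_, fun j hj => by rw [c2 _ (by omega) (by omega), e j hj]⟩
      · rw [c2 _ (by omega) (by omega), b2 _ (by omega), a1]
      · rw [c2 _ (by omega) (by omega), b1]; simp
      · rw [c1, c2 _ (by omega) (by omega), b1]
        simp only [hF, Nat.rec_zero]
        congr 2
        funext i
        exact e _ (h1 _)
    · refine (runs_copy (by omega) (by omega) (by omega) y4).mono fun y5 ⟨g1, g2⟩ => ⟨?_, ?_⟩
      · simp only [add_zero] at d2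
        rw [g1, d3, d2]
        simp only [List.Vector.head_ofFn, List.Vector.tail_ofFn, hF]
      · intro j hj hj'
        rw [g2 j hj' (by omega), d4 j hj]

def PHalts (c : Cfg) : Prop := ∃ z, PR c ([], z)

theorem PS_unique : Relator.RightUnique PS := by
  intro a b c h1 h2
  unfold PS at h1 h2
  rw [h1] at h2
  exact Option.some.inj h2

theorem PHalts.acc {c : Cfg} (h : PHalts c) : Acc (fun d c => PS c d) c := by
  obtain ⟨z, h⟩ := h
  induction h using Relation.ReflTransGen.head_induction_on with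
  | refl => exact ⟨_, fun d hd => by simp [PS, pstep] at hd⟩
  | head h1 _ ih => exact ⟨_, fun d hd => PS_unique h1 hd ▸ ih⟩

theorem not_halts_of_inv (I : Cfg → Prop) (hI : ∀ c, I c → ∃ d, Relation.TransGen PS c d ∧ I d)
    {c : Cfg} (hc : I c) : ¬ PHalts c := by
  intro h
  have h1 := h.acc.transGen
  clear h
  induction h1 with
  | intro c _ ih =>
    obtain ⟨d, hd, hId⟩ := hI c hc
    exact ih d (Relation.transGen_swap.2 hd) hId

/-- unbounded search over a primitive recursive function -/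
theorem exists_search {g : ℕ → ℕ → ℕ} (hg : Primrec₂ g) :
    ∃ p : Prog, ∀ n, PHalts ([p], fun j => if j = 0 then n else if j = 2 then 1 else 0) ↔
      ∃ s, g s n = 0 := by
  obtain ⟨q, hq⟩ := compile (Nat.Primrec'.prim_iff₂.2 hg) ![1, 0] 2 3 (by decide) (by decide)
    (by decide)
  have hq' : ∀ x, Runs (.seq q (.inc 1)) x fun y =>
      y 2 = g (x 1) (x 0) ∧ y 0 = x 0 ∧ y 1 = x 1 + 1 := by
    intro x
    refine runs_seq ((hq x).mono fun y ⟨h1, h2⟩ => runs_inc ⟨?_, ?_, ?_⟩)
    · simp [h1, List.Vector.head_ofFn, List.Vector.tail_ofFn]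
    · simp [h2 0]
    · simp [h2 1]
  refine ⟨.loop 2 (.seq q (.inc 1)), fun n => ⟨fun h => ?_, fun h => ?_⟩⟩
  · by_contra hn
    push Not at hn
    refine not_halts_of_inv (fun c => c.1 = [.loop 2 (.seq q (.inc 1))] ∧ c.2 0 = n ∧ c.2 2 ≠ 0)
      ?_ ⟨rfl, by simp, by simp⟩ h
    rintro ⟨K, x⟩ ⟨rfl, h1, h2⟩
    obtain ⟨y, ⟨e1, e2, -⟩, hy⟩ := hq' x
    simp only at h1 h2
    refine ⟨(_, y), .head' (by simp [PS, pstep, h2]) (hy _), rfl, e2.trans h1, ?_⟩
    simp only [e1, h1]
    exact hn _
  · classical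
    obtain ⟨y, -, hy⟩ := runs_loop (i := 2) (p := .seq q (.inc 1))
      (fun t x => x 0 = n ∧ x 1 + t = Nat.find h + 1 ∧ (x 2 = 0 ↔ t = 0))
      (fun x hx => hx.2.2.2 rfl) (by
        rintro t x ⟨e1, e2, e3⟩
        refine ⟨fun h0 => by simpa using e3.1 h0, (hq' x).mono fun y ⟨f1, f2, f3⟩ => ?_⟩
        refine ⟨f2.trans e1, by omega, ?_⟩
        rw [f1, e1]
        constructor
        · intro h0
          have := Nat.find_min' h h0
          omega
        · rintro rfl
          rw [show x 1 = Nat.find h by omega]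
          exact Nat.find_spec h) (Nat.find h + 1)
      (fun j => if j = 0 then n else if j = 2 then 1 else 0) ⟨by simp, by simp, by simp⟩
    exact ⟨y, hy []⟩

end Pool.Agent.MP_3c2488_lc

end

section

namespace Pool.Agent.MP_3c2488_lc

open Function

def conts : Prog → List Prog → List (List Prog)
  | .inc i, K => [.inc i :: K]
  | .dec i, K => [.dec i :: K]
  | .seq p q, K => (.seq p q :: K) :: (conts p (q :: K) ++ conts q K)
  | .loop i p, K => (.loop i p :: K) :: conts p (.loop i p :: K)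

def Prog.bound : Prog → ℕ
  | .inc i => i + 1
  | .dec i => i + 1
  | .seq p q => max p.bound q.bound
  | .loop i p => max (i + 1) p.bound

def headOK (m : ℕ) : List Prog → Prop
  | .inc i :: _ => i < m
  | .dec i :: _ => i < m
  | .loop i _ :: _ => i < m
  | _ => True

theorem self_mem_conts (p : Prog) (K : List Prog) : p :: K ∈ conts p K := by
  cases p <;> simp [conts]

theorem conts_closed (p : Prog) : ∀ K c, c ∈ conts p K → ∀ x d, pstep (c, x) = some d →
    d.1 ∈ conts p K ∨ d.1 = K := by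
  induction p with
  | inc i =>
    intro K c hc x d hd
    simp only [conts, List.mem_singleton] at hc
    subst hc
    simp only [pstep, Option.some.injEq] at hd
    subst hd
    exact Or.inr rfl
  | dec i =>
    intro K c hc x d hd
    simp only [conts, List.mem_singleton] at hc
    subst hc
    simp only [pstep, Option.some.injEq] at hd
    subst hd
    exact Or.inr rfl
  | seq p q ihp ihq =>
    intro K c hc x d hd
    simp only [conts, List.mem_cons, List.mem_append] at hc ⊢
    rcases hc with rfl | hc | hc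
    · simp only [pstep, Option.some.injEq] at hd
      subst hd
      exact Or.inl (Or.inr (Or.inl (self_mem_conts _ _)))
    · rcases ihp _ c hc x d hd with h | h
      · exact Or.inl (Or.inr (Or.inl h))
      · exact Or.inl (Or.inr (Or.inr (h ▸ self_mem_conts _ _)))
    · rcases ihq _ c hc x d hd with h | h
      · exact Or.inl (Or.inr (Or.inr h))
      · exact Or.inr h
  | loop i p ih =>
    intro K c hc x d hd
    simp only [conts, List.mem_cons] at hc ⊢
    rcases hc with rfl | hc
    · simp only [pstep] at hd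
      split_ifs at hd
      · simp only [Option.some.injEq] at hd
        subst hd
        exact Or.inr rfl
      · simp only [Option.some.injEq] at hd
        subst hd
        exact Or.inl (Or.inr (self_mem_conts _ _))
    · rcases ih _ c hc x d hd with h | h
      · exact Or.inl (Or.inr h)
      · exact Or.inl (Or.inl h)

theorem conts_headOK (m : ℕ) (p : Prog) : p.bound ≤ m → ∀ K c, c ∈ conts p K → headOK m c := by
  induction p with
  | inc i =>
    intro h K c hc
    simp only [conts, List.mem_singleton] at hc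
    subst hc
    exact h
  | dec i =>
    intro h K c hc
    simp only [conts, List.mem_singleton] at hc
    subst hc
    exact h
  | seq p q ihp ihq =>
    intro h K c hc
    simp only [conts, List.mem_cons, List.mem_append, Prog.bound, max_le_iff] at hc h
    rcases hc with rfl | hc | hc
    · trivial
    · exact ihp h.1 _ c hc
    · exact ihq h.2 _ c hc
  | loop i p ih =>
    intro h K c hc
    simp only [conts, List.mem_cons, Prog.bound, max_le_iff] at hc h
    rcases hc with rfl | hc
    · exact h.1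
    · exact ih h.2 _ c hc

variable {m : ℕ}

def mkRule (s : ℕ) (a : Fin m → Bool) (u : Fin m → ℕ) (s' : ℕ) (u' : Fin m → ℕ) : Rule (m + 1) :=
  ⟨Fin.cons true a, Fin.cons s u, Fin.cons s' u'⟩

def unitV (m i : ℕ) : Fin m → ℕ := fun j => if (j : ℕ) = i then 1 else 0
def absI (m i : ℕ) : Fin m → Bool := fun j => decide ((j : ℕ) = i)

def rulesOf (L : List (List Prog)) (m : ℕ) : List Prog → List (Rule (m + 1))
  | [] => []
  | .inc i :: K => [mkRule (L.idxOf (.inc i :: K)) (fun _ => false) 0 (L.idxOf K) (unitV m i)]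
  | .dec i :: K => [mkRule (L.idxOf (.dec i :: K)) (fun _ => false) (unitV m i) (L.idxOf K) 0,
      mkRule (L.idxOf (.dec i :: K)) (absI m i) 0 (L.idxOf K) 0]
  | .seq p q :: K =>
      [mkRule (L.idxOf (.seq p q :: K)) (fun _ => false) 0 (L.idxOf (p :: q :: K)) 0]
  | .loop i p :: K => [mkRule (L.idxOf (.loop i p :: K)) (absI m i) 0 (L.idxOf K) 0,
      mkRule (L.idxOf (.loop i p :: K)) (fun _ => false) (unitV m i)
        (L.idxOf (p :: .loop i p :: K)) (unitV m i)]

def encC (L : List (List Prog)) (m : ℕ) (c : Cfg) : Fin (m + 1) → ℕ :=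
  Fin.cons (L.idxOf c.1) fun i : Fin m => c.2 i

def StepBy {k : ℕ} (r : Rule k) (x y : Fin k → ℕ) : Prop :=
  ∃ β : Fin k → ℕ, (∀ i, r.abs i = true → β i = 0) ∧ x = β + r.c ∧ y = β + r.c'

theorem stepBy_mk (s : ℕ) (a : Fin m → Bool) (u : Fin m → ℕ) (s' : ℕ) (u' : Fin m → ℕ)
    (s₀ : ℕ) (r : Fin m → ℕ) (y : Fin (m + 1) → ℕ) :
    StepBy (mkRule s a u s' u') (Fin.cons s₀ r) y ↔ s₀ = s ∧ (∀ j, u j ≤ r j) ∧
      (∀ j, a j = true → r j = u j) ∧ y = Fin.cons s' fun j => r j - u j + u' j := by
  constructor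
  · rintro ⟨β, h1, h2, rfl⟩
    have e0 : β 0 = 0 := h1 0 rfl
    have e1 : s₀ = s := by simpa [mkRule, e0] using congrFun h2 0
    have e2 : ∀ j, r j = β j.succ + u j := fun j => by simpa [mkRule] using congrFun h2 j.succ
    refine ⟨e1, fun j => by rw [e2 j]; omega, fun j hj => ?_, ?_⟩
    · rw [e2 j, h1 j.succ (by simpa [mkRule] using hj), zero_add]
    · funext i
      refine Fin.cases ?_ (fun j => ?_) i
      · simp [mkRule, e0]
      · simp [mkRule, e2 j]
  · rintro ⟨rfl, h1, h2, rfl⟩
    refine ⟨Fin.cons 0 fun j => r j - u j, fun i => ?_, ?_, ?_⟩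
    · refine Fin.cases (fun _ => rfl) (fun j hj => ?_) i
      simp only [mkRule, Fin.cons_succ] at hj ⊢
      rw [h2 j hj, Nat.sub_self]
    · funext i
      refine Fin.cases ?_ (fun j => ?_) i
      · simp [mkRule]
      · simp [mkRule, Nat.sub_add_cancel (h1 j)]
    · funext i
      refine Fin.cases ?_ (fun j => ?_) i
      · simp [mkRule]
      · simp [mkRule]

theorem rulesOf_state {L : List (List Prog)} {K : List Prog} {r : Rule (m + 1)}
    (hr : r ∈ rulesOf L m K) {s₀ : ℕ} {x : Fin m → ℕ} {y : Fin (m + 1) → ℕ}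
    (h : StepBy r (Fin.cons s₀ x) y) : s₀ = L.idxOf K := by
  rcases K with _ | ⟨_ | _ | _ | _, K⟩ <;> simp only [rulesOf, List.mem_cons, List.not_mem_nil,
    or_false] at hr
  · subst hr; exact ((stepBy_mk ..).1 h).1
  · rcases hr with rfl | rfl <;> exact ((stepBy_mk ..).1 h).1
  · subst hr; exact ((stepBy_mk ..).1 h).1
  · rcases hr with rfl | rfl <;> exact ((stepBy_mk ..).1 h).1

theorem rulesOf_step {L : List (List Prog)} {K : List Prog} (hK : headOK m K) (x : ℕ → ℕ)
    (y : Fin (m + 1) → ℕ) : (∃ r ∈ rulesOf L m K, StepBy r (encC L m (K, x)) y) ↔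
      ∃ d, pstep (K, x) = some d ∧ y = encC L m d := by
  rcases K with _ | ⟨i | i | ⟨p, q⟩ | ⟨i, p⟩, K⟩
  · simp [rulesOf, pstep]
  · simp only [rulesOf, List.mem_singleton, exists_eq_left, encC, stepBy_mk, pstep,
      Option.some.injEq, exists_eq_left', true_and]
    have : (fun j : Fin m => x j - (0 : Fin m → ℕ) j + unitV m i j) =
        fun j : Fin m => update x i (x i + 1) j := by
      funext j
      by_cases h : (j : ℕ) = i <;> simp [unitV, h]
    rw [this]
    simp
  · have hi : i < m := hK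
    simp only [rulesOf, List.mem_cons, List.not_mem_nil, or_false, exists_eq_or_imp,
      exists_eq_left, encC, stepBy_mk, pstep, Option.some.injEq, exists_eq_left', true_and]
    have e1 : (fun j : Fin m => x j - unitV m i j + (0 : Fin m → ℕ) j) =
        fun j : Fin m => update x i (x i - 1) j := by
      funext j
      by_cases h : (j : ℕ) = i <;> simp [unitV, h]
    rw [e1]
    by_cases h0 : x i = 0
    · have e2 : (fun j : Fin m => x j - (0 : Fin m → ℕ) j + (0 : Fin m → ℕ) j) =
          fun j : Fin m => update x i (x i - 1) j := by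
        funext j
        by_cases h : (j : ℕ) = i <;> simp [h, h0]
      rw [e2]
      refine ⟨fun h => h.elim (fun h => h.2.2) fun h => h.2.2, fun h => Or.inr ⟨by simp, ?_, h⟩⟩
      intro j hj
      simp only [absI, decide_eq_true_eq] at hj
      simp [hj, h0]
    · refine ⟨fun h => h.elim (fun h => h.2.2) fun h => ?_, fun h => Or.inl ⟨?_, by simp, h⟩⟩
      · exact absurd (h.2.1 ⟨i, hi⟩ (by simp [absI])) h0
      · intro j
        by_cases h : (j : ℕ) = i
        · simp only [unitV, h, if_true]; omega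
        · simp [unitV, h]
  · simp [rulesOf, encC, stepBy_mk, pstep]
  · have hi : i < m := hK
    simp only [rulesOf, List.mem_cons, List.not_mem_nil, or_false, exists_eq_or_imp,
      exists_eq_left, encC, stepBy_mk, pstep, true_and]
    by_cases h0 : x i = 0
    · simp only [h0, if_true, Option.some.injEq, exists_eq_left']
      refine ⟨fun h => h.elim (fun h => by simpa using h.2.2) fun h => ?_,
        fun h => Or.inl ⟨by simp, ?_, by simpa using h⟩⟩
      · have := h.1 ⟨i, hi⟩
        simp [unitV, h0] at this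
      · intro j hj
        simp only [absI, decide_eq_true_eq] at hj
        simp [hj, h0]
    · simp only [h0, if_false, Option.some.injEq, exists_eq_left']
      have e0 : ∀ j : Fin m, unitV m i j ≤ x j := by
        intro j
        by_cases h : (j : ℕ) = i
        · simp only [unitV, h, if_true]; omega
        · simp [unitV, h]
      have e1 : (fun j : Fin m => x j - unitV m i j + unitV m i j) = fun j : Fin m => x j :=
        funext fun j => Nat.sub_add_cancel (e0 j)
      rw [e1]
      refine ⟨fun h => h.elim (fun h => ?_) fun h => h.2.2, fun h => Or.inr ⟨e0, by simp, h⟩⟩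
      exact absurd (h.2.1 ⟨i, hi⟩ (by simp [absI])) h0

theorem exists_mach (p : Prog) : ∃ (m : ℕ) (M : Mach (m + 1)) (s₀ : ℕ),
    (∀ x : ℕ → ℕ, (M.Halts (Fin.cons s₀ fun i : Fin m => x i) ↔ PHalts ([p], x)) ∧
      ¬ Relation.ReflTransGen (Step M.R) (Fin.cons s₀ fun i : Fin m => x i) M.ν) ∧
    (∀ y, ¬ Step M.R M.ν y) ∧ ¬ Match M.habs M.hc M.ν := by
  let L : List (List Prog) := [] :: conts p []
  let m := p.bound
  have hL : ∀ K ∈ L, headOK m K := by
    intro K hK
    rcases List.mem_cons.1 hK with rfl | hK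
    · trivial
    · exact conts_headOK m p le_rfl _ _ hK
  have hcl : ∀ c d : Cfg, c.1 ∈ L → pstep c = some d → d.1 ∈ L := by
    rintro ⟨K, x⟩ d hK hd
    rcases List.mem_cons.1 hK with hK | hK
    · simp only at hK
      subst hK
      simp [pstep] at hd
    · rcases conts_closed p _ _ hK x d hd with h | h
      · exact List.mem_cons_of_mem _ h
      · exact h ▸ List.mem_cons_self
  let R := L.flatMap (rulesOf L m)
  have hstep : ∀ c : Cfg, c.1 ∈ L → ∀ y, Step R (encC L m c) y ↔
      ∃ d, pstep c = some d ∧ y = encC L m d := by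
    rintro ⟨K, x⟩ hK y
    rw [← rulesOf_step (hL K hK)]
    constructor
    · rintro ⟨r, hr, h⟩
      obtain ⟨K', hK', hr⟩ := List.mem_flatMap.1 hr
      have := rulesOf_state hr h
      rw [List.idxOf_inj hK] at this
      subst this
      exact ⟨r, hr, h⟩
    · rintro ⟨r, hr, h⟩
      exact ⟨r, List.mem_flatMap.2 ⟨K, hK, hr⟩, h⟩
  have hp : [p] ∈ L := List.mem_cons_of_mem _ (self_mem_conts p [])
  have fwd : ∀ c d : Cfg, c.1 ∈ L → PR c d →
      d.1 ∈ L ∧ Relation.ReflTransGen (Step R) (encC L m c) (encC L m d) := by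
    intro c d hc h
    induction h with
    | refl => exact ⟨hc, .refl⟩
    | tail _ h2 ih => exact ⟨hcl _ _ ih.1 h2, ih.2.tail ((hstep _ ih.1 _).2 ⟨_, h2, rfl⟩)⟩
  have bwd : ∀ (c : Cfg) y, c.1 ∈ L → Relation.ReflTransGen (Step R) (encC L m c) y →
      ∃ d, PR c d ∧ y = encC L m d := by
    intro c y hc h
    induction h with
    | refl => exact ⟨c, .refl, rfl⟩
    | tail _ h2 ih =>
      obtain ⟨d, hd, rfl⟩ := ih
      obtain ⟨e, he, rfl⟩ := (hstep d (fwd c d hc hd).1 _).1 h2
      exact ⟨e, hd.tail he, rfl⟩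
  have hmatch : ∀ y : Fin (m + 1) → ℕ,
      Match (Fin.cons true fun _ => false) (fun _ => 0) y ↔ y 0 = 0 := by
    intro y
    constructor
    · rintro ⟨β, h1, rfl⟩
      simp [h1 0 rfl]
    · intro h
      refine ⟨y, fun i => Fin.cases (fun _ => h) (fun j hj => by simp at hj) i, ?_⟩
      funext i
      simp
  have h0 : L.idxOf [] = 0 := by simp [L]
  refine ⟨m, ⟨R, Fin.cons true fun _ => false, fun _ => 0, Fin.cons L.length 0⟩, L.idxOf [p],
    fun x => ⟨⟨?_, ?_⟩, ?_⟩, ?_, ?_⟩
  · rintro ⟨y, hy, hm⟩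
    obtain ⟨⟨K, z⟩, hd, rfl⟩ := bwd ([p], x) y hp hy
    rw [hmatch] at hm
    have hK : K ∈ L := (fwd _ _ hp hd).1
    simp only [encC, Fin.cons_zero] at hm
    rw [← h0, List.idxOf_inj hK] at hm
    subst hm
    exact ⟨z, hd⟩
  · rintro ⟨z, hz⟩
    exact ⟨_, (fwd _ _ hp hz).2, (hmatch _).2 h0⟩
  · intro h
    obtain ⟨d, hd, e⟩ := bwd ([p], x) _ hp h
    have h1 := congrFun e 0
    have h2 := List.idxOf_lt_length_of_mem (fwd _ _ hp hd).1
    simp only [encC, Fin.cons_zero] at h1
    omega
  · rintro y ⟨r, hr, h⟩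
    obtain ⟨K, hK, hr⟩ := List.mem_flatMap.1 hr
    have h1 := rulesOf_state hr h
    have h2 := List.idxOf_lt_length_of_mem hK
    omega
  · rw [hmatch]
    simp [L]

end Pool.Agent.MP_3c2488_lc

end
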