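import Mathlib
import Pool.Agent.Mg.F3c2488p.G8ebd58
import Pool.Agent.Mg.F3c2488p.Ge60189

section

namespace Pool.Agent.MP_3c2488_lc

/-- traces of the ladder recursion on the Rieger-Nishimura ladder -/
structure LadSeq (t : ℕ → ℕ → Prop) : Prop where
  up : ∀ n m l, t n m → (l = m ∨ l + 2 ≤ m) → t n l
  step : ∀ n m, t (n + 2) m ↔
    t (n + 1) m ∨ ∀ l, (l = m ∨ l + 2 ≤ m) → t (n + 1) l → t n l

def Reg (t : ℕ → ℕ → Prop) (n b : ℕ) : Prop :=
  (∀ l, t (n + 1) l ↔ l ≤ b) ∧ ∀ l, (t (n + 1) l ∧ ¬ t n l) ↔ l = b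

variable {t : ℕ → ℕ → Prop}

theorem Reg.succ (h : LadSeq t) {n b : ℕ} (hr : Reg t n b) : Reg t (n + 1) (b + 1) := by
  have key : ∀ m, t (n + 2) m ↔ m ≤ b + 1 := by
    intro m
    rw [h.step, hr.1]
    constructor
    · rintro (hm | hm)
      · omega
      · by_contra hc
        have hb := (hr.2 b).2 rfl
        exact hb.2 (hm b (by omega) hb.1)
    · intro hm
      by_cases hm' : m ≤ b
      · exact Or.inl hm'
      · refine Or.inr fun l hl h1 => ?_
        by_contra h2
        have := (hr.2 l).1 ⟨h1, h2⟩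
        omega
  refine ⟨key, fun l => ?_⟩
  rw [key, hr.1]
  omega

theorem min_diff (h : LadSeq t) {n : ℕ} (h0 : ∃ l, t (n + 1) l ∧ ¬ t n l) :
    ∃ l, t (n + 1) l ∧ ¬ t n l ∧ (∀ m < l, t (n + 1) m → t n m) ∧
      (∀ m, t (n + 2) m → ¬ t (n + 1) m → m + 1 = l ∨ m = l + 1) := by
  classical
  refine ⟨Nat.find h0, (Nat.find_spec h0).1, (Nat.find_spec h0).2, fun m hm h1 => ?_,
    fun m h2 h1 => ?_⟩
  · by_contra h2
    exact Nat.find_min h0 hm ⟨h1, h2⟩
  · rw [h.step] at h2
    have h3 := h2.resolve_left h1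
    have h4 : ¬ (Nat.find h0 = m ∨ Nat.find h0 + 2 ≤ m) := fun hl =>
      (Nat.find_spec h0).2 (h3 _ hl (Nat.find_spec h0).1)
    have h5 : ¬ (m = Nat.find h0 ∨ m + 2 ≤ Nat.find h0) := fun hl =>
      h1 (h.up _ _ _ (Nat.find_spec h0).1 hl)
    omega

theorem Reg.pred (h : LadSeq t) {n b : ℕ} (hr : Reg t (n + 1) b) :
    ∃ b', b = b' + 1 ∧ Reg t n b' := by
  have h1 : ∀ l, t (n + 1) l ↔ l < b := by
    intro l
    constructor
    · intro hl
      have h2 : t (n + 2) l := (h.step n l).2 (Or.inl hl)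
      have h3 := (hr.1 l).1 h2
      have h4 : l ≠ b := fun e => ((hr.2 l).2 e).2 hl
      omega
    · intro hl
      by_contra h2
      have := (hr.2 l).1 ⟨(hr.1 l).2 hl.le, h2⟩
      omega
  have h0 : ∃ l, t (n + 1) l ∧ ¬ t n l := by
    by_contra hc
    push Not at hc
    have : t (n + 2) (b + 1) := (h.step n _).2 (Or.inr fun l _ => hc l)
    have := (hr.1 _).1 this
    omega
  obtain ⟨l, hl1, hl2, hl3, hl4⟩ := min_diff h h0
  have hb := (hr.2 b).2 rfl
  have h5 := hl4 b hb.1 hb.2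
  have h6 := (h1 l).1 hl1
  refine ⟨l, by omega, fun m => by rw [h1]; omega, fun m => ⟨fun hm => ?_, ?_⟩⟩
  · have h7 := (h1 m).1 hm.1
    by_contra hne
    exact hm.2 (hl3 m (by omega) hm.1)
  · rintro rfl
    exact ⟨hl1, hl2⟩

theorem exists_reg (h : LadSeq t) {n : ℕ} (h0 : ∃ l, t (n + 1) l ∧ ¬ t n l)
    (h1 : ∃ l, t (n + 2) l ∧ ¬ t (n + 1) l) (h2 : ∃ l, t (n + 3) l ∧ ¬ t (n + 2) l) :
    ∃ b, Reg t n b := by
  obtain ⟨l, a1, a2, a3, a4⟩ := min_diff h h0
  obtain ⟨l', b1, b2, b3, b4⟩ := min_diff h h1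
  obtain ⟨m, c1, c2⟩ := h2
  have sub : ∀ x, t (n + 1) x → t (n + 2) x := fun x hx => (h.step n x).2 (Or.inl hx)
  have d := b4 m c1 c2
  rcases a4 l' b1 b2 with e | e
  · exfalso
    rcases d with d | d
    · exact c2 (sub _ (h.up _ _ _ a1 (by omega)))
    · exact c2 (sub _ (h.up _ _ _ a1 (by omega)))
  · have hm : m = l + 2 := by
      rcases d with d | d
      · exfalso
        exact c2 (sub _ (h.up _ _ _ a1 (by omega)))
      · omega
    have key : ∀ x, t (n + 1) x ↔ x ≤ l := by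
      intro x
      constructor
      · intro hx
        by_contra hc
        by_cases h3 : x = l + 2
        · exact c2 (sub _ (by rw [hm, ← h3]; exact hx))
        · exact b2 (h.up _ _ _ hx (by omega))
      · intro hx
        by_cases h3 : x + 1 = l
        · refine b3 x (by omega) ((h.step n x).2 (Or.inr fun y hy => a3 y (by omega)))
        · exact h.up _ _ _ a1 (by omega)
    refine ⟨l, key, fun x => ⟨fun hx => ?_, ?_⟩⟩
    · have := (key x).1 hx.1
      by_contra hne
      exact hx.2 (a3 x (by omega) hx.1)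
    · rintro rfl
      exact ⟨a1, a2⟩

theorem Reg.all (h : LadSeq t) {b : ℕ} (hr : Reg t 0 b) (n : ℕ) : Reg t n (b + n) := by
  induction n with
  | zero => exact hr
  | succ n ih => exact ih.succ h

theorem Reg.zero (h : LadSeq t) : ∀ {n b : ℕ}, Reg t n b → ∃ b', Reg t 0 b' := by
  intro n
  induction n with
  | zero => intro b hr; exact ⟨b, hr⟩
  | succ n ih =>
    intro b hr
    obtain ⟨b', -, hb'⟩ := hr.pred h
    exact ih hb'

end Pool.Agent.MP_3c2488_lc

end

section

namespace Pool.Agent.MP_3c2488_lc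

open Classical

/-- the frame: `C` is the set of configurations present, `ν` the marker configuration -/
inductive Pt (k : ℕ) (C : (Fin k → ℕ) → Prop) (ν : Fin k → ℕ) : Type
  | mx (j : Fin (k + 4))
  | mu
  | lad (i : Fin k) (n : ℕ)
  | cfg (c : Fin k → ℕ) (h : C c)
  | bt (g : G5) (h : g ≠ .t)

variable {k : ℕ} {C : (Fin k → ℕ) → Prop} {ν : Fin k → ℕ}

def Pt.le : Pt k C ν → Pt k C ν → Prop
  | .mx j, .mx j' => j = j'
  | .mx _, _ => False
  | .mu, .mx j => (j : ℕ) ≤ 1
  | .mu, .mu => True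
  | .mu, _ => False
  | .lad i _, .mx j => (j : ℕ) ≤ i + 2
  | .lad _ n, .mu => 1 ≤ n
  | .lad i n, .lad i' l => i = i' ∧ (l = n ∨ l + 2 ≤ n)
  | .lad _ _, _ => False
  | .cfg _ _, .mx j => (j : ℕ) ≤ k + 2
  | .cfg _ _, .mu => True
  | .cfg c _, .lad i l => l < c i + 3
  | .cfg c _, .cfg c' _ => c = c'
  | .cfg _ _, .bt _ _ => False
  | .bt _ _, .mx _ => True
  | .bt _ _, .mu => True
  | .bt _ _, .lad _ _ => True
  | .bt g _, .cfg c _ => c ≠ ν ∨ g ≠ .a0
  | .bt g _, .bt g' _ => leG g g' = true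

theorem leG_a0 : ∀ g g' : G5, leG g g' = true → g' ≠ .t → g' ≠ .a0 → g ≠ .a0 := by decide

instance : Preorder (Pt k C ν) where
  le := Pt.le
  le_refl x := by cases x <;> simp [Pt.le, leG]
  le_trans x y z := by
    cases x <;> cases y <;> cases z <;> simp only [Pt.le, imp_self, false_imp_iff, imp_true_iff,
      true_imp_iff]
    all_goals first
      | omega
      | (intro h1 h2; exact h1.trans h2)
      | (rintro ⟨rfl, h1⟩ h2; omega)
      | (rintro h1 ⟨rfl, h2⟩; omega)
      | (rename_i g hg g' hg' c hc; intro h1 h2; exact h2.imp id (leG_a0 _ _ h1 hg'))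
      | (intro h1 h2; exact le_trans (α := G5) h1 h2)

theorem Pt.le_def (x y : Pt k C ν) : x ≤ y ↔ Pt.le x y := Iff.rfl

def Pt.level : Pt k C ν → ℕ
  | .mx _ => 0
  | .mu => 1
  | .lad i _ => i + 2
  | .cfg _ _ => k + 2
  | .bt _ _ => k + 3

theorem Pt.le_mx (x : Pt k C ν) (j : Fin (k + 4)) :
    x ≤ .mx j ↔ x = .mx j ∨ (1 ≤ x.level ∧ (j : ℕ) ≤ x.level) := by
  cases x <;> simp [Pt.le_def, Pt.le, Pt.level]
  omega

theorem Pt.exists_mx (x : Pt k C ν) : ∃ j, x ≤ .mx j := by
  cases x with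
  | mx j => exact ⟨j, le_rfl⟩
  | mu => exact ⟨0, by simp [Pt.le_def, Pt.le]⟩
  | lad i n => exact ⟨0, by simp [Pt.le_def, Pt.le]⟩
  | cfg c h => exact ⟨0, by simp [Pt.le_def, Pt.le]⟩
  | bt g h => exact ⟨0, by simp [Pt.le_def, Pt.le]⟩

theorem Pt.level_one {x : Pt k C ν} (h : x.level = 1) : x = .mu := by
  cases x <;> simp_all [Pt.level]

theorem Pt.level_lad {x : Pt k C ν} {i : Fin k} (h : x.level = i + 2) : ∃ n, x = .lad i n := by
  cases x with
  | lad i' n => exact ⟨n, by rw [Fin.ext (show (i' : ℕ) = i by simpa [Pt.level] using h)]⟩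
  | mx j => simp [Pt.level] at h
  | mu => simp [Pt.level] at h
  | cfg c hc => simp only [Pt.level] at h; omega
  | bt g hg => simp only [Pt.level] at h; omega

theorem Pt.level_cfg {x : Pt k C ν} (h : x.level = k + 2) : ∃ c hc, x = .cfg c hc := by
  cases x with
  | lad i' n => simp only [Pt.level] at h; omega
  | mx j => simp [Pt.level] at h
  | mu => simp [Pt.level] at h
  | cfg c hc => exact ⟨c, hc, rfl⟩
  | bt g hg => simp only [Pt.level] at h; omega

theorem Pt.level_bt {x : Pt k C ν} (h : k + 3 ≤ x.level) : ∃ g hg, x = .bt g hg := by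
  cases x with
  | lad i' n => simp only [Pt.level] at h; omega
  | mx j => simp [Pt.level] at h
  | mu => simp [Pt.level] at h
  | cfg c hc => simp only [Pt.level] at h; omega
  | bt g hg => exact ⟨g, hg, rfl⟩

def ColBy (v : ℕ → Pt k C ν → Prop) (ι : Fin (k + 4) → Fin (k + 4)) : Prop :=
  ∀ c : Fin (k + 4), Forces v (col (k + 4) c) (.mx (ι c))

variable {v : ℕ → Pt k C ν → Prop}

theorem ColBy.inj {ι : Fin (k + 4) → Fin (k + 4)} (h : ColBy v ι) : Function.Injective ι :=
  fun c d e => Fin.ext (col_unique c.2 (h d) (e ▸ h c))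

theorem ColBy.nc (hv : Mono v) {ι : Fin (k + 4) → Fin (k + 4)} (h : ColBy v ι)
    (c : Fin (k + 4)) (x : Pt k C ν) : ¬ Forces v (nc (k + 4) c) x ↔ x ≤ .mx (ι c) := by
  rw [not_forces_nc]
  constructor
  · rintro ⟨y, hy, hc⟩
    obtain ⟨j, hj⟩ := y.exists_mx
    obtain ⟨d, rfl⟩ := Finite.surjective_of_injective h.inj j
    have : (d : ℕ) = c := col_unique d.2 (Forces.mono hv _ hj hc) (h d)
    rw [← Fin.ext this]
    exact hy.trans hj
  · intro hx
    exact ⟨_, hx, h c⟩

theorem exists_colBy (hv : Mono v) {x : Pt k C ν} (hx : ¬ Forces v (gL (k + 4)) x) :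
    ∃ ι, ColBy v ι ∧ ∃ g hg, x = .bt g hg := by
  rw [not_forces_gL] at hx
  have : ∀ c : Fin (k + 4), ∃ j, x ≤ .mx j ∧ Forces v (col (k + 4) c) (.mx j) := by
    intro c
    obtain ⟨y, hy, hc⟩ := hx c c.2
    obtain ⟨j, hj⟩ := y.exists_mx
    exact ⟨j, hy.trans hj, Forces.mono hv _ hj hc⟩
  choose ι h1 h2 using this
  have hc : ColBy v ι := h2
  refine ⟨ι, hc, Pt.level_bt ?_⟩
  have hall : ∀ j, x ≤ .mx j := by
    intro j
    obtain ⟨d, rfl⟩ := Finite.surjective_of_injective hc.inj j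
    exact h1 d
  have a := (x.le_mx _).1 (hall 0)
  have b := (x.le_mx _).1 (hall (Fin.last _))
  rcases b with rfl | b
  · rcases a with a | a
    · simp only [Pt.mx.injEq] at a
      exact absurd (congrArg Fin.val a) (by simp)
    · simp [Pt.level] at a
  · simpa using b.2

def Good (v : ℕ → Pt k C ν → Prop) : Prop :=
  ∃ ι, ColBy v ι ∧ ∀ c : Fin (k + 4), 2 ≤ (c : ℕ) → ι c = c

theorem region (hv : Mono v) (hg : Good v) {j : ℕ} (h1 : 1 ≤ j) (h2 : j ≤ k + 2) (y : Pt k C ν) :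
    (Forces v (nc (k + 4) (j + 1)) y ∧ ¬ Forces v (nc (k + 4) j) y ∧
      ¬ Forces v (nc (k + 4) 0) y) ↔ y.level = j := by
  obtain ⟨ι, hι, hfix⟩ := hg
  have small : ∀ c : Fin (k + 4), (c : ℕ) ≤ 1 → (ι c : ℕ) ≤ 1 := by
    intro c hc
    by_contra hn
    have := hι.inj (hfix (ι c) (by omega))
    have := congrArg Fin.val this
    omega
  have a := hι.nc hv ⟨j + 1, by omega⟩ y
  have b := hι.nc hv ⟨j, by omega⟩ y
  have c := hι.nc hv 0 y
  simp only [Fin.val_zero] at a b c
  rw [hfix _ (by simp only; omega)] at a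
  rw [b, c, ← not_not (a := Forces v (nc (k + 4) (j + 1)) y), a]
  simp only [Pt.le_mx]
  have s0 := small 0 (by simp)
  have hne : ι ⟨j, by omega⟩ ≠ ι 0 := fun e => by
    have := congrArg Fin.val (hι.inj e)
    simp at this
    omega
  have sj : (ι ⟨j, by omega⟩ : ℕ) ≤ j ∧ (2 ≤ j → (ι ⟨j, by omega⟩ : ℕ) = j) := by
    by_cases hj : 2 ≤ j
    · rw [hfix _ hj]; simp
    · have := small ⟨j, by omega⟩ (by simp only; omega)
      omega
  constructor
  · rintro ⟨ha, hb, hc⟩
    rcases hb with rfl | hb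
    · rcases hc with hc | hc
      · exact absurd (Pt.mx.inj hc) hne
      · simp [Pt.level] at hc
    · simp only [not_or, not_and, not_le] at ha
      have := ha.2 hb.1
      omega
  · intro hl
    refine ⟨?_, Or.inr ⟨by omega, by omega⟩, Or.inr ⟨by omega, by omega⟩⟩
    rintro (rfl | h)
    · simp only [Pt.level] at hl; omega
    · omega

theorem forces_Imp (hv : Mono v) (hg : Good v) {j : ℕ} (h1 : 1 ≤ j) (h2 : j ≤ k + 2) (a b : Fm)
    (x : Pt k C ν) : Forces v (Imp (k + 4) j a b) x ↔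
      ∀ y, x ≤ y → y.level = j → Forces v a y → Forces v b y := by
  simp only [Imp, forces_imp, forces_and, forces_or, ← region hv hg h1 h2]
  refine forall_congr' fun y => forall_congr' fun _ => ?_
  tauto

theorem good_of_not_gT (hv : Mono v) {x : Pt k C ν} (hx : ¬ Forces v (gT k) x) :
    Good v ∧ ∃ g hg, x = .bt g hg := by
  simp only [gT, forces_or, not_or, forces_disj, List.mem_map, List.mem_range, not_exists,
    not_and] at hx
  obtain ⟨ι, hι, hb⟩ := exists_colBy hv hx.1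
  refine ⟨⟨ι, hι, ?_⟩, hb⟩
  have key : ∀ j (hj : j + 2 < k + 4), (ι ⟨j + 1, by omega⟩ : ℕ) < ι ⟨j + 2, hj⟩ ∧
      (ι 0 : ℕ) < ι ⟨j + 2, hj⟩ := by
    intro j hj
    have h := hx.2 _ ⟨j, by omega, rfl⟩
    simp only [Imp, forces_imp, forces_and, forces_top, true_and, forces_or, forces_bot,
      false_or, not_forall, not_or] at h
    obtain ⟨y, -, ha, hb, hc⟩ := h
    have a := hι.nc hv ⟨j + 2, hj⟩ y
    have b := (hι.nc hv ⟨j + 1, by omega⟩ y).1 hb
    have c := (hι.nc hv 0 y).1 hc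
    have a' : ¬ y ≤ .mx (ι ⟨j + 2, hj⟩) := fun h => a.2 h ha
    have hne : ι ⟨j + 1, by omega⟩ ≠ ι 0 := fun e => by
      have := congrArg Fin.val (hι.inj e)
      simp at this
    rw [Pt.le_mx] at a' b c
    rcases b with rfl | b
    · rcases c with c | c
      · exact absurd (Pt.mx.inj c) hne
      · simp [Pt.level] at c
    · rcases c with rfl | c
      · simp [Pt.level] at b
      · simp only [not_or, not_and, not_le] at a'
        have := a'.2 b.1
        omega
  have low : ∀ j (hj : j + 2 < k + 4), j + 2 ≤ (ι ⟨j + 2, hj⟩ : ℕ) := by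
    intro j
    induction j with
    | zero =>
      intro hj
      have := key 0 hj
      have hne : (ι ⟨0 + 1, by omega⟩ : ℕ) ≠ ι 0 := fun e => by
        have := congrArg Fin.val (hι.inj (Fin.ext e))
        simp at this
      omega
    | succ j ih =>
      intro hj
      have h1 := (key (j + 1) hj).1
      have h2 := ih (by omega)
      exact Nat.succ_le_of_lt (lt_of_le_of_lt h2 h1)
  have up : ∀ d j (hj : j + 2 < k + 4), j + 2 + d = k + 3 → (ι ⟨j + 2, hj⟩ : ℕ) ≤ j + 2 := by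
    intro d
    induction d with
    | zero => intro j hj h; have := (ι ⟨j + 2, hj⟩).2; omega
    | succ d ih =>
      intro j hj h
      have h1 := (key (j + 1) (by omega)).1
      have h2 := ih (j + 1) (by omega) (by omega)
      exact Nat.le_of_lt_succ (lt_of_lt_of_le h1 h2)
  rintro ⟨c, hc⟩ h2
  obtain ⟨j, rfl⟩ : ∃ j, c = j + 2 := ⟨c - 2, by simp only at h2; omega⟩
  exact Fin.ext (le_antisymm (up (k + 3 - (j + 2)) j hc (by omega)) (low j hc))

theorem not_gT_of_good (hv : Mono v) (hg : Good v) {c₀ : Fin k → ℕ} (hc₀ : C c₀) (hν : c₀ ≠ ν)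
    (g : G5) (h : g ≠ .t) : ¬ Forces v (gT k) (.bt g h) := by
  simp only [gT, forces_or, not_or, forces_disj, List.mem_map, List.mem_range, not_exists,
    not_and]
  constructor
  · rw [not_forces_gL]
    obtain ⟨ι, hι, -⟩ := hg
    exact fun c hc => ⟨_, by simp [Pt.le_def, Pt.le], hι ⟨c, hc⟩⟩
  · rintro _ ⟨j, hj, rfl⟩
    rw [forces_Imp hv hg (by omega) (by omega)]
    intro H
    rcases Nat.eq_zero_or_pos j with rfl | hj0
    · exact H .mu (by simp [Pt.le_def, Pt.le]) rfl (by simp)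
    · by_cases hj1 : j = k + 1
      · exact H (.cfg c₀ hc₀) (Or.inl hν) (by simp [Pt.level, hj1]) (by simp)
      · exact H (.lad ⟨j - 1, by omega⟩ 0) (by simp [Pt.le_def, Pt.le])
          (by simp only [Pt.level]; omega) (by simp)

section Ladder

theorem uv_snd (K j : ℕ) (ab : Fm × Fm) (n : ℕ) : (uv K j ab n).2 = (uv K j ab (n + 1)).1 := rfl

theorem forces_VV (hv : Mono v) (hg : Good v) (i : Fin k) (ab : Fm × Fm) (n : ℕ) (x : Pt k C ν) :
    Forces v (VV (k + 4) (i + 2) ab n) x ↔ ∀ l, x ≤ .lad i l →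
      Forces v (uv (k + 4) (i + 2) ab (n + 1)).1 (.lad i l) →
      Forces v (uv (k + 4) (i + 2) ab n).1 (.lad i l) := by
  rw [VV, forces_Imp hv hg (by omega) (by omega), uv_snd]
  constructor
  · intro h l hl
    exact h _ hl rfl
  · intro h y hy hl
    obtain ⟨l, rfl⟩ := Pt.level_lad hl
    exact h l hy

theorem ladSeq (hv : Mono v) (hg : Good v) (i : Fin k) (ab : Fm × Fm) :
    LadSeq fun n l => Forces v (uv (k + 4) (i + 2) ab n).1 (.lad i l) := by
  refine ⟨fun n m l h hl => Forces.mono hv _ (show Pt.lad i m ≤ .lad i l from And.intro rfl hl) h, fun n m => ?_⟩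
  have := forces_VV hv hg i ab n (.lad i m)
  simp only [Pt.le_def, Pt.le, true_and] at this
  rw [← this]
  rfl

/-- the ladder formulas starting from `ab` describe the ladder from position `β` on -/
def RegAt (v : ℕ → Pt k C ν → Prop) (i : Fin k) (ab : Fm × Fm) (β : ℕ) : Prop :=
  ∀ n x, Forces v (VV (k + 4) (i + 2) ab n) x ↔ ¬ x ≤ .lad i (β + n)

theorem regAt_of_reg (hv : Mono v) (hg : Good v) {i : Fin k} {ab : Fm × Fm} {β : ℕ}
    (h : Reg (fun n l => Forces v (uv (k + 4) (i + 2) ab n).1 (.lad i l)) 0 β) :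
    RegAt v i ab β := by
  intro n x
  have hr := (h.all (ladSeq hv hg i ab) n).2
  rw [forces_VV hv hg]
  constructor
  · intro H hx
    have := (hr _).2 rfl
    exact this.2 (H _ hx this.1)
  · intro H l hl h1
    by_contra h2
    have := (hr l).1 ⟨h1, h2⟩
    exact H (this ▸ hl)

theorem regAt_std (hv : Mono v) (hg : Good v) (i : Fin k) : RegAt v i (std (k + 4)) 0 := by
  refine regAt_of_reg hv hg ?_
  have key : ∀ l, Forces v (uv (k + 4) (i + 2) (std (k + 4)) (0 + 1)).1 (.lad i l) ↔ l ≤ 0 := by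
    intro l
    change Forces v (Imp (k + 4) 1 .top .bot) _ ↔ _
    rw [forces_Imp hv hg le_rfl (by omega)]
    constructor
    · intro h
      by_contra hl
      exact h .mu (show 1 ≤ l by omega) rfl (by simp)
    · intro hl y hy h1 _
      rw [Pt.level_one h1] at hy
      have : 1 ≤ l := hy
      omega
  refine ⟨key, fun l => ?_⟩
  simp only [key]
  simp [uv, std]

theorem exists_regAt (hv : Mono v) (hg : Good v) {i : Fin k} {ab : Fm × Fm} {n : ℕ}
    {x : Pt k C ν} (h0 : ¬ Forces v (VV (k + 4) (i + 2) ab n) x)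
    (h1 : ¬ Forces v (VV (k + 4) (i + 2) ab (n + 1)) x)
    (h2 : ¬ Forces v (VV (k + 4) (i + 2) ab (n + 2)) x) : ∃ β, RegAt v i ab β := by
  rw [forces_VV hv hg] at h0 h1 h2
  push Not at h0 h1 h2
  obtain ⟨l0, -, h0⟩ := h0
  obtain ⟨l1, -, h1⟩ := h1
  obtain ⟨l2, -, h2⟩ := h2
  obtain ⟨b, hb⟩ := exists_reg (ladSeq hv hg i ab) ⟨l0, h0⟩ ⟨l1, h1⟩ ⟨l2, h2⟩
  obtain ⟨β, hβ⟩ := hb.zero (ladSeq hv hg i ab)
  exact ⟨β, regAt_of_reg hv hg hβ⟩

theorem RegAt.std_zero (hv : Mono v) (hg : Good v) {i : Fin k} {β : ℕ}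
    (h : RegAt v i (std (k + 4)) β) : β = 0 := by
  have h1 := h 0 (.lad i 0)
  rw [regAt_std hv hg i 0 (.lad i 0)] at h1
  by_contra hβ
  refine h1.2 ?_ le_rfl
  simp only [Pt.le_def, Pt.le, true_and]
  omega

end Ladder

theorem not_EE_iff (hv : Mono v) (hg : Good v) (st : Fin k → Fm × Fm) (c : Fin k → ℕ)
    (x : Pt k C ν) : ¬ Forces v (EE k st c) x ↔ ∃ d hd, x ≤ .cfg d hd ∧ ∀ i : Fin k,
      Forces v (VV (k + 4) (i + 2) (st i) (c i + 3)) (.cfg d hd) ∧
      ¬ Forces v (VV (k + 4) (i + 2) (st i) (c i + 2)) (.cfg d hd) ∧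
      ¬ Forces v (VV (k + 4) (i + 2) (st i) (c i + 1)) (.cfg d hd) ∧
      ¬ Forces v (VV (k + 4) (i + 2) (st i) (c i)) (.cfg d hd) := by
  rw [EE, forces_Imp hv hg (by omega) le_rfl]
  simp only [forces_conj, forces_disj, List.mem_map, List.mem_finRange, true_and,
    forall_exists_index, forall_apply_eq_imp_iff, exists_exists_eq_and, forces_or]
  push Not
  constructor
  · rintro ⟨y, hy, hl, h1, h2⟩
    obtain ⟨d, hd, rfl⟩ := Pt.level_cfg hl
    exact ⟨d, hd, hy, fun i => ⟨h1 i, h2 i⟩⟩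
  · rintro ⟨d, hd, hy, h⟩
    exact ⟨_, hy, rfl, fun i => (h i).1, fun i => (h i).2⟩

theorem not_EE_elim (hv : Mono v) (hg : Good v) {st : Fin k → Fm × Fm} {c : Fin k → ℕ}
    {x : Pt k C ν} (h : ¬ Forces v (EE k st c) x) :
    ∃ β : Fin k → ℕ, (∀ i, RegAt v i (st i) (β i)) ∧ ∃ hd, x ≤ .cfg (β + c) hd := by
  obtain ⟨d, hd, hx, h⟩ := (not_EE_iff hv hg st c x).1 h
  choose β hβ using fun i => exists_regAt hv hg (h i).2.2.2 (h i).2.2.1 (h i).2.1
  have : d = β + c := by
    funext i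
    have h1 := (h i).1
    have h2 := (h i).2.1
    rw [hβ i] at h1 h2
    simp only [Pt.le_def, Pt.le, Pi.add_apply] at h1 h2 ⊢
    omega
  subst this
  exact ⟨β, hβ, hd, hx⟩

theorem not_EE_intro (hv : Mono v) (hg : Good v) {st : Fin k → Fm × Fm} {β c : Fin k → ℕ}
    (hβ : ∀ i, RegAt v i (st i) (β i)) {x : Pt k C ν} {hd : C (β + c)}
    (hx : x ≤ .cfg (β + c) hd) : ¬ Forces v (EE k st c) x := by
  refine (not_EE_iff hv hg st c x).2 ⟨_, hd, hx, fun i => ?_⟩
  simp only [hβ i _ _, Pt.le_def, Pt.le, Pi.add_apply]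
  omega

theorem not_EA_iff (hv : Mono v) (hg : Good v) (c : Fin k → ℕ) (x : Pt k C ν) :
    ¬ Forces v (EA k c) x ↔ ∃ hd, x ≤ .cfg c hd := by
  constructor
  · intro h
    obtain ⟨β, hβ, hd, hx⟩ := not_EE_elim hv hg h
    have : β = 0 := funext fun i => (hβ i).std_zero hv hg
    subst this
    simp only [zero_add] at hx
    exact ⟨_, hx⟩
  · rintro ⟨hd, hx⟩
    refine not_EE_intro (β := 0) hv hg (fun i => regAt_std hv hg i) (hd := by simpa using hd) ?_
    simpa using hx

theorem abs_zero (hv : Mono v) (hg : Good v) {abs : Fin k → Bool} {β : Fin k → ℕ}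
    (hβ : ∀ i, RegAt v i (stOf k abs i) (β i)) (i : Fin k) (hi : abs i = true) : β i = 0 := by
  have := hβ i
  rw [stOf, if_pos hi] at this
  exact this.std_zero hv hg

theorem valid_ax0 {c₀ : Fin k → ℕ} (hc₀ : C c₀) (hν : c₀ ≠ ν) : Valid (Pt k C ν) (ax0 k) := by
  intro v hv x y _ hy
  by_contra hn
  obtain ⟨ι, hι, g, hg, rfl⟩ := exists_colBy hv hn
  obtain ⟨π, hπ⟩ := (Finite.surjective_of_injective hι.inj).hasRightInverse
  rw [forces_conj] at hy
  have := hy _ (List.mem_map_of_mem (f := fun π => (gT k).subst (ren π))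
    (Finset.mem_toList.2 (Finset.mem_univ π)))
  rw [forces_subst] at this
  refine not_gT_of_good (mono_subst hv _) ⟨id, fun c => ?_, fun _ _ => rfl⟩ hc₀ hν g hg this
  have h1 := hι (π c)
  rw [hπ c, forces_col] at h1
  rw [forces_col]
  simp only [ren, c.2, dif_pos, forces_var, id]
  refine ⟨h1.1, fun d hd hdc z hz => ?_⟩
  rw [dif_pos hd]
  refine h1.2 _ (π ⟨d, hd⟩).2 (fun e => hdc ?_) z hz
  exact congrArg Fin.val (hπ.injective (Fin.ext e))

/-- the map onto `G5` -/
def toG : Pt k C ν → G5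
  | .bt g _ => g
  | _ => .t

theorem toG_mono (x y : Pt k C ν) (h : x ≤ y) : toG x ≤ toG y := by
  change leG _ _ = true
  cases x <;> cases y <;> simp_all [Pt.le_def, Pt.le, toG, leG]

theorem toG_back (x : Pt k C ν) (g : G5) (h : toG x ≤ g) : ∃ y, x ≤ y ∧ toG y = g := by
  by_cases hg : g = .t
  · obtain ⟨j, hj⟩ := x.exists_mx
    exact ⟨_, hj, hg.symm⟩
  · cases x with
    | bt g' h' => exact ⟨.bt g hg, h, rfl⟩
    | _ => exact absurd h (by cases g <;> simp_all [toG, LE.le, leG])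

theorem forces_scott (hv : Mono v) (hg : Good v) {c₀ : Fin k → ℕ} (hc₀ : C c₀) (hν : c₀ ≠ ν)
    (hνC : C ν) (φ : Fm) (x : Pt k C ν) (hφ : ∀ (w w' : ℕ → Pt k C ν → Prop),
      w 0 = w' 0 → w 1 = w' 1 → (Forces w φ x ↔ Forces w' φ x)) :
    Forces v (φ.subst fun n => if n = 0 then (EA k ν).or (gT k) else gT k) x ↔
      Forces vG φ (toG x) := by
  rw [forces_subst, ← forces_pmorph toG toG_mono toG_back vG φ x]
  have hq : ∀ y : Pt k C ν, Forces v (gT k) y ↔ toG y = .t := by
    intro y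
    constructor
    · intro h
      cases y with
      | bt g hg' => exact absurd h (not_gT_of_good hv hg hc₀ hν g hg')
      | _ => rfl
    · intro h
      by_contra hn
      obtain ⟨-, g, hg', rfl⟩ := good_of_not_gT hv hn
      exact hg' h
  refine hφ _ _ ?_ ?_
  · funext y
    simp only [if_true, forces_or, vG, true_and, hq, eq_iff_iff]
    cases y with
    | bt g hg' =>
      rw [← not_not (a := Forces v (EA k ν) _), not_EA_iff hv hg]
      simp [toG, hg', Pt.le_def, Pt.le, hνC]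
    | _ => simp [toG]
  · funext y
    simp [vG, hq]

section Final

variable {M : Mach k} {s : Fin k → ℕ}

theorem not_hsc_of_not_halts (h : ¬ M.Halts s)
    (hν1 : ¬ Relation.ReflTransGen (Step M.R) s M.ν) (hν2 : ∀ y, ¬ Step M.R M.ν y)
    (hν3 : ¬ Match M.habs M.hc M.ν) : ¬ HereditarilySC (completion (Der (axA M s))) := by
  let C : (Fin k → ℕ) → Prop := fun c => Relation.ReflTransGen (Step M.R) s c ∨ c = M.ν
  have hs : C s := Or.inl .refl
  have hsν : s ≠ M.ν := fun e => hν1 (e ▸ .refl)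
  have hν : C M.ν := Or.inr rfl
  have eP : scottP ((EA k M.ν).or (gT k)) (gT k) = (scottP (.var 0) (.var 1)).subst
      fun n => if n = 0 then (EA k M.ν).or (gT k) else gT k := rfl
  have eC : scottC ((EA k M.ν).or (gT k)) (gT k) = (scottC (.var 0) (.var 1)).subst
      fun n => if n = 0 then (EA k M.ν).or (gT k) else gT k := rfl
  have hval : Valid (Pt k C M.ν) (axA M s) := by
    intro v hv x
    refine ⟨⟨valid_ax0 hs hsν v hv x, ?_, ?_, ?_⟩, ?_⟩
    · rw [forces_conj]
      intro a ha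
      obtain ⟨r, hr, rfl⟩ := List.mem_map.1 ha
      intro y _ hy
      by_contra hn
      simp only [forces_or, not_or] at hn
      obtain ⟨hg, g, hg', rfl⟩ := good_of_not_gT hv hn.2
      obtain ⟨β, hβ, hd, -⟩ := not_EE_elim hv hg hn.1
      have hstep : Step M.R (β + r.c) (β + r.c') := ⟨r, hr, β, abs_zero hv hg hβ, rfl, rfl⟩
      have hreach : Relation.ReflTransGen (Step M.R) s (β + r.c') :=
        (hd.resolve_right fun e => hν2 _ (e ▸ hstep)).tail hstep
      have hne : β + r.c' ≠ M.ν := fun e => hν1 (e ▸ hreach)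
      exact not_EE_intro hv hg hβ (hd := Or.inl hreach) (Or.inl hne) hy
    · by_contra hn
      simp only [forces_or, not_or] at hn
      obtain ⟨hg, g, hg', rfl⟩ := good_of_not_gT hv hn.2
      obtain ⟨β, hβ, hd, -⟩ := not_EE_elim hv hg hn.1
      have hm : Match M.habs M.hc (β + M.hc) := ⟨β, abs_zero hv hg hβ, rfl⟩
      rcases hd with hd | hd
      · exact h ⟨_, hd, hm⟩
      · exact hν3 (hd ▸ hm)
    · by_cases hq : ∀ y, Forces v (gT k) y
      · exact scottP_of_forces (p := (EA k M.ν).or (gT k)) (fun y => Or.inr (hq y)) hq x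
      · push Not at hq
        obtain ⟨y, hy⟩ := hq
        rw [eP, forces_scott hv (good_of_not_gT hv hy).1 hs hsν hν]
        · exact vG_P _
        · intro w w' h0 h1
          simp only [scottP, forces_and, forces_imp, forces_neg, forces_or, forces_var, h0, h1]
    · intro y _ hy
      by_contra hn
      obtain ⟨hg, g, hg', rfl⟩ := good_of_not_gT hv hn
      exact (not_EA_iff hv hg s _).2 ⟨hs, Or.inl hsν⟩ hy
  refine negative der_axA.and1.and2.and2.and2 fun hd => ?_
  let v : ℕ → Pt k C M.ν → Prop := fun n x => ∃ j : Fin (k + 4), (j : ℕ) = n ∧ x = .mx j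
  have hv : Mono v := by
    rintro n _ y hy ⟨j, rfl, rfl⟩
    cases y <;> simp_all [Pt.le_def, Pt.le, v]
  have hg : Good v := by
    refine ⟨id, fun c => ?_, fun _ _ => rfl⟩
    rw [forces_col]
    refine ⟨⟨c, rfl, rfl⟩, ?_⟩
    rintro d _ hdc y hy ⟨j, rfl, rfl⟩
    exact hdc (congrArg Fin.val (show c = j from hy)).symm
  have := hd.valid hval v hv (.bt .r (by decide))
  rw [eC, forces_scott hv hg hs hsν hν] at this
  · exact vG_C this
  · intro w w' h0 h1
    simp only [scottC, forces_imp, forces_or, forces_var, h0, h1]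

end Final

end Pool.Agent.MP_3c2488_lc

end

section

namespace Pool.Agent.MP_3c2488_lc

/-- the Gödel numbers of a sequence of formulas are primitive recursive -/
def PF (f : ℕ → Fm) : Prop := Primrec fun n => (f n).code

theorem PF.const (a : Fm) : PF fun _ => a := Primrec.const _

theorem primrec_node (t : ℕ) {f g : ℕ → ℕ} (hf : Primrec f) (hg : Primrec g) :
    Primrec fun n => Nat.pair t (Nat.pair (f n) (g n)) :=
  Primrec₂.natPair.comp (Primrec.const t) (Primrec₂.natPair.comp hf hg)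

theorem PF.and {f g : ℕ → Fm} (hf : PF f) (hg : PF g) : PF fun n => (f n).and (g n) :=
  primrec_node 2 hf hg
theorem PF.or {f g : ℕ → Fm} (hf : PF f) (hg : PF g) : PF fun n => (f n).or (g n) :=
  primrec_node 3 hf hg
theorem PF.imp {f g : ℕ → Fm} (hf : PF f) (hg : PF g) : PF fun n => (f n).imp (g n) :=
  primrec_node 4 hf hg

theorem PF.comp {f : ℕ → Fm} (hf : PF f) {g : ℕ → ℕ} (hg : Primrec g) : PF fun n => f (g n) :=
  Primrec.comp (f := fun n => (f n).code) hf hg

theorem PF.Imp (K j : ℕ) {f g : ℕ → Fm} (hf : PF f) (hg : PF g) :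
    PF fun n => Imp K j (f n) (g n) :=
  (hf.and (PF.const _)).imp (hg.or (PF.const _))

theorem PF.conj {ι : Type} (l : List ι) {f : ι → ℕ → Fm} (hf : ∀ i, PF (f i)) :
    PF fun n => .conj (l.map fun i => f i n) := by
  induction l with
  | nil => exact PF.const _
  | cons a l ih => exact (hf a).and ih

theorem PF.disj {ι : Type} (l : List ι) {f : ι → ℕ → Fm} (hf : ∀ i, PF (f i)) :
    PF fun n => .disj (l.map fun i => f i n) := by
  induction l with
  | nil => exact PF.const _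
  | cons a l ih => exact (hf a).or ih

theorem primrec_uv (K j : ℕ) (ab : Fm × Fm) :
    Primrec fun n => ((uv K j ab n).1.code, (uv K j ab n).2.code) := by
  let c1 := (nc K (j + 1)).code
  let c2 := ((nc K j).or (nc K 0)).code
  have hg : Primrec₂ fun (_ : ℕ) (p : ℕ × ℕ) => (p.2, Nat.pair 3 (Nat.pair p.2
      (Nat.pair 4 (Nat.pair (Nat.pair 2 (Nat.pair p.2 c1)) (Nat.pair 3 (Nat.pair p.1 c2)))))) := by
    have h1 : Primrec fun q : ℕ × ℕ × ℕ => q.2.1 := Primrec.fst.comp Primrec.snd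
    have h2 : Primrec fun q : ℕ × ℕ × ℕ => q.2.2 := Primrec.snd.comp Primrec.snd
    have node : ∀ (t : ℕ) {f g : ℕ × ℕ × ℕ → ℕ}, Primrec f → Primrec g →
        Primrec fun n => Nat.pair t (Nat.pair (f n) (g n)) := fun t _ _ hf hg =>
      Primrec₂.natPair.comp (Primrec.const t) (Primrec₂.natPair.comp hf hg)
    exact h2.pair (node 3 h2 (node 4 (node 2 h2 (Primrec.const _)) (node 3 h1 (Primrec.const _))))
  refine (Primrec.nat_rec₁ (ab.1.code, ab.2.code) hg).of_eq fun n => ?_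
  induction n with
  | zero => rfl
  | succ n ih => simp only [ih]; rfl

theorem PF.VV (K j : ℕ) (ab : Fm × Fm) : PF (VV K j ab) :=
  PF.Imp K j (Primrec.snd.comp (primrec_uv K j ab)) (Primrec.fst.comp (primrec_uv K j ab))

theorem PF.EA {k : ℕ} {s : ℕ → Fin k → ℕ} (hs : ∀ i, Primrec fun n => s n i) :
    PF fun n => EA k (s n) := by
  have h : ∀ i c, Primrec fun n => s n i + c := fun i c =>
    Primrec.nat_add.comp (hs i) (Primrec.const c)
  refine PF.Imp _ _ (PF.conj _ fun i => (PF.VV _ _ _).comp (h i 3)) (PF.disj _ fun i => ?_)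
  exact ((PF.VV _ _ _).comp (h i 2)).or (((PF.VV _ _ _).comp (h i 1)).or
    ((PF.VV _ _ _).comp (hs i)))

theorem PF.axA {k : ℕ} (M : Mach k) {s : ℕ → Fin k → ℕ} (hs : ∀ i, Primrec fun n => s n i) :
    PF fun n => axA M (s n) :=
  (PF.const _).and ((PF.EA hs).imp (PF.const _))

open Nat.Partrec in
theorem exists_reduction : ∃ F : ℕ → Fm, PF F ∧ ∀ n,
    HereditarilySC (completion (Der (F n))) ↔
      (Code.eval (Denumerable.ofNat Code n) 0).Dom := by
  have hg : Primrec₂ fun s n : ℕ =>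
      bif (Code.evaln s (Denumerable.ofNat Code n) 0).isSome then 0 else 1 := by
    refine Primrec.cond (Primrec.option_isSome.comp ?_) (Primrec.const 0) (Primrec.const 1)
    exact Code.primrec_evaln.comp ((Primrec.fst.pair ((Primrec.ofNat Code).comp Primrec.snd)).pair
      (Primrec.const 0))
  obtain ⟨p, hp⟩ := exists_search hg
  obtain ⟨m, M, s₀, h1, h2, h3⟩ := exists_mach p
  refine ⟨fun n => axA M (Fin.cons s₀ fun i : Fin m =>
    (fun j : ℕ => if j = 0 then n else if j = 2 then 1 else 0) i), PF.axA M fun i => ?_,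
    fun n => ?_⟩
  · refine Fin.cases (Primrec.const s₀) (fun j => ?_) i
    simp only [Fin.cons_succ]
    by_cases hj : (j : ℕ) = 0
    · simp only [hj, if_true]; exact Primrec.id
    · simp only [hj, if_false]; exact Primrec.const _
  · obtain ⟨h4, h5⟩ := h1 (fun j : ℕ => if j = 0 then n else if j = 2 then 1 else 0)
    have e : (∃ s, (bif (Code.evaln s (Denumerable.ofNat Code n) 0).isSome then 0 else 1) = 0) ↔
        (Code.eval (Denumerable.ofNat Code n) 0).Dom := by
      rw [Part.dom_iff_mem]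
      simp only [Code.evaln_complete]
      constructor
      · rintro ⟨s, hs⟩
        cases h : Code.evaln s (Denumerable.ofNat Code n) 0 with
        | none => simp [h] at hs
        | some x => exact ⟨x, s, h⟩
      · rintro ⟨x, s, hs⟩
        exact ⟨s, by simp [Option.mem_def.1 hs]⟩
    rw [← e, ← hp, ← h4]
    exact ⟨fun h => by_contra fun hn => not_hsc_of_not_halts hn h5 h2 h3 h, hsc_of_halts⟩

open Nat.Partrec in
theorem undecidable : ¬ ∃ f : ℕ →. Bool, Partrec f ∧ ∀ A : Fm, ∃ b ∈ f A.code,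
    (b = true ↔ HereditarilySC (completion (Der A))) := by
  rintro ⟨f, hf, h⟩
  obtain ⟨F, hF, hred⟩ := exists_reduction
  choose b hb1 hb2 using h
  refine ComputablePred.halting_problem 0 (ComputablePred.computable_iff.2
    ⟨fun c => b (F (Encodable.encode c)), ?_, ?_⟩)
  · exact (hf.comp ((Primrec.comp hF Primrec.encode).to_comp)).of_eq_tot fun c => hb1 _
  · funext c
    rw [eq_iff_iff, hb2, hred]
    simp

end Pool.Agent.MP_3c2488_lc

end
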