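import Pool.Agent.MP_bcf1b9_lc.Defs
import Pool.Agent.MP_9a65c4_lc.PR
import Pool.Agent.Mg.F3c2488p.Ge60189

section

namespace Pool.Agent.MP_bcf1b9_lc

theorem isBis_Bis (M : KM) : IsBis M (Bis M) := by
  rintro x y ⟨Z, hZ, hxy⟩
  obtain ⟨h1, h2, h3⟩ := hZ x y hxy
  refine ⟨h1, fun i x' h => ?_, fun i y' h => ?_⟩
  · obtain ⟨y', a, b⟩ := h2 i x' h
    exact ⟨y', a, Z, hZ, b⟩
  · obtain ⟨x', a, b⟩ := h3 i y' h
    exact ⟨x', a, Z, hZ, b⟩

theorem Bis.refl {M : KM} (x : M.W) : Bis M x x := by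
  refine ⟨Eq, ?_, rfl⟩
  rintro x y rfl
  exact ⟨fun _ => Iff.rfl, fun _ x' h => ⟨x', h, rfl⟩, fun _ x' h => ⟨x', h, rfl⟩⟩

theorem Bis.symm {M : KM} {x y : M.W} (h : Bis M x y) : Bis M y x := by
  refine ⟨fun a b => Bis M b a, fun a b hab => ?_, h⟩
  obtain ⟨h1, h2, h3⟩ := isBis_Bis M b a hab
  exact ⟨fun p => (h1 p).symm, h3, h2⟩

theorem Bis.trans {M : KM} {x y z : M.W} (h : Bis M x y) (h' : Bis M y z) : Bis M x z := by
  refine ⟨fun a c => ∃ b, Bis M a b ∧ Bis M b c, ?_, y, h, h'⟩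
  rintro a c ⟨b, hab, hbc⟩
  obtain ⟨h1, h2, h3⟩ := isBis_Bis M a b hab
  obtain ⟨k1, k2, k3⟩ := isBis_Bis M b c hbc
  refine ⟨fun p => (h1 p).trans (k1 p), fun i a' r => ?_, fun i c' r => ?_⟩
  · obtain ⟨b', r1, s1⟩ := h2 i a' r
    obtain ⟨c', r2, s2⟩ := k2 i b' r1
    exact ⟨c', r2, b', s1, s2⟩
  · obtain ⟨b', r1, s1⟩ := k3 i c' r
    obtain ⟨a', r2, s2⟩ := h3 i b' r1
    exact ⟨a', r2, b', s2, s1⟩

theorem Bis.sat {M : KM} {x y : M.W} (h : Bis M x y) (φ : Fm) : Sat M φ x ↔ Sat M φ y := by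
  induction φ generalizing x y with
  | atom p => exact (isBis_Bis M x y h).1 p
  | neg φ ih => exact not_congr (ih h)
  | and φ ψ ih ih' => exact and_congr (ih h) (ih' h)
  | K i φ ih =>
    obtain ⟨-, h2, h3⟩ := isBis_Bis M x y h
    constructor
    · intro a v r
      obtain ⟨u, r', s⟩ := h3 i v r
      exact (ih s).1 (a u r')
    · intro a u r
      obtain ⟨v, r', s⟩ := h2 i u r
      exact (ih s).2 (a v r')

theorem Basic_quot {M : KM} {x y : M.W} : Quot.mk (Bis M) x = Quot.mk (Bis M) y ↔ Bis M x y := by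
  rw [Quot.eq]
  exact Equivalence.eqvGen_iff ⟨Bis.refl, Bis.symm, Bis.trans⟩

theorem finBis_iff (M : KM) :
    FinBis M ↔ ∃ s : Set M.W, s.Finite ∧ ∀ x, ∃ y ∈ s, Bis M x y := by
  constructor
  · intro h
    have : Finite (Quot (Bis M)) := h
    exact ⟨Set.range (Quot.out : Quot (Bis M) → M.W), Set.finite_range _, fun x =>
      ⟨_, ⟨Quot.mk _ x, rfl⟩, Basic_quot.1 (Quot.out_eq _).symm⟩⟩
  · rintro ⟨s, hs, h⟩
    have := hs.to_subtype
    refine Finite.of_surjective (fun y : s => Quot.mk (Bis M) y.1) ?_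
    rintro ⟨x⟩
    obtain ⟨y, hy, e⟩ := h x
    exact ⟨⟨y, hy⟩, Basic_quot.2 e.symm⟩

theorem finBis_of_map (M : KM) {X : Type} [Finite X] (α : M.W → X)
    (h : ∀ x y, α x = α y → Bis M x y) : FinBis M := by
  refine (finBis_iff M).2 ⟨Set.range fun a : Set.range α => a.2.choose, Set.finite_range _,
    fun x => ⟨_, ⟨⟨α x, x, rfl⟩, rfl⟩, h _ _ ?_⟩⟩
  exact (Exists.choose_spec (p := fun y => α y = α x) _).symm

theorem not_finBis (M : KM) (x : ℕ → M.W) (h : ∀ j k, j < k → ¬ Bis M (x j) (x k)) :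
    ¬ FinBis M := by
  intro hf
  have : Finite (Quot (Bis M)) := hf
  refine not_injective_infinite_finite (fun k => Quot.mk (Bis M) (x k)) fun j k e => ?_
  have e' := Basic_quot.1 e
  rcases lt_trichotomy j k with a | a | a
  · exact absurd e' (h j k a)
  · exact a
  · exact absurd e'.symm (h k j a)

/-- bounded morphisms -/
structure BM (M N : KM) (f : M.W → N.W) : Prop where
  val : ∀ p x, N.V p (f x) ↔ M.V p x
  forth : ∀ i x x', M.R i x x' → N.R i (f x) (f x')
  back : ∀ i x y', N.R i (f x) y' → ∃ x', M.R i x x' ∧ f x' = y'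

theorem BM.bis_iff {M N : KM} {f : M.W → N.W} (h : BM M N f) (x y : M.W) :
    Bis N (f x) (f y) ↔ Bis M x y := by
  constructor
  · intro e
    refine ⟨fun a b => Bis N (f a) (f b), fun a b hab => ?_, e⟩
    obtain ⟨h1, h2, h3⟩ := isBis_Bis N _ _ hab
    refine ⟨fun p => by rw [← h.val, ← h.val, h1], fun i a' r => ?_, fun i b' r => ?_⟩
    · obtain ⟨v, r1, s⟩ := h2 i _ (h.forth i a a' r)
      obtain ⟨b', r2, rfl⟩ := h.back i b v r1
      exact ⟨b', r2, s⟩
    · obtain ⟨v, r1, s⟩ := h3 i _ (h.forth i b b' r)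
      obtain ⟨a', r2, rfl⟩ := h.back i a v r1
      exact ⟨a', r2, s⟩
  · intro e
    refine ⟨fun u v => ∃ a b, u = f a ∧ v = f b ∧ Bis M a b, ?_, x, y, rfl, rfl, e⟩
    rintro _ _ ⟨a, b, rfl, rfl, hab⟩
    obtain ⟨h1, h2, h3⟩ := isBis_Bis M _ _ hab
    refine ⟨fun p => by rw [h.val, h.val, h1], fun i u r => ?_, fun i v r => ?_⟩
    · obtain ⟨a', r1, rfl⟩ := h.back i a u r
      obtain ⟨b', r2, s⟩ := h2 i a' r1
      exact ⟨f b', h.forth i b b' r2, a', b', rfl, rfl, s⟩
    · obtain ⟨b', r1, rfl⟩ := h.back i b v r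
      obtain ⟨a', r2, s⟩ := h3 i b' r1
      exact ⟨f a', h.forth i a a' r2, a', b', rfl, rfl, s⟩

theorem BM.finBis {M N : KM} {f : M.W → N.W} (h : BM M N f) (hs : Function.Surjective f) :
    FinBis M ↔ FinBis N := by
  rw [finBis_iff, finBis_iff]
  constructor
  · rintro ⟨s, h1, h2⟩
    refine ⟨f '' s, h1.image f, fun v => ?_⟩
    obtain ⟨x, rfl⟩ := hs v
    obtain ⟨y, hy, e⟩ := h2 x
    exact ⟨f y, ⟨y, hy, rfl⟩, (h.bis_iff x y).2 e⟩
  · rintro ⟨s, h1, h2⟩
    refine ⟨Function.surjInv hs '' s, h1.image _, fun x => ?_⟩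
    obtain ⟨v, hv, e⟩ := h2 (f x)
    refine ⟨_, ⟨v, hv, rfl⟩, (h.bis_iff _ _).1 ?_⟩
    rwa [Function.surjInv_eq hs]

theorem Basic_sat {M N : KM} {f : M.W → N.W} (h : BM M N f) (φ : Fm) (x : M.W) :
    Sat N φ (f x) ↔ Sat M φ x := by
  induction φ generalizing x with
  | atom p => exact h.val p x
  | neg φ ih => exact not_congr (ih x)
  | and φ ψ ih ih' => exact and_congr (ih x) (ih' x)
  | K i φ ih =>
    constructor
    · intro a v r
      exact (ih v).1 (a _ (h.forth i x v r))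
    · intro a u r
      obtain ⟨v, r', rfl⟩ := h.back i x u r
      exact (ih v).2 (a v r')

theorem Basic_incl (M : KM) (A : AM) (n : ℕ) :
    BM (layer M A n) (tree M A) (fun u => ⟨n, u⟩) where
  val _ _ := Iff.rfl
  forth _ u v r := ⟨n, u, v, rfl, rfl, r⟩
  back := by
    rintro i x y' ⟨m, u, v, h1, rfl, r⟩
    cases h1
    exact ⟨v, r, rfl⟩

/-- the evolution model for atomic preconditions, as a model on lists of events -/
def atree (M : KM) (A : AM) (a : A.E → ℕ) : KM where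
  W := {x : M.W × List A.E // ∀ e ∈ x.2, M.V (a e) x.1}
  R i x y := M.R i x.1.1 y.1.1 ∧ List.Forall₂ (A.S i) x.1.2 y.1.2
  V p x := M.V p x.1.1

/-- the world of `M` under a world of a layer -/
def Basic_base (M : KM) (A : AM) : ∀ n, (layer M A n).W → M.W
  | 0, w => w
  | n + 1, x => Basic_base M A n x.1.1

/-- the history of a world of a layer -/
def Basic_evs (M : KM) (A : AM) : ∀ n, (layer M A n).W → List A.E
  | 0, _ => []
  | n + 1, x => x.1.2 :: Basic_evs M A n x.1.1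

theorem Basic_V (M : KM) (A : AM) (p : ℕ) : ∀ n (u : (layer M A n).W),
    (layer M A n).V p u ↔ M.V p (Basic_base M A n u)
  | 0, _ => Iff.rfl
  | n + 1, x => Basic_V M A p n x.1.1

theorem Basic_len (M : KM) (A : AM) : ∀ n (u : (layer M A n).W), (Basic_evs M A n u).length = n
  | 0, _ => rfl
  | n + 1, x => congrArg (· + 1) (Basic_len M A n x.1.1)

theorem Basic_R (M : KM) (A : AM) (i : ℕ) : ∀ n (u v : (layer M A n).W),
    (layer M A n).R i u v ↔ M.R i (Basic_base M A n u) (Basic_base M A n v) ∧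
      List.Forall₂ (A.S i) (Basic_evs M A n u) (Basic_evs M A n v)
  | 0, _, _ => ⟨fun h => ⟨h, .nil⟩, fun h => h.1⟩
  | n + 1, x, y => by
    have := Basic_R M A i n x.1.1 y.1.1
    change (layer M A n).R i x.1.1 y.1.1 ∧ A.S i x.1.2 y.1.2 ↔ _
    rw [this, Basic_evs, Basic_evs, Basic_base, Basic_base, List.forall₂_cons]
    tauto

theorem Basic_valid (M : KM) (A : AM) (a : A.E → ℕ) (h : ∀ e, A.pre e = .atom (a e)) :
    ∀ n (u : (layer M A n).W), ∀ e ∈ Basic_evs M A n u, M.V (a e) (Basic_base M A n u)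
  | 0, _ => fun _ he => absurd he List.not_mem_nil
  | n + 1, x => by
    intro e he
    rcases List.mem_cons.1 he with rfl | he
    · have := x.2
      rw [h] at this
      exact (Basic_V M A _ n x.1.1).1 this
    · exact Basic_valid M A a h n x.1.1 e he

theorem Basic_sur (M : KM) (A : AM) (a : A.E → ℕ) (h : ∀ e, A.pre e = .atom (a e)) (w : M.W) :
    ∀ n (l : List A.E), l.length = n → (∀ e ∈ l, M.V (a e) w) →
      ∃ u : (layer M A n).W, Basic_base M A n u = w ∧ Basic_evs M A n u = l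
  | 0, l, hl, _ => ⟨w, rfl, (List.length_eq_zero_iff.1 hl).symm⟩
  | n + 1, [], hl, _ => by simp at hl
  | n + 1, e :: l, hl, hv => by
    obtain ⟨u, u1, u2⟩ := Basic_sur M A a h w n l (by simpa using hl)
      fun f hf => hv f (List.mem_cons_of_mem _ hf)
    refine ⟨⟨(u, e), ?_⟩, u1, congrArg (e :: ·) u2⟩
    rw [h]
    exact (Basic_V M A _ n u).2 (u1 ▸ hv e List.mem_cons_self)

theorem finBis_atree (M : KM) (A : AM) (a : A.E → ℕ) (h : ∀ e, A.pre e = .atom (a e)) :
    FinBis (tree M A) ↔ FinBis (atree M A a) := by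
  refine BM.finBis (f := fun x : (tree M A).W =>
    (⟨(Basic_base M A x.1 x.2, Basic_evs M A x.1 x.2), Basic_valid M A a h x.1 x.2⟩ :
      (atree M A a).W)) ⟨fun p x => (Basic_V M A p x.1 x.2).symm, ?_, ?_⟩ ?_
  · rintro i _ _ ⟨n, u, v, rfl, rfl, r⟩
    exact (Basic_R M A i n u v).1 r
  · rintro i ⟨n, u⟩ ⟨⟨w, l⟩, hl⟩ ⟨r1, r2⟩
    obtain ⟨v, rfl, rfl⟩ := Basic_sur M A a h w n l
      (r2.length_eq.symm.trans (Basic_len M A n u)) hl
    exact ⟨⟨n, v⟩, ⟨n, u, v, rfl, rfl, (Basic_R M A i n u v).2 ⟨r1, r2⟩⟩, rfl⟩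
  · rintro ⟨⟨w, l⟩, hl⟩
    obtain ⟨v, v1, v2⟩ := Basic_sur M A a h w l.length l rfl hl
    exact ⟨⟨l.length, v⟩, Subtype.ext (Prod.ext v1 v2)⟩

theorem Basic_pre {M : KM} {A : AM} {m j : ℕ} {u : (layer M A m).W} {v : (layer M A j).W}
    (h : Bis (tree M A) ⟨m, u⟩ ⟨j, v⟩) (φ : Fm) :
    Sat (layer M A m) φ u ↔ Sat (layer M A j) φ v := by
  rw [← Basic_sat (Basic_incl M A m), ← Basic_sat (Basic_incl M A j)]
  exact h.sat φ

theorem Basic_step {M : KM} {A : AM} {m j : ℕ} {x : (layer M A (m + 1)).W}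
    {y : (layer M A (j + 1)).W} (h : Bis (tree M A) ⟨m, x.1.1⟩ ⟨j, y.1.1⟩) (e : x.1.2 = y.1.2) :
    Bis (tree M A) ⟨m + 1, x⟩ ⟨j + 1, y⟩ := by
  refine ⟨fun s t => ∃ (m j : ℕ) (x : (layer M A (m + 1)).W) (y : (layer M A (j + 1)).W),
    s = ⟨m + 1, x⟩ ∧ t = ⟨j + 1, y⟩ ∧ Bis (tree M A) ⟨m, x.1.1⟩ ⟨j, y.1.1⟩ ∧ x.1.2 = y.1.2,
    ?_, m, j, x, y, rfl, rfl, h, e⟩
  rintro _ _ ⟨m, j, x, y, rfl, rfl, h, e⟩
  obtain ⟨h1, h2, h3⟩ := isBis_Bis _ _ _ h
  refine ⟨h1, fun i s r => ?_, fun i t r => ?_⟩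
  · obtain ⟨x', r1, rfl⟩ := (Basic_incl M A (m + 1)).back i x s r
    obtain ⟨t, r2, b⟩ := h2 i _ ((Basic_incl M A m).forth i _ _ r1.1)
    obtain ⟨v, r3, rfl⟩ := (Basic_incl M A j).back i _ t r2
    exact ⟨⟨j + 1, ⟨(v, x'.1.2), (Basic_pre b _).1 x'.2⟩⟩,
      (Basic_incl M A (j + 1)).forth i _ _ ⟨r3, e ▸ r1.2⟩, m, j, x', _, rfl, rfl, b, rfl⟩
  · obtain ⟨y', r1, rfl⟩ := (Basic_incl M A (j + 1)).back i y t r
    obtain ⟨s, r2, b⟩ := h3 i _ ((Basic_incl M A j).forth i _ _ r1.1)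
    obtain ⟨u, r3, rfl⟩ := (Basic_incl M A m).back i _ s r2
    exact ⟨⟨m + 1, ⟨(u, y'.1.2), (Basic_pre b _).2 y'.2⟩⟩,
      (Basic_incl M A (m + 1)).forth i _ _ ⟨r3, e ▸ r1.2⟩, m, j, _, y', rfl, rfl, b, rfl⟩

theorem Basic_fin (M : KM) (A : AM) [Finite M.W] [Finite A.E] : ∀ n, Finite (layer M A n).W
  | 0 => ‹Finite M.W›
  | n + 1 => by
    have := Basic_fin M A n
    exact Subtype.finite

/-- once a layer brings no new class, no later layer does -/
theorem finBis_tree_iff (M : KM) (A : AM) [Finite M.W] [Finite A.E] :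
    FinBis (tree M A) ↔ ∃ k, ∀ u : (layer M A (k + 1)).W, ∃ j ≤ k, ∃ v : (layer M A j).W,
      Bis (tree M A) ⟨k + 1, u⟩ ⟨j, v⟩ := by
  constructor
  · intro h
    by_contra hno
    push Not at hno
    choose u hu using hno
    exact not_finBis (tree M A) (fun k => ⟨k + 1, u k⟩) (fun j k a b => hu k (j + 1) a (u j) b.symm) h
  · rintro ⟨k, hk⟩
    have key : ∀ m (u : (layer M A m).W), ∃ j ≤ k, ∃ v : (layer M A j).W,
        Bis (tree M A) ⟨m, u⟩ ⟨j, v⟩ := by
      intro m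
      induction m with
      | zero => exact fun u => ⟨0, k.zero_le, u, Bis.refl _⟩
      | succ m ih =>
        intro x
        obtain ⟨j, hj, v, b⟩ := ih x.1.1
        have s := Basic_step (x := x) (y := ⟨(v, x.1.2), (Basic_pre b _).1 x.2⟩) b rfl
        rcases hj.eq_or_lt with rfl | hj
        · obtain ⟨l, hl, w, b'⟩ := hk _
          exact ⟨l, hl, w, s.trans b'⟩
        · exact ⟨j + 1, hj, _, s⟩
    refine (finBis_iff _).2 ⟨⋃ j ∈ Set.Iic k, Set.range (Sigma.mk j), ?_, ?_⟩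
    · refine (Set.finite_Iic k).biUnion fun j _ => ?_
      have := Basic_fin M A j
      exact Set.finite_range _
    · rintro ⟨m, u⟩
      obtain ⟨j, hj, v, b⟩ := key m u
      exact ⟨_, Set.mem_biUnion (Set.mem_Iic.2 hj) ⟨v, rfl⟩, b⟩

end Pool.Agent.MP_bcf1b9_lc

end

section

namespace Pool.Agent.MP_bcf1b9_lc

open Pool.Agent.MP_9a65c4_lc

/-- codes of worlds of the evolution model: a world and the events, newest first -/
abbrev ReX : Type := ℕ × List ℕ

def reRel (R S : List (ℕ × ℕ × ℕ)) (i : ℕ) (x y : ReX) : Prop :=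
  (i, x.1, y.1) ∈ R ∧ List.Forall₂ (fun e f => (i, e, f) ∈ S) x.2 y.2

/-- `U` lists the worlds of the layers up to `k + 1` -/
def reU (n : ℕ) (cs : List ℕ) (k : ℕ) (U : List ReX) (T : List (ℕ × ReX)) : Prop :=
  (∀ x ∈ U, x.2.length ≤ k + 1 ∧ ((x.2 = [] ∧ x.1 < n) ∨
    ∃ e < cs.length, ∃ y ∈ U, x = (y.1, e :: y.2) ∧ (cs.getD e 0, y) ∈ T)) ∧
  (∀ w < n, (w, []) ∈ U) ∧
  ∀ y ∈ U, y.2.length ≤ k → ∀ e < cs.length, (cs.getD e 0, y) ∈ T → (y.1, e :: y.2) ∈ U

def reStep (R S : List (ℕ × ℕ × ℕ)) (V : List (ℕ × ℕ)) (U : List ReX) (T : List (ℕ × ReX))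
    (m : ℕ) (x : ReX) : Prop :=
  (m % 4 = 0 ∧ (m / 4, x.1) ∈ V) ∨ (m % 4 = 1 ∧ ¬ (m / 4, x) ∈ T) ∨
    (m % 4 = 2 ∧ ((m / 4).unpair.1, x) ∈ T ∧ ((m / 4).unpair.2, x) ∈ T) ∨
    (m % 4 = 3 ∧ ∀ y ∈ U, reRel R S (m / 4).unpair.1 x y → ((m / 4).unpair.2, y) ∈ T)

/-- `T` is the truth table for the formulas with number below `B` -/
def reT (R S : List (ℕ × ℕ × ℕ)) (V : List (ℕ × ℕ)) (B : ℕ) (U : List ReX)
    (T : List (ℕ × ReX)) : Prop :=
  ∀ m < B, ∀ x ∈ U, ((m, x) ∈ T ↔ reStep R S V U T m x)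

def reZig (R S : List (ℕ × ℕ × ℕ)) (U : List ReX) (Z : List (ReX × ReX)) (x y : ReX) : Prop :=
  ∀ r ∈ R, ∀ x' ∈ U, reRel R S r.1 x x' → ∃ y' ∈ U, reRel R S r.1 y y' ∧ (x', y') ∈ Z

def reZag (R S : List (ℕ × ℕ × ℕ)) (U : List ReX) (Z : List (ReX × ReX)) (x y : ReX) : Prop :=
  ∀ r ∈ R, ∀ y' ∈ U, reRel R S r.1 y y' → ∃ x' ∈ U, reRel R S r.1 x x' ∧ (x', y') ∈ Z

/-- `Z` is a bisimulation on `U` that relates the last layer to the earlier ones -/
def reZ (R S : List (ℕ × ℕ × ℕ)) (V : List (ℕ × ℕ)) (k : ℕ) (U : List ReX)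
    (Z : List (ReX × ReX)) : Prop :=
  (∀ z ∈ Z, z.1 ∈ U ∧ z.2 ∈ U ∧ (∀ q ∈ V, ((q.1, z.1.1) ∈ V ↔ (q.1, z.2.1) ∈ V)) ∧
    reZig R S U Z z.1 z.2 ∧ reZag R S U Z z.1 z.2) ∧
  ∀ x ∈ U, x.2.length = k + 1 → ∃ y ∈ U, y.2.length ≤ k ∧ (x, y) ∈ Z

abbrev ReC : Type := (ℕ × ℕ) × List ReX × List (ℕ × ReX) × List (ReX × ReX)

def reChk (c : MC × AC) (z : ReC) : Prop :=
  (∀ m ∈ c.2.1, m < z.1.2) ∧ reU c.1.1 c.2.1 z.1.1 z.2.1 z.2.2.1 ∧
    reT c.1.2.1 c.2.2 c.1.2.2 z.1.2 z.2.1 z.2.2.1 ∧ reZ c.1.2.1 c.2.2 c.1.2.2 z.1.1 z.2.1 z.2.2.2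

section
variable {α : Type} [Primcodable α]

@[fun_prop] theorem re_pr_div {f g : α → ℕ} (hf : Primrec f) (hg : Primrec g) :
    Primrec fun a => f a / g a := Primrec.nat_div.comp hf hg

@[fun_prop] theorem re_pr_mod {f g : α → ℕ} (hf : Primrec f) (hg : Primrec g) :
    Primrec fun a => f a % g a := Primrec.nat_mod.comp hf hg

theorem re_pp_iff {p q : α → Prop} (hp : PrimrecPred p) (hq : PrimrecPred q) :
    PrimrecPred fun a => p a ↔ q a :=
  ((pp_imp hp hq).and (pp_imp hq hp)).of_eq fun _ => iff_iff_implies_and_implies.symm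

theorem re_forall₂ {P : ℕ → ℕ → Prop} {a b : List ℕ} : List.Forall₂ P a b ↔
    a.length = b.length ∧ ∀ j < a.length, P (a.getD j 0) (b.getD j 0) := by
  rw [List.forall₂_iff_get]
  refine and_congr_right fun e => ⟨fun h j hj => ?_, fun h j h₁ h₂ => ?_⟩
  · have := h j hj (e ▸ hj)
    rwa [List.getD_eq_getElem _ _ hj, List.getD_eq_getElem _ _ (e ▸ hj)]
  · have := h j h₁
    rwa [List.getD_eq_getElem _ _ h₁, List.getD_eq_getElem _ _ h₂] at this

theorem pp_reRel {R S : α → List (ℕ × ℕ × ℕ)} {i : α → ℕ} {x y : α → ReX} (hR : Primrec R)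
    (hS : Primrec S) (hi : Primrec i) (hx : Primrec x) (hy : Primrec y) :
    PrimrecPred fun a => reRel (R a) (S a) (i a) (x a) (y a) :=
  ((pp_mem (f := fun a => (i a, (x a).1, (y a).1)) (by fun_prop) hR).and
    ((pp_eq (f := fun a => (x a).2.length) (g := fun a => (y a).2.length) (by fun_prop)
      (by fun_prop)).and (pp_all_lt (f := fun a => (x a).2.length)
        (R := fun a j => (i a, (x a).2.getD j 0, (y a).2.getD j 0) ∈ S a) (by fun_prop)
        (pp_mem (by fun_prop) (by fun_prop))))).of_eq fun a => by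
    rw [reRel, re_forall₂]

theorem pp_reU {n k : α → ℕ} {cs : α → List ℕ} {U : α → List ReX} {T : α → List (ℕ × ReX)}
    (hn : Primrec n) (hc : Primrec cs) (hk : Primrec k) (hU : Primrec U) (hT : Primrec T) :
    PrimrecPred fun a => reU (n a) (cs a) (k a) (U a) (T a) := by
  unfold reU
  refine PrimrecPred.and (pp_all_mem hU (PrimrecPred.and (pp_le (by fun_prop) (by fun_prop))
    (PrimrecPred.or (PrimrecPred.and (pp_eq (by fun_prop) (by fun_prop))
      (pp_lt (by fun_prop) (by fun_prop))) (pp_ex_lt (by fun_prop) (pp_ex_mem (by fun_prop)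
        (PrimrecPred.and (pp_eq (by fun_prop) (by fun_prop))
          (pp_mem (by fun_prop) (by fun_prop)))))))) (PrimrecPred.and ?_ ?_)
  · exact pp_all_lt hn (pp_mem (by fun_prop) (by fun_prop))
  · exact pp_all_mem hU (pp_imp (pp_le (by fun_prop) (by fun_prop)) (pp_all_lt (by fun_prop)
      (pp_imp (pp_mem (by fun_prop) (by fun_prop)) (pp_mem (by fun_prop) (by fun_prop)))))

theorem pp_reStep {R S : α → List (ℕ × ℕ × ℕ)} {V : α → List (ℕ × ℕ)} {U : α → List ReX}
    {T : α → List (ℕ × ReX)} {m : α → ℕ} {x : α → ReX} (hR : Primrec R) (hS : Primrec S)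
    (hV : Primrec V) (hU : Primrec U) (hT : Primrec T) (hm : Primrec m) (hx : Primrec x) :
    PrimrecPred fun a => reStep (R a) (S a) (V a) (U a) (T a) (m a) (x a) := by
  unfold reStep
  refine PrimrecPred.or ?_ (PrimrecPred.or ?_ (PrimrecPred.or ?_ ?_))
  · exact PrimrecPred.and (pp_eq (by fun_prop) (by fun_prop)) (pp_mem (by fun_prop) hV)
  · exact PrimrecPred.and (pp_eq (by fun_prop) (by fun_prop)) (pp_mem (by fun_prop) hT).not
  · exact PrimrecPred.and (pp_eq (by fun_prop) (by fun_prop))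
      (PrimrecPred.and (pp_mem (by fun_prop) hT) (pp_mem (by fun_prop) hT))
  · exact PrimrecPred.and (pp_eq (by fun_prop) (by fun_prop)) (pp_all_mem hU (pp_imp
      (pp_reRel (by fun_prop) (by fun_prop) (by fun_prop) (by fun_prop) (by fun_prop))
      (pp_mem (by fun_prop) (by fun_prop))))

theorem pp_reT {R S : α → List (ℕ × ℕ × ℕ)} {V : α → List (ℕ × ℕ)} {U : α → List ReX}
    {T : α → List (ℕ × ReX)} {B : α → ℕ} (hR : Primrec R) (hS : Primrec S)
    (hV : Primrec V) (hB : Primrec B) (hU : Primrec U) (hT : Primrec T) :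
    PrimrecPred fun a => reT (R a) (S a) (V a) (B a) (U a) (T a) := by
  unfold reT
  exact pp_all_lt hB (pp_all_mem (by fun_prop) (re_pp_iff (pp_mem (by fun_prop) (by fun_prop))
    (pp_reStep (by fun_prop) (by fun_prop) (by fun_prop) (by fun_prop) (by fun_prop)
      (by fun_prop) (by fun_prop))))

theorem pp_reZig {R S : α → List (ℕ × ℕ × ℕ)} {U : α → List ReX} {Z : α → List (ReX × ReX)}
    {x y : α → ReX} (hR : Primrec R) (hS : Primrec S) (hU : Primrec U) (hZ : Primrec Z)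
    (hx : Primrec x) (hy : Primrec y) :
    PrimrecPred fun a => reZig (R a) (S a) (U a) (Z a) (x a) (y a) := by
  unfold reZig
  exact pp_all_mem hR (pp_all_mem (by fun_prop) (pp_imp
    (pp_reRel (by fun_prop) (by fun_prop) (by fun_prop) (by fun_prop) (by fun_prop))
    (pp_ex_mem (by fun_prop) (PrimrecPred.and
      (pp_reRel (by fun_prop) (by fun_prop) (by fun_prop) (by fun_prop) (by fun_prop))
      (pp_mem (by fun_prop) (by fun_prop))))))

theorem pp_reZag {R S : α → List (ℕ × ℕ × ℕ)} {U : α → List ReX} {Z : α → List (ReX × ReX)}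
    {x y : α → ReX} (hR : Primrec R) (hS : Primrec S) (hU : Primrec U) (hZ : Primrec Z)
    (hx : Primrec x) (hy : Primrec y) :
    PrimrecPred fun a => reZag (R a) (S a) (U a) (Z a) (x a) (y a) := by
  unfold reZag
  exact pp_all_mem hR (pp_all_mem (by fun_prop) (pp_imp
    (pp_reRel (by fun_prop) (by fun_prop) (by fun_prop) (by fun_prop) (by fun_prop))
    (pp_ex_mem (by fun_prop) (PrimrecPred.and
      (pp_reRel (by fun_prop) (by fun_prop) (by fun_prop) (by fun_prop) (by fun_prop))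
      (pp_mem (by fun_prop) (by fun_prop))))))

theorem pp_reZ {R S : α → List (ℕ × ℕ × ℕ)} {V : α → List (ℕ × ℕ)} {U : α → List ReX}
    {Z : α → List (ReX × ReX)} {k : α → ℕ} (hR : Primrec R) (hS : Primrec S)
    (hV : Primrec V) (hk : Primrec k) (hU : Primrec U) (hZ : Primrec Z) :
    PrimrecPred fun a => reZ (R a) (S a) (V a) (k a) (U a) (Z a) := by
  unfold reZ
  refine PrimrecPred.and (pp_all_mem hZ (PrimrecPred.and (pp_mem (by fun_prop) (by fun_prop))
    (PrimrecPred.and (pp_mem (by fun_prop) (by fun_prop)) (PrimrecPred.and ?_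
      (PrimrecPred.and ?_ ?_))))) ?_
  · exact pp_all_mem (by fun_prop) (re_pp_iff (pp_mem (by fun_prop) (by fun_prop))
      (pp_mem (by fun_prop) (by fun_prop)))
  · exact pp_reZig (by fun_prop) (by fun_prop) (by fun_prop) (by fun_prop) (by fun_prop)
      (by fun_prop)
  · exact pp_reZag (by fun_prop) (by fun_prop) (by fun_prop) (by fun_prop) (by fun_prop)
      (by fun_prop)
  · exact pp_all_mem hU (pp_imp (pp_eq (by fun_prop) (by fun_prop)) (pp_ex_mem (by fun_prop)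
      (PrimrecPred.and (pp_le (by fun_prop) (by fun_prop)) (pp_mem (by fun_prop) (by fun_prop)))))

theorem re_exists' {β : Type} [Primcodable β] [Inhabited β] {P : α → β → Prop}
    (hP : PrimrecPred fun p : α × β => P p.1 p.2) : REPred fun a => ∃ b, P a b := by
  have h : PrimrecPred fun p : α × ℕ => P p.1 ((Encodable.decode (α := β) p.2).getD default) :=
    PrimrecPred.comp (p := fun p : α × β => P p.1 p.2) hP
      (Primrec.fst.pair (Primrec.option_getD_default.comp (Primrec.decode.comp Primrec.snd)))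
  refine (re_exists (P := fun a n => P a ((Encodable.decode (α := β) n).getD default))
    h.computablePred).of_eq fun a => ⟨fun ⟨_, k⟩ => ⟨_, k⟩, fun ⟨b, k⟩ => ⟨Encodable.encode b, ?_⟩⟩
  rwa [Encodable.encodek]

end

theorem pp_reChk : PrimrecPred fun p : (MC × AC) × ReC => reChk p.1 p.2 := by
  unfold reChk
  refine PrimrecPred.and ?_ (PrimrecPred.and ?_ (PrimrecPred.and ?_ ?_))
  · exact pp_all_mem (by fun_prop) (pp_lt (by fun_prop) (by fun_prop))
  · exact pp_reU (by fun_prop) (by fun_prop) (by fun_prop) (by fun_prop) (by fun_prop)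
  · exact pp_reT (by fun_prop) (by fun_prop) (by fun_prop) (by fun_prop) (by fun_prop)
      (by fun_prop)
  · exact pp_reZ (by fun_prop) (by fun_prop) (by fun_prop) (by fun_prop) (by fun_prop)
      (by fun_prop)

theorem re_reChk : REPred fun c : MC × AC => ∃ z, reChk c z := re_exists' pp_reChk

end Pool.Agent.MP_bcf1b9_lc

end

section

namespace Pool.Agent.MP_bcf1b9_lc

theorem re_enc_surj (m : ℕ) : ∃ φ, enc φ = m := by
  induction m using Nat.strong_induction_on with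
  | _ m ih =>
    have h₁ := Nat.unpair_left_le (m / 4)
    have h₂ := Nat.unpair_right_le (m / 4)
    have h₃ := Nat.pair_unpair (m / 4)
    rcases (by omega : m % 4 = 0 ∨ m % 4 = 1 ∨ m % 4 = 2 ∨ m % 4 = 3) with h | h | h | h
    · exact ⟨.atom (m / 4), by simp only [enc]; omega⟩
    · obtain ⟨φ, e⟩ := ih (m / 4) (by omega)
      exact ⟨.neg φ, by simp only [enc, e]; omega⟩
    · obtain ⟨φ, e⟩ := ih (m / 4).unpair.1 (by omega)
      obtain ⟨ψ, e'⟩ := ih (m / 4).unpair.2 (by omega)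
      exact ⟨.and φ ψ, by simp only [enc, e, e', h₃]; omega⟩
    · obtain ⟨ψ, e'⟩ := ih (m / 4).unpair.2 (by omega)
      exact ⟨.K (m / 4).unpair.1 ψ, by simp only [enc, e', h₃]; omega⟩

theorem re_enc_inj : ∀ {φ ψ : Fm}, enc φ = enc ψ → φ = ψ := by
  intro φ
  induction φ with
  | atom p => intro ψ h; cases ψ <;> simp only [enc] at h <;> first | omega | (congr 1; omega)
  | neg φ ih =>
    intro ψ h
    cases ψ <;> simp only [enc] at h <;> first | omega | (congr 1; exact ih (by omega))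
  | and φ φ' ih ih' =>
    intro ψ h
    cases ψ with
    | and ψ ψ' =>
      simp only [enc] at h
      have := Nat.pair_eq_pair.1 (by omega : Nat.pair (enc φ) (enc φ') = Nat.pair (enc ψ) (enc ψ'))
      rw [ih this.1, ih' this.2]
    | _ => simp only [enc] at h; omega
  | K i φ ih =>
    intro ψ h
    cases ψ with
    | K j ψ =>
      simp only [enc] at h
      have := Nat.pair_eq_pair.1 (by omega : Nat.pair i (enc φ) = Nat.pair j (enc ψ))
      rw [ih this.2, this.1]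
    | _ => simp only [enc] at h; omega

theorem re_list_surj (cs : List ℕ) : ∃ l : List Fm, cs = l.map enc := by
  induction cs with
  | nil => exact ⟨[], rfl⟩
  | cons a cs ih =>
    obtain ⟨l, rfl⟩ := ih
    obtain ⟨φ, rfl⟩ := re_enc_surj a
    exact ⟨φ :: l, rfl⟩

theorem re_getD (l : List Fm) (e : Fin l.length) : (l.map enc).getD e.1 0 = enc (l.get e) := by
  rw [List.getD_eq_getElem _ _ (by simpa using e.2)]
  simp

section
variable {R S : List (ℕ × ℕ × ℕ)} {V : List (ℕ × ℕ)} {U : List ReX} {T : List (ℕ × ReX)}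

theorem reStep_atom (p : ℕ) (x : ReX) : reStep R S V U T (enc (.atom p)) x ↔ (p, x.1) ∈ V := by
  have h₁ : enc (.atom p) % 4 = 0 := by simp only [enc]; omega
  have h₂ : enc (.atom p) / 4 = p := by simp only [enc]; omega
  simp [reStep, h₁, h₂]

theorem reStep_neg (φ : Fm) (x : ReX) :
    reStep R S V U T (enc (.neg φ)) x ↔ ¬ (enc φ, x) ∈ T := by
  have h₁ : enc (.neg φ) % 4 = 1 := by simp only [enc]; omega
  have h₂ : enc (.neg φ) / 4 = enc φ := by simp only [enc]; omega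
  simp [reStep, h₁, h₂]

theorem reStep_and (φ ψ : Fm) (x : ReX) :
    reStep R S V U T (enc (.and φ ψ)) x ↔ (enc φ, x) ∈ T ∧ (enc ψ, x) ∈ T := by
  have h₁ : enc (.and φ ψ) % 4 = 2 := by simp only [enc]; omega
  have h₂ : enc (.and φ ψ) / 4 = Nat.pair (enc φ) (enc ψ) := by simp only [enc]; omega
  simp [reStep, h₁, h₂]

theorem reStep_K (i : ℕ) (φ : Fm) (x : ReX) :
    reStep R S V U T (enc (.K i φ)) x ↔ ∀ y ∈ U, reRel R S i x y → (enc φ, y) ∈ T := by
  have h₁ : enc (.K i φ) % 4 = 3 := by simp only [enc]; omega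
  have h₂ : enc (.K i φ) / 4 = Nat.pair i (enc φ) := by simp only [enc]; omega
  simp only [reStep, h₁, h₂, Nat.unpair_pair]
  simp

theorem reRel.len {i : ℕ} {x y : ReX} (h : reRel R S i x y) : x.2.length = y.2.length :=
  h.2.length_eq

end

theorem re_neg_lt (φ : Fm) : enc φ < enc (.neg φ) := by simp only [enc]; omega

theorem re_and_lt (φ ψ : Fm) : enc φ < enc (.and φ ψ) ∧ enc ψ < enc (.and φ ψ) := by
  have h₁ := Nat.left_le_pair (enc φ) (enc ψ)
  have h₂ := Nat.right_le_pair (enc φ) (enc ψ)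
  simp only [enc]
  omega

theorem re_K_lt (i : ℕ) (φ : Fm) : enc φ < enc (.K i φ) := by
  have h₂ := Nat.right_le_pair i (enc φ)
  simp only [enc]
  omega

theorem re_layer_fin (M : KM) (A : AM) [Finite M.W] [Finite A.E] (k : ℕ) :
    Finite (layer M A k).W := by
  induction k with
  | zero => exact inferInstanceAs (Finite M.W)
  | succ k ih =>
    exact inferInstanceAs (Finite {x : (layer M A k).W × A.E // Sat _ (A.pre x.2) x.1})

section
variable (mc : MC) (l : List Fm) (s : List (ℕ × ℕ × ℕ))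

/-- the code of a world of a layer -/
def reCode : (k : ℕ) → (layer (toKM mc) (toAM l s) k).W → ReX
  | 0, w => (Fin.val (n := mc.1) w, [])
  | k + 1, x => ((reCode k x.1.1).1, Fin.val (n := l.length) x.1.2 :: (reCode k x.1.1).2)

variable {mc l s}

theorem reCode_len : ∀ (k : ℕ) (x : (layer (toKM mc) (toAM l s) k).W),
    (reCode mc l s k x).2.length = k
  | 0, _ => rfl
  | k + 1, x => congrArg (· + 1) (reCode_len k x.1.1)

theorem reCode_inj : ∀ (k : ℕ) (x y : (layer (toKM mc) (toAM l s) k).W),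
    reCode mc l s k x = reCode mc l s k y → x = y
  | 0, _, _, h => Fin.ext (congrArg Prod.fst h)
  | k + 1, x, y, h => by
    have h₀ := congrArg Prod.fst h
    have h₁ : (reCode mc l s k x.1.1).1 = (reCode mc l s k y.1.1).1 := h₀
    have h₂ := List.cons.inj (congrArg Prod.snd h)
    exact Subtype.ext (Prod.ext (reCode_inj k _ _ (Prod.ext h₁ h₂.2)) (Fin.ext h₂.1))

theorem reCode_R (i : ℕ) : ∀ (k : ℕ) (x y : (layer (toKM mc) (toAM l s) k).W),
    (layer (toKM mc) (toAM l s) k).R i x y ↔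
      reRel mc.2.1 s i (reCode mc l s k x) (reCode mc l s k y)
  | 0, _, _ => ⟨fun h => ⟨h, List.Forall₂.nil⟩, fun h => h.1⟩
  | k + 1, x, y => by
    have ih := reCode_R i k x.1.1 y.1.1
    constructor
    · intro h
      exact ⟨(ih.1 h.1).1, List.Forall₂.cons h.2 (ih.1 h.1).2⟩
    · intro h
      have h₂ := List.forall₂_cons.1 h.2
      exact ⟨ih.2 ⟨h.1, h₂.2⟩, h₂.1⟩

theorem reCode_V (p : ℕ) : ∀ (k : ℕ) (x : (layer (toKM mc) (toAM l s) k).W),
    (layer (toKM mc) (toAM l s) k).V p x ↔ (p, (reCode mc l s k x).1) ∈ mc.2.2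
  | 0, _ => Iff.rfl
  | k + 1, x => reCode_V p k x.1.1

theorem re_tree_R {i j j' : ℕ} (x : (layer (toKM mc) (toAM l s) j).W)
    (y : (layer (toKM mc) (toAM l s) j').W) :
    (tree (toKM mc) (toAM l s)).R i ⟨j, x⟩ ⟨j', y⟩ ↔
      reRel mc.2.1 s i (reCode mc l s j x) (reCode mc l s j' y) := by
  constructor
  · rintro ⟨n, u, v, h₁, h₂, h₃⟩
    cases h₁
    cases h₂
    exact (reCode_R i _ _ _).1 h₃
  · intro h
    have e := h.len
    rw [reCode_len, reCode_len] at e
    subst e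
    exact ⟨j, x, y, rfl, rfl, (reCode_R i _ _ _).2 h⟩

variable {B k : ℕ} {U : List ReX} {T : List (ℕ × ReX)} {Z : List (ReX × ReX)}

theorem re_table (hT : reT mc.2.1 s mc.2.2 B U T) {j : ℕ}
    (hU : ∀ x : ReX, x.2.length = j → (x ∈ U ↔ ∃ u, reCode mc l s j u = x)) (φ : Fm) :
    enc φ < B → ∀ u, ((enc φ, reCode mc l s j u) ∈ T ↔ Sat (layer (toKM mc) (toAM l s) j) φ u) := by
  have mem : ∀ u, reCode mc l s j u ∈ U := fun u => (hU _ (reCode_len j u)).2 ⟨u, rfl⟩
  induction φ with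
  | atom p =>
    intro h u
    rw [hT _ h _ (mem u), reStep_atom]
    exact (reCode_V p j u).symm
  | neg φ ih =>
    intro h u
    rw [hT _ h _ (mem u), reStep_neg, ih ((re_neg_lt φ).trans h)]
    rfl
  | and φ ψ ih ih' =>
    intro h u
    rw [hT _ h _ (mem u), reStep_and, ih ((re_and_lt φ ψ).1.trans h),
      ih' ((re_and_lt φ ψ).2.trans h)]
    rfl
  | K i φ ih =>
    intro h u
    have ih := ih ((re_K_lt i φ).trans h)
    rw [hT _ h _ (mem u), reStep_K]
    constructor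
    · exact fun H v hv => (ih v).1 (H _ (mem v) ((reCode_R i j u v).1 hv))
    · intro H y hy hr
      obtain ⟨v, rfl⟩ := (hU y (hr.len.symm.trans (reCode_len j u))).1 hy
      exact (ih v).2 (H v ((reCode_R i j u v).2 hr))

theorem re_layers (hB : ∀ m ∈ l.map enc, m < B) (hU : reU mc.1 (l.map enc) k U T)
    (hT : reT mc.2.1 s mc.2.2 B U T) (j : ℕ) : j ≤ k + 1 →
    ∀ x : ReX, x.2.length = j → (x ∈ U ↔ ∃ u, reCode mc l s j u = x) := by
  induction j with
  | zero =>
    rintro - ⟨w, a⟩ hx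
    obtain rfl : a = [] := List.length_eq_zero_iff.1 hx
    constructor
    · intro h
      rcases (hU.1 _ h).2 with h' | ⟨e, -, y, -, h', -⟩
      · exact ⟨(⟨w, h'.2⟩ : Fin mc.1), rfl⟩
      · cases h'
    · rintro ⟨u, h⟩
      exact h ▸ hU.2.1 _ (Fin.isLt (n := mc.1) u)
  | succ j ih =>
    intro hj x hx
    have ih := ih (by omega)
    have tb : ∀ (e : Fin l.length) u, ((l.map enc).getD e.1 0, reCode mc l s j u) ∈ T ↔
        Sat (layer (toKM mc) (toAM l s) j) (l.get e) u := fun e u => by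
      rw [re_getD]
      exact re_table hT ih _ (hB _ (List.mem_map_of_mem (List.get_mem l e))) u
    constructor
    · intro h
      rcases (hU.1 _ h).2 with h' | ⟨e, he, y, hy, rfl, h'⟩
      · rw [h'.1] at hx
        cases hx
      · obtain ⟨u, rfl⟩ := (ih y (by simpa using hx)).1 hy
        have he' : e < l.length := by simpa using he
        exact ⟨⟨(u, (⟨e, he'⟩ : Fin l.length)), (tb ⟨e, he'⟩ u).1 h'⟩, rfl⟩
    · rintro ⟨⟨⟨u, e⟩, h⟩, rfl⟩
      exact hU.2.2 _ ((ih _ (reCode_len j u)).2 ⟨u, rfl⟩) (by rw [reCode_len]; omega) _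
        (by simpa using Fin.isLt (n := l.length) e) ((tb e u).2 h)

theorem re_sound (hB : ∀ m ∈ l.map enc, m < B) (hU : reU mc.1 (l.map enc) k U T)
    (hT : reT mc.2.1 s mc.2.2 B U T) (hZ : reZ mc.2.1 s mc.2.2 k U Z) :
    ∃ k, ∀ u : (layer (toKM mc) (toAM l s) (k + 1)).W, ∃ j ≤ k,
      ∃ v : (layer (toKM mc) (toAM l s) j).W, Bis (tree (toKM mc) (toAM l s)) ⟨k + 1, u⟩ ⟨j, v⟩ := by
  have L := re_layers hB hU hT
  have dec : ∀ y ∈ U, ∃ j u, reCode mc l s j u = y := fun y hy =>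
    ⟨_, (L _ (hU.1 y hy).1 y rfl).1 hy⟩
  have nb : ∀ {i x j} (u : (layer (toKM mc) (toAM l s) j).W), x ∈ U →
      reRel mc.2.1 s i x (reCode mc l s j u) → reCode mc l s j u ∈ U := fun u hx hr => by
    have e := hr.len
    rw [reCode_len] at e
    exact (L _ (e ▸ (hU.1 _ hx).1) _ (reCode_len _ u)).2 ⟨u, rfl⟩
  have bis : IsBis (tree (toKM mc) (toAM l s))
      fun t t' => (reCode mc l s t.1 t.2, reCode mc l s t'.1 t'.2) ∈ Z := by
    rintro ⟨j, u⟩ ⟨j', u'⟩ h
    obtain ⟨h₁, h₂, h₃, h₄, h₅⟩ := hZ.1 _ h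
    refine ⟨fun p => ?_, ?_, ?_⟩
    · refine (reCode_V p j u).trans (Iff.trans ?_ (reCode_V p j' u').symm)
      exact ⟨fun e => (h₃ _ e).1 e, fun e => (h₃ _ e).2 e⟩
    · rintro i ⟨a, v⟩ hr
      have hr := (re_tree_R _ _).1 hr
      obtain ⟨y, y₁, y₂, y₃⟩ := h₄ _ hr.1 _ (nb v h₁ hr) hr
      obtain ⟨b, w, rfl⟩ := dec y y₁
      exact ⟨⟨b, w⟩, (re_tree_R _ _).2 y₂, y₃⟩
    · rintro i ⟨a, v⟩ hr
      have hr := (re_tree_R _ _).1 hr
      obtain ⟨y, y₁, y₂, y₃⟩ := h₅ _ hr.1 _ (nb v h₂ hr) hr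
      obtain ⟨b, w, rfl⟩ := dec y y₁
      exact ⟨⟨b, w⟩, (re_tree_R _ _).2 y₂, y₃⟩
  refine ⟨k, fun u => ?_⟩
  obtain ⟨y, y₁, y₂, y₃⟩ := hZ.2 _ ((L _ le_rfl _ (reCode_len _ u)).2 ⟨u, rfl⟩) (reCode_len _ u)
  obtain ⟨b, w, rfl⟩ := dec y y₁
  exact ⟨b, reCode_len b w ▸ y₂, w, _, bis, y₃⟩

theorem re_exists_filter {α : Type} (L : List α) (P : α → Prop) :
    ∃ L' : List α, ∀ x, x ∈ L' ↔ x ∈ L ∧ P x := by
  classical
  exact ⟨L.filter fun x => decide (P x), fun x => by simp⟩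

theorem re_code_eq {j j' : ℕ} {u : (layer (toKM mc) (toAM l s) j).W}
    {u' : (layer (toKM mc) (toAM l s) j').W} (h : reCode mc l s j u = reCode mc l s j' u') :
    (⟨j, u⟩ : (tree (toKM mc) (toAM l s)).W) = ⟨j', u'⟩ := by
  have e : j = j' := by rw [← reCode_len j u, h, reCode_len]
  subst e
  rw [reCode_inj _ _ _ h]

theorem re_complete (B : ℕ) (hB : ∀ m ∈ l.map enc, m < B)
    (H : ∀ u : (layer (toKM mc) (toAM l s) (k + 1)).W, ∃ j ≤ k,
      ∃ v : (layer (toKM mc) (toAM l s) j).W, Bis (tree (toKM mc) (toAM l s)) ⟨k + 1, u⟩ ⟨j, v⟩) :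
    ∃ U T Z, reU mc.1 (l.map enc) k U T ∧ reT mc.2.1 s mc.2.2 B U T ∧
      reZ mc.2.1 s mc.2.2 k U Z := by
  have : Finite (toKM mc).W := inferInstanceAs (Finite (Fin mc.1))
  have : Finite (toAM l s).E := inferInstanceAs (Finite (Fin l.length))
  obtain ⟨U, hU⟩ : ∃ U : List ReX, ∀ x, x ∈ U ↔ ∃ j ≤ k + 1, ∃ u, reCode mc l s j u = x := by
    have hf : (⋃ j ∈ Set.Iic (k + 1), Set.range (reCode mc l s j)).Finite :=
      (Set.finite_Iic _).biUnion fun j _ => by
        have := re_layer_fin (toKM mc) (toAM l s) j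
        exact Set.finite_range _
    exact ⟨hf.toFinset.toList, fun x => by simp⟩
  obtain ⟨T, hT⟩ := re_exists_filter (List.range B ×ˢ U) fun z => ∃ φ j u, enc φ = z.1 ∧
    reCode mc l s j u = z.2 ∧ Sat (layer (toKM mc) (toAM l s) j) φ u
  obtain ⟨Z, hZ⟩ := re_exists_filter (U ×ˢ U) fun z => ∃ j u j' u', reCode mc l s j u = z.1 ∧
    reCode mc l s j' u' = z.2 ∧ Bis (tree (toKM mc) (toAM l s)) ⟨j, u⟩ ⟨j', u'⟩
  have mem : ∀ j ≤ k + 1, ∀ u, reCode mc l s j u ∈ U := fun j hj u => (hU _).2 ⟨j, hj, u, rfl⟩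
  have tb : ∀ φ, enc φ < B → ∀ j ≤ k + 1, ∀ u, ((enc φ, reCode mc l s j u) ∈ T ↔
      Sat (layer (toKM mc) (toAM l s) j) φ u) := fun φ h j hj u => by
    rw [hT, List.mem_product, List.mem_range]
    constructor
    · rintro ⟨-, ψ, j', u', e₁, e₂, e₃⟩
      cases re_enc_inj e₁
      cases re_code_eq e₂
      exact e₃
    · exact fun e => ⟨⟨h, mem j hj u⟩, φ, j, u, rfl, rfl, e⟩
  have tb' : ∀ (e : Fin l.length), ∀ j ≤ k + 1, ∀ u,
      (((l.map enc).getD e.1 0, reCode mc l s j u) ∈ T ↔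
        Sat (layer (toKM mc) (toAM l s) j) (l.get e) u) := fun e j hj u => by
    rw [re_getD]
    exact tb _ (hB _ (List.mem_map_of_mem (List.get_mem l e))) j hj u
  have zb : ∀ j ≤ k + 1, ∀ j' ≤ k + 1, ∀ u u', Bis (tree (toKM mc) (toAM l s)) ⟨j, u⟩ ⟨j', u'⟩ →
      (reCode mc l s j u, reCode mc l s j' u') ∈ Z := fun j hj j' hj' u u' h =>
    (hZ _).2 ⟨List.mem_product.2 ⟨mem j hj u, mem j' hj' u'⟩, j, u, j', u', rfl, rfl, h⟩
  have le : ∀ j u, reCode mc l s j u ∈ U → j ≤ k + 1 := fun j u h => by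
    obtain ⟨j', hj, u', e⟩ := (hU _).1 h
    cases re_code_eq e
    exact hj
  refine ⟨U, T, Z, ⟨fun x hx => ?_, fun w hw => mem 0 (by omega) (⟨w, hw⟩ : Fin mc.1),
    fun y hy hk e he h => ?_⟩, fun m hm x hx => ?_, fun z hz => ?_, fun x hx hk => ?_⟩
  · obtain ⟨j, hj, u, rfl⟩ := (hU x).1 hx
    refine ⟨by rwa [reCode_len], ?_⟩
    cases j with
    | zero => exact Or.inl ⟨rfl, Fin.isLt (n := mc.1) u⟩
    | succ j =>
      obtain ⟨⟨u, e⟩, h⟩ := u
      exact Or.inr ⟨Fin.val (n := l.length) e, by simpa using Fin.isLt (n := l.length) e, _,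
        mem j (by omega) u, rfl, (tb' e j (by omega) u).2 h⟩
  · obtain ⟨j, hj, u, rfl⟩ := (hU y).1 hy
    rw [reCode_len] at hk
    have he' : e < l.length := by simpa using he
    exact mem (j + 1) (by omega) ⟨(u, (⟨e, he'⟩ : Fin l.length)), (tb' ⟨e, he'⟩ j hj u).1 h⟩
  · obtain ⟨j, hj, u, rfl⟩ := (hU x).1 hx
    obtain ⟨φ, rfl⟩ := re_enc_surj m
    rw [tb φ hm j hj]
    cases φ with
    | atom p =>
      rw [reStep_atom]
      exact reCode_V p j u
    | neg φ =>
      rw [reStep_neg, tb φ ((re_neg_lt φ).trans hm) j hj]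
      rfl
    | and φ ψ =>
      rw [reStep_and, tb φ ((re_and_lt φ ψ).1.trans hm) j hj,
        tb ψ ((re_and_lt φ ψ).2.trans hm) j hj]
      rfl
    | K i φ =>
      have ih := tb φ ((re_K_lt i φ).trans hm) j hj
      rw [reStep_K]
      constructor
      · intro H y hy hr
        obtain ⟨j', -, v, rfl⟩ := (hU y).1 hy
        have e := hr.len
        rw [reCode_len, reCode_len] at e
        subst e
        exact (ih v).2 (H v ((reCode_R i j u v).2 hr))
      · exact fun H v hv => (ih v).1 (H _ (mem j hj v) ((reCode_R i j u v).1 hv))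
  · obtain ⟨x, y⟩ := z
    obtain ⟨h₀, j, u, j', u', rfl, rfl, h⟩ := (hZ _).1 hz
    obtain ⟨h₁, h₂⟩ := List.mem_product.1 h₀
    obtain ⟨b₁, b₂, b₃⟩ := isBis_Bis _ _ _ h
    refine ⟨h₁, h₂, fun q _ => (reCode_V q.1 j u).symm.trans ((b₁ q.1).trans (reCode_V q.1 j' u')),
      fun r _ x' hx hr => ?_, fun r _ x' hx hr => ?_⟩
    · obtain ⟨a, ha, v, rfl⟩ := (hU x').1 hx
      obtain ⟨⟨b, w⟩, c₁, c₂⟩ := b₂ r.1 ⟨a, v⟩ ((re_tree_R _ _).2 hr)
      have c₃ := (re_tree_R _ _).1 c₁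
      have e := c₃.len
      rw [reCode_len, reCode_len] at e
      have hb : b ≤ k + 1 := e ▸ le _ _ h₂
      exact ⟨_, mem b hb w, c₃, zb a ha b hb v w c₂⟩
    · obtain ⟨a, ha, v, rfl⟩ := (hU x').1 hx
      obtain ⟨⟨b, w⟩, c₁, c₂⟩ := b₃ r.1 ⟨a, v⟩ ((re_tree_R _ _).2 hr)
      have c₃ := (re_tree_R _ _).1 c₁
      have e := c₃.len
      rw [reCode_len, reCode_len] at e
      have hb : b ≤ k + 1 := e ▸ le _ _ h₁
      exact ⟨_, mem b hb w, c₃, zb b hb a ha w v c₂⟩
  · obtain ⟨j, hj, u, rfl⟩ := (hU x).1 hx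
    rw [reCode_len] at hk
    subst hk
    obtain ⟨j, hj', v, h⟩ := H u
    exact ⟨_, mem j (by omega) v, by rwa [reCode_len], zb _ hj j (by omega) u v h⟩

end

theorem re_finEv_iff (c : MC × AC) : FinEv c ↔ ∃ z, reChk c z := by
  obtain ⟨mc, cs, s⟩ := c
  have : Finite (toKM mc).W := inferInstanceAs (Finite (Fin mc.1))
  constructor
  · rintro ⟨l, e, h⟩
    obtain rfl : cs = l.map enc := e
    have : Finite (toAM l s).E := inferInstanceAs (Finite (Fin l.length))
    obtain ⟨k, H⟩ := (finBis_tree_iff _ _).1 h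
    have hB : ∀ m ∈ l.map enc, m < (l.map enc).sum + 1 := fun m hm =>
      Nat.lt_succ_of_le (List.single_le_sum (fun _ _ => Nat.zero_le _) m hm)
    obtain ⟨U, T, Z, h₁, h₂, h₃⟩ := re_complete _ hB H
    exact ⟨((k, _), U, T, Z), hB, h₁, h₂, h₃⟩
  · rintro ⟨⟨⟨k, B⟩, U, T, Z⟩, hB, h₁, h₂, h₃⟩
    obtain ⟨l, rfl⟩ := re_list_surj cs
    have : Finite (toAM l s).E := inferInstanceAs (Finite (Fin l.length))
    exact ⟨l, rfl, (finBis_tree_iff _ _).2 (re_sound hB h₁ h₂ h₃)⟩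

theorem re_finEv : REPred FinEv :=
  re_reChk.of_eq fun c => (re_finEv_iff c).symm

end Pool.Agent.MP_bcf1b9_lc

end

section

namespace Pool.Agent.MP_bcf1b9_lc

/-- locations -/
inductive Wd (Q : Type) : Type
  | start (j : Bool)
  | fin
  | g0
  | g1
  | g2
  | st (q : Q)
  | ex (q : Q) (o : Bool)

def Wd.map {Q T : Type} (f : Q → T) : Wd Q → Wd T
  | .start j => .start j
  | .fin => .fin
  | .g0 => .g0
  | .g1 => .g1
  | .g2 => .g2
  | .st q => .st (f q)
  | .ex q o => .ex (f q) o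

/-- tokens: a position (`none` = dropped, `some none` = moving, `some (some r)` = place `r`) and
two flags -/
abbrev Tok (R : Type) : Type := Option (Option R) × Bool × Bool

/-- the budget place and the operations (source, target, place tested for zero) -/
structure Ops (T R : Type) where
  b : R
  op : T → Bool → R × R × Option R

/-- control graphs -/
structure Mach (Q T : Type) where
  ty : Q → T
  nx : Q → Bool → Option Q
  live : Q → Prop
  q0 : Q

inductive Edge {Q T : Type} (m : Mach Q T) : Wd Q → Wd Q → Prop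
  | phi (j : Bool) : Edge m (.start j) .fin
  | go (j : Bool) : Edge m (.start j) (.st m.q0)
  | exec (q : Q) (o : Bool) (q' : Q) : m.nx q o = some q' → Edge m (.st q) (.ex q o)
  | exh (q : Q) : m.live q → Edge m (.st q) .g0
  | main (q : Q) (o : Bool) (q' : Q) : m.nx q o = some q' → Edge m (.ex q o) (.st q')
  | chal (q : Q) (o : Bool) : Edge m (.ex q o) .g0
  | eps : Edge m .g0 .g1
  | split : Edge m .g1 .g2
  | beta (j : Bool) : Edge m .g2 (.start j)

section
variable {Q T R : Type} [DecidableEq R]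

def goF (b : R) (a : Tok R) : Tok R := (a.1.map fun _ => some b, a.2)

def execR (s : R) (a a' : Tok R) : Prop :=
  (a'.1 = a.1 ∨ (a.1 = some (some s) ∧ a'.1 = some none)) ∧
    (a.2.1 = true → a'.2.1 = true ∨ a'.2.2 = true)

/-- flags at `g0`: (may be dropped as a single token, may stay unmarked) -/
def exhF (b : R) (a : Tok R) : Tok R :=
  (a.1, if a.2.1 = true ∨ a.1 = some (some b) then (false, false) else (true, true))

def mainF (g : R) (a : Tok R) : Tok R :=
  (if a.1 = some none then some (some g) else a.1, a.2.1, false)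

def chalF (z : Option R) (a : Tok R) : Tok R :=
  (a.1, if a.2.2 = true then (false, false) else if a.1 = some none then (true, false)
    else if a.1 = some z then (false, false) else (false, true))

/-- flags at `g1`: (false, false) unmarked, (true, false) single, second flag true double -/
def epsR (a a' : Tok R) : Prop :=
  ((a'.1 = a.1 ∨ a'.1 = none) ∧ a'.2.2 = true) ∨ (a.2.2 = true ∧ a' = (a.1, false, false)) ∨
    (a.1.isSome = true ∧ a.2.1 = true ∧ a' = (none, true, false))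

def splitR (a a' : Tok R) : Prop :=
  a'.1 = a.1 ∧ (a.2 = (false, false) ↔ a'.2 = (false, false)) ∧
    (a'.2 = (true, true) → a.2.2 = true)

def betaF (j : Bool) (a : Tok R) : Tok R := (a.1, if j = true then a.2.1 else a.2.2, false)

/-- moves of the tokens along an edge between two types of locations -/
def TS (O : Ops T R) : Wd T → Wd T → Tok R → Tok R → Prop
  | .start _, .fin, a, a' => a.1 = none ∧ a.2.1 = false ∧ a' = a
  | .start _, .st _, a, a' => a' = goF O.b a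
  | .st _, .ex t o, a, a' => execR (O.op t o).1 a a'
  | .st _, .g0, a, a' => a' = exhF O.b a
  | .ex t o, .st _, a, a' => a' = mainF (O.op t o).2.1 a
  | .ex t o, .g0, a, a' => a' = chalF (O.op t o).2.2 a
  | .g0, .g1, a, a' => epsR a a'
  | .g1, .g2, a, a' => splitR a a'
  | .g2, .start j, a, a' => a' = betaF j a
  | _, _, _, _ => False

/-- the token system -/
def tokM (O : Ops T R) (m : Mach Q T) (ι : Wd T → ℕ) : KM where
  W := Wd Q × List (Tok R)
  R i x y := i = 0 ∧ Edge m x.1 y.1 ∧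
    List.Forall₂ (TS O (x.1.map m.ty) (y.1.map m.ty)) x.2 y.2
  V p x := p = ι (x.1.map m.ty)

/-- honest steps: one token moves from the source to the target -/
def HStep (O : Ops T R) (m : Mach Q T) (x y : Q × (R → ℕ)) : Prop :=
  ∃ (o : Bool) (c : R → ℕ), m.nx x.1 o = some y.1 ∧
    (∀ r, x.2 r = c r + if r = (O.op (m.ty x.1) o).1 then 1 else 0) ∧
    (∀ z, (O.op (m.ty x.1) o).2.2 = some z → c z = 0) ∧
    ∀ r, y.2 r = c r + if r = (O.op (m.ty x.1) o).2.1 then 1 else 0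

/-- honest configurations for the budget `N` -/
def Hon (O : Ops T R) (m : Mach Q T) (N : ℕ) (x : Q × (R → ℕ)) : Prop :=
  Relation.ReflTransGen (HStep O m) (m.q0, fun r => if r = O.b then N else 0) x

/-- the budget `N` can be exhausted -/
def Exh (O : Ops T R) (m : Mach Q T) (N : ℕ) : Prop :=
  ∃ x, Hon O m N x ∧ m.live x.1 ∧ x.2 O.b = 0

end

/-- a fixed control graph with `n + 1` loading states in front -/
def ldM {Q : Type} (m : Mach Q Unit) (n : ℕ) : Mach (Q ⊕ Fin (n + 1)) (Option Q) where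
  ty := Sum.elim some fun _ => none
  nx x o := match x with
    | .inl q => (m.nx q o).map .inl
    | .inr i => some (if h : i.1 + 1 < n + 1 then .inr ⟨i.1 + 1, h⟩ else .inl m.q0)
  live := Sum.elim m.live fun _ => True
  q0 := .inr 0

end Pool.Agent.MP_bcf1b9_lc

end

section

namespace Pool.Agent.MP_bcf1b9_lc

open Function
open Pool.Agent.MP_3c2488_lc (Prog Cfg pstep PS PR PHalts PS_unique exists_search conts headOK
  self_mem_conts conts_closed conts_headOK)

theorem mc_halts_iff {c d : Cfg} (h : pstep c = some d) : PHalts c ↔ PHalts d := by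
  constructor
  · rintro ⟨z, hz⟩
    rcases hz.cases_head with rfl | ⟨e, he, hr⟩
    · simp [pstep] at h
    · obtain rfl : e = d := PS_unique he h
      exact ⟨z, hr⟩
  · rintro ⟨z, hz⟩
    exact ⟨z, .head h hz⟩

theorem mc_prog {P : ℕ → Prop} (hP : REPred P) :
    ∃ p : Prog, ∀ n, P n ↔ PHalts ([p], fun j => if j = 0 then n + 1 else 0) := by
  obtain ⟨c, hc⟩ := Nat.Partrec.Code.exists_code.1 hP
  have hg : Primrec₂ fun s n : ℕ =>
      bif (Nat.Partrec.Code.evaln s c n).isSome then 0 else 1 := by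
    refine Primrec.cond (Primrec.option_isSome.comp ?_) (Primrec.const 0) (Primrec.const 1)
    exact Nat.Partrec.Code.primrec_evaln.comp
      ((Primrec.fst.pair (Primrec.const c)).pair Primrec.snd)
  obtain ⟨p, hp⟩ := exists_search hg
  refine ⟨.seq (.dec 0) (.seq (.inc 2) p), fun n => ?_⟩
  rw [mc_halts_iff (d := _) rfl, mc_halts_iff (d := _) rfl, mc_halts_iff (d := _) rfl,
    mc_halts_iff (d := _) rfl]
  have e : update (update (fun j => if j = 0 then n + 1 else 0) 0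
      ((fun j => if j = 0 then n + 1 else 0) 0 - 1)) 2
      ((update (fun j => if j = 0 then n + 1 else 0) 0
      ((fun j => if j = 0 then n + 1 else 0) 0 - 1)) 2 + 1) =
      fun j => if j = 0 then n else if j = 2 then 1 else 0 := by
    funext j
    by_cases h2 : j = 2
    · subst h2; simp
    · by_cases h0 : j = 0
      · subst h0; simp
      · simp [h0, h2]
  rw [e, hp n]
  have h1 : P n ↔ ∃ x, x ∈ c.eval n := by
    rw [hc]
    simp [Part.mem_assert_iff]
  rw [h1]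
  simp only [Nat.Partrec.Code.evaln_complete]
  constructor
  · rintro ⟨x, s, hs⟩
    refine ⟨s, ?_⟩
    rw [Option.mem_def] at hs
    simp [hs]
  · rintro ⟨s, hs⟩
    cases h : Nat.Partrec.Code.evaln s c n with
    | none => simp [h] at hs
    | some x => exact ⟨x, s, h⟩

inductive mc_HI : ℕ → Cfg → Prop
  | zero (z : ℕ → ℕ) : mc_HI 0 ([], z)
  | succ {k : ℕ} {c d : Cfg} : pstep c = some d → mc_HI k d → mc_HI (k + 1) c

theorem mc_HI_of {c : Cfg} (h : PHalts c) : ∃ k, mc_HI k c := by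
  obtain ⟨z, h⟩ := h
  induction h using Relation.ReflTransGen.head_induction_on with
  | refl => exact ⟨0, .zero z⟩
  | head h1 _ ih =>
    obtain ⟨k, hk⟩ := ih
    exact ⟨k + 1, .succ h1 hk⟩

theorem mc_HI_step {k : ℕ} {c d : Cfg} (h : mc_HI k c) (hd : pstep c = some d) :
    ∃ j, k = j + 1 ∧ mc_HI j d := by
  cases h with
  | zero z => simp [pstep] at hd
  | succ h1 h2 =>
    rw [h1] at hd
    obtain rfl := Option.some.inj hd
    exact ⟨_, rfl, h2⟩

abbrev mc_R (m : ℕ) : Type := Fin m ⊕ Bool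

def mc_reg (m i : ℕ) : mc_R m := if h : i < m then .inl ⟨i, h⟩ else .inr false

def mc_op (m : ℕ) : List Prog → Bool → mc_R m × mc_R m × Option (mc_R m)
  | .inc i :: _, _ => (.inr true, mc_reg m i, none)
  | .dec i :: _, true => (mc_reg m i, .inr false, none)
  | .dec i :: _, false => (.inr true, .inr false, some (mc_reg m i))
  | .loop i _ :: _, true => (mc_reg m i, mc_reg m i, none)
  | .loop i _ :: _, false => (.inr true, .inr false, some (mc_reg m i))
  | _, _ => (.inr true, .inr false, none)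

def mc_nx : List Prog → Bool → Option (List Prog)
  | [], _ => none
  | .inc _ :: K, _ => some K
  | .dec _ :: K, _ => some K
  | .seq p q :: K, _ => some (p :: q :: K)
  | .loop i p :: K, true => some (p :: .loop i p :: K)
  | .loop _ _ :: K, false => some K

/-- one token moves -/
def mc_Mv {R : Type} [DecidableEq R] (t : R × R × Option R) (x y : R → ℕ) : Prop :=
  ∃ c : R → ℕ, (∀ r, x r = c r + if r = t.1 then 1 else 0) ∧ (∀ z, t.2.2 = some z → c z = 0) ∧
    ∀ r, y r = c r + if r = t.2.1 then 1 else 0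

def mc_Sim {m : ℕ} (c : mc_R m → ℕ) (y : ℕ → ℕ) : Prop := ∀ i : Fin m, c (.inl i) = y i

theorem mc_mv_ex {R : Type} [DecidableEq R] (s g : R) (z : Option R) (x : R → ℕ) (h : x s ≠ 0)
    (hz : ∀ a, z = some a → x a = 0) : ∃ y, mc_Mv (s, g, z) x y := by
  refine ⟨fun r => (x r - if r = s then 1 else 0) + if r = g then 1 else 0,
    fun r => x r - if r = s then 1 else 0, fun r => ?_, fun a ha => ?_, fun r => rfl⟩
  · by_cases hr : r = s
    · subst hr
      simp only [if_true]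
      omega
    · simp [hr]
  · simp [hz a ha]

theorem mc_fwd {m : ℕ} {K K' : List Prog} (hK : headOK m K) {o : Bool} (hn : mc_nx K o = some K')
    {c c' : mc_R m → ℕ} {y : ℕ → ℕ} (hs : mc_Sim c y) (h : mc_Mv (mc_op m K o) c c') :
    ∃ y', pstep (K, y) = some (K', y') ∧ mc_Sim c' y' ∧ c (.inr true) ≤ c' (.inr true) + 1 ∧
      c' (.inr true) ≤ c (.inr true) := by
  obtain ⟨e, h1, h2, h3⟩ := h
  have hb1 := h1 (.inr true)
  have hb3 := h3 (.inr true)
  rcases K with _ | ⟨i | i | ⟨p, q⟩ | ⟨i, p⟩, K⟩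
  · simp [mc_nx] at hn
  · have hi : i < m := hK
    obtain rfl : K = K' := by simpa [mc_nx] using hn
    simp only [mc_op, mc_reg, hi, dif_pos] at h1 h3 hb1 hb3
    refine ⟨_, rfl, fun j => ?_, by simp at hb1 hb3; omega, by simp at hb1 hb3; omega⟩
    have a1 := h1 (.inl j)
    have a3 := h3 (.inl j)
    have a2 := hs j
    by_cases hj : (j : ℕ) = i
    · have : j = ⟨i, hi⟩ := Fin.ext hj
      subst this
      simp at a1 a3 a2 ⊢
      omega
    · have : j ≠ ⟨i, hi⟩ := fun h => hj (congrArg Fin.val h)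
      simp [this, hj] at a1 a3 ⊢
      omega
  · have hi : i < m := hK
    obtain rfl : K = K' := by simpa [mc_nx] using hn
    cases o <;> simp only [mc_op, mc_reg, hi, dif_pos] at h1 h2 h3 hb1 hb3
    · refine ⟨_, rfl, fun j => ?_, by simp at hb1 hb3; omega, by simp at hb1 hb3; omega⟩
      have a0 := h2 _ rfl
      have a1 := h1 (.inl j)
      have a3 := h3 (.inl j)
      have a2 := hs j
      by_cases hj : (j : ℕ) = i
      · have : j = ⟨i, hi⟩ := Fin.ext hj
        subst this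
        simp at a1 a3 a2 ⊢
        omega
      · simp [hj] at a1 a3 ⊢
        omega
    · refine ⟨_, rfl, fun j => ?_, by simp at hb1 hb3; omega, by simp at hb1 hb3; omega⟩
      have a1 := h1 (.inl j)
      have a3 := h3 (.inl j)
      have a2 := hs j
      by_cases hj : (j : ℕ) = i
      · have : j = ⟨i, hi⟩ := Fin.ext hj
        subst this
        simp at a1 a3 a2 ⊢
        omega
      · have : j ≠ ⟨i, hi⟩ := fun h => hj (congrArg Fin.val h)
        simp [this, hj] at a1 a3 ⊢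
        omega
  · obtain rfl : p :: q :: K = K' := by simpa [mc_nx] using hn
    simp only [mc_op] at h1 h3 hb1 hb3
    refine ⟨_, rfl, fun j => ?_, by simp at hb1 hb3; omega, by simp at hb1 hb3; omega⟩
    have a1 := h1 (.inl j)
    have a3 := h3 (.inl j)
    have a2 := hs j
    simp at a1 a3
    omega
  · have hi : i < m := hK
    have b2 := hs ⟨i, hi⟩
    have b1 := h1 (.inl ⟨i, hi⟩)
    cases o <;> simp only [mc_op, mc_reg, hi, dif_pos] at h1 h2 h3 hb1 hb3 b1
    · obtain rfl : K = K' := by simpa [mc_nx] using hn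
      have a0 := h2 _ rfl
      have hy : y i = 0 := by
        simp at b1 b2
        omega
      refine ⟨y, by simp [pstep, hy], fun j => ?_, by simp at hb1 hb3; omega,
        by simp at hb1 hb3; omega⟩
      have a1 := h1 (.inl j)
      have a3 := h3 (.inl j)
      have a2 := hs j
      simp at a1 a3
      omega
    · obtain rfl : p :: .loop i p :: K = K' := by simpa [mc_nx] using hn
      have hy : y i ≠ 0 := by
        simp at b1 b2
        omega
      refine ⟨y, by simp [pstep, hy], fun j => ?_, by simp at hb1 hb3; omega,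
        by simp at hb1 hb3; omega⟩
      rw [h3, ← h1]
      exact hs j

theorem mc_ex {m : ℕ} {K : List Prog} (hK : headOK m K) (hne : K ≠ [])
    {c : mc_R m → ℕ} (hb : c (.inr true) ≠ 0) :
    ∃ o K' c', mc_nx K o = some K' ∧ mc_Mv (mc_op m K o) c c' := by
  rcases K with _ | ⟨i | i | ⟨p, q⟩ | ⟨i, p⟩, K⟩
  · exact absurd rfl hne
  · obtain ⟨c', h⟩ := mc_mv_ex (.inr true) (mc_reg m i) none c hb (by simp)
    exact ⟨true, _, c', rfl, h⟩
  · by_cases h0 : c (mc_reg m i) = 0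
    · obtain ⟨c', h⟩ := mc_mv_ex (.inr true) (.inr false) (some (mc_reg m i)) c hb
        (by simpa using h0)
      exact ⟨false, _, c', rfl, h⟩
    · obtain ⟨c', h⟩ := mc_mv_ex (mc_reg m i) (.inr false) none c h0 (by simp)
      exact ⟨true, _, c', rfl, h⟩
  · obtain ⟨c', h⟩ := mc_mv_ex (.inr true) (.inr false) none c hb (by simp)
    exact ⟨true, _, c', rfl, h⟩
  · by_cases h0 : c (mc_reg m i) = 0
    · obtain ⟨c', h⟩ := mc_mv_ex (.inr true) (.inr false) (some (mc_reg m i)) c hb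
        (by simpa using h0)
      exact ⟨false, _, c', rfl, h⟩
    · obtain ⟨c', h⟩ := mc_mv_ex (mc_reg m i) (mc_reg m i) none c h0 (by simp)
      exact ⟨true, _, c', rfl, h⟩

abbrev mc_Q (L : List (List Prog)) : Type := Bool × {K : List Prog // K ∈ L}

def mc_O (L : List (List Prog)) (m : ℕ) : Ops (Option (mc_Q L)) (mc_R m) where
  b := .inr true
  op t o := match t with
    | none => (.inr true, mc_reg m 0, none)
    | some (true, _) => (.inr true, .inr false, none)
    | some (false, K) => mc_op m K.1 o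

def mc_M (L : List (List Prog)) (K0 : {K : List Prog // K ∈ L}) : Mach (mc_Q L) Unit where
  ty _ := ()
  nx q o := match q with
    | (true, K) => some (false, K)
    | (false, K) => (mc_nx K.1 o).bind fun K' => if h : K' ∈ L then some (true, ⟨K', h⟩) else none
  live _ := True
  q0 := (true, K0)

theorem mc_hstep {Q T R : Type} [DecidableEq R] (O : Ops T R) (M : Mach Q T)
    (x y : Q × (R → ℕ)) :
    HStep O M x y ↔ ∃ o, M.nx x.1 o = some y.1 ∧ mc_Mv (O.op (M.ty x.1) o) x.2 y.2 := by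
  constructor
  · rintro ⟨o, c, h1, h2⟩
    exact ⟨o, h1, c, h2⟩
  · rintro ⟨o, h1, c, h2⟩
    exact ⟨o, c, h1, h2⟩

theorem mc_tick {m : ℕ} {c c' : mc_R m → ℕ} {y : ℕ → ℕ} (hs : mc_Sim c y)
    (h : mc_Mv (.inr true, .inr false, none) c c') :
    mc_Sim c' y ∧ c (.inr true) = c' (.inr true) + 1 := by
  obtain ⟨e, h1, -, h3⟩ := h
  refine ⟨fun j => ?_, by simp [h1, h3]⟩
  have a1 := h1 (.inl j)
  have a3 := h3 (.inl j)
  have a2 := hs j
  simp at a1 a3
  omega

theorem mc_load {m : ℕ} (hm : 0 < m) {c c' : mc_R m → ℕ} {i : ℕ}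
    (hs : mc_Sim c fun j => if j = 0 then i else 0)
    (h : mc_Mv (.inr true, mc_reg m 0, none) c c') :
    (mc_Sim c' fun j => if j = 0 then i + 1 else 0) ∧ c (.inr true) = c' (.inr true) + 1 := by
  obtain ⟨e, h1, -, h3⟩ := h
  simp only [mc_reg, hm, dif_pos] at h3
  refine ⟨fun j => ?_, by simp [h1, h3]⟩
  have a1 := h1 (.inl j)
  have a3 := h3 (.inl j)
  have a2 := hs j
  by_cases hj : (j : ℕ) = 0
  · have : j = ⟨0, hm⟩ := Fin.ext hj
    subst this
    simp at a1 a3 a2 ⊢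
    omega
  · have : j ≠ ⟨0, hm⟩ := fun h => hj (congrArg Fin.val h)
    simp only [Sum.inl.injEq, this, hj, if_false, reduceCtorEq] at a1 a2 a3 ⊢
    omega

theorem exists_mach {P : ℕ → Prop} (hP : REPred P) :
    ∃ (Q R : Type) (_ : Finite Q) (_ : Finite R) (_ : DecidableEq R) (O : Ops (Option Q) R)
      (m : Mach Q Unit), ∀ n, P n ↔ ∃ N, 1 ≤ N ∧ ¬ Exh O (ldM m n) N := by
  obtain ⟨p, hp⟩ := mc_prog hP
  let L : List (List Prog) := [] :: conts p []
  let m := p.bound + 1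
  have hm : 0 < m := Nat.succ_pos _
  have hL : ∀ K ∈ L, headOK m K := by
    intro K hK
    rcases List.mem_cons.1 hK with rfl | hK
    · trivial
    · exact conts_headOK m p (Nat.le_succ _) _ _ hK
  have hcl : ∀ c d : Cfg, c.1 ∈ L → pstep c = some d → d.1 ∈ L := by
    rintro ⟨K, x⟩ d hK hd
    rcases List.mem_cons.1 hK with hK | hK
    · simp only at hK
      subst hK
      simp [pstep] at hd
    · rcases conts_closed p _ _ hK x d hd with h | h
      · exact List.mem_cons_of_mem _ h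
      · exact h ▸ List.mem_cons_self
  have hp0 : [p] ∈ L := List.mem_cons_of_mem _ (self_mem_conts p [])
  have : Finite {K : List Prog // K ∈ L} := (List.finite_toSet L).to_subtype
  refine ⟨mc_Q L, mc_R m, inferInstance, inferInstance, inferInstance, mc_O L m,
    mc_M L ⟨[p], hp0⟩, fun n => ?_⟩
  rw [hp n]
  constructor
  · intro h
    obtain ⟨k0, hk0⟩ := mc_HI_of h
    refine ⟨n + 1 + 2 * k0 + 2, by omega, ?_⟩
    rintro ⟨x, hx, -, hb⟩
    have inv : (∃ i, x.1 = .inr i ∧ mc_Sim x.2 (fun j => if j = 0 then i.1 else 0) ∧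
        n + 1 + 2 * k0 + 2 ≤ x.2 (.inr true) + i.1) ∨
        ∃ t K y k, x.1 = .inl (t, K) ∧ mc_Sim x.2 y ∧ mc_HI k (K.1, y) ∧
          2 * k + (if t = true then 2 else 1) ≤ x.2 (.inr true) := by
      clear hb
      induction hx with
      | refl => exact Or.inl ⟨0, rfl, fun j => by simp [mc_O], by simp [mc_O]⟩
      | @tail x x' _ h2 ih =>
        obtain ⟨q, c⟩ := x
        obtain ⟨q', c'⟩ := x'
        obtain ⟨o, h3, h4⟩ := (mc_hstep _ _ _ _).1 h2
        rcases ih with ⟨i, rfl, e2, e3⟩ | ⟨t, K, y, k, rfl, e2, e3, e4⟩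
        · obtain ⟨f1, f2⟩ := mc_load hm e2 h4
          simp only [ldM, Option.some.injEq] at h3 e3 f2 ⊢
          by_cases hi : i.1 + 1 < n + 1
          · rw [dif_pos hi] at h3
            exact Or.inl ⟨_, h3.symm, f1, by simp only; omega⟩
          · rw [dif_neg hi] at h3
            have hin : i.1 = n := by have := i.2; omega
            rw [hin] at f1
            exact Or.inr ⟨true, ⟨[p], hp0⟩, _, k0, h3.symm, f1, hk0, by simp only [if_true]; omega⟩
        · cases t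
          · simp only [ldM, mc_M, Option.map_eq_some_iff, Option.bind_eq_some_iff] at h3
            obtain ⟨q1, ⟨K', g1, g2⟩, rfl⟩ := h3
            obtain ⟨y', f1, f2, f3, -⟩ := mc_fwd (hL _ K.2) g1 e2 h4
            have hK' : K' ∈ L := hcl _ _ K.2 f1
            rw [dif_pos hK'] at g2
            obtain rfl := Option.some.inj g2
            obtain ⟨j, rfl, hj⟩ := mc_HI_step e3 f1
            refine Or.inr ⟨true, ⟨K', hK'⟩, y', j, rfl, f2, hj, ?_⟩
            simp at e4 f3 ⊢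
            omega
          · obtain ⟨f1, f2⟩ := mc_tick e2 h4
            simp only [ldM, mc_M, Option.map_some, Option.some.injEq] at h3
            refine Or.inr ⟨false, K, y, k, h3.symm, f1, e3, ?_⟩
            simp at e4 f2 ⊢
            omega
    have hb' : x.2 (.inr true) = 0 := hb
    rcases inv with ⟨i, -, -, e3⟩ | ⟨t, K, y, k, -, -, -, e4⟩
    · have := i.2
      omega
    · split_ifs at e4 <;> omega
  · rintro ⟨N, -, hN⟩
    by_contra hh
    apply hN
    have key : ∀ μ (x : (mc_Q L ⊕ Fin (n + 1)) × (mc_R m → ℕ)),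
        Hon (mc_O L m) (ldM (mc_M L ⟨[p], hp0⟩) n) N x →
        ((∃ i, x.1 = .inr i ∧ mc_Sim x.2 (fun j => if j = 0 then i.1 else 0) ∧
          2 * x.2 (.inr true) < μ) ∨
        ∃ t K y, x.1 = .inl (t, K) ∧ mc_Sim x.2 y ∧ ¬ PHalts (K.1, y) ∧
          2 * x.2 (.inr true) + (if t = true then 0 else 1) < μ) →
        Exh (mc_O L m) (ldM (mc_M L ⟨[p], hp0⟩) n) N := by
      intro μ
      induction μ with
      | zero =>
        rintro x - (⟨i, -, -, h⟩ | ⟨t, K, y, -, -, -, h⟩) <;> omega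
      | succ μ ih =>
        rintro ⟨q, c⟩ hx hinv
        by_cases hb : c (.inr true) = 0
        · refine ⟨_, hx, ?_, hb⟩
          cases q <;> trivial
        rcases hinv with ⟨i, rfl, e2, e3⟩ | ⟨t, K, y, rfl, e2, e3, e4⟩
        · obtain ⟨c', hc'⟩ := mc_mv_ex (.inr true) (mc_reg m 0) none c hb (by simp)
          obtain ⟨f1, f2⟩ := mc_load hm e2 hc'
          simp only at e3 f2
          by_cases hi : i.1 + 1 < n + 1
          · refine ih (.inr ⟨i.1 + 1, hi⟩, c')
              (hx.tail ((mc_hstep _ _ _ _).2 ⟨true, ?_, hc'⟩))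
              (Or.inl ⟨_, rfl, f1, by simp only; omega⟩)
            simp only [ldM, dif_pos hi]
          · have hin : i.1 = n := by have := i.2; omega
            rw [hin] at f1
            refine ih (.inl (true, ⟨[p], hp0⟩), c')
              (hx.tail ((mc_hstep _ _ _ _).2 ⟨true, ?_, hc'⟩))
              (Or.inr ⟨true, ⟨[p], hp0⟩, _, rfl, f1, hh, by simp only [if_true]; omega⟩)
            simp only [ldM, dif_neg hi, mc_M]
        · cases t
          · have hne : K.1 ≠ [] := fun h => e3 ⟨y, by rw [h]⟩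
            obtain ⟨o, K', c', g1, g2⟩ := mc_ex (hL _ K.2) hne hb
            obtain ⟨y', f1, f2, -, f4⟩ := mc_fwd (hL _ K.2) g1 e2 g2
            have hK' : K' ∈ L := hcl _ _ K.2 f1
            refine ih (.inl (true, ⟨K', hK'⟩), c')
              (hx.tail ((mc_hstep _ _ _ _).2 ⟨o, ?_, g2⟩)) (Or.inr ⟨true, ⟨K', hK'⟩, y', rfl, f2,
                fun h => e3 ((mc_halts_iff f1).2 h), ?_⟩)
            · simp [ldM, mc_M, g1, hK']
            · simp at e4 f4 ⊢
              omega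
          · obtain ⟨c', hc'⟩ := mc_mv_ex (.inr true) (.inr false) none c hb (by simp)
            obtain ⟨f1, f2⟩ := mc_tick e2 hc'
            refine ih (.inl (false, K), c') (hx.tail ((mc_hstep _ _ _ _).2 ⟨true, rfl, hc'⟩))
              (Or.inr ⟨false, K, y, rfl, f1, e3, ?_⟩)
            simp at e4 f2 ⊢
            omega
    exact key (2 * N + 1) _ .refl (Or.inl ⟨0, rfl, fun j => by simp [mc_O], by simp [mc_O]⟩)

end Pool.Agent.MP_bcf1b9_lc

end
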