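import Pool.Agent.Mg.F3c2488p.G95771c
import Pool.Agent.MP_9a65c4_lc.PR

section

namespace Pool.Agent.MP_bcf1b9_lc

open Pool.Agent.MP_9a65c4_lc

theorem code_enc_inj : Function.Injective enc := by
  intro φ
  induction φ with
  | atom p => intro ψ h; cases ψ <;> simp only [enc] at h <;> first | omega | (congr 1; omega)
  | neg φ ih =>
    intro ψ h
    cases ψ with
    | neg φ' =>
      simp only [enc] at h
      rw [ih (by omega : enc φ = enc φ')]
    | _ => simp only [enc] at h; omega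
  | and φ χ ih ih' =>
    intro ψ h
    cases ψ with
    | and φ' χ' =>
      simp only [enc] at h
      obtain ⟨h₁, h₂⟩ := Nat.pair_eq_pair.1
        (by omega : Nat.pair (enc φ) (enc χ) = Nat.pair (enc φ') (enc χ'))
      rw [ih h₁, ih' h₂]
    | _ => simp only [enc] at h; omega
  | K i φ ih =>
    intro ψ h
    cases ψ with
    | K i' φ' =>
      simp only [enc] at h
      obtain ⟨h₁, h₂⟩ := Nat.pair_eq_pair.1
        (by omega : Nat.pair i (enc φ) = Nat.pair i' (enc φ'))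
      rw [ih h₂, h₁]
    | _ => simp only [enc] at h; omega

theorem code_fin (T : Type) [Finite T] : Finite (Wd T) := by
  refine Finite.of_surjective (fun x : Bool ⊕ (Bool × Bool) ⊕ T ⊕ T × Bool => match x with
    | .inl j => Wd.start j
    | .inr (.inl (false, false)) => Wd.fin
    | .inr (.inl (false, true)) => Wd.g0
    | .inr (.inl (true, false)) => Wd.g1
    | .inr (.inl (true, true)) => Wd.g2
    | .inr (.inr (.inl q)) => Wd.st q
    | .inr (.inr (.inr (q, o))) => Wd.ex q o) fun w => ?_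
  cases w with
  | start j => exact ⟨.inl j, rfl⟩
  | fin => exact ⟨.inr (.inl (false, false)), rfl⟩
  | g0 => exact ⟨.inr (.inl (false, true)), rfl⟩
  | g1 => exact ⟨.inr (.inl (true, false)), rfl⟩
  | g2 => exact ⟨.inr (.inl (true, true)), rfl⟩
  | st q => exact ⟨.inr (.inr (.inl q)), rfl⟩
  | ex q o => exact ⟨.inr (.inr (.inr (q, o))), rfl⟩

theorem code_f2 {α β : Type} {P P' : α → β → Prop} {xs : List α} {ys : List β}
    (h : List.Forall₂ P xs ys) (H : ∀ x ∈ xs, ∀ y ∈ ys, P x y → P' x y) :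
    List.Forall₂ P' xs ys := by
  induction h with
  | nil => exact .nil
  | cons h _ ih =>
    exact .cons (H _ (by simp) _ (by simp) h)
      (ih fun x hx y hy => H x (by simp [hx]) y (by simp [hy]))

theorem code_bm {Q T R : Type} [DecidableEq R] (O : Ops T R) (m : Mach Q T) {ι : Wd T → ℕ}
    (hι : Function.Injective ι) (c : MC) (num : Wd Q → ℕ) (hinj : Function.Injective num)
    (hlt : ∀ u, num u < c.1) (hsur : ∀ x < c.1, ∃ u, num u = x)
    (hR : ∀ t, t ∈ c.2.1 ↔ ∃ u v, Edge m u v ∧ t = (0, num u, num v))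
    (hV : ∀ t, t ∈ c.2.2 ↔ ∃ u, t = (ι (u.map m.ty), num u)) (l : List Fm)
    (D : ℕ → Wd T × Tok R) (hl : ∀ e : Fin l.length, l.get e = .atom (ι (D e).1))
    (hD : ∀ e, ∃ x : Fin l.length, D x = e) (s : List (ℕ × ℕ × ℕ))
    (hs : ∀ (i : ℕ) (x y : Fin l.length),
      (i, x.1, y.1) ∈ s ↔ i = 0 ∧ TS O (D x).1 (D y).1 (D x).2 (D y).2) :
    FinBis (tree (toKM c) (toAM l s)) ↔ FinBis (tokM O m ι) := by
  choose dec hdec using fun x : Fin c.1 => hsur x.1 x.2
  choose σ hσ using hD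
  have dn : ∀ u, dec ⟨num u, hlt u⟩ = u := fun u => hinj (hdec _)
  have V : ∀ p (x : Fin c.1), (p, x.1) ∈ c.2.2 ↔ p = ι ((dec x).map m.ty) := fun p x => by
    rw [hV]
    refine ⟨fun ⟨u, h⟩ => ?_, fun h => ⟨dec x, by rw [hdec, h]⟩⟩
    obtain ⟨h₁, h₂⟩ := Prod.mk.inj h
    rw [hinj ((hdec x).trans h₂), h₁]
  have E : ∀ i (x y : Fin c.1), (i, x.1, y.1) ∈ c.2.1 ↔ i = 0 ∧ Edge m (dec x) (dec y) :=
    fun i x y => by
      rw [hR]
      refine ⟨fun ⟨u, v, e, h⟩ => ?_, fun h => ⟨_, _, h.2, by rw [hdec, hdec, h.1]⟩⟩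
      obtain ⟨h₁, h₂⟩ := Prod.mk.inj h
      obtain ⟨h₂, h₃⟩ := Prod.mk.inj h₂
      rw [hinj ((hdec x).trans h₂), hinj ((hdec y).trans h₃)]
      exact ⟨h₁, e⟩
  let a : (toAM l s).E → ℕ := fun e => ι (D e.1).1
  let F : (atree (toKM c) (toAM l s) a).W → (tokM O m ι).W := fun x =>
    (dec x.1.1, x.1.2.map fun e => (D e.1).2)
  let G : (tokM O m ι).W → (atree (toKM c) (toAM l s) a).W := fun y =>
    ⟨(⟨num y.1, hlt _⟩, y.2.map fun t => σ (y.1.map m.ty, t)), fun e he => by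
      obtain ⟨t, -, rfl⟩ := List.mem_map.1 he
      exact (V _ _).2 (by simp only [a, hσ, dn])⟩
  have FG : ∀ y, F (G y) = y := fun y =>
    Prod.ext (dn _) (by simp only [F, G, List.map_map, Function.comp_def, hσ, List.map_id'])
  have ty : ∀ x : (atree (toKM c) (toAM l s) a).W, ∀ e ∈ x.1.2,
      (D e.1).1 = (dec x.1.1).map m.ty := fun x e he => hι ((V _ _).1 (x.2 e he))
  rw [finBis_atree _ _ a hl]
  refine BM.finBis (f := F) ⟨fun p x => (V p x.1.1).symm, ?_, ?_⟩ fun y => ⟨G y, FG y⟩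
  · rintro i x x' ⟨h₁, h₂⟩
    obtain ⟨h₃, h₄⟩ := (E _ _ _).1 h₁
    refine ⟨h₃, h₄, ?_⟩
    simp only [F, List.forall₂_map_left_iff, List.forall₂_map_right_iff]
    refine code_f2 h₂ fun e he e' he' h => ?_
    rw [← ty x e he, ← ty x' e' he']
    exact ((hs _ _ _).1 h).2
  · rintro i x y ⟨h₁, h₂, h₃⟩
    refine ⟨G y, ⟨(E _ _ _).2 ⟨h₁, by rw [dn]; exact h₂⟩, ?_⟩, FG y⟩
    simp only [F, List.forall₂_map_left_iff] at h₃
    simp only [G, List.forall₂_map_right_iff]
    refine code_f2 h₃ fun e he t _ h => (hs _ _ _).2 ⟨h₁, ?_⟩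
    rw [hσ, ty x e he]
    exact h

/-- The numbering of the locations. -/
def codeNum {Q : Type} (e : Wd Q → ℕ) (k : ℕ) {N : ℕ} : Wd (Q ⊕ Fin N) → ℕ
  | .start j => e (.start j)
  | .fin => e .fin
  | .g0 => e .g0
  | .g1 => e .g1
  | .g2 => e .g2
  | .st (.inl q) => e (.st q)
  | .st (.inr i) => k + 3 * i
  | .ex (.inl q) o => e (.ex q o)
  | .ex (.inr i) false => k + 3 * i + 1
  | .ex (.inr i) true => k + 3 * i + 2

theorem code_cases {Q : Type} {N : ℕ} (u : Wd (Q ⊕ Fin N)) : (∃ w : Wd Q, u = w.map .inl) ∨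
    ∃ i, u = .st (.inr i) ∨ u = .ex (.inr i) false ∨ u = .ex (.inr i) true := by
  rcases u with j | _ | _ | _ | _ | q | ⟨q, o⟩
  · exact .inl ⟨.start j, rfl⟩
  · exact .inl ⟨.fin, rfl⟩
  · exact .inl ⟨.g0, rfl⟩
  · exact .inl ⟨.g1, rfl⟩
  · exact .inl ⟨.g2, rfl⟩
  · rcases q with q | i
    exacts [.inl ⟨.st q, rfl⟩, .inr ⟨i, .inl rfl⟩]
  · rcases q with q | i
    · exact .inl ⟨.ex q o, rfl⟩
    · cases o
      exacts [.inr ⟨i, .inr (.inl rfl)⟩, .inr ⟨i, .inr (.inr rfl)⟩]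

theorem code_inl {Q : Type} (e : Wd Q → ℕ) (k : ℕ) {N : ℕ} (w : Wd Q) :
    codeNum e k (N := N) (w.map .inl) = e w := by
  cases w <;> rfl

theorem code_ty {Q : Type} (m : Mach Q Unit) (n : ℕ) (w : Wd Q) :
    (w.map .inl).map (ldM m n).ty = w.map some := by
  cases w <;> rfl

theorem code_inj {Q : Type} {e : Wd Q → ℕ} {k : ℕ} (he : Function.Injective e)
    (hk : ∀ w, e w < k) {N : ℕ} : Function.Injective (codeNum e k (N := N)) := by
  intro u v h
  rcases code_cases u with ⟨w, rfl⟩ | ⟨i, hi⟩ <;> rcases code_cases v with ⟨w', rfl⟩ | ⟨j, hj⟩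
  · rw [code_inl, code_inl] at h
    rw [he h]
  · have := hk w
    rw [code_inl] at h
    rcases hj with rfl | rfl | rfl <;> simp only [codeNum] at h <;> omega
  · have := hk w'
    rw [code_inl] at h
    rcases hi with rfl | rfl | rfl <;> simp only [codeNum] at h <;> omega
  · rcases hi with rfl | rfl | rfl <;> rcases hj with rfl | rfl | rfl <;>
      simp only [codeNum] at h <;> first | omega | rw [Fin.ext (by omega : i.1 = j.1)]

/-- The edges leaving the loading state number `i`. -/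
def codeE (k g z n i : ℕ) : List (ℕ × ℕ × ℕ) :=
  [(0, k + 3 * i, k + 3 * i + 1), (0, k + 3 * i, k + 3 * i + 2), (0, k + 3 * i, g),
    (0, k + 3 * i + 1, g), (0, k + 3 * i + 2, g),
    (0, k + 3 * i + 1, if i < n then k + 3 * (i + 1) else z),
    (0, k + 3 * i + 2, if i < n then k + 3 * (i + 1) else z)]

/-- The atoms at the loading state number `i`. -/
def codeV (k a b c i : ℕ) : List (ℕ × ℕ) :=
  [(a, k + 3 * i), (b, k + 3 * i + 1), (c, k + 3 * i + 2)]

theorem code_comp (k g z a b c : ℕ) (Rf : List (ℕ × ℕ × ℕ)) (Vf : List (ℕ × ℕ)) :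
    Computable fun n : ℕ => ((k + 3 * (n + 1), Rf ++ (List.range (n + 1)).flatMap (codeE k g z n),
      Vf ++ (List.range (n + 1)).flatMap (codeV k a b c)) : MC) := by
  have h3 : Primrec fun i : ℕ => 3 * i := Primrec.nat_mul.comp (Primrec.const 3) Primrec.id
  have h4 : Primrec fun p : ℕ × ℕ => if p.2 < p.1 then k + 3 * (p.2 + 1) else z :=
    Primrec.ite (pp_lt (by fun_prop) (by fun_prop)) (by fun_prop) (by fun_prop)
  have h1 : Primrec fun n : ℕ => (List.range (n + 1)).flatMap (codeE k g z n) :=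
    Primrec.list_flatMap (by fun_prop) (by unfold codeE Primrec₂; fun_prop)
  have h2 : Primrec fun n : ℕ => (List.range (n + 1)).flatMap (codeV k a b c) :=
    Primrec.list_flatMap (g := fun _ i => codeV k a b c i) (by fun_prop)
      (by unfold codeV Primrec₂; fun_prop)
  exact Primrec.to_comp (by fun_prop)

theorem code_next {Q : Type} (m : Mach Q Unit) (e : Wd Q → ℕ) (k n : ℕ) (i : Fin (n + 1)) :
    codeNum e k (N := n + 1)
      (.st (if h : i.1 + 1 < n + 1 then .inr ⟨i.1 + 1, h⟩ else .inl m.q0)) =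
      if i.1 < n then k + 3 * (i.1 + 1) else e (.st m.q0) := by
  by_cases h : i.1 < n
  · rw [dif_pos (by omega), if_pos h]; rfl
  · rw [dif_neg (by omega), if_neg h]; rfl

theorem code_edges {Q : Type} (m : Mach Q Unit) {e : Wd Q → ℕ} {k : ℕ} (hk : ∀ w, e w < k) :
    ∃ Rf : List (ℕ × ℕ × ℕ), ∀ n t,
      t ∈ Rf ++ (List.range (n + 1)).flatMap (codeE k (e .g0) (e (.st m.q0)) n) ↔
        ∃ u v, Edge (ldM m n) u v ∧ t = (0, codeNum e k u, codeNum e k v) := by
  classical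
  let P : ℕ × ℕ × ℕ → Prop := fun t =>
    ∀ n, ∃ u v, Edge (ldM m n) u v ∧ t = (0, codeNum e k u, codeNum e k v)
  refine ⟨(({0} ×ˢ Finset.range k ×ˢ Finset.range (k + 1)).filter P).toList, fun n t => ?_⟩
  rw [List.mem_append, Finset.mem_toList, Finset.mem_filter, List.mem_flatMap]
  constructor
  · rintro (h | ⟨i, hi, h⟩)
    · exact h.2 n
    · obtain ⟨i, rfl⟩ : ∃ j : Fin (n + 1), j.1 = i := ⟨⟨i, List.mem_range.1 hi⟩, rfl⟩
      simp only [codeE, List.mem_cons, List.not_mem_nil, or_false] at h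
      rcases h with rfl | rfl | rfl | rfl | rfl | rfl | rfl
      · exact ⟨_, _, .exec (.inr i) false _ rfl, rfl⟩
      · exact ⟨_, _, .exec (.inr i) true _ rfl, rfl⟩
      · exact ⟨_, _, Edge.exh (m := ldM m n) (.inr i) trivial, rfl⟩
      · exact ⟨_, _, .chal (.inr i) false, rfl⟩
      · exact ⟨_, _, .chal (.inr i) true, rfl⟩
      · exact ⟨_, _, .main (.inr i) false _ rfl, by rw [code_next]; rfl⟩
      · exact ⟨_, _, .main (.inr i) true _ rfl, by rw [code_next]; rfl⟩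
  · rintro ⟨u, v, h, rfl⟩
    have A : ∀ w w' : Wd Q, P (0, e w, e w') →
        (0, e w, e w') ∈ {0} ×ˢ Finset.range k ×ˢ Finset.range (k + 1) ∧ P (0, e w, e w') :=
      fun w w' h => ⟨by simp [hk w, (hk w').le], h⟩
    cases h with
    | phi j => exact .inl (A _ _ fun n => ⟨_, _, .phi j, rfl⟩)
    | go j =>
      exact .inl ⟨by simp [codeNum, ldM, hk], fun n => ⟨_, _, .go j, rfl⟩⟩
    | exec q o q' h =>
      rcases q with q | i
      · obtain ⟨r, hr, -⟩ := Option.map_eq_some_iff.1 h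
        exact .inl (A _ _ fun n => ⟨_, _, .exec (.inl q) o (.inl r) (by simp [ldM, hr]), rfl⟩)
      · refine .inr ⟨i.1, List.mem_range.2 i.2, ?_⟩
        cases o <;> simp [codeE, codeNum]
    | exh q h =>
      rcases q with q | i
      · exact .inl (A _ _ fun n => ⟨_, _, Edge.exh (m := ldM m n) (.inl q) h, rfl⟩)
      · exact .inr ⟨i.1, List.mem_range.2 i.2, by simp [codeE, codeNum]⟩
    | main q o q' h =>
      rcases q with q | i
      · obtain ⟨r, hr, rfl⟩ := Option.map_eq_some_iff.1 h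
        exact .inl (A _ _ fun n => ⟨_, _, .main (.inl q) o (.inl r) (by simp [ldM, hr]), rfl⟩)
      · obtain rfl := Option.some.inj h
        refine .inr ⟨i.1, List.mem_range.2 i.2, ?_⟩
        rw [code_next]
        cases o <;> simp [codeE, codeNum]
    | chal q o =>
      rcases q with q | i
      · exact .inl (A _ _ fun n => ⟨_, _, .chal (.inl q) o, rfl⟩)
      · refine .inr ⟨i.1, List.mem_range.2 i.2, ?_⟩
        cases o <;> simp [codeE, codeNum]
    | eps => exact .inl (A _ _ fun n => ⟨_, _, .eps, rfl⟩)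
    | split => exact .inl (A _ _ fun n => ⟨_, _, .split, rfl⟩)
    | beta j => exact .inl (A _ _ fun n => ⟨_, _, .beta j, rfl⟩)

theorem exists_code {Q R : Type} [Finite Q] [Finite R] [DecidableEq R] (O : Ops (Option Q) R)
    (m : Mach Q Unit) : ∃ (ι : Wd (Option Q) → ℕ) (a : AC) (f : ℕ → MC), Function.Injective ι ∧
      (∀ x ∈ a.1, ∃ p, x = enc (.atom p)) ∧ (∀ t ∈ a.2, t.1 = 0) ∧ Computable f ∧
      (∀ n, ∀ t ∈ (f n).2.1, t.1 = 0) ∧ ∀ n, FinEv (f n, a) ↔ FinBis (tokM O (ldM m n) ι) := by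
  classical
  have := code_fin Q
  have := code_fin (Option Q)
  have := Fintype.ofFinite (Wd Q)
  obtain ⟨ι, hι⟩ := Countable.exists_injective_nat (Wd (Option Q))
  obtain ⟨k, ⟨e₀⟩⟩ := Finite.exists_equiv_fin (Wd Q)
  obtain ⟨N, ⟨d⟩⟩ := Finite.exists_equiv_fin (Wd (Option Q) × Tok R)
  let e : Wd Q → ℕ := fun w => e₀ w
  have he : Function.Injective e := Fin.val_injective.comp e₀.injective
  have hk : ∀ w, e w < k := fun w => (e₀ w).2
  let D : ℕ → Wd (Option Q) × Tok R := fun x =>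
    if h : x < N then d.symm ⟨x, h⟩ else (.fin, none, false, false)
  let l : List Fm := (List.range N).map fun x => .atom (ι (D x).1)
  have hl : l.length = N := by simp [l]
  let s : List (ℕ × ℕ × ℕ) := (({0} ×ˢ Finset.range N ×ˢ Finset.range N).filter fun t =>
    TS O (D t.2.1).1 (D t.2.2).1 (D t.2.1).2 (D t.2.2).2).toList
  obtain ⟨Rf, hRf⟩ := code_edges m hk
  refine ⟨ι, (l.map enc, s), _, hι, ?_, ?_, code_comp k (e .g0) (e (.st m.q0)) (ι (.st none))
    (ι (.ex none false)) (ι (.ex none true)) Rf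
    (Finset.univ.toList.map fun w : Wd Q => (ι (w.map some), e w)), fun n t ht => ?_, fun n => ?_⟩
  · intro x hx
    simp only [l, List.mem_map] at hx
    obtain ⟨_, ⟨y, -, rfl⟩, rfl⟩ := hx
    exact ⟨_, rfl⟩
  · intro t ht
    simp only [s, Finset.mem_toList, Finset.mem_filter, Finset.mem_product,
      Finset.mem_singleton] at ht
    exact ht.1.1
  · obtain ⟨u, v, -, rfl⟩ := (hRf n t).1 ht
    rfl
  refine Iff.trans ⟨fun ⟨l', h₁, h₂⟩ => List.map_injective_iff.2 code_enc_inj h₁ ▸ h₂,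
    fun h => ⟨l, rfl, h⟩⟩
    (code_bm O (ldM m n) hι _ (codeNum e k) (code_inj he hk) (fun u => ?_) (fun x hx => ?_)
      (hRf n) (fun t => ?_) l D (fun x => ?_) (fun x => ?_) s fun i x y => ?_)
  · rcases code_cases u with ⟨w, rfl⟩ | ⟨i, rfl | rfl | rfl⟩
    · have := hk w
      rw [code_inl]
      simp only
      omega
    all_goals
      have := i.2
      simp only [codeNum]
      omega
  · by_cases h : x < k
    · exact ⟨(e₀.symm ⟨x, h⟩).map .inl, by rw [code_inl]; simp [e]⟩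
    have h₁ : (x - k) / 3 < n + 1 := by simp only at hx; omega
    obtain h₂ | h₂ | h₂ : (x - k) % 3 = 0 ∨ (x - k) % 3 = 1 ∨ (x - k) % 3 = 2 := by omega
    · exact ⟨.st (.inr ⟨_, h₁⟩), by simp only [codeNum]; omega⟩
    · exact ⟨.ex (.inr ⟨_, h₁⟩) false, by simp only [codeNum]; omega⟩
    · exact ⟨.ex (.inr ⟨_, h₁⟩) true, by simp only [codeNum]; omega⟩
  · simp only [List.mem_append, List.mem_map, List.mem_flatMap, Finset.mem_toList,
      Finset.mem_univ, true_and, List.mem_range, codeV, List.mem_cons, List.not_mem_nil, or_false]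
    constructor
    · rintro (⟨w, rfl⟩ | ⟨i, hi, rfl | rfl | rfl⟩)
      · exact ⟨w.map .inl, by rw [code_inl, code_ty]⟩
      · exact ⟨.st (.inr ⟨i, hi⟩), rfl⟩
      · exact ⟨.ex (.inr ⟨i, hi⟩) false, rfl⟩
      · exact ⟨.ex (.inr ⟨i, hi⟩) true, rfl⟩
    · rintro ⟨u, rfl⟩
      rcases code_cases u with ⟨w, rfl⟩ | ⟨i, rfl | rfl | rfl⟩
      · exact .inl ⟨w, by rw [code_inl, code_ty]⟩
      · exact .inr ⟨i.1, i.2, .inl rfl⟩
      · exact .inr ⟨i.1, i.2, .inr (.inl rfl)⟩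
      · exact .inr ⟨i.1, i.2, .inr (.inr rfl)⟩
  · simp [l]
  · exact ⟨⟨d x, (d x).2.trans_eq hl.symm⟩, by simp [D]⟩
  · have hx : x.1 < N := x.2.trans_eq hl
    have hy : y.1 < N := y.2.trans_eq hl
    simp only [s, Finset.mem_toList, Finset.mem_filter, Finset.mem_product, Finset.mem_singleton,
      Finset.mem_range, hx, hy, and_true]

end Pool.Agent.MP_bcf1b9_lc

end

section

namespace Pool.Agent.MP_bcf1b9_lc

open List

variable {R : Type} [DecidableEq R]

/-- number of tokens at a position -/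
def cnt (l : List (Tok R)) (p : Option R) : ℕ := l.countP fun a => a.1 = some p
/-- number of tokens that are not dropped -/
def tot (l : List (Tok R)) : ℕ := l.countP fun a => a.1.isSome
def u1 (l : List (Tok R)) : Prop := ∃ a ∈ l, a.2.1 = true
def u2 (l : List (Tok R)) : Prop := ∃ a ∈ l, a.2.2 = true
/-- total weight of the marks -/
def wt (l : List (Tok R)) : ℕ :=
  (l.map fun a => if a.2.2 = true then 2 else if a.2.1 = true then 1 else 0).sum
/-- all tokens may stay unmarked -/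
def can0 (l : List (Tok R)) : Prop := ∀ a ∈ l, a.2.2 = true
/-- one token may be dropped as a single token and the others may stay unmarked -/
def can1 (l : List (Tok R)) : Prop :=
  ∃ l₁ a l₂, l = l₁ ++ a :: l₂ ∧ a.1.isSome = true ∧ a.2.1 = true ∧ can0 l₁ ∧ can0 l₂

variable {l l' : List (Tok R)}

section aux
variable (a : Tok R) (l : List (Tok R))

theorem ls_cnt_nil (p : Option R) : cnt ([] : List (Tok R)) p = 0 := rfl
theorem ls_cnt_cons (p : Option R) :
    cnt (a :: l) p = cnt l p + if a.1 = some p then 1 else 0 := by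
  simp [cnt, List.countP_cons]
omit [DecidableEq R] in
theorem ls_tot_nil : tot ([] : List (Tok R)) = 0 := rfl
omit [DecidableEq R] in
theorem ls_tot_cons : tot (a :: l) = tot l + if a.1.isSome = true then 1 else 0 := by
  simp [tot, List.countP_cons]
omit [DecidableEq R] in
theorem ls_u1_nil : u1 ([] : List (Tok R)) ↔ False := by simp [u1]
omit [DecidableEq R] in
theorem ls_u1_cons : u1 (a :: l) ↔ a.2.1 = true ∨ u1 l := by simp [u1]
omit [DecidableEq R] in
theorem ls_u2_nil : u2 ([] : List (Tok R)) ↔ False := by simp [u2]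
omit [DecidableEq R] in
theorem ls_u2_cons : u2 (a :: l) ↔ a.2.2 = true ∨ u2 l := by simp [u2]
omit [DecidableEq R] in
theorem ls_wt_nil : wt ([] : List (Tok R)) = 0 := rfl
omit [DecidableEq R] in
theorem ls_wt_cons :
    wt (a :: l) = wt l + if a.2.2 = true then 2 else if a.2.1 = true then 1 else 0 := by
  simp [wt, add_comm]
omit [DecidableEq R] in
theorem ls_can0_nil : can0 ([] : List (Tok R)) ↔ True := by simp [can0]
omit [DecidableEq R] in
theorem ls_can0_cons : can0 (a :: l) ↔ a.2.2 = true ∧ can0 l := by simp [can0]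
omit [DecidableEq R] in
theorem ls_can1_nil : can1 ([] : List (Tok R)) ↔ False := by simp [can1]
omit [DecidableEq R] in
theorem ls_can1_cons : can1 (a :: l) ↔
    (a.1.isSome = true ∧ a.2.1 = true ∧ can0 l) ∨ (a.2.2 = true ∧ can1 l) := by
  constructor
  · rintro ⟨l₁, b, l₂, h, h1, h2, h3, h4⟩
    cases l₁ with
    | nil =>
      simp only [List.nil_append, List.cons.injEq] at h
      obtain ⟨rfl, rfl⟩ := h
      exact Or.inl ⟨h1, h2, h4⟩
    | cons c l₁ =>
      simp only [List.cons_append, List.cons.injEq] at h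
      obtain ⟨rfl, rfl⟩ := h
      rw [ls_can0_cons] at h3
      exact Or.inr ⟨h3.1, l₁, b, l₂, rfl, h1, h2, h3.2, h4⟩
  · rintro (⟨h1, h2, h3⟩ | ⟨h1, l₁, b, l₂, rfl, h2, h3, h4, h5⟩)
    · exact ⟨[], a, l, rfl, h1, h2, (ls_can0_nil).2 trivial, h3⟩
    · exact ⟨a :: l₁, b, l₂, rfl, h2, h3, (ls_can0_cons _ _).2 ⟨h1, h4⟩, h5⟩

end aux

theorem cnt_le_tot (l : List (Tok R)) (p : Option R) : cnt l p ≤ tot l := by
  induction l with
  | nil => simp [ls_cnt_nil]
  | cons a l ih =>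
    rw [ls_cnt_cons, ls_tot_cons]
    by_cases h : a.1 = some p
    · simp [h, ih]
    · simp only [h, if_false]; omega

theorem phi_iff : (∃ l', Forall₂ (fun a a' : Tok R => a.1 = none ∧ a.2.1 = false ∧ a' = a) l l') ↔
    tot l = 0 ∧ ¬ u1 l := by
  induction l with
  | nil => simp [ls_tot_nil, ls_u1_nil]
  | cons a l ih =>
    rw [ls_tot_cons, ls_u1_cons]
    constructor
    · rintro ⟨l', h⟩
      cases h with
      | cons h1 h2 =>
        have := ih.1 ⟨_, h2⟩
        simp [h1.1, h1.2.1, this.1, this.2]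
    · rintro ⟨h1, h2⟩
      have h3 : a.1 = none := by
        rcases h : a.1 with _ | x
        · rfl
        · simp [h] at h1
      have h4 : a.2.1 = false := by
        rcases h : a.2.1 with _ | _
        · rfl
        · exact absurd (Or.inl h) h2
      obtain ⟨l', h⟩ := ih.2 ⟨by omega, fun h => h2 (Or.inr h)⟩
      exact ⟨a :: l', Forall₂.cons ⟨h3, h4, rfl⟩ h⟩

theorem forall₂_fun (F : Tok R → Tok R) : Forall₂ (fun a a' => a' = F a) l l' ↔ l' = l.map F := by
  constructor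
  · intro h
    induction h with
    | nil => rfl
    | cons h1 _ ih => simp [h1, ih]
  · rintro rfl
    induction l with
    | nil => exact Forall₂.nil
    | cons a l ih => exact Forall₂.cons rfl ih

theorem go_spec (b : R) (l : List (Tok R)) : tot (l.map (goF b)) = tot l ∧
    (u1 (l.map (goF b)) ↔ u1 l) ∧ cnt (l.map (goF b)) none = 0 ∧
    ∀ r, cnt (l.map (goF b)) (some r) = if r = b then tot l else 0 := by
  induction l with
  | nil => simp [ls_tot_nil, ls_cnt_nil]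
  | cons a l ih =>
    obtain ⟨h1, h2, h3, h4⟩ := ih
    obtain ⟨x, f1, f2⟩ := a
    simp only [List.map_cons, ls_tot_cons, ls_u1_cons, ls_cnt_cons, h1, h2, h3, h4, goF]
    refine ⟨by simp, by simp, by cases x <;> simp, fun r => ?_⟩
    by_cases hr : r = b
    · cases x <;> simp [hr]
    · cases x <;> simp [hr, Ne.symm hr]

theorem exec_inv {s : R} (h : Forall₂ (execR s) l l') : tot l' = tot l ∧
    (u1 l → u1 l' ∨ u2 l') ∧ cnt l' (some s) ≤ cnt l (some s) ∧
    cnt l' none + cnt l' (some s) = cnt l none + cnt l (some s) ∧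
    ∀ r, r ≠ s → cnt l' (some r) = cnt l (some r) := by
  induction h with
  | nil => simp [ls_u1_nil]
  | @cons a a' l l' h1 _ ih =>
    obtain ⟨i1, i2, i3, i4, i5⟩ := ih
    obtain ⟨h1, h2⟩ := h1
    simp only [ls_tot_cons, ls_u1_cons, ls_u2_cons, ls_cnt_cons]
    have hu : a.2.1 = true ∨ u1 l → (a'.2.1 = true ∨ u1 l') ∨ a'.2.2 = true ∨ u2 l' := by
      rintro (h | h)
      · rcases h2 h with h | h
        · exact Or.inl (Or.inl h)
        · exact Or.inr (Or.inl h)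
      · rcases i2 h with h | h
        · exact Or.inl (Or.inr h)
        · exact Or.inr (Or.inr h)
    rcases h1 with h1 | ⟨h1, h1'⟩
    · rw [h1]
      refine ⟨by omega, hu, by omega, by omega, fun r hr => by rw [i5 r hr]⟩
    · rw [h1, h1']
      refine ⟨by simp [i1], hu, by simp; omega, by simp; omega, fun r hr => ?_⟩
      simp [i5 r hr, Ne.symm hr]

theorem exec_ex (s : R) (hl : l ≠ []) {y : ℕ} (hy : y ≤ cnt l (some s)) (f : Bool × Bool)
    (hf : u1 l → f.1 = true ∨ f.2 = true) : ∃ l', Forall₂ (execR s) l l' ∧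
      cnt l' (some s) = y ∧ (u1 l' ↔ f.1 = true) ∧ (u2 l' ↔ f.2 = true) := by
  have key : ∀ (l : List (Tok R)) (y : ℕ), y ≤ cnt l (some s) →
      (u1 l → f.1 = true ∨ f.2 = true) →
      ∃ l', Forall₂ (execR s) l l' ∧ cnt l' (some s) = y ∧ ∀ a ∈ l', a.2 = f := by
    intro l
    induction l with
    | nil =>
      intro y hy _
      exact ⟨[], Forall₂.nil, by simpa [ls_cnt_nil, eq_comm] using hy, by simp⟩
    | cons a l ih =>
      intro y hy hf
      rw [ls_cnt_cons] at hy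
      rw [ls_u1_cons] at hf
      by_cases ha : a.1 = some (some s)
      · simp only [ha, if_true] at hy
        by_cases hy' : y ≤ cnt l (some s)
        · obtain ⟨l', h1, h2, h3⟩ := ih y hy' fun h => hf (Or.inr h)
          refine ⟨(some none, f) :: l', Forall₂.cons ⟨Or.inr ⟨ha, rfl⟩, fun h => hf (Or.inl h)⟩ h1,
            by simp [ls_cnt_cons, h2], ?_⟩
          intro b hb
          rcases List.mem_cons.1 hb with rfl | hb
          · rfl
          · exact h3 b hb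
        · obtain ⟨l', h1, h2, h3⟩ := ih (cnt l (some s)) le_rfl fun h => hf (Or.inr h)
          refine ⟨(a.1, f) :: l', Forall₂.cons ⟨Or.inl rfl, fun h => hf (Or.inl h)⟩ h1,
            by simp only [ls_cnt_cons, h2, ha, if_true]; omega, ?_⟩
          intro b hb
          rcases List.mem_cons.1 hb with rfl | hb
          · rfl
          · exact h3 b hb
      · simp only [ha, if_false, add_zero] at hy
        obtain ⟨l', h1, h2, h3⟩ := ih y hy fun h => hf (Or.inr h)
        refine ⟨(a.1, f) :: l', Forall₂.cons ⟨Or.inl rfl, fun h => hf (Or.inl h)⟩ h1,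
          by simp [ls_cnt_cons, h2, ha], ?_⟩
        intro b hb
        rcases List.mem_cons.1 hb with rfl | hb
        · rfl
        · exact h3 b hb
  obtain ⟨l', h1, h2, h3⟩ := key l y hy hf
  have hne : l' ≠ [] := by
    rintro rfl
    exact hl (List.forall₂_nil_right_iff.1 h1)
  obtain ⟨b, hb⟩ := List.exists_mem_of_ne_nil l' hne
  refine ⟨l', h1, h2, ⟨?_, fun h => ⟨b, hb, by rw [h3 b hb]; exact h⟩⟩,
    ⟨?_, fun h => ⟨b, hb, by rw [h3 b hb]; exact h⟩⟩⟩
  · rintro ⟨c, hc, h⟩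
    rwa [h3 c hc] at h
  · rintro ⟨c, hc, h⟩
    rwa [h3 c hc] at h

theorem exh_spec (b : R) (l : List (Tok R)) : tot (l.map (exhF b)) = tot l ∧
    (can0 (l.map (exhF b)) ↔ ¬ u1 l ∧ cnt l (some b) = 0) ∧
    (can1 (l.map (exhF b)) ↔ ¬ u1 l ∧ cnt l (some b) = 0 ∧ 1 ≤ tot l) := by
  induction l with
  | nil => simp [ls_tot_nil, ls_cnt_nil, ls_u1_nil, ls_can0_nil, ls_can1_nil]
  | cons a l ih =>
    obtain ⟨h1, h2, h3⟩ := ih
    obtain ⟨x, f1, f2⟩ := a
    simp only [List.map_cons, ls_tot_cons, ls_u1_cons, ls_cnt_cons, ls_can0_cons, ls_can1_cons,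
      h1, h2, h3, exhF]
    by_cases hx : x = some (some b)
    · simp [hx]
    · cases f1
      · cases x with
        | none => simp
        | some x =>
          simp only [hx]
          simp only [Option.isSome_some, if_true, Bool.false_eq_true, or_self, if_false, true_and,
            false_or, add_zero, le_add_iff_nonneg_left, zero_le, and_true]
          tauto
      · simp

theorem main_spec (g : R) (l : List (Tok R)) : tot (l.map (mainF g)) = tot l ∧
    (u1 (l.map (mainF g)) ↔ u1 l) ∧ cnt (l.map (mainF g)) none = 0 ∧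
    ∀ r, cnt (l.map (mainF g)) (some r) = cnt l (some r) + if r = g then cnt l none else 0 := by
  induction l with
  | nil => simp [ls_tot_nil, ls_cnt_nil]
  | cons a l ih =>
    obtain ⟨h1, h2, h3, h4⟩ := ih
    obtain ⟨x, f1, f2⟩ := a
    simp only [List.map_cons, ls_tot_cons, ls_u1_cons, ls_cnt_cons, h1, h2, h3, h4, mainF]
    by_cases hx : x = some none
    · subst hx
      refine ⟨by simp, by simp, by simp, fun r => ?_⟩
      by_cases hr : r = g
      · simp [hr]; omega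
      · simp [hr, Ne.symm hr]
    · refine ⟨by simp [hx], by simp, by simp [hx], fun r => ?_⟩
      simp only [hx, if_false, add_zero]
      omega

theorem chal_spec (z : Option R) (l : List (Tok R)) : tot (l.map (chalF z)) = tot l ∧
    (can0 (l.map (chalF z)) ↔ ¬ u2 l ∧ cnt l none = 0 ∧ ∀ r, z = some r → cnt l (some r) = 0) ∧
    (can1 (l.map (chalF z)) ↔ ¬ u2 l ∧ cnt l none = 1 ∧ ∀ r, z = some r → cnt l (some r) = 0) := by
  induction l with
  | nil => simp [ls_tot_nil, ls_cnt_nil, ls_u2_nil, ls_can0_nil, ls_can1_nil]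
  | cons a l ih =>
    obtain ⟨h1, h2, h3⟩ := ih
    obtain ⟨x, f1, f2⟩ := a
    simp only [List.map_cons, ls_tot_cons, ls_u2_cons, ls_cnt_cons, ls_can0_cons, ls_can1_cons,
      h1, h2, h3, chalF]
    cases f2
    · by_cases hx : x = some none
      · subst hx
        simp
      · by_cases hz : x = some z
        · subst hz
          cases z with
          | none => exact absurd rfl hx
          | some r => simp
        · cases z with
          | none => simp [hx]
          | some r => simp [hx, hz]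
    · simp

theorem eps_inv (h : Forall₂ epsR l l') : tot l' ≤ tot l ∧ tot l ≤ tot l' + wt l' ∧
    (wt l' = 0 → can0 l) ∧ (wt l' = 1 → can1 l ∧ tot l' + 1 = tot l) := by
  induction h with
  | nil => simp [ls_tot_nil, ls_wt_nil, ls_can0_nil]
  | @cons a a' l l' h1 _ ih =>
    obtain ⟨i1, i2, i3, i4⟩ := ih
    simp only [ls_tot_cons, ls_wt_cons, ls_can0_cons, ls_can1_cons]
    rcases h1 with ⟨h1, h2⟩ | ⟨h1, rfl⟩ | ⟨h1, h2, rfl⟩
    · simp only [h2, if_true]
      refine ⟨?_, ?_, by omega, by omega⟩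
      · rcases h1 with h1 | h1
        · rw [h1]; omega
        · simp [h1]; omega
      · split_ifs <;> omega
    · simp only [Bool.false_eq_true, if_false, add_zero]
      refine ⟨by omega, by omega, fun h => ⟨h1, i3 h⟩, fun h => ⟨Or.inr ⟨h1, (i4 h).1⟩, ?_⟩⟩
      have := (i4 h).2
      omega
    · simp only [Bool.false_eq_true, if_false, if_true, h1, Option.isSome_none, add_zero]
      refine ⟨by omega, by omega, by omega, fun h => ⟨Or.inl ⟨trivial, h2, i3 (by omega)⟩, ?_⟩⟩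
      omega

theorem eps_ex0 (h : can0 l) : ∃ l', Forall₂ epsR l l' ∧ wt l' = 0 := by
  induction l with
  | nil => exact ⟨[], Forall₂.nil, rfl⟩
  | cons a l ih =>
    rw [ls_can0_cons] at h
    obtain ⟨l', h1, h2⟩ := ih h.2
    exact ⟨(a.1, false, false) :: l', Forall₂.cons (Or.inr (Or.inl ⟨h.1, rfl⟩)) h1,
      by simp [ls_wt_cons, h2]⟩

theorem eps_ex1 (h : can1 l) : ∃ l', Forall₂ epsR l l' ∧ wt l' = 1 := by
  induction l with
  | nil => exact absurd h (by simp [ls_can1_nil])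
  | cons a l ih =>
    rw [ls_can1_cons] at h
    rcases h with ⟨h1, h2, h3⟩ | ⟨h1, h2⟩
    · obtain ⟨l', h4, h5⟩ := eps_ex0 h3
      exact ⟨(none, true, false) :: l', Forall₂.cons (Or.inr (Or.inr ⟨h1, h2, rfl⟩)) h4,
        by simp [ls_wt_cons, h5]⟩
    · obtain ⟨l', h4, h5⟩ := ih h2
      exact ⟨(a.1, false, false) :: l', Forall₂.cons (Or.inr (Or.inl ⟨h1, rfl⟩)) h4,
        by simp [ls_wt_cons, h5]⟩

theorem eps_ex2 (hl : l ≠ []) {B : ℕ} (hB : B ≤ tot l) :
    ∃ l', Forall₂ epsR l l' ∧ 2 ≤ wt l' ∧ tot l' = B := by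
  have key : ∀ (l : List (Tok R)) (B : ℕ), B ≤ tot l →
      ∃ l', Forall₂ epsR l l' ∧ wt l' = 2 * l.length ∧ tot l' = B := by
    intro l
    induction l with
    | nil =>
      intro B hB
      exact ⟨[], Forall₂.nil, rfl, by simpa [ls_tot_nil, eq_comm] using hB⟩
    | cons a l ih =>
      intro B hB
      rw [ls_tot_cons] at hB
      by_cases hB' : B ≤ tot l
      · obtain ⟨l', h1, h2, h3⟩ := ih B hB'
        exact ⟨(none, false, true) :: l', Forall₂.cons (Or.inl ⟨Or.inr rfl, rfl⟩) h1,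
          by simp [ls_wt_cons, h2]; omega, by simp [ls_tot_cons, h3]⟩
      · obtain ⟨l', h1, h2, h3⟩ := ih (tot l) le_rfl
        refine ⟨(a.1, false, true) :: l', Forall₂.cons (Or.inl ⟨Or.inl rfl, rfl⟩) h1,
          by simp [ls_wt_cons, h2]; omega, ?_⟩
        simp only [ls_tot_cons, h3]
        split_ifs at hB ⊢ <;> omega
  obtain ⟨l', h1, h2, h3⟩ := key l B hB
  have := List.length_pos_iff.2 hl
  exact ⟨l', h1, by omega, h3⟩

theorem split_inv (h : Forall₂ splitR l l') : tot l' = tot l ∧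
    (wt l = 0 ↔ ¬ u1 l' ∧ ¬ u2 l') ∧ (u1 l' → u2 l' → 2 ≤ wt l) := by
  induction h with
  | nil => simp [ls_wt_nil, ls_u1_nil, ls_u2_nil]
  | @cons a a' l l' h1 _ ih =>
    obtain ⟨i1, i2, i3⟩ := ih
    obtain ⟨h1, h2, h3⟩ := h1
    obtain ⟨x, f1, f2⟩ := a
    obtain ⟨x', g1, g2⟩ := a'
    simp only at h1 h2 h3
    subst h1
    simp only [ls_tot_cons, ls_wt_cons, ls_u1_cons, ls_u2_cons, i1]
    by_cases k1 : u1 l' <;> by_cases k2 : u2 l' <;>
      cases f1 <;> cases f2 <;> cases g1 <;> cases g2 <;>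
      simp_all <;> omega

theorem split_ex (f : Bool × Bool) (h0 : wt l = 0 ↔ f = (false, false))
    (h2 : f = (true, true) → 2 ≤ wt l) :
    ∃ l', Forall₂ splitR l l' ∧ (u1 l' ↔ f.1 = true) ∧ (u2 l' ↔ f.2 = true) := by
  have single : ∀ (g : Bool × Bool), g ≠ (false, false) → g ≠ (true, true) →
      ∀ l : List (Tok R), ∃ l', Forall₂ splitR l l' ∧ (u1 l' ↔ wt l ≠ 0 ∧ g.1 = true) ∧
        (u2 l' ↔ wt l ≠ 0 ∧ g.2 = true) := by
    intro g hg hg' l
    induction l with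
    | nil => exact ⟨[], Forall₂.nil, by simp [ls_u1_nil, ls_wt_nil], by simp [ls_u2_nil, ls_wt_nil]⟩
    | cons a l ih =>
      obtain ⟨l', h1, h2, h3⟩ := ih
      obtain ⟨x, f1, f2⟩ := a
      by_cases ha : (f1, f2) = (false, false)
      · obtain ⟨rfl, rfl⟩ := Prod.mk.inj ha
        exact ⟨(x, false, false) :: l', Forall₂.cons ⟨rfl, by simp, by simp⟩ h1,
          by simp [ls_u1_cons, ls_wt_cons, h2], by simp [ls_u2_cons, ls_wt_cons, h3]⟩
      · refine ⟨(x, g) :: l', Forall₂.cons ⟨rfl, by simp only [ha, hg], fun h => absurd h hg'⟩ h1,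
          ?_, ?_⟩
        · simp only [ls_u1_cons, ls_wt_cons, h2]
          cases f1 <;> cases f2 <;> simp_all
        · simp only [ls_u2_cons, ls_wt_cons, h3]
          cases f1 <;> cases f2 <;> simp_all
  have double : ∀ l : List (Tok R), 2 ≤ wt l → ∃ l', Forall₂ splitR l l' ∧ u1 l' ∧ u2 l' := by
    intro l
    induction l with
    | nil => intro h; simp [ls_wt_nil] at h
    | cons a l ih =>
      intro h
      obtain ⟨x, f1, f2⟩ := a
      rw [ls_wt_cons] at h
      cases f2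
      · cases f1
        · obtain ⟨l', h1, h2, h3⟩ := ih (by simpa using h)
          exact ⟨(x, false, false) :: l', Forall₂.cons ⟨rfl, by simp, by simp⟩ h1,
            (ls_u1_cons _ _).2 (Or.inr h2), (ls_u2_cons _ _).2 (Or.inr h3)⟩
        · obtain ⟨l', h1, _, h3⟩ := single (false, true) (by simp) (by simp) l
          have : wt l ≠ 0 := by simp at h; omega
          exact ⟨(x, true, false) :: l', Forall₂.cons ⟨rfl, by simp, by simp⟩ h1,
            (ls_u1_cons _ _).2 (Or.inl rfl), (ls_u2_cons _ _).2 (Or.inr (h3.2 ⟨this, rfl⟩))⟩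
      · obtain ⟨l', h1, _, _⟩ := single (false, true) (by simp) (by simp) l
        exact ⟨(x, true, true) :: l', Forall₂.cons ⟨rfl, by simp, by simp⟩ h1,
          (ls_u1_cons _ _).2 (Or.inl rfl), (ls_u2_cons _ _).2 (Or.inl rfl)⟩
  by_cases hf : f = (true, true)
  · obtain ⟨l', h1, h3, h4⟩ := double l (h2 hf)
    exact ⟨l', h1, by simp [hf, h3], by simp [hf, h4]⟩
  · by_cases hf' : f = (false, false)
    · obtain ⟨l', h1, h3, h4⟩ := single (false, true) (by simp) (by simp) l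
      have := h0.2 hf'
      exact ⟨l', h1, by simp [hf', h3], by simp [hf', h4, this]⟩
    · obtain ⟨l', h1, h3, h4⟩ := single f hf' hf l
      have : wt l ≠ 0 := fun h => hf' (h0.1 h)
      exact ⟨l', h1, by simp [h3, this], by simp [h4, this]⟩

theorem beta_spec (j : Bool) (l : List (Tok R)) : tot (l.map (betaF j)) = tot l ∧
    (u1 (l.map (betaF j)) ↔ if j = true then u1 l else u2 l) := by
  induction l with
  | nil => simp [ls_u1_nil, ls_u2_nil]
  | cons a l ih =>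
    obtain ⟨h1, h2⟩ := ih
    simp only [List.map_cons, ls_tot_cons, ls_u1_cons, ls_u2_cons, h1, h2, betaF]
    cases j <;> simp

end Pool.Agent.MP_bcf1b9_lc

end

section

namespace Pool.Agent.MP_bcf1b9_lc

section
variable {Q T R : Type} [DecidableEq R] (O : Ops T R) (m : Mach Q T) (N : ℕ)

/-- the relation between token lists at a location, for equal totals -/
def FiniS : Wd Q → List (Tok R) → List (Tok R) → Prop
  | .start _, l, k => (u1 l ↔ u1 k) ∨ tot l = N
  | .st q, l, k => cnt l = cnt k ∧ ((u1 l ↔ u1 k) ∨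
      (tot l = N ∧ cnt l none = 0 ∧ Hon O m N (q, fun r => cnt l (some r))))
  | .ex q o, l, k => cnt l = cnt k ∧ ((u1 l ↔ u1 k) ∨ (tot l = N ∧ ∀ q2, m.nx q o = some q2 →
      Hon O m N (q2, fun r => cnt l (some r) +
        if r = (O.op (m.ty q) o).2.1 then cnt l none else 0))) ∧
      ((u2 l ↔ u2 k) ∨ (tot l = N ∧ cnt l none = 0) ∨ 2 ≤ cnt l none ∨
        ∃ r, (O.op (m.ty q) o).2.2 = some r ∧ cnt l (some r) ≠ 0)
  | .g0, l, k => (can1 l ↔ can1 k) ∧ ((can0 l ↔ can0 k) ∨ tot l = N)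
  | .g1, l, k => min (wt l) 2 = min (wt k) 2 ∨ tot l = N
  | .g2, l, k => ((u1 l ↔ u1 k) ∧ (u2 l ↔ u2 k)) ∨ tot l = N
  | .fin, _, _ => True

/-- the relation between token lists at a location -/
def FiniR (w : Wd Q) (l k : List (Tok R)) : Prop :=
  (N + 1 ≤ tot l ∧ N + 1 ≤ tot k) ∨ (tot l = tot k ∧ FiniS O m N w l k)

variable {O m N} {l k l' : List (Tok R)}

theorem FiniR.symm {w : Wd Q} (h : FiniR O m N w l k) : FiniR O m N w k l := by
  rcases h with h | ⟨ht, h⟩
  · exact .inl h.symm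
  refine .inr ⟨ht.symm, ?_⟩
  cases w <;> simp only [FiniS] at h ⊢
  · rw [← ht]; exact h.imp_left Iff.symm
  · rw [← ht]; exact ⟨h.1.symm, h.2.imp_left Iff.symm⟩
  · rw [← ht]; exact h.imp_left Eq.symm
  · rw [← ht]; exact h.imp_left fun h => ⟨h.1.symm, h.2.symm⟩
  · rw [← ht, ← h.1]; exact ⟨rfl, h.2.imp_left Iff.symm⟩
  · rw [← ht, ← h.1]; exact ⟨rfl, h.2.1.imp_left Iff.symm, h.2.2.imp_left Iff.symm⟩

theorem Fini_go (j : Bool) (h : FiniR O m N (.start j) l k) :
    FiniR O m N (.st m.q0) (l.map (goF O.b)) (k.map (goF O.b)) := by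
  obtain ⟨a1, a2, a3, a4⟩ := go_spec O.b l
  obtain ⟨b1, b2, b3, b4⟩ := go_spec O.b k
  rcases h with h | ⟨ht, h⟩
  · exact .inl (by rwa [a1, b1])
  refine .inr ⟨by rw [a1, b1, ht], ?_, ?_⟩
  · funext p
    cases p with
    | none => rw [a3, b3]
    | some r => rw [a4, b4, ht]
  · rcases h with h | h
    · exact .inl (by rwa [a2, b2])
    · refine .inr ⟨a1.trans h, a3, ?_⟩
      simp only [a4, h]
      exact Relation.ReflTransGen.refl

theorem Fini_exec {q q' : Q} {o : Bool} (_hq : m.nx q o = some q') (hk : k ≠ [])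
    (h : FiniR O m N (.st q) l k) (hl : List.Forall₂ (execR (O.op (m.ty q) o).1) l l') :
    ∃ k', List.Forall₂ (execR (O.op (m.ty q) o).1) k k' ∧ FiniR O m N (.ex q o) l' k' := by
  classical
  obtain ⟨a1, a2, a3, a4, a5⟩ := exec_inv hl
  rcases h with h | ⟨ht, hc, h⟩
  · obtain ⟨k', h1, -⟩ := exec_ex (O.op (m.ty q) o).1 hk (Nat.zero_le _) (true, true)
      fun _ => .inl rfl
    exact ⟨k', h1, .inl (by rwa [a1, (exec_inv h1).1])⟩
  have key : ∀ f : Bool × Bool, (u1 k → f.1 = true ∨ f.2 = true) →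
      ∃ k', List.Forall₂ (execR (O.op (m.ty q) o).1) k k' ∧ tot l' = tot k' ∧ cnt l' = cnt k' ∧
        (u1 k' ↔ f.1 = true) ∧ (u2 k' ↔ f.2 = true) := by
    intro f hf
    obtain ⟨k', h1, h2, h3⟩ := exec_ex (O.op (m.ty q) o).1 hk (hc ▸ a3) f hf
    obtain ⟨b1, -, -, b4, b5⟩ := exec_inv h1
    refine ⟨k', h1, by rw [a1, b1, ht], funext fun p => ?_, h3⟩
    rw [← hc] at b4 b5
    cases p with
    | none => omega
    | some r =>
      by_cases hr : r = (O.op (m.ty q) o).1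
      · rw [hr, h2]
      · rw [a5 r hr, b5 r hr]
  by_cases hA : u1 k → u1 l' ∨ u2 l'
  · obtain ⟨k', h1, h2, h3, h4, h5⟩ := key (decide (u1 l'), decide (u2 l')) (by simpa using hA)
    exact ⟨k', h1, .inr ⟨h2, h3, .inl (by simp [h4]), .inl (by simp [h5])⟩⟩
  push Not at hA
  obtain ⟨hN, h0, hH⟩ := h.resolve_left fun h => (a2 (h.2 hA.1)).elim hA.2.1 hA.2.2
  by_cases hB : cnt l' none = 1 ∧ ∀ r, (O.op (m.ty q) o).2.2 = some r → cnt l' (some r) = 0
  · obtain ⟨k', h1, h2, h3, h4, h5⟩ := key (true, false) fun _ => .inl rfl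
    refine ⟨k', h1, .inr ⟨h2, h3, .inr ⟨a1.trans hN, fun q2 hq2 => hH.tail
      ⟨o, fun r => cnt l' (some r), hq2, fun r => ?_, hB.2, fun r => by simp only [hB.1]⟩⟩,
      .inl (by simp [h5, hA.2.2])⟩⟩
    dsimp only
    split_ifs with hr
    · rw [hr]; omega
    · rw [a5 r hr, add_zero]
  · obtain ⟨k', h1, h2, h3, h4, h5⟩ := key (false, true) fun _ => .inr rfl
    refine ⟨k', h1, .inr ⟨h2, h3, .inl (by simp [h4, hA.2.1]), .inr ?_⟩⟩
    by_cases c0 : cnt l' none = 0
    · exact .inl ⟨a1.trans hN, c0⟩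
    by_cases c1 : cnt l' none = 1
    · push Not at hB
      exact .inr (.inr (hB c1))
    · exact .inr (.inl (by omega))

theorem Fini_exh (hE : ¬ Exh O m N) {q : Q} (hq : m.live q) (h : FiniR O m N (.st q) l k) :
    FiniR O m N .g0 (l.map (exhF O.b)) (k.map (exhF O.b)) := by
  obtain ⟨a1, a2, a3⟩ := exh_spec O.b l
  obtain ⟨b1, b2, b3⟩ := exh_spec O.b k
  rcases h with h | ⟨ht, hc, h⟩
  · exact .inl (by rwa [a1, b1])
  refine .inr ⟨by rw [a1, b1, ht], ?_⟩
  simp only [FiniS, a2, a3, b2, b3, ← hc, ← ht]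
  rcases h with h | ⟨-, -, h⟩
  · simp [h]
  · have : cnt l (some O.b) ≠ 0 := fun h0 => hE ⟨_, h, hq, h0⟩
    simp [this]

theorem Fini_main {q q' : Q} {o : Bool} (hq : m.nx q o = some q') (h : FiniR O m N (.ex q o) l k) :
    FiniR O m N (.st q') (l.map (mainF (O.op (m.ty q) o).2.1))
      (k.map (mainF (O.op (m.ty q) o).2.1)) := by
  obtain ⟨a1, a2, a3, a4⟩ := main_spec (O.op (m.ty q) o).2.1 l
  obtain ⟨b1, b2, b3, b4⟩ := main_spec (O.op (m.ty q) o).2.1 k
  rcases h with h | ⟨ht, hc, h, -⟩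
  · exact .inl (by rwa [a1, b1])
  refine .inr ⟨by rw [a1, b1, ht], ?_, ?_⟩
  · funext p
    cases p with
    | none => rw [a3, b3]
    | some r => rw [a4, b4, hc]
  · rcases h with h | h
    · exact .inl (by rwa [a2, b2])
    · refine .inr ⟨a1.trans h.1, a3, ?_⟩
      simp only [a4]
      exact h.2 q' hq

theorem Fini_chal {q : Q} {o : Bool} (h : FiniR O m N (.ex q o) l k) :
    FiniR O m N .g0 (l.map (chalF (O.op (m.ty q) o).2.2))
      (k.map (chalF (O.op (m.ty q) o).2.2)) := by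
  obtain ⟨a1, a2, a3⟩ := chal_spec (O.op (m.ty q) o).2.2 l
  obtain ⟨b1, b2, b3⟩ := chal_spec (O.op (m.ty q) o).2.2 k
  rcases h with h | ⟨ht, hc, -, h⟩
  · exact .inl (by rwa [a1, b1])
  refine .inr ⟨by rw [a1, b1, ht], ?_⟩
  simp only [FiniS, a1, a2, a3, b2, b3, ← hc]
  rcases h with h | ⟨h, h0⟩ | h | ⟨r, h1, h2⟩
  · simp [h]
  · simp [h, h0]
  · have e0 : cnt l none ≠ 0 := by omega
    have e1 : cnt l none ≠ 1 := by omega
    simp [e0, e1]
  · simp [h1, h2]

theorem Fini_eps (hk : k ≠ []) (h : FiniR O m N .g0 l k) (hl : List.Forall₂ epsR l l') :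
    ∃ k', List.Forall₂ epsR k k' ∧ FiniR O m N .g1 l' k' := by
  obtain ⟨a1, a2, a3, a4⟩ := eps_inv hl
  rcases h with h | ⟨ht, h1, h0⟩
  · by_cases hb : N + 1 ≤ tot l'
    · obtain ⟨k', b1, -, b3⟩ := eps_ex2 hk (le_refl (tot k))
      exact ⟨k', b1, .inl ⟨hb, b3 ▸ h.2⟩⟩
    · obtain ⟨k', b1, b2, b3⟩ := eps_ex2 hk (B := tot l') (by omega)
      exact ⟨k', b1, .inr ⟨b3.symm, by simp only [FiniS]; omega⟩⟩
  by_cases w0 : wt l' = 0
  · rcases h0 with h0 | h0
    · obtain ⟨k', b1, b2⟩ := eps_ex0 (h0.1 (a3 w0))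
      obtain ⟨c1, c2, -⟩ := eps_inv b1
      exact ⟨k', b1, .inr ⟨by omega, .inl (by rw [w0, b2])⟩⟩
    · obtain ⟨k', b1, -, b3⟩ := eps_ex2 hk (le_refl (tot k))
      exact ⟨k', b1, .inr ⟨by omega, .inr (by omega)⟩⟩
  by_cases w1 : wt l' = 1
  · obtain ⟨k', b1, b2⟩ := eps_ex1 (h1.1 (a4 w1).1)
    have c1 := ((eps_inv b1).2.2.2 b2).2
    have c2 := (a4 w1).2
    exact ⟨k', b1, .inr ⟨by omega, .inl (by rw [w1, b2])⟩⟩
  · obtain ⟨k', b1, b2, b3⟩ := eps_ex2 hk (B := tot l') (by omega)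
    exact ⟨k', b1, .inr ⟨b3.symm, .inl (by omega)⟩⟩

theorem Fini_split (h : FiniR O m N .g1 l k) (hl : List.Forall₂ splitR l l') :
    ∃ k', List.Forall₂ splitR k k' ∧ FiniR O m N .g2 l' k' := by
  classical
  obtain ⟨a1, a2, a3⟩ := split_inv hl
  have any : ∃ k', List.Forall₂ splitR k k' ∧ tot k' = tot k := by
    obtain ⟨k', b1, -⟩ := split_ex (l := k) (decide (wt k ≠ 0), false) (by simp) (by simp)
    exact ⟨k', b1, (split_inv b1).1⟩
  rcases h with h | ⟨ht, h | h⟩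
  · obtain ⟨k', b1, b2⟩ := any
    exact ⟨k', b1, .inl (by rwa [a1, b2])⟩
  · obtain ⟨k', b1, b2, b3⟩ := split_ex (l := k) (decide (u1 l'), decide (u2 l'))
      (by rw [show wt k = 0 ↔ wt l = 0 by omega, a2]; simp)
      (by simp only [Prod.mk.injEq, decide_eq_true_eq]; exact fun e => by have := a3 e.1 e.2; omega)
    exact ⟨k', b1, .inr ⟨by rw [a1, (split_inv b1).1, ht], .inl ⟨by simp [b2], by simp [b3]⟩⟩⟩
  · obtain ⟨k', b1, b2⟩ := any
    exact ⟨k', b1, .inr ⟨by rw [a1, b2, ht], .inr (a1.trans h)⟩⟩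

theorem Fini_beta (j : Bool) (h : FiniR O m N .g2 l k) :
    FiniR O m N (.start j) (l.map (betaF j)) (k.map (betaF j)) := by
  obtain ⟨a1, a2⟩ := beta_spec j l
  obtain ⟨b1, b2⟩ := beta_spec j k
  rcases h with h | ⟨ht, h⟩
  · exact .inl (by rwa [a1, b1])
  refine .inr ⟨by rw [a1, b1, ht], ?_⟩
  rcases h with h | h
  · exact .inl (by rw [a2, b2]; split_ifs; exacts [h.1, h.2])
  · exact .inr (a1.trans h)

theorem Fini_forth (hN : 1 ≤ N) (hE : ¬ Exh O m N) {w w' : Wd Q} (hk : k ≠ [])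
    (h : FiniR O m N w l k) (he : Edge m w w')
    (hl : List.Forall₂ (TS O (w.map m.ty) (w'.map m.ty)) l l') :
    ∃ k', List.Forall₂ (TS O (w.map m.ty) (w'.map m.ty)) k k' ∧
      (w' = .fin ∨ FiniR O m N w' l' k') := by
  cases he with
  | phi j =>
    obtain ⟨h1, h2⟩ := phi_iff.1 ⟨l', hl⟩
    rcases h with h | ⟨ht, h | h⟩
    · omega
    · obtain ⟨k', hk'⟩ := phi_iff.2 ⟨ht ▸ h1, fun e => h2 (h.2 e)⟩
      exact ⟨k', hk', .inl rfl⟩
    · omega
  | go j =>
    obtain rfl := (forall₂_fun _).1 hl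
    exact ⟨_, (forall₂_fun _).2 rfl, .inr (Fini_go j h)⟩
  | exec q o q' hq => exact (Fini_exec hq hk h hl).imp fun _ h => ⟨h.1, .inr h.2⟩
  | exh q hq =>
    obtain rfl := (forall₂_fun _).1 hl
    exact ⟨_, (forall₂_fun _).2 rfl, .inr (Fini_exh hE hq h)⟩
  | main q o q' hq =>
    obtain rfl := (forall₂_fun _).1 hl
    exact ⟨_, (forall₂_fun _).2 rfl, .inr (Fini_main hq h)⟩
  | chal q o =>
    obtain rfl := (forall₂_fun _).1 hl
    exact ⟨_, (forall₂_fun _).2 rfl, .inr (Fini_chal h)⟩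
  | eps => exact (Fini_eps hk h hl).imp fun _ h => ⟨h.1, .inr h.2⟩
  | split => exact (Fini_split h hl).imp fun _ h => ⟨h.1, .inr h.2⟩
  | beta j =>
    obtain rfl := (forall₂_fun _).1 hl
    exact ⟨_, (forall₂_fun _).2 rfl, .inr (Fini_beta j h)⟩

theorem Fini_isBis (ι : Wd T → ℕ) (hN : 1 ≤ N) (hE : ¬ Exh O m N) :
    IsBis (tokM O m ι) fun x y => x.1 = y.1 ∧ x.2 ≠ [] ∧ y.2 ≠ [] ∧
      (x.1 = .fin ∨ FiniR O m N x.1 x.2 y.2) := by
  have ne : ∀ {P : Tok R → Tok R → Prop} {a b : List (Tok R)}, List.Forall₂ P a b → a ≠ [] →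
      b ≠ [] := fun h ha hb => ha (by rw [hb] at h; exact List.forall₂_nil_right_iff.1 h)
  rintro ⟨w, l⟩ ⟨w2, k⟩ ⟨h1, h2, h3, h4⟩
  dsimp only at h1 h2 h3 h4
  subst h1
  refine ⟨fun p => Iff.rfl, ?_, ?_⟩
  · rintro i ⟨w', l'⟩ ⟨hi, he, hl⟩
    rcases h4 with rfl | h4
    · cases he
    obtain ⟨k', b1, b2⟩ := Fini_forth hN hE h3 h4 he hl
    exact ⟨(w', k'), ⟨hi, he, b1⟩, rfl, ne hl h2, ne b1 h3, b2⟩
  · rintro i ⟨w', k'⟩ ⟨hi, he, hl⟩
    rcases h4 with rfl | h4
    · cases he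
    obtain ⟨l', b1, b2⟩ := Fini_forth hN hE h2 h4.symm he hl
    exact ⟨(w', l'), ⟨hi, he, b1⟩, rfl, ne b1 h2, ne hl h3, b2.imp_right FiniR.symm⟩

end

theorem Fini_finite (Q : Type) [Finite Q] : Finite (Wd Q) := by
  refine Finite.of_injective (β := Fin 7 × Option Q × Bool) (fun w => match w with
    | .start j => (0, none, j)
    | .fin => (1, none, true)
    | .g0 => (2, none, true)
    | .g1 => (3, none, true)
    | .g2 => (4, none, true)
    | .st q => (5, some q, true)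
    | .ex q o => (6, some q, o)) ?_
  intro a b h
  cases a <;> cases b <;> simp_all

theorem fin_of_not_exh {Q T R : Type} [Finite Q] [Finite R] [DecidableEq R] (O : Ops T R)
    (m : Mach Q T) (ι : Wd T → ℕ) {N : ℕ} (hN : 1 ≤ N) (h : ¬ Exh O m N) :
    FinBis (tokM O m ι) := by
  have := Fini_finite Q
  refine finBis_of_map (tokM O m ι)
    (X := Wd Q × Prop × Fin (N + 2) × (Option R → Fin (N + 2)) × Prop × Prop × Prop × Prop × Fin 3)
    (fun x => (x.1, x.2 = [], ⟨min (tot x.2) (N + 1), by omega⟩,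
      fun p => ⟨min (cnt x.2 p) (N + 1), by omega⟩, u1 x.2, u2 x.2, can0 x.2, can1 x.2,
      ⟨min (wt x.2) 2, by omega⟩)) ?_
  rintro ⟨w, l⟩ ⟨w2, k⟩ e
  simp only [Prod.mk.injEq, Fin.mk.injEq, eq_iff_iff, funext_iff] at e
  obtain ⟨rfl, e0, e1, e2, e3, e4, e5, e6, e7⟩ := e
  by_cases hl : l = []
  · rw [hl, e0.1 hl]; exact Bis.refl _
  refine ⟨_, Fini_isBis ι hN h, rfl, hl, fun hk => hl (e0.2 hk), .inr ?_⟩
  by_cases hb : N + 1 ≤ tot l
  · exact .inl ⟨hb, show N + 1 ≤ tot k by omega⟩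
  have ht : tot l = tot k := by omega
  have hc : cnt l = cnt k := funext fun p => by
    have a1 := cnt_le_tot l p
    have a2 := cnt_le_tot k p
    have := e2 p
    omega
  refine .inr ⟨ht, ?_⟩
  cases w <;> simp [FiniS, hc, e3, e4, e5, e6, e7]

end Pool.Agent.MP_bcf1b9_lc

end

section

namespace Pool.Agent.MP_bcf1b9_lc

namespace Infi

/-- predicates invariant under bisimulation -/
def Inv (M : KM) (P : M.W → Prop) : Prop := ∀ x y, Bis M x y → P x → P y

/-- diamond -/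
def Dm (M : KM) (P : M.W → Prop) (x : M.W) : Prop := ∃ y, M.R 0 x y ∧ P y

/-- box -/
def Bx (M : KM) (P : M.W → Prop) (x : M.W) : Prop := ∀ y, M.R 0 x y → P y

theorem Inv.dm {M : KM} {P : M.W → Prop} (h : Inv M P) : Inv M (Dm M P) := by
  rintro x y hxy ⟨x', hx, hp⟩
  obtain ⟨y', hy, hb⟩ := (isBis_Bis M x y hxy).2.1 0 x' hx
  exact ⟨y', hy, h _ _ hb hp⟩

theorem Inv.bx {M : KM} {P : M.W → Prop} (h : Inv M P) : Inv M (Bx M P) := by
  intro x y hxy hp y' hy
  obtain ⟨x', hx, hb⟩ := (isBis_Bis M x y hxy).2.2 0 y' hy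
  exact h _ _ hb (hp x' hx)

theorem Inv.and {M : KM} {P P' : M.W → Prop} (h : Inv M P) (h' : Inv M P') :
    Inv M (fun x => P x ∧ P' x) := fun x y hxy hp => ⟨h x y hxy hp.1, h' x y hxy hp.2⟩

/-- runs that end in a `G` world and can be challenged at every step -/
inductive Psi (M : KM) (G E S : M.W → Prop) : M.W → Prop
  | base (x y : M.W) : M.R 0 x y → G y → Psi M G E S x
  | step (x y z w : M.W) : M.R 0 x y → E y → M.R 0 y z → S z → Psi M G E S z →
      M.R 0 y w → G w → Psi M G E S x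

theorem inv_psi {M : KM} {G E S : M.W → Prop} (hG : Inv M G) (hE : Inv M E) (hS : Inv M S) :
    Inv M (Psi M G E S) := by
  intro x x' hx hp
  induction hp generalizing x' with
  | base x y hxy hg =>
    obtain ⟨y', hy, hb⟩ := (isBis_Bis M x x' hx).2.1 0 y hxy
    exact Psi.base x' y' hy (hG _ _ hb hg)
  | step x y z w hxy he hyz hs _ hyw hg ih =>
    obtain ⟨y', hy, hb⟩ := (isBis_Bis M x x' hx).2.1 0 y hxy
    obtain ⟨z', hz, hbz⟩ := (isBis_Bis M y y' hb).2.1 0 z hyz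
    obtain ⟨w', hw, hbw⟩ := (isBis_Bis M y y' hb).2.1 0 w hyw
    exact Psi.step x' y' z' w' hy (hE _ _ hb he) hz (hS _ _ hbz hs) (ih z' hbz) hw (hG _ _ hbw hg)

/-- the kind of a location -/
def kd {Q : Type} : Wd Q → ℕ
  | .start _ => 0
  | .fin => 1
  | .g0 => 2
  | .g1 => 3
  | .g2 => 4
  | .st _ => 5
  | .ex _ _ => 6

theorem kd_map {Q T : Type} (f : Q → T) (w : Wd Q) : kd (w.map f) = kd w := by
  cases w <;> rfl

variable {Q T R : Type} [DecidableEq R] (O : Ops T R) (m : Mach Q T) (ι : Wd T → ℕ)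

/-- worlds of a given kind -/
def Kd (n : ℕ) (x : (tokM O m ι).W) : Prop := kd (Prod.fst x) = n

theorem inv_Kd (hι : Function.Injective ι) (n : ℕ) : Inv (tokM O m ι) (Kd O m ι n) := by
  intro x y hxy hp
  have h1 : ι (Wd.map m.ty (Prod.fst x)) = ι (Wd.map m.ty (Prod.fst y)) :=
    ((isBis_Bis _ x y hxy).1 (ι (Wd.map m.ty (Prod.fst x)))).1 rfl
  have h2 := congrArg kd (hι h1)
  rw [kd_map, kd_map] at h2
  exact h2.symm.trans hp

/-- the challenge position -/
def Gam (P : (tokM O m ι).W → Prop) (x : (tokM O m ι).W) : Prop :=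
  Kd O m ι 2 x ∧ Dm _ (Bx _ (Dm _ P)) x

/-- the separating predicates -/
def Phi : ℕ → (tokM O m ι).W → Prop
  | 0 => Dm _ (Kd O m ι 1)
  | k + 1 => Dm _ fun y =>
      Kd O m ι 5 y ∧ Psi _ (Gam O m ι (Phi k)) (Kd O m ι 6) (Kd O m ι 5) y

theorem inv_Phi (hι : Function.Injective ι) : ∀ k, Inv (tokM O m ι) (Phi O m ι k)
  | 0 => (inv_Kd O m ι hι 1).dm
  | k + 1 => ((inv_Kd O m ι hι 5).and (inv_psi ((inv_Kd O m ι hι 2).and
      (inv_Phi hι k).dm.bx.dm) (inv_Kd O m ι hι 6) (inv_Kd O m ι hι 5))).dm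

variable {O m ι}

theorem mkR {w w' : Wd Q} {l l' : List (Tok R)} (he : Edge m w w')
    (hf : List.Forall₂ (TS O (w.map m.ty) (w'.map m.ty)) l l') :
    (tokM O m ι).R 0 (w, l) (w', l') := ⟨rfl, he, hf⟩

theorem up_gam {P : (tokM O m ι).W → Prop} {k : ℕ}
    (hP : ∀ j l, P (Wd.start j, l) → ¬ u1 l ∧ tot l ≤ k) {l : List (Tok R)}
    (h : Gam O m ι P (Wd.g0, l)) : (can0 l ∨ can1 l) ∧ tot l ≤ k + 1 := by
  obtain ⟨-, ⟨w, l1⟩, ⟨-, he, hf⟩, hb⟩ := h
  cases he
  have hf1 : List.Forall₂ epsR l l1 := hf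
  have key : ∀ l2, List.Forall₂ splitR l1 l2 → tot l1 ≤ k ∧ ¬ (u1 l2 ∧ u2 l2) := by
    intro l2 h2
    obtain ⟨⟨w3, l3⟩, ⟨-, he3, hf3⟩, hp⟩ := hb (Wd.g2, l2) (mkR Edge.split h2)
    cases he3 with
    | beta j =>
      have hf4 : List.Forall₂ (fun a a' => a' = betaF j a) l2 l3 := hf3
      rw [forall₂_fun] at hf4
      subst hf4
      obtain ⟨h5, h6⟩ := hP j _ hp
      obtain ⟨h7, h8⟩ := beta_spec j l2
      refine ⟨by rw [← (split_inv h2).1, ← h7]; exact h6, fun h9 => h5 (h8.2 ?_)⟩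
      split_ifs
      · exact h9.1
      · exact h9.2
  obtain ⟨-, e2, e3, e4⟩ := eps_inv hf1
  rcases Nat.lt_or_ge (wt l1) 2 with hw | hw
  · rcases Nat.eq_zero_or_pos (wt l1) with h0 | h0
    · obtain ⟨l2, h2, -⟩ := split_ex (l := l1) (false, false) (by simp [h0]) (by simp)
      have := (key l2 h2).1
      exact ⟨Or.inl (e3 h0), by omega⟩
    · have h1 : wt l1 = 1 := by omega
      obtain ⟨l2, h2, -⟩ := split_ex (l := l1) (true, false) (by simp [h1]) (by simp)
      have := (key l2 h2).1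
      exact ⟨Or.inr (e4 h1).1, by omega⟩
  · obtain ⟨l2, h2, h3, h4⟩ := split_ex (l := l1) (true, true)
      (by constructor
          · intro h0; omega
          · intro h0; simp at h0) (fun _ => hw)
    exact absurd ⟨h3.2 rfl, h4.2 rfl⟩ (key l2 h2).2

theorem up_psi {P : (tokM O m ι).W → Prop} {k : ℕ}
    (hP : ∀ j l, P (Wd.start j, l) → ¬ u1 l ∧ tot l ≤ k) {x : (tokM O m ι).W}
    (h : Psi _ (Gam O m ι P) (Kd O m ι 6) (Kd O m ι 5) x) :
    ∀ q l, x = (Wd.st q, l) → ¬ u1 l ∧ tot l ≤ k + 1 := by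
  induction h with
  | base x y hxy hg =>
    rintro q l rfl
    obtain ⟨w, l1⟩ := y
    obtain ⟨-, he, hf⟩ := hxy
    cases he with
    | exec _ o q' hq => exact absurd hg.1 (by simp [Kd, kd])
    | exh _ hq =>
      have hf1 : List.Forall₂ (fun a a' => a' = exhF O.b a) l l1 := hf
      rw [forall₂_fun] at hf1
      subst hf1
      obtain ⟨h1, h2⟩ := up_gam hP hg
      obtain ⟨e1, e2, e3⟩ := exh_spec O.b l
      refine ⟨?_, by omega⟩
      rcases h1 with h1 | h1
      · exact (e2.1 h1).1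
      · exact (e3.1 h1).1
  | step x y z w hxy hE hyz hS _ hyw hg ih =>
    rintro q l rfl
    obtain ⟨wy, l1⟩ := y
    obtain ⟨wz, l2⟩ := z
    obtain ⟨ww, l3⟩ := w
    obtain ⟨-, he, hf⟩ := hxy
    cases he with
    | exh _ hq => exact absurd hE (by simp [Kd, kd])
    | exec _ o q' hq =>
      have hf1 : List.Forall₂ (execR (O.op (m.ty q) o).1) l l1 := hf
      obtain ⟨-, he2, hf2⟩ := hyz
      obtain ⟨-, he3, hf3⟩ := hyw
      cases he2 with
      | chal => exact absurd hS (by simp [Kd, kd])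
      | main _ _ q2 hq2 =>
        cases he3 with
        | main => exact absurd hg.1 (by simp [Kd, kd])
        | chal =>
          have hf4 : List.Forall₂ (fun a a' => a' = mainF (O.op (m.ty q) o).2.1 a) l1 l2 := hf2
          have hf5 : List.Forall₂ (fun a a' => a' = chalF (O.op (m.ty q) o).2.2 a) l1 l3 := hf3
          rw [forall₂_fun] at hf4 hf5
          subst hf4 hf5
          obtain ⟨h1, h2⟩ := ih q2 _ rfl
          obtain ⟨h3, -⟩ := up_gam hP hg
          obtain ⟨a1, a2, -⟩ := main_spec (O.op (m.ty q) o).2.1 l1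
          obtain ⟨-, b2, b3⟩ := chal_spec (O.op (m.ty q) o).2.2 l1
          obtain ⟨c1, c2, -⟩ := exec_inv hf1
          refine ⟨fun hu => ?_, by omega⟩
          rcases c2 hu with h4 | h4
          · exact h1 (a2.2 h4)
          · rcases h3 with h3 | h3
            · exact (b2.1 h3).1 h4
            · exact (b3.1 h3).1 h4

theorem up_phi : ∀ (k : ℕ) (j : Bool) (l : List (Tok R)),
    Phi O m ι k (Wd.start j, l) → ¬ u1 l ∧ tot l ≤ k
  | 0, j, l, h => by
    obtain ⟨⟨w, l1⟩, ⟨-, he, hf⟩, hk⟩ := h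
    cases he with
    | go => exact absurd hk (by simp [Kd, kd])
    | phi =>
      have hf1 : List.Forall₂ (fun a a' : Tok R => a.1 = none ∧ a.2.1 = false ∧ a' = a) l l1 := hf
      obtain ⟨h1, h2⟩ := phi_iff.1 ⟨l1, hf1⟩
      exact ⟨h2, h1.le⟩
  | k + 1, j, l, h => by
    obtain ⟨⟨w, l1⟩, ⟨-, he, hf⟩, hk, hp⟩ := h
    cases he with
    | phi => exact absurd hk (by simp [Kd, kd])
    | go =>
      have hf1 : List.Forall₂ (fun a a' => a' = goF O.b a) l l1 := hf
      rw [forall₂_fun] at hf1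
      subst hf1
      obtain ⟨h1, h2⟩ := up_psi (up_phi k) hp _ _ rfl
      obtain ⟨a1, a2, -⟩ := go_spec O.b l
      exact ⟨fun hu => h1 (a2.2 hu), by omega⟩

theorem dn_gam {P : (tokM O m ι).W → Prop} {k : ℕ}
    (hP : ∀ j l, ¬ u1 l → tot l = k → P (Wd.start j, l)) {l : List (Tok R)}
    (h1 : can1 l) (h2 : tot l = k + 1) : Gam O m ι P (Wd.g0, l) := by
  obtain ⟨l1, hf, hw⟩ := eps_ex1 h1
  have ht : tot l1 = k := by
    have := ((eps_inv hf).2.2.2 hw).2
    omega
  refine ⟨rfl, (Wd.g1, l1), mkR Edge.eps hf, ?_⟩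
  rintro ⟨w, l2⟩ ⟨-, he, hf2⟩
  cases he
  have hf3 : List.Forall₂ splitR l1 l2 := hf2
  obtain ⟨a1, -, a3⟩ := split_inv hf3
  by_cases hu : u1 l2
  · obtain ⟨b1, b2⟩ := beta_spec false l2
    refine ⟨(Wd.start false, l2.map (betaF false)),
      mkR (Edge.beta false) ((forall₂_fun (betaF false)).2 rfl), hP _ _ (fun h => ?_) (by omega)⟩
    have h4 : u2 l2 := by simpa using b2.1 h
    have := a3 hu h4
    omega
  · obtain ⟨b1, b2⟩ := beta_spec true l2
    refine ⟨(Wd.start true, l2.map (betaF true)),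
      mkR (Edge.beta true) ((forall₂_fun (betaF true)).2 rfl), hP _ _ (fun h => ?_) (by omega)⟩
    exact hu (by simpa using b2.1 h)

theorem dn_psi {P : (tokM O m ι).W → Prop} {k : ℕ}
    (hP : ∀ j l, ¬ u1 l → tot l = k → P (Wd.start j, l)) {x y : Q × (R → ℕ)}
    (h : Relation.ReflTransGen (HStep O m) x y) (hl : m.live y.1) (hb : y.2 O.b = 0) :
    ∀ l : List (Tok R), ¬ u1 l → tot l = k + 1 → cnt l none = 0 → (∀ r, cnt l (some r) = x.2 r) →
      Psi _ (Gam O m ι P) (Kd O m ι 6) (Kd O m ι 5) (Wd.st x.1, l) := by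
  induction h using Relation.ReflTransGen.head_induction_on with
  | refl =>
    intro l hu ht _ hc
    obtain ⟨a1, -, a3⟩ := exh_spec O.b l
    exact Psi.base _ (Wd.g0, l.map (exhF O.b))
      (mkR (Edge.exh _ hl) ((forall₂_fun (exhF O.b)).2 rfl))
      (dn_gam hP (a3.2 ⟨hu, (hc _).trans hb, by omega⟩) (by omega))
  | @head x x' hs _ ih =>
    intro l hu ht hn hc
    obtain ⟨o, c, hq, h1, h2, h3⟩ := hs
    have hne : l ≠ [] := by
      rintro rfl
      simp [tot] at ht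
    have hs1 : cnt l (some (O.op (m.ty x.1) o).1) = c (O.op (m.ty x.1) o).1 + 1 := by
      rw [hc, h1]; simp
    obtain ⟨l1, hf, e1, e2, e3⟩ := exec_ex (l := l) (O.op (m.ty x.1) o).1 hne
      (y := c (O.op (m.ty x.1) o).1) (by omega) (false, false) (fun h => absurd h hu)
    have hu1 : ¬ u1 l1 := fun h => by simpa using e2.1 h
    have hu2 : ¬ u2 l1 := fun h => by simpa using e3.1 h
    obtain ⟨c1, -, -, c4, c5⟩ := exec_inv hf
    have hn1 : cnt l1 none = 1 := by omega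
    have hc1 : ∀ r, cnt l1 (some r) = c r := by
      intro r
      by_cases hr : r = (O.op (m.ty x.1) o).1
      · rw [hr, e1]
      · rw [c5 r hr, hc, h1, if_neg hr, Nat.add_zero]
    obtain ⟨a1, a2, a3, a4⟩ := main_spec (O.op (m.ty x.1) o).2.1 l1
    obtain ⟨b1, -, b3⟩ := chal_spec (O.op (m.ty x.1) o).2.2 l1
    refine Psi.step _ (Wd.ex x.1 o, l1) (Wd.st x'.1, l1.map (mainF (O.op (m.ty x.1) o).2.1))
      (Wd.g0, l1.map (chalF (O.op (m.ty x.1) o).2.2)) (mkR (Edge.exec _ o _ hq) hf) rfl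
      (mkR (Edge.main _ o _ hq) ((forall₂_fun (mainF _)).2 rfl)) rfl
      (ih _ (fun h => hu1 (a2.1 h)) (by omega) a3 fun r => ?_)
      (mkR (Edge.chal _ o) ((forall₂_fun (chalF _)).2 rfl))
      (dn_gam hP (b3.2 ⟨hu2, hn1, fun r hr => (hc1 r).trans (h2 r hr)⟩) (by omega))
    rw [a4, hc1, h3, hn1]

theorem dn_phi (h : ∀ N, 1 ≤ N → Exh O m N) : ∀ (k : ℕ) (j : Bool) (l : List (Tok R)),
    ¬ u1 l → tot l = k → Phi O m ι k (Wd.start j, l)
  | 0, j, l, hu, ht => by
    obtain ⟨l1, hf⟩ := phi_iff.2 ⟨ht, hu⟩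
    exact ⟨(Wd.fin, l1), mkR (Edge.phi j) hf, rfl⟩
  | k + 1, j, l, hu, ht => by
    obtain ⟨y, hy, hl, hb⟩ := h (k + 1) (by omega)
    obtain ⟨a1, a2, a3, a4⟩ := go_spec O.b l
    refine ⟨(Wd.st m.q0, l.map (goF O.b)), mkR (Edge.go j) ((forall₂_fun (goF O.b)).2 rfl),
      rfl, dn_psi (dn_phi h k) hy hl hb _ (fun h => hu (a2.1 h)) (by omega) a3 fun r => ?_⟩
    rw [a4, ht]

end Infi

theorem inf_of_exh {Q T R : Type} [DecidableEq R] (O : Ops T R) (m : Mach Q T) (ι : Wd T → ℕ)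
    (hι : Function.Injective ι) (h : ∀ N, 1 ≤ N → Exh O m N) : ¬ FinBis (tokM O m ι) := by
  have ht : ∀ k, tot (List.replicate k ((some (some O.b), false, false) : Tok R)) = k := by
    intro k
    simp [tot, List.countP_replicate]
  have hu : ∀ k, ¬ u1 (List.replicate k ((some (some O.b), false, false) : Tok R)) := by
    rintro k ⟨a, ha, h1⟩
    rw [List.eq_of_mem_replicate ha] at h1
    simp at h1
  refine not_finBis _
    (fun k => (Wd.start true, List.replicate k (some (some O.b), false, false))) ?_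
  intro j k hjk hb
  have h1 := Infi.inv_Phi O m ι hι j _ _ hb (Infi.dn_phi h j true _ (hu j) (ht j))
  have h2 := (Infi.up_phi j true _ h1).2
  rw [ht] at h2
  omega

end Pool.Agent.MP_bcf1b9_lc

end

section

namespace Pool.Agent.MP_bcf1b9_lc

open Nat.Partrec (Code)

theorem hard_one {P : ℕ → Prop} (hP : REPred P) : ∃ (a : AC) (f : ℕ → MC),
    (∀ x ∈ a.1, ∃ p, x = enc (.atom p)) ∧ (∀ t ∈ a.2, t.1 = 0) ∧ Computable f ∧
      (∀ n, ∀ t ∈ (f n).2.1, t.1 = 0) ∧ ∀ n, P n ↔ FinEv (f n, a) := by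
  obtain ⟨Q, R, _, _, _, O, m, hm⟩ := exists_mach hP
  obtain ⟨ι, a, f, hι, h1, h2, h3, h4, h5⟩ := exists_code O m
  refine ⟨a, f, h1, h2, h3, h4, fun n => ?_⟩
  rw [hm, h5]
  constructor
  · rintro ⟨N, hN, h⟩
    exact fin_of_not_exh O _ ι hN h
  · intro h
    by_contra h6
    push Not at h6
    exact inf_of_exh O _ ι hι h6 h

theorem main : REPred FinEv ∧ ∃ a : AC, (∀ x ∈ a.1, ∃ p, x = enc (.atom p)) ∧
    (∀ t ∈ a.2, t.1 = 0) ∧ ∀ P : ℕ → Prop, REPred P → ∃ f : ℕ → MC, Computable f ∧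
      (∀ n, ∀ t ∈ (f n).2.1, t.1 = 0) ∧ ∀ n, P n ↔ FinEv (f n, a) := by
  refine ⟨re_finEv, ?_⟩
  have hU : REPred fun k : ℕ => ((Denumerable.ofNat Code k.unpair.1).eval k.unpair.2).Dom :=
    (Code.eval_part.comp ((Computable.ofNat Code).comp (Computable.fst.comp Computable.unpair))
      (Computable.snd.comp Computable.unpair)).dom_re
  obtain ⟨a, f, h1, h2, h3, h4, h5⟩ := hard_one hU
  refine ⟨a, h1, h2, fun P hP => ?_⟩
  have hP' : Nat.Partrec fun n => (Part.assert (P n) fun _ => Part.some ()).map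
      (fun _ => (0 : ℕ)) :=
    Partrec.nat_iff.1 (hP.map (Computable.const 0).to₂)
  obtain ⟨c, hc⟩ := Code.exists_code.1 hP'
  refine ⟨fun n => f (Nat.pair (Encodable.encode c) n),
    h3.comp (Primrec₂.natPair.to_comp.comp (Computable.const _) Computable.id),
    fun n => h4 _, fun n => ?_⟩
  rw [← h5]
  simp [hc, Part.assert]

end Pool.Agent.MP_bcf1b9_lc

end
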